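import Pool.Agent.Lib_MP_7d1493.Basic

/-!
# The area formula for a graph
-/

set_option autoImplicit false

open MeasureTheory Measure Set Metric Filter Topology
open scoped ENNReal InnerProductSpace ContDiff

namespace Pool.Agent.ML

/-- the derivative of the graph map -/
private noncomputable def AL (e : OrthonormalBasis (Fin 3) ℝ E3) (d : E2 →L[ℝ] ℝ) : E2 →ₗ[ℝ] E3 where
  toFun v := v 0 • e 0 + v 1 • e 1 + d v • e 2
  map_add' v w := by
    simp only [PiLp.add_apply, map_add, add_smul]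
    abel
  map_smul' c v := by
    simp only [PiLp.smul_apply, map_smul, smul_eq_mul, mul_smul, smul_add, RingHom.id_apply]

private theorem AL_apply (e : OrthonormalBasis (Fin 3) ℝ E3) (d : E2 →L[ℝ] ℝ) (v : E2) :
    AL e d v = v 0 • e 0 + v 1 • e 1 + d v • e 2 := rfl

private theorem AL_norm (e : OrthonormalBasis (Fin 3) ℝ E3) (d : E2 →L[ℝ] ℝ) (v : E2) : ‖v‖ ≤ ‖AL e d v‖ := by
  have h1 : ‖AL e d v‖ ^ 2 = ‖v‖ ^ 2 + (d v) ^ 2 := by
    rw [← real_inner_self_eq_norm_sq, AL_apply, EuclideanSpace.real_norm_sq_eq, Fin.sum_univ_two]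
    simp only [inner_smul_left, inner_smul_right, inner_add_left, inner_add_right, inner_e, conj_trivial]
    simp
    ring
  have h2 : ‖v‖ ^ 2 ≤ ‖AL e d v‖ ^ 2 := by
    rw [h1]
    nlinarith [sq_nonneg (d v)]
  exact (sq_le_sq₀ (norm_nonneg _) (norm_nonneg _)).1 h2

private theorem AL_normDet (e : OrthonormalBasis (Fin 3) ℝ E3) (u : E2 → ℝ) (y0 : E2) :
    (AL e (fderiv ℝ u y0)).normDet = W u y0 := by
  have h1 := (AL e (fderiv ℝ u y0)).normDet_sq_eq_det_gram (EuclideanSpace.basisFun (Fin 2) ℝ)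
  have h2 : (AL e (fderiv ℝ u y0)).normDet ^ 2 = W u y0 ^ 2 := by
    rw [W_sq]
    have h3 : ((AL e (fderiv ℝ u y0)).normDet ^ 2) =
        (Matrix.gram ℝ (fun i => AL e (fderiv ℝ u y0) (EuclideanSpace.basisFun (Fin 2) ℝ i))).det := by
      exact_mod_cast h1
    rw [h3, Matrix.det_fin_two]
    simp only [Matrix.gram_apply, AL_apply, EuclideanSpace.basisFun_apply]
    simp only [inner_smul_left, inner_smul_right, inner_add_left, inner_add_right, inner_e, conj_trivial]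
    simp [pd]
    ring
  exact (sq_eq_sq₀ (LinearMap.normDet_nonneg _) (W_pos u y0).le).1 h2

/-- the co-coordinates of the linear part -/
private theorem co_AL (e : OrthonormalBasis (Fin 3) ℝ E3) (d : E2 →L[ℝ] ℝ) (v : E2) : co 0 e (AL e d v) = v := by
  have h := co_pt 0 e v (d v)
  unfold pt at h
  rw [zero_add] at h
  exact h

private theorem gr_sub (p : E3) (e : OrthonormalBasis (Fin 3) ℝ E3) (u : E2 → ℝ) (d : E2 →L[ℝ] ℝ) (x y : E2) :
    gr p e u x - gr p e u y = AL e d (x - y) + (u x - u y - d (x - y)) • e 2 := by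
  rw [AL_apply]
  unfold gr pt
  simp only [PiLp.sub_apply, sub_smul]
  abel

/-- comparison of the measures of two images -/
private theorem meas_le {f g : E2 → E3} {h : E3 → E2} {s : Set E2} {K : ℝ} (hK0 : 0 ≤ K) (hh : ∀ x ∈ s, h (f x) = x)
    (hK : ∀ x ∈ s, ∀ y ∈ s, ‖g x - g y‖ ≤ K * ‖f x - f y‖) :
    μHE[2] (g '' s) ≤ ENNReal.ofReal K ^ 2 * μHE[2] (f '' s) := by
  have h1 : g '' s = (g ∘ h) '' (f '' s) := by
    rw [Set.image_image]
    apply Set.image_congr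
    intro x hx
    simp only [Function.comp_apply, hh x hx]
  have h2 : LipschitzOnWith K.toNNReal (g ∘ h) (f '' s) := by
    apply LipschitzOnWith.of_dist_le_mul
    rintro _ ⟨x, hx, rfl⟩ _ ⟨y, hy, rfl⟩
    simp only [Function.comp_apply, hh x hx, hh y hy, dist_eq_norm, Real.coe_toNNReal K hK0]
    exact hK x hx y hy
  have h3 := h2.hausdorffMeasure_image_le (d := ((2 : ℕ) : ℝ)) (by norm_num)
  rw [h1, euclideanHausdorffMeasure_def, Measure.smul_apply, Measure.smul_apply, nnreal_smul_coe_apply,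
    nnreal_smul_coe_apply]
  calc _ ≤ _ * (ENNReal.ofReal K ^ ((2 : ℕ) : ℝ) * μH[((2 : ℕ) : ℝ)] (f '' s)) := mul_le_mul_right h3 _
    _ = _ := by
      rw [ENNReal.rpow_natCast]
      exact mul_left_comm _ _ _

/-- PIECE [SH-1a]. Let `d = fderiv ℝ u y0` and
`A : E2 → E3` the linear map `v ↦ v 0 • e 0 + v 1 • e 1 + d v • e 2`. `A.normDet = W u y0` (`LinearMap.normDet_sq_eq_det_gram` with the
basis `EuclideanSpace.basisFun`: the Gram matrix is `(1 + p ^ 2, p q; p q, 1 + q ^ 2)`, `p = pd 0 u y0`, `q = pd 1 u y0`), so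
`μHE[2] (A '' s) = ENNReal.ofReal (W u y0) * volume s`. `‖v‖ ≤ ‖A v‖`. `u` is strictly differentiable at `y0`: on a neighbourhood `V`,
`|u x - u y - d (x - y)| ≤ δ ‖x - y‖`, so `(1 - δ) ‖A (x - y)‖ ≤ ‖gr x - gr y‖ ≤ (1 + δ) ‖A (x - y)‖`. -/
theorem area_local (p : E3) (e : OrthonormalBasis (Fin 3) ℝ E3) {r : ℝ} {u : E2 → ℝ}
    (hu : ContDiffOn ℝ 1 u (ball (0 : E2) r)) {ε : ℝ} (hε : 0 < ε) {y0 : E2} (hy0 : y0 ∈ ball (0 : E2) r) :
    ∃ V ∈ 𝓝 y0, ∀ s ⊆ V, μHE[2] (gr p e u '' s) ≤ ENNReal.ofReal ((1 + ε) * W u y0) * volume s ∧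
      ENNReal.ofReal (W u y0) * volume s ≤ ENNReal.ofReal (1 + ε) * μHE[2] (gr p e u '' s) := by
  obtain ⟨δ, hδ⟩ : ∃ δ : ℝ, δ = ε / (4 * (1 + ε)) := ⟨_, rfl⟩
  have hδ0 : 0 < δ := by rw [hδ]; positivity
  have hδε : δ * (4 * (1 + ε)) = ε := by rw [hδ]; field_simp
  have hδ1 : δ < 1 := by nlinarith
  have h1 : HasStrictFDerivAt u (fderiv ℝ u y0) y0 :=
    (hu.contDiffAt (isOpen_ball.mem_nhds hy0)).hasStrictFDerivAt one_ne_zero
  have hδn : (0 : NNReal) < ⟨δ, hδ0.le⟩ := hδ0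
  obtain ⟨V, hV, hVa⟩ := h1.approximates_deriv_on_nhds (c := ⟨δ, hδ0.le⟩) (Or.inr hδn)
  refine ⟨V, hV, fun s hs => ?_⟩
  have hA := (AL e (fderiv ℝ u y0)).euclideanHausdorffMeasure_image_eq_normDet_mul_volume s
  rw [AL_normDet, finrank_euclideanSpace_fin] at hA
  have hap : ∀ x ∈ s, ∀ y ∈ s, |u x - u y - fderiv ℝ u y0 (x - y)| ≤ δ * ‖AL e (fderiv ℝ u y0) (x - y)‖ := by
    intro x hx y hy
    have h2 := hVa x (hs hx) y (hs hy)
    rw [Real.norm_eq_abs] at h2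
    refine h2.trans ?_
    exact mul_le_mul_of_nonneg_left (AL_norm e _ _) hδ0.le
  have hup : ∀ x ∈ s, ∀ y ∈ s, ‖gr p e u x - gr p e u y‖ ≤
      (1 + δ) * ‖AL e (fderiv ℝ u y0) x - AL e (fderiv ℝ u y0) y‖ := by
    intro x hx y hy
    rw [gr_sub p e u (fderiv ℝ u y0) x y, ← map_sub]
    refine (norm_add_le _ _).trans ?_
    rw [norm_smul, e.orthonormal.1 2, mul_one, Real.norm_eq_abs]
    have := hap x hx y hy
    linarith
  have hlo : ∀ x ∈ s, ∀ y ∈ s, ‖AL e (fderiv ℝ u y0) x - AL e (fderiv ℝ u y0) y‖ ≤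
      (1 - δ)⁻¹ * ‖gr p e u x - gr p e u y‖ := by
    intro x hx y hy
    rw [gr_sub p e u (fderiv ℝ u y0) x y, ← map_sub]
    have h3 := norm_sub_norm_le (AL e (fderiv ℝ u y0) (x - y)) (-((u x - u y - fderiv ℝ u y0 (x - y)) • e 2))
    rw [sub_neg_eq_add, norm_neg, norm_smul, e.orthonormal.1 2, mul_one, Real.norm_eq_abs] at h3
    have h4 := hap x hx y hy
    have h5 : 0 < 1 - δ := by linarith
    rw [inv_mul_eq_div, le_div_iff₀ h5]
    nlinarith
  constructor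
  · have h2 := meas_le (f := fun v => AL e (fderiv ℝ u y0) v) (g := gr p e u) (h := co 0 e) (s := s)
      (K := 1 + δ) (by linarith) (fun x _ => co_AL e _ x) hup
    refine h2.trans ?_
    have h3 : μHE[2] ((fun v => AL e (fderiv ℝ u y0) v) '' s) = ENNReal.ofReal (W u y0) * volume s := hA
    rw [h3, ← mul_assoc]
    refine mul_le_mul_left ?_ _
    rw [← ENNReal.ofReal_pow (by linarith), ← ENNReal.ofReal_mul (by positivity)]
    apply ENNReal.ofReal_le_ofReal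
    refine mul_le_mul_of_nonneg_right ?_ (W_pos u y0).le
    nlinarith
  · have h2 := meas_le (f := gr p e u) (g := fun v => AL e (fderiv ℝ u y0) v) (h := co p e) (s := s)
      (K := (1 - δ)⁻¹) (by rw [inv_nonneg]; linarith) (fun x _ => co_pt p e x (u x)) hlo
    have h3 : μHE[2] ((fun v => AL e (fderiv ℝ u y0) v) '' s) = ENNReal.ofReal (W u y0) * volume s := hA
    rw [h3] at h2
    refine h2.trans ?_
    refine mul_le_mul_left ?_ _
    rw [← ENNReal.ofReal_pow (by rw [inv_nonneg]; linarith)]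
    apply ENNReal.ofReal_le_ofReal
    have h5 : 0 < 1 - δ := by linarith
    rw [inv_pow, inv_le_iff_one_le_mul₀ (by positivity)]
    nlinarith [mul_pos hδ0 hε]

end Pool.Agent.ML
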