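import Pool.Agent.Lib_MP_7d1493.AreaM

/-!
# Integrals over a graph
-/

set_option autoImplicit false

open MeasureTheory Measure Set Metric Filter Topology
open scoped ENNReal InnerProductSpace ContDiff

namespace Pool.Agent.ML

private lemma continuousOn_pd (i : Fin 2) {r : ℝ} {u : E2 → ℝ} (hu : ContDiffOn ℝ 1 u (ball (0 : E2) r)) :
    ContinuousOn (pd i u) (ball (0 : E2) r) := by
  have h := hu.continuousOn_fderiv_of_isOpen isOpen_ball le_rfl
  unfold pd
  exact h.clm_apply continuousOn_const

private lemma continuousOn_W {r : ℝ} {u : E2 → ℝ} (hu : ContDiffOn ℝ 1 u (ball (0 : E2) r)) :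
    ContinuousOn (W u) (ball (0 : E2) r) := by
  have h0 := continuousOn_pd 0 hu
  have h1 := continuousOn_pd 1 hu
  unfold W
  exact (((continuousOn_const.add (h0.pow 2)).add (h1.pow 2)).sqrt)

private lemma continuousOn_gr (p : E3) (e : OrthonormalBasis (Fin 3) ℝ E3) {r : ℝ} {u : E2 → ℝ}
    (hu : ContinuousOn u (ball (0 : E2) r)) : ContinuousOn (gr p e u) (ball (0 : E2) r) := by
  unfold gr pt
  have h0 : Continuous fun y : E2 => y 0 := by fun_prop
  have h1 : Continuous fun y : E2 => y 1 := by fun_prop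
  exact continuousOn_const.add (((h0.continuousOn.smul continuousOn_const).add
    (h1.continuousOn.smul continuousOn_const)).add (hu.smul continuousOn_const))

private lemma aemeasurable_W {r : ℝ} {u : E2 → ℝ} (hu : ContDiffOn ℝ 1 u (ball (0 : E2) r)) :
    AEMeasurable (fun y => ENNReal.ofReal (W u y)) (volume.restrict (ball (0 : E2) r)) :=
  ((continuousOn_W hu).aemeasurable measurableSet_ball).ennreal_ofReal

/-- the measure on the graph as an image measure -/
private lemma restrict_eq_map (p : E3) (e : OrthonormalBasis (Fin 3) ℝ E3) {r : ℝ} {u : E2 → ℝ}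
    (hu : ContDiffOn ℝ 1 u (ball (0 : E2) r)) {g : E2 → E3} (hg : MeasurableEmbedding g)
    (hgr : ∀ y ∈ ball (0 : E2) r, g y = gr p e u y) :
    (μHE[2] : Measure E3).restrict (gr p e u '' ball (0 : E2) r) =
      ((volume.restrict (ball (0 : E2) r)).withDensity fun y => ENNReal.ofReal (W u y)).map g := by
  ext s hs
  have hm : MeasurableSet (g ⁻¹' s) := hg.measurable hs
  rw [Measure.restrict_apply hs, Measure.map_apply hg.measurable hs, withDensity_apply _ hm,
    Measure.restrict_restrict hm, ← area_measure p e hu (hm.inter measurableSet_ball) inter_subset_right]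
  congr 1
  ext q
  constructor
  · rintro ⟨h1, y, hy, rfl⟩
    refine ⟨y, ⟨?_, hy⟩, rfl⟩
    rw [mem_preimage, hgr y hy]
    exact h1
  · rintro ⟨y, ⟨h1, hy⟩, rfl⟩
    refine ⟨?_, y, hy, rfl⟩
    rw [mem_preimage, hgr y hy] at h1
    exact h1

/-- PIECE [SH-1c] (this file, about 100 lines). PROOF. `g'` as in `exists_embedding`. `area_measure` says that `μHE[2].restrict (gr '' ball)` is the image under `g'` of `volume.restrict (ball)` with
the density `W u` (made measurable: the indicator of the ball; `W u` is continuous on the ball). Then `MeasurableEmbedding.lintegral_map`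
and `lintegral_withDensity_eq_lintegral_mul_non_measurable` (no measurability of `f` needed). -/
theorem area_lintegral (p : E3) (e : OrthonormalBasis (Fin 3) ℝ E3) {r : ℝ} {u : E2 → ℝ}
    (hu : ContDiffOn ℝ 1 u (ball (0 : E2) r)) (f : E3 → ℝ≥0∞) :
    ∫⁻ q in gr p e u '' ball (0 : E2) r, f q ∂μHE[2] = ∫⁻ y in ball (0 : E2) r, ENNReal.ofReal (W u y) * f (gr p e u y) := by
  obtain ⟨g, hg, hgr⟩ := exists_embedding p e hu.continuousOn
  rw [restrict_eq_map p e hu hg hgr, hg.lintegral_map,
    lintegral_withDensity_eq_lintegral_mul_non_measurable₀ _ (aemeasurable_W hu)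
      (Eventually.of_forall fun y => ENNReal.ofReal_lt_top)]
  refine setLIntegral_congr_fun measurableSet_ball fun y hy => ?_
  simp only [Pi.mul_apply]
  rw [hgr y hy]

/-- the same with `MeasurableEmbedding.integral_map`, `MeasurableEmbedding.integrable_map_iff`, `integral_withDensity_eq_integral_smul`,
`integrable_withDensity_iff_integrable_smul'` -/
theorem area_integral (p : E3) (e : OrthonormalBasis (Fin 3) ℝ E3) {r : ℝ} {u : E2 → ℝ}
    (hu : ContDiffOn ℝ 1 u (ball (0 : E2) r)) (f : E3 → ℝ) :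
    (IntegrableOn (fun y => W u y * f (gr p e u y)) (ball (0 : E2) r) → IntegrableOn f (gr p e u '' ball (0 : E2) r) μHE[2]) ∧
      ∫ q in gr p e u '' ball (0 : E2) r, f q ∂μHE[2] = ∫ y in ball (0 : E2) r, W u y * f (gr p e u y) := by
  obtain ⟨g, hg, hgr⟩ := exists_embedding p e hu.continuousOn
  have hW := aemeasurable_W hu
  have hfin : ∀ᵐ y ∂(volume.restrict (ball (0 : E2) r)), ENNReal.ofReal (W u y) < ⊤ :=
    Eventually.of_forall fun y => ENNReal.ofReal_lt_top
  constructor
  · intro h
    rw [IntegrableOn, restrict_eq_map p e hu hg hgr, hg.integrable_map_iff,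
      integrable_withDensity_iff_integrable_smul₀' hW hfin]
    refine (integrableOn_congr_fun (fun y hy => ?_) measurableSet_ball).mp h
    rw [ENNReal.toReal_ofReal (W_pos u y).le, smul_eq_mul, Function.comp_apply, hgr y hy]
  · rw [restrict_eq_map p e hu hg hgr, hg.integral_map,
      integral_withDensity_eq_integral_toReal_smul₀ hW hfin]
    refine setIntegral_congr_fun measurableSet_ball fun y hy => ?_
    rw [ENNReal.toReal_ofReal (W_pos u y).le, smul_eq_mul, hgr y hy]

theorem measurableSet_gr_image (p : E3) (e : OrthonormalBasis (Fin 3) ℝ E3) {r : ℝ} {u : E2 → ℝ}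
    (hu : ContDiffOn ℝ 1 u (ball (0 : E2) r)) : MeasurableSet (gr p e u '' ball (0 : E2) r) := by
  obtain ⟨g, hg, hgr⟩ := exists_embedding p e hu.continuousOn
  have h : gr p e u '' ball (0 : E2) r = g '' ball (0 : E2) r :=
    image_congr fun y hy => (hgr y hy).symm
  rw [h]
  exact hg.measurableSet_image.mpr measurableSet_ball

/-- `W ≥ 1` and the set of the `y` in the ball with `gr y ∈ V` is open and not empty -/
theorem area_pos (p : E3) (e : OrthonormalBasis (Fin 3) ℝ E3) {r : ℝ} {u : E2 → ℝ}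
    (hu : ContDiffOn ℝ 1 u (ball (0 : E2) r)) {V : Set E3} (hV : IsOpen V) {y : E2} (hy : y ∈ ball (0 : E2) r)
    (hyV : gr p e u y ∈ V) : 0 < μHE[2] (gr p e u '' ball (0 : E2) r ∩ V) := by
  have hc := continuousOn_gr p e hu.continuousOn
  have ho : IsOpen (ball (0 : E2) r ∩ gr p e u ⁻¹' V) := hc.isOpen_inter_preimage isOpen_ball hV
  have hsub : gr p e u '' (ball (0 : E2) r ∩ gr p e u ⁻¹' V) ⊆ gr p e u '' ball (0 : E2) r ∩ V := by
    rintro _ ⟨z, ⟨hz, hzV⟩, rfl⟩
    exact ⟨⟨z, hz, rfl⟩, hzV⟩
  refine lt_of_lt_of_le ?_ (measure_mono hsub)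
  rw [area_measure p e hu ho.measurableSet inter_subset_left]
  have h1 : volume (ball (0 : E2) r ∩ gr p e u ⁻¹' V) ≤
      ∫⁻ y in ball (0 : E2) r ∩ gr p e u ⁻¹' V, ENNReal.ofReal (W u y) := by
    rw [← setLIntegral_one]
    refine lintegral_mono fun z => ?_
    rw [← ENNReal.ofReal_one]
    refine ENNReal.ofReal_le_ofReal ?_
    unfold W
    rw [Real.one_le_sqrt]
    nlinarith [sq_nonneg (pd 0 u z), sq_nonneg (pd 1 u z)]
  exact lt_of_lt_of_le (ho.measure_pos volume ⟨y, hy, hyV⟩) h1

end Pool.Agent.ML
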