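import Pool.Agent.Lib_MP_7d1493.Area

/-!
# The area of a graph is a measure with the density `W`
-/

set_option autoImplicit false

open MeasureTheory Measure Set Metric Filter Topology
open scoped ENNReal InnerProductSpace ContDiff

namespace Pool.Agent.ML

/-- PIECE [SH-1b] (this file, about 130 lines). `g = gr p e u'` with `u'` the indicator of `u` on the ball: measurable (`ContinuousOn.measurable_piecewise` or
`measurable_of_restrict...`), injective (`co_pt`), so a measurable embedding (`Measurable.measurableEmbedding`). -/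
theorem exists_embedding (p : E3) (e : OrthonormalBasis (Fin 3) ℝ E3) {r : ℝ} {u : E2 → ℝ} (hu : ContinuousOn u (ball (0 : E2) r)) :
    ∃ g : E2 → E3, MeasurableEmbedding g ∧ ∀ y ∈ ball (0 : E2) r, g y = gr p e u y := by
  classical
  set v : E2 → ℝ := (ball (0 : E2) r).piecewise u (fun _ => 0) with hv
  have hvm : Measurable v := hu.measurable_piecewise continuousOn_const measurableSet_ball
  refine ⟨gr p e v, ?_, ?_⟩
  · have hm : Measurable (gr p e v) := by
      unfold gr pt
      have h0 : Measurable (fun y : E2 => y 0) := by fun_prop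
      have h1 : Measurable (fun y : E2 => y 1) := by fun_prop
      exact measurable_const.add (((h0.smul_const (e 0)).add (h1.smul_const (e 1))).add
        (hvm.smul_const (e 2)))
    refine hm.measurableEmbedding ?_
    intro y y' h
    have := congrArg (co p e) h
    unfold gr at this
    rwa [co_pt, co_pt] at this
  · intro y hy
    unfold gr
    rw [hv, piecewise_eq_of_mem _ _ _ hy]

private theorem le_of_local {μ ν : Measure E2} {B : Set E2} {C : ℝ≥0∞}
    (h : ∀ y ∈ B, ∃ V ∈ 𝓝 y, ∀ s ⊆ V ∩ B, MeasurableSet s → μ s ≤ C * ν s) {s : Set E2}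
    (hs : MeasurableSet s) (hsB : s ⊆ B) : μ s ≤ C * ν s := by
  classical
  choose! V hV hVs using h
  obtain ⟨t, htB, htc, hcov⟩ := TopologicalSpace.countable_cover_nhdsWithin
    (f := fun y => interior (V y)) (s := B)
    (fun y hy => mem_nhdsWithin_of_mem_nhds (interior_mem_nhds.2 (hV y hy)))
  rcases t.eq_empty_or_nonempty with rfl | hne
  · have : s = ∅ := by
      apply subset_empty_iff.1
      intro y hy
      simpa using hcov (hsB hy)
    rw [this]
    simp
  obtain ⟨x, rfl⟩ := htc.exists_eq_range hne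
  set U : ℕ → Set E2 := fun n => interior (V (x n)) with hU
  have hUm : ∀ n, MeasurableSet (disjointed U n) := fun n =>
    MeasurableSet.disjointed (fun n => isOpen_interior.measurableSet) n
  have hsU : s = ⋃ n, s ∩ disjointed U n := by
    rw [← inter_iUnion, iUnion_disjointed]
    refine (inter_eq_left.2 ?_).symm
    intro y hy
    have := hcov (hsB hy)
    simpa [hU] using this
  have hd : Pairwise (Function.onFun Disjoint (fun n => s ∩ disjointed U n)) := by
    intro i j hij
    exact ((disjoint_disjointed U hij).mono inter_subset_right inter_subset_right)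
  have hm : ∀ n, MeasurableSet (s ∩ disjointed U n) := fun n => hs.inter (hUm n)
  have e1 : μ s = ∑' n, μ (s ∩ disjointed U n) := by
    conv_lhs => rw [hsU]
    exact measure_iUnion hd hm
  have e2 : ν s = ∑' n, ν (s ∩ disjointed U n) := by
    conv_lhs => rw [hsU]
    exact measure_iUnion hd hm
  rw [e1, e2, ← ENNReal.tsum_mul_left]
  refine ENNReal.tsum_le_tsum fun n => ?_
  refine hVs (x n) (htB (mem_range_self n)) _ ?_ (hm n)
  intro y hy
  exact ⟨interior_subset (disjointed_subset U n hy.2), hsB hy.1⟩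

private theorem continuousOn_W {r : ℝ} {u : E2 → ℝ} (hu : ContDiffOn ℝ 1 u (ball (0 : E2) r)) :
    ContinuousOn (W u) (ball (0 : E2) r) := by
  have h := hu.continuousOn_fderiv_of_isOpen isOpen_ball le_rfl
  have hp : ∀ i : Fin 2, ContinuousOn (pd i u) (ball (0 : E2) r) := fun i =>
    h.clm_apply continuousOn_const
  unfold W
  exact ((continuousOn_const.add ((hp 0).pow 2)).add ((hp 1).pow 2)).sqrt

private theorem measurable_W (u : E2 → ℝ) : Measurable (W u) := by
  have hp : ∀ i : Fin 2, Measurable (pd i u) := fun i =>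
    measurable_fderiv_apply_const ℝ u _
  unfold W
  exact ((measurable_const.add ((hp 0).pow_const 2)).add ((hp 1).pow_const 2)).sqrt

private theorem le_of_eps {a b : ℝ≥0∞}
    (h : ∀ ε : ℝ, 0 < ε → a ≤ ENNReal.ofReal ((1 + ε) ^ 2) * b) : a ≤ b := by
  have ht : Tendsto (fun ε : ℝ => ENNReal.ofReal ((1 + ε) ^ 2) * b) (𝓝[>] 0) (𝓝 (1 * b)) := by
    refine ENNReal.Tendsto.mul_const ?_ (Or.inl one_ne_zero)
    have : Tendsto (fun ε : ℝ => ENNReal.ofReal ((1 + ε) ^ 2)) (𝓝 0)
        (𝓝 (ENNReal.ofReal ((1 + 0) ^ 2))) := by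
      apply Continuous.tendsto
      exact ENNReal.continuous_ofReal.comp (by fun_prop)
    simp only [add_zero, one_pow, ENNReal.ofReal_one] at this
    exact this.mono_left nhdsWithin_le_nhds
  rw [one_mul] at ht
  refine ge_of_tendsto ht ?_
  filter_upwards [self_mem_nhdsWithin] with ε hε
  exact h ε hε

/-- PROOF. `W u` is continuous on the ball; so for every `ε > 0` every point of the ball has a neighbourhood `V` with
`μHE[2] (gr '' s) ≤ (1 + ε) ^ 2 ∫⁻ y in s, W` and `∫⁻ y in s, W ≤ (1 + ε) ^ 2 μHE[2] (gr '' s)` for the measurable `s ⊆ V`. `s ↦ μHE[2] (gr '' s)`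
is a measure on the subsets of the ball (`exists_embedding`; `Measure.comap`), so a countable cover by such neighbourhoods (`TopologicalSpace.countable_cover_nhds` or
`MeasureTheory.Measure.ext_of_...`) gives both inequalities for every measurable `s` in the ball; let `ε → 0`. -/
theorem area_measure (p : E3) (e : OrthonormalBasis (Fin 3) ℝ E3) {r : ℝ} {u : E2 → ℝ}
    (hu : ContDiffOn ℝ 1 u (ball (0 : E2) r)) {s : Set E2} (hs : MeasurableSet s) (hsr : s ⊆ ball (0 : E2) r) :
    μHE[2] (gr p e u '' s) = ∫⁻ y in s, ENNReal.ofReal (W u y) := by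
  obtain ⟨g, hg, hgu⟩ := exists_embedding p e hu.continuousOn
  set μ1 : Measure E2 := Measure.comap g μHE[2] with hμ1
  set μ2 : Measure E2 := volume.withDensity (fun y => ENNReal.ofReal (W u y)) with hμ2
  have h1 : ∀ s : Set E2, s ⊆ ball (0 : E2) r → μ1 s = μHE[2] (gr p e u '' s) := by
    intro s hs
    rw [hμ1, hg.comap_apply]
    congr 1
    exact image_congr fun y hy => hgu y (hs hy)
  have h2 : ∀ s : Set E2, MeasurableSet s → μ2 s = ∫⁻ y in s, ENNReal.ofReal (W u y) :=
    fun s hs => withDensity_apply _ hs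
  rw [← h1 s hsr, ← h2 s hs]
  -- the local comparison
  have hloc : ∀ ε : ℝ, 0 < ε → ∀ y0 ∈ ball (0 : E2) r, ∃ V ∈ 𝓝 y0, ∀ s ⊆ V ∩ ball (0 : E2) r,
      MeasurableSet s → μ1 s ≤ ENNReal.ofReal ((1 + ε) ^ 2) * μ2 s ∧
        μ2 s ≤ ENNReal.ofReal ((1 + ε) ^ 2) * μ1 s := by
    intro ε hε y0 hy0
    obtain ⟨V, hV, hVs⟩ := area_local p e hu hε hy0
    have hc : ContinuousAt (W u) y0 := (continuousOn_W hu).continuousAt (isOpen_ball.mem_nhds hy0)
    have hW0 := W_pos u y0
    have e1 : ∀ᶠ y in 𝓝 y0, W u y < (1 + ε) * W u y0 :=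
      hc.eventually_lt continuousAt_const (by nlinarith)
    have e2 : ∀ᶠ y in 𝓝 y0, W u y0 < (1 + ε) * W u y :=
      continuousAt_const.eventually_lt (continuousAt_const.mul hc) (by nlinarith)
    have hV' : {y | W u y < (1 + ε) * W u y0 ∧ W u y0 < (1 + ε) * W u y} ∈ 𝓝 y0 := e1.and e2
    refine ⟨V ∩ {y | W u y < (1 + ε) * W u y0 ∧ W u y0 < (1 + ε) * W u y},
      Filter.inter_mem hV hV', ?_⟩
    intro s hs hsm
    obtain ⟨a1, a2⟩ := hVs s (fun y hy => (hs hy).1.1)
    rw [h1 s (fun y hy => (hs hy).2), h2 s hsm]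
    have b1 : ENNReal.ofReal (W u y0) * volume s ≤
        ENNReal.ofReal (1 + ε) * ∫⁻ y in s, ENNReal.ofReal (W u y) := by
      rw [← setLIntegral_const, ← lintegral_const_mul _ (measurable_W u).ennreal_ofReal]
      refine setLIntegral_mono' hsm fun y hy => ?_
      rw [← ENNReal.ofReal_mul (by linarith)]
      exact ENNReal.ofReal_le_ofReal (hs hy).1.2.2.le
    have b2 : ∫⁻ y in s, ENNReal.ofReal (W u y) ≤
        ENNReal.ofReal (1 + ε) * (ENNReal.ofReal (W u y0) * volume s) := by
      rw [← mul_assoc, ← ENNReal.ofReal_mul (by linarith), ← setLIntegral_const]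
      refine setLIntegral_mono' hsm fun y hy => ?_
      exact ENNReal.ofReal_le_ofReal (hs hy).1.2.1.le
    have hsq : ENNReal.ofReal ((1 + ε) ^ 2) = ENNReal.ofReal (1 + ε) * ENNReal.ofReal (1 + ε) := by
      rw [← ENNReal.ofReal_mul (by linarith), pow_two]
    constructor
    · refine a1.trans ?_
      rw [ENNReal.ofReal_mul (by linarith), mul_assoc, hsq, mul_assoc]
      exact mul_le_mul_right b1 _
    · refine b2.trans ?_
      rw [hsq, mul_assoc]
      exact mul_le_mul_right a2 _
  apply le_antisymm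
  · refine le_of_eps fun ε hε => ?_
    refine le_of_local (B := ball (0 : E2) r) (fun y hy => ?_) hs hsr
    obtain ⟨V, hV, h⟩ := hloc ε hε y hy
    exact ⟨V, hV, fun s h3 h4 => (h s h3 h4).1⟩
  · refine le_of_eps fun ε hε => ?_
    refine le_of_local (B := ball (0 : E2) r) (fun y hy => ?_) hs hsr
    obtain ⟨V, hV, h⟩ := hloc ε hε y hy
    exact ⟨V, hV, fun s h3 h4 => (h s h3 h4).2⟩

end Pool.Agent.ML
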