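import Pool.Agent.Lib_MP_7d1493.Defs

/-!
# Coordinates of a frame, the trace on a plane
-/

set_option autoImplicit false

open MeasureTheory Measure Set Metric
open scoped ENNReal InnerProductSpace ContDiff

namespace Pool.Agent.ML

variable (p : E3) (e : OrthonormalBasis (Fin 3) ℝ E3)

theorem inner_e (i j : Fin 3) : ⟪e i, e j⟫_ℝ = if i = j then 1 else 0 :=
  orthonormal_iff_ite.mp e.orthonormal i j

theorem pt_co_ht (q : E3) : pt p e (co p e q) (ht p e q) = q := by
  unfold pt co ht
  have h := e.sum_repr' (q - p)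
  rw [Fin.sum_univ_three] at h
  simp only [Matrix.cons_val_zero, Matrix.cons_val_one]
  rw [h]
  abel

theorem co_pt (y : E2) (w : ℝ) : co p e (pt p e y w) = y := by
  unfold co pt
  ext i
  fin_cases i <;> simp [inner_add_right, inner_smul_right]

theorem ht_pt (y : E2) (w : ℝ) : ht p e (pt p e y w) = w := by
  unfold ht pt
  simp [inner_add_right, inner_smul_right]

theorem continuous_co : Continuous (co p e) := by
  unfold co
  fun_prop

theorem continuous_ht : Continuous (ht p e) := by
  unfold ht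
  fun_prop

theorem isOpen_cyl (r : ℝ) : IsOpen (cyl p e r) :=
  (isOpen_ball.preimage (continuous_co p e)).inter
    (isOpen_lt (continuous_abs.comp (continuous_ht p e)) continuous_const)

theorem mem_cyl_self {r : ℝ} (hr : 0 < r) : p ∈ cyl p e r := by
  constructor
  · have : co p e p = 0 := by
      unfold co
      ext i
      fin_cases i <;> simp
    rw [this]
    exact mem_ball_self hr
  · unfold ht
    simpa using hr

theorem pt_mem_cyl {r : ℝ} {y : E2} {w : ℝ} : pt p e y w ∈ cyl p e r ↔ y ∈ ball (0 : E2) r ∧ |w| < r := by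
  unfold cyl
  rw [Set.mem_ofPred_eq, co_pt, ht_pt]

/-- the part of a minimal surface in the cylinder of a patch is a graph -/
theorem patch_image {S : Set E3} {r : ℝ} {u : E2 → ℝ} (hu : ∀ y ∈ ball (0 : E2) r, |u y| < r)
    (h : ∀ q ∈ cyl p e r, q ∈ S ↔ ht p e q = u (co p e q)) : S ∩ cyl p e r = gr p e u '' ball (0 : E2) r := by
  ext q
  constructor
  · rintro ⟨hS, hc⟩
    refine ⟨co p e q, hc.1, ?_⟩
    unfold gr
    rw [← (h q hc).mp hS, pt_co_ht]
  · rintro ⟨y, hy, rfl⟩
    have hc : gr p e u y ∈ cyl p e r := (pt_mem_cyl p e).mpr ⟨hy, hu y hy⟩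
    refine ⟨(h _ hc).mpr ?_, hc⟩
    unfold gr
    rw [co_pt, ht_pt]

theorem W_pos (u : E2 → ℝ) (y : E2) : 0 < W u y := by
  unfold W
  positivity

theorem W_sq (u : E2 → ℝ) (y : E2) : W u y ^ 2 = 1 + pd 0 u y ^ 2 + pd 1 u y ^ 2 :=
  Real.sq_sqrt (by positivity)

theorem norm_nrm (u : E2 → ℝ) (y : E2) : ‖nrm e u y‖ = 1 := by
  have h : ‖nrm e u y‖ ^ 2 = 1 := by
    rw [← real_inner_self_eq_norm_sq]
    unfold nrm
    simp only [inner_smul_left, inner_smul_right, inner_sub_left, inner_sub_right, inner_e, conj_trivial]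
    have hW := (W_pos u y).ne'
    have h2 := W_sq u y
    simp
    field_simp
    nlinarith [h2]
  nlinarith [norm_nonneg (nrm e u y)]

theorem trN_neg (A : E3 →L[ℝ] E3) (n : E3) : trN A (-n) = trN A n := by
  unfold trN
  simp

theorem trN_add (A B : E3 →L[ℝ] E3) (n : E3) : trN (A + B) n = trN A n + trN B n := by
  unfold trN
  simp only [ContinuousLinearMap.toLinearMap_add, map_add, _root_.add_apply, inner_add_left]
  ring

theorem trN_smul (c : ℝ) (A : E3 →L[ℝ] E3) (n : E3) : trN (c • A) n = c * trN A n := by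
  unfold trN
  simp only [ContinuousLinearMap.toLinearMap_smul, map_smul, _root_.smul_apply, inner_smul_left,
    smul_eq_mul, conj_trivial]
  ring

theorem trN_zero (n : E3) : trN 0 n = 0 := by
  unfold trN
  simp

/-- the trace in an orthonormal basis -/
theorem trN_eq_sum (A : E3 →L[ℝ] E3) (n : E3) : trN A n = ∑ i, ⟪e i, A (e i)⟫_ℝ - ⟪A n, n⟫_ℝ := by
  unfold trN
  rw [LinearMap.trace_eq_sum_inner _ e]
  rfl

end Pool.Agent.ML
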