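import Pool.Agent.Lib_MP_7d1493.Basic

/-!
# The functions `log (1 + log (1 + s))` and `(max t 0) ^ 3`, cutoffs
-/

set_option autoImplicit false

open MeasureTheory Measure Set Metric Filter Topology
open scoped ENNReal InnerProductSpace ContDiff

namespace Pool.Agent.ML

/-- `F s = log (1 + log (1 + s))` for `s ≥ 0` -/
noncomputable def F (s : ℝ) : ℝ := Real.log (1 + Real.log (1 + s))

/-- `F'` -/
noncomputable def F1 (s : ℝ) : ℝ := 1 / ((1 + s) * (1 + Real.log (1 + s)))

/-- `F''` -/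
noncomputable def F2 (s : ℝ) : ℝ := -(2 + Real.log (1 + s)) / ((1 + s) ^ 2 * (1 + Real.log (1 + s)) ^ 2)

/-- `F'''` -/
noncomputable def F3 (s : ℝ) : ℝ := deriv F2 s

private theorem one_add_pos' {s : ℝ} (hs : 0 ≤ s) : 0 < 1 + s := by linarith

private theorem log_nn {s : ℝ} (hs : 0 ≤ s) : 0 ≤ Real.log (1 + s) :=
  Real.log_nonneg (by linarith)

private theorem one_add_log_pos {s : ℝ} (hs : 0 ≤ s) : 0 < 1 + Real.log (1 + s) := by
  have := log_nn hs
  linarith

private theorem hasDerivAt_l {s : ℝ} (hs : 0 ≤ s) :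
    HasDerivAt (fun s : ℝ => 1 + Real.log (1 + s)) (1 / (1 + s)) s := by
  have h : HasDerivAt (fun s : ℝ => 1 + s) 1 s := (hasDerivAt_id s).const_add 1
  exact (h.log (one_add_pos' hs).ne').const_add 1

/-- PIECE [SH-5a] (this file, about 150 lines). -/
theorem hasDerivAt_F {s : ℝ} (hs : 0 ≤ s) : HasDerivAt F (F1 s) s := by
  have h := (hasDerivAt_l hs).log (one_add_log_pos hs).ne'
  unfold F F1
  refine h.congr_deriv ?_
  have := (one_add_pos' hs).ne'
  have := (one_add_log_pos hs).ne'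
  field_simp

private theorem hasDerivAt_D {s : ℝ} (hs : 0 ≤ s) :
    HasDerivAt (fun s : ℝ => (1 + s) * (1 + Real.log (1 + s))) (2 + Real.log (1 + s)) s := by
  have h : HasDerivAt (fun s : ℝ => 1 + s) 1 s := (hasDerivAt_id s).const_add 1
  refine (h.mul (hasDerivAt_l hs)).congr_deriv ?_
  have := (one_add_pos' hs).ne'
  field_simp
  ring

theorem hasDerivAt_F1 {s : ℝ} (hs : 0 ≤ s) : HasDerivAt F1 (F2 s) s := by
  have h1 := (one_add_pos' hs).ne'
  have h2 := (one_add_log_pos hs).ne'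
  have h := (hasDerivAt_const s (1 : ℝ)).div (hasDerivAt_D hs) (mul_ne_zero h1 h2)
  unfold F1 F2
  refine h.congr_deriv ?_
  field_simp
  ring

/-- the functions are smooth on a neighbourhood of `[0, ∞)`: `1 + log (1 + s) > 0` for `s > exp (-1) - 1` -/
theorem contDiffAt_F {s : ℝ} (hs : 0 ≤ s) : ContDiffAt ℝ ∞ F s ∧ ContDiffAt ℝ ∞ F1 s ∧ ContDiffAt ℝ ∞ F2 s := by
  have h1 := (one_add_pos' hs).ne'
  have h2 := (one_add_log_pos hs).ne'
  have c1 : ContDiffAt ℝ ∞ (fun s : ℝ => 1 + s) s := contDiffAt_const.add contDiffAt_id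
  have c2 : ContDiffAt ℝ ∞ (fun s : ℝ => Real.log (1 + s)) s := c1.log h1
  have c3 : ContDiffAt ℝ ∞ (fun s : ℝ => 1 + Real.log (1 + s)) s := contDiffAt_const.add c2
  refine ⟨?_, ?_, ?_⟩
  · unfold F
    exact c3.log h2
  · unfold F1
    exact contDiffAt_const.div (c1.mul c3) (mul_ne_zero h1 h2)
  · unfold F2
    exact (contDiffAt_const.add c2).neg.div ((c1.pow 2).mul (c3.pow 2))
      (mul_ne_zero (pow_ne_zero 2 h1) (pow_ne_zero 2 h2))

/-- `F'' ` is increasing: `F2 s = - (1 + s)⁻² ((1 + l)⁻¹ + (1 + l)⁻²)` with `l = log (1 + s)` increasing -/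
theorem F3_nonneg {s : ℝ} (hs : 0 ≤ s) : HasDerivAt F2 (F3 s) s ∧ 0 ≤ F3 s := by
  have hd : HasDerivAt F2 (F3 s) s :=
    ((contDiffAt_F hs).2.2.differentiableAt (by simp)).hasDerivAt
  refine ⟨hd, ?_⟩
  have h1 := one_add_pos' hs
  have h2 := one_add_log_pos hs
  have h : HasDerivAt (fun s : ℝ => 1 + s) 1 s := (hasDerivAt_id s).const_add 1
  have hl : HasDerivAt (fun s : ℝ => -(2 + Real.log (1 + s))) (-(1 / (1 + s))) s :=
    ((h.log h1.ne').const_add 2).neg
  have hD := (hasDerivAt_D hs).pow 2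
  have h3 := hl.div hD (pow_ne_zero 2 (mul_ne_zero h1.ne' h2.ne'))
  have he : F2 = ((fun s : ℝ => -(2 + Real.log (1 + s))) /
      ((fun s : ℝ => (1 + s) * (1 + Real.log (1 + s))) ^ 2)) := by
    funext x
    unfold F2
    simp only [Pi.div_apply, Pi.pow_apply]
    rw [mul_pow]
  have h4 : F3 s = (2 * (2 + Real.log (1 + s)) ^ 2 - (1 + Real.log (1 + s))) /
      ((1 + s) * (1 + Real.log (1 + s))) ^ 3 := by
    rw [he] at hd
    rw [hd.unique h3]
    simp only [Pi.pow_apply]
    have h1' := h1.ne'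
    have h2' := h2.ne'
    field_simp
    push_cast
    ring
  rw [h4]
  apply div_nonneg
  · have := log_nn hs
    nlinarith
  · positivity

/-- `F s ≥ 0`, monotone, tends to infinity -/
theorem F_facts : (∀ s, 0 ≤ s → 0 ≤ F s) ∧ (∀ s t, 0 ≤ s → s ≤ t → F s ≤ F t) ∧ Tendsto F atTop atTop := by
  refine ⟨?_, ?_, ?_⟩
  · intro s hs
    exact Real.log_nonneg (by linarith [log_nn hs])
  · intro s t hs hst
    apply Real.log_le_log (one_add_log_pos hs)
    have := Real.log_le_log (one_add_pos' hs) (by linarith : 1 + s ≤ 1 + t)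
    linarith
  · unfold F
    have h1 : Tendsto (fun s : ℝ => 1 + s) atTop atTop := tendsto_atTop_add_const_left _ _ tendsto_id
    exact Real.tendsto_log_atTop.comp
      (tendsto_atTop_add_const_left _ _ (Real.tendsto_log_atTop.comp h1))

theorem F1_facts {s : ℝ} (hs : 0 ≤ s) : 0 < F1 s ∧ F1 s ≤ 1 / (1 + s) ∧ F2 s ≤ 0 ∧
    |F2 s| ≤ 2 * F1 s / (1 + s) ∧ s * |F2 s| ≤ 1 / 2 := by
  have h1 := one_add_pos' hs
  have h2 := one_add_log_pos hs
  have hl := log_nn hs
  have h0 : 0 < F1 s := by unfold F1; positivity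
  have hF2 : F2 s ≤ 0 := by
    unfold F2
    apply div_nonpos_of_nonpos_of_nonneg
    · linarith
    · positivity
  have habs : |F2 s| = (2 + Real.log (1 + s)) / ((1 + s) ^ 2 * (1 + Real.log (1 + s)) ^ 2) := by
    rw [abs_of_nonpos hF2]
    unfold F2
    rw [neg_div, neg_neg]
  refine ⟨h0, ?_, hF2, ?_, ?_⟩
  · unfold F1
    apply one_div_le_one_div_of_le h1
    nlinarith
  · rw [habs]
    unfold F1
    have e : 2 * (1 / ((1 + s) * (1 + Real.log (1 + s)))) / (1 + s) =
        (2 * (1 + Real.log (1 + s))) / ((1 + s) ^ 2 * (1 + Real.log (1 + s)) ^ 2) := by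
      field_simp
    rw [e]
    apply div_le_div_of_nonneg_right _ (by positivity)
    linarith
  · rw [habs, ← mul_div_assoc, div_le_iff₀ (by positivity)]
    have e1 : 4 * s ≤ (1 + s) ^ 2 := by nlinarith [sq_nonneg (1 - s)]
    have e2 : 2 + Real.log (1 + s) ≤ 2 * (1 + Real.log (1 + s)) ^ 2 := by nlinarith
    have e3 : 0 ≤ 2 + Real.log (1 + s) := by linarith
    have e4 : 4 * s * (2 + Real.log (1 + s)) ≤
        (1 + s) ^ 2 * (2 * (1 + Real.log (1 + s)) ^ 2) :=
      mul_le_mul e1 e2 e3 (by positivity)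
    linarith

/-- `F' + s F'' = (1 + l - s) / ((1 + s) ^ 2 (1 + l) ^ 2)`; `l ≤ s`; for `s > 3` it is negative -/
theorem F1_add {s : ℝ} (hs : 0 ≤ s) : F1 s + s * F2 s ≤ if s ≤ 3 then 1 else 0 := by
  have h1 := one_add_pos' hs
  have h2 := one_add_log_pos hs
  have hl := log_nn hs
  have e : F1 s + s * F2 s = (1 + Real.log (1 + s) - s) /
      ((1 + s) ^ 2 * (1 + Real.log (1 + s)) ^ 2) := by
    unfold F1 F2
    field_simp
    ring
  rw [e]
  split_ifs with h
  · rw [div_le_one (by positivity)]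
    have a1 : 1 ≤ (1 + s) ^ 2 := by nlinarith
    have a2 : 1 + Real.log (1 + s) ≤ (1 + Real.log (1 + s)) ^ 2 := by nlinarith
    have a3 : 1 * (1 + Real.log (1 + s)) ≤ (1 + s) ^ 2 * (1 + Real.log (1 + s)) ^ 2 :=
      mul_le_mul a1 a2 h2.le (by positivity)
    linarith
  · push Not at h
    apply div_nonpos_of_nonpos_of_nonneg _ (by positivity)
    have a1 : Real.log (1 + s) = Real.log 4 + Real.log ((1 + s) / 4) := by
      rw [← Real.log_mul (by norm_num) (by positivity)]
      congr 1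
      ring
    have a2 : Real.log ((1 + s) / 4) ≤ (1 + s) / 4 - 1 :=
      Real.log_le_sub_one_of_pos (by positivity)
    have a3 : Real.log 4 ≤ 2 := by
      have : Real.log 4 = 2 * Real.log 2 := by
        rw [show (4 : ℝ) = 2 ^ 2 by norm_num, Real.log_pow]
        norm_num
      rw [this]
      have := Real.log_two_lt_d9
      linarith
    rw [a1]
    linarith

/-- the function `(max t 0) ^ 3` and its derivatives `3 (max t 0) ^ 2`, `6 max t 0` -/
theorem cube_facts : (∀ t : ℝ, HasDerivAt (fun t : ℝ => (max t 0) ^ 3) (3 * (max t 0) ^ 2) t) ∧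
    (∀ t : ℝ, HasDerivAt (fun t : ℝ => 3 * (max t 0) ^ 2) (6 * max t 0) t) := by
  have key : ∀ (n : ℕ) (c t : ℝ), 2 ≤ n →
      HasDerivAt (fun t : ℝ => c * (max t 0) ^ n) (c * (n * (max t 0) ^ (n - 1))) t := by
    intro n c t hn
    have hn0 : n ≠ 0 := by omega
    have hn1 : n - 1 ≠ 0 := by omega
    rcases lt_trichotomy t 0 with h | h | h
    · have he : (fun t : ℝ => c * (max t 0) ^ n) =ᶠ[𝓝 t] fun _ => 0 := by
        filter_upwards [gt_mem_nhds h] with x hx
        rw [max_eq_right hx.le, zero_pow hn0, mul_zero]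
      rw [max_eq_right h.le, zero_pow hn1]
      simpa using (hasDerivAt_const t (0 : ℝ)).congr_of_eventuallyEq he
    · subst h
      have d1 : HasDerivWithinAt (fun t : ℝ => c * (max t 0) ^ n) 0 (Set.Ici 0) 0 := by
        have : HasDerivWithinAt (fun t : ℝ => c * t ^ n) 0 (Set.Ici 0) 0 := by
          have := ((hasDerivAt_pow n (0 : ℝ)).const_mul c).hasDerivWithinAt (s := Set.Ici (0 : ℝ))
          rw [zero_pow hn1] at this
          simpa using this
        refine this.congr (fun x hx => ?_) ?_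
        · rw [max_eq_left hx]
        · simp
      have d2 : HasDerivWithinAt (fun t : ℝ => c * (max t 0) ^ n) 0 (Set.Iic 0) 0 := by
        refine (hasDerivWithinAt_const (0 : ℝ) (Set.Iic (0 : ℝ)) (0 : ℝ)).congr (fun x hx => ?_) ?_
        · rw [max_eq_right hx, zero_pow hn0, mul_zero]
        · simp [hn0]
      have := (d1.union d2)
      rw [Set.Ici_union_Iic, hasDerivWithinAt_univ] at this
      simpa [hn1] using this
    · have he : (fun t : ℝ => c * (max t 0) ^ n) =ᶠ[𝓝 t] fun t => c * t ^ n := by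
        filter_upwards [lt_mem_nhds h] with x hx
        rw [max_eq_left hx.le]
      rw [max_eq_left h.le]
      exact ((hasDerivAt_pow n t).const_mul c).congr_of_eventuallyEq he
  constructor
  · intro t
    have := key 3 1 t (by norm_num)
    simp only [one_mul] at this
    exact_mod_cast this
  · intro t
    have := key 2 3 t (by norm_num)
    refine this.congr_deriv ?_
    push_cast
    ring

/-- a smooth function on the line, `1` on `[-1, 2]`, `0` outside `[-3, 4]` (`ContDiffBump` at `1 / 2` with the radii `3 / 2`, `7 / 2`) -/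
theorem exists_cutoff : ∃ κ : ℝ → ℝ, ContDiff ℝ ∞ κ ∧ (∀ z, -1 ≤ z → z ≤ 2 → κ z = 1) ∧ ∀ z, (z ≤ -3 ∨ 4 ≤ z) → κ z = 0 := by
  let b : ContDiffBump (1 / 2 : ℝ) := ⟨3 / 2, 7 / 2, by norm_num, by norm_num⟩
  refine ⟨b, b.contDiff, ?_, ?_⟩
  · intro z h1 h2
    apply b.one_of_mem_closedBall
    rw [mem_closedBall, Real.dist_eq, abs_le]
    constructor
    · show -(3 / 2 : ℝ) ≤ _
      linarith
    · show _ ≤ (3 / 2 : ℝ)
      linarith
  · intro z h
    apply b.zero_of_le_dist
    rw [Real.dist_eq]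
    show (7 / 2 : ℝ) ≤ _
    rcases h with h | h
    · rw [le_abs]
      right
      linarith
    · rw [le_abs]
      left
      linarith

end Pool.Agent.ML
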