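import Pool.Agent.Lib_MP_7d1493.Green
import Pool.Agent.Lib_MP_7d1493.Fun

/-!
# From a function with a bound on the trace to the cube of its positive part
-/

set_option autoImplicit false

open MeasureTheory Measure Set Metric Filter Topology
open scoped ENNReal InnerProductSpace ContDiff

namespace Pool.Agent.ML

/-- a function with a `C¹` gradient is `C¹` -/
theorem TP.contDiff_one {b : E3 → ℝ} {Y : E3 → E3} (hb : TP b Y) : ContDiff ℝ 1 b := by
  rw [contDiff_one_iff_hasFDerivAt]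
  exact ⟨fun q => innerSL ℝ (Y q), (innerSL ℝ).continuous.comp hb.smooth.continuous, hb.grad⟩

private theorem innerSL_smul' (c : ℝ) (y : E3) : innerSL ℝ (c • y) = c • innerSL ℝ y := by
  ext v
  simp

private theorem contDiff_sq_pos : ContDiff ℝ 1 (fun t : ℝ => 3 * (max t 0) ^ 2) := by
  rw [contDiff_one_iff_deriv]
  refine ⟨fun t => (cube_facts.2 t).differentiableAt, ?_⟩
  have : deriv (fun t : ℝ => 3 * (max t 0) ^ 2) = fun t => 6 * max t 0 := by
    ext t
    exact (cube_facts.2 t).deriv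
  rw [this]
  fun_prop

/-- PIECE [SH-5b] (this file, about 130 lines). PROOF. `fderiv (3 G_+ ^ 2 • Y) v = 6 G_+ ⟪Y, v⟫ Y + 3 G_+ ^ 2 fderiv Y v` (`cube_facts`); `trN_rankOne`: the first term has the trace
`6 G_+ (‖Y‖ ^ 2 - ⟪Y, n⟫ ^ 2) ≥ 0`. -/
theorem TP.cube {G : E3 → ℝ} {Y : E3 → E3} (hG : TP G Y) : TP (fun q => (max (G q) 0) ^ 3) (fun q => (3 * (max (G q) 0) ^ 2) • Y q) ∧
    ∀ q n : E3, ‖n‖ = 1 → 3 * (max (G q) 0) ^ 2 * trN (fderiv ℝ Y q) n ≤ trN (fderiv ℝ (fun q => (3 * (max (G q) 0) ^ 2) • Y q) q) n := by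
  have hc : ∀ q, HasFDerivAt (fun q => 3 * (max (G q) 0) ^ 2) ((6 * max (G q) 0) • innerSL ℝ (Y q)) q := by
    intro q
    exact (cube_facts.2 (G q)).comp_hasFDerivAt q (hG.grad q)
  refine ⟨⟨?_, ?_⟩, ?_⟩
  · intro q
    rw [innerSL_smul']
    exact (cube_facts.1 (G q)).comp_hasFDerivAt q (hG.grad q)
  · exact (contDiff_sq_pos.comp hG.contDiff_one).smul hG.smooth
  · intro q n hn
    have hY : HasFDerivAt Y (fderiv ℝ Y q) q :=
      ((hG.smooth.differentiable (by norm_num)) q).hasFDerivAt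
    have h1 : HasFDerivAt (fun q => (3 * (max (G q) 0) ^ 2) • Y q)
        ((3 * (max (G q) 0) ^ 2) • fderiv ℝ Y q + ((6 * max (G q) 0) • innerSL ℝ (Y q)).smulRight (Y q)) q :=
      (hc q).smul hY
    have h2 : fderiv ℝ (fun q => (3 * (max (G q) 0) ^ 2) • Y q) q =
        (3 * (max (G q) 0) ^ 2) • fderiv ℝ Y q + (6 * max (G q) 0) • (innerSL ℝ (Y q)).smulRight (Y q) := by
      rw [h1.fderiv]
      congr 1
      ext v
      simp [mul_assoc]
    rw [h2, trN_add, trN_smul, trN_smul, trN_rankOne]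
    have h3 : ⟪Y q, n⟫_ℝ * ⟪Y q, n⟫_ℝ ≤ ⟪Y q, Y q⟫_ℝ := by
      have h4 := abs_real_inner_le_norm (Y q) n
      rw [hn, mul_one] at h4
      rw [real_inner_self_eq_norm_sq]
      nlinarith [abs_nonneg ⟪Y q, n⟫_ℝ, sq_abs ⟪Y q, n⟫_ℝ, norm_nonneg (Y q)]
    have h5 : 0 ≤ 6 * max (G q) 0 * (⟪Y q, Y q⟫_ℝ - ⟪Y q, n⟫_ℝ * ⟪Y q, n⟫_ℝ) :=
      mul_nonneg (mul_nonneg (by norm_num) (le_max_right _ _)) (sub_nonneg.mpr h3)
    linarith

/-- Multiplication by a function of the height which is `1` near the height of the points considered does not change the trace: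
`TP.mul` needs only `χ q = κ (q 2)`. -/
theorem TP.cutoff {b : E3 → ℝ} {Y : E3 → E3} (hb : TP b Y) {κ : ℝ → ℝ} (hκ : ContDiff ℝ ∞ κ)
    (h1 : ∀ z, -1 ≤ z → z ≤ 2 → κ z = 1) : ∃ Y' : E3 → E3, TP (fun q => κ (q 2) * b q) Y' ∧
      ∀ q n : E3, 0 ≤ q 2 → q 2 ≤ 1 → trN (fderiv ℝ Y' q) n = trN (fderiv ℝ Y q) n := by
  have hpr : ∀ q : E3, HasFDerivAt (fun q : E3 => q 2) (innerSL ℝ ez) q := by
    intro q
    have h := (innerSL ℝ ez).hasFDerivAt (x := q)
    refine h.congr_of_eventuallyEq (Filter.Eventually.of_forall fun v => ?_)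
    show v 2 = innerSL ℝ ez v
    simp [ez, EuclideanSpace.inner_single_left]
  have hκd : ContDiff ℝ ∞ (deriv κ) := by
    have := (contDiff_infty_iff_deriv.mp hκ).2
    exact this
  have hκ' : ∀ z, HasDerivAt κ (deriv κ z) z := fun z =>
    ((hκ.differentiable (by simp)) z).hasDerivAt
  have hcoord : ContDiff ℝ 1 (fun q : E3 => q 2) := by fun_prop
  refine ⟨fun q => κ (q 2) • Y q + (b q * deriv κ (q 2)) • ez, ⟨?_, ?_⟩, ?_⟩
  · intro q
    have hk : HasFDerivAt (fun q : E3 => κ (q 2)) (deriv κ (q 2) • innerSL ℝ ez) q :=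
      (hκ' (q 2)).comp_hasFDerivAt q (hpr q)
    have h := hk.mul (hb.grad q)
    refine h.congr_fderiv ?_
    ext v
    simp
    ring
  · exact ((hκ.of_le (by exact_mod_cast le_top)).comp hcoord).smul hb.smooth |>.add
      ((hb.contDiff_one.mul ((hκd.of_le (by exact_mod_cast le_top)).comp hcoord)).smul contDiff_const)
  · intro q n h0 hle
    have hev : (fun q => κ (q 2) • Y q + (b q * deriv κ (q 2)) • ez) =ᶠ[𝓝 q] Y := by
      have hop : {v : E3 | -1 < v 2 ∧ v 2 < 2} ∈ 𝓝 q := by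
        apply IsOpen.mem_nhds
        · exact (isOpen_lt continuous_const hcoord.continuous).inter
            (isOpen_lt hcoord.continuous continuous_const)
        · exact ⟨by linarith, by linarith⟩
      filter_upwards [hop] with v hv
      have hk1 : κ (v 2) = 1 := h1 _ hv.1.le hv.2.le
      have hk2 : deriv κ (v 2) = 0 := by
        have : κ =ᶠ[𝓝 (v 2)] fun _ => 1 := by
          filter_upwards [Ioo_mem_nhds hv.1 hv.2] with z hz
          exact h1 z hz.1.le hz.2.le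
        rw [this.deriv_eq, deriv_const]
      rw [hk1, hk2]
      simp
    rw [hev.fderiv_eq]

end Pool.Agent.ML
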