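import Mathlib

/-!
# Minimal laminations of Euclidean three-space: definitions

`E3` is the Euclidean space, `q 2` the height of the point `q`. A minimal surface in an open set `U` is a subset `S` of `U`,
closed in `U`, which is near each of its points the graph, in an orthonormal frame, of a smooth solution of the minimal
surface equation. A minimal lamination is a closed set with charts onto `D × (0, 1)` whose slices are minimal surfaces.
-/

set_option autoImplicit false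

open MeasureTheory Measure Set Metric
open scoped ENNReal InnerProductSpace ContDiff

namespace Pool.Agent.ML

/-- the Euclidean plane -/
abbrev E2 := EuclideanSpace ℝ (Fin 2)

/-- the Euclidean space -/
abbrev E3 := EuclideanSpace ℝ (Fin 3)

/-- partial derivatives of a function on the plane -/
noncomputable def pd (i : Fin 2) (u : E2 → ℝ) (y : E2) : ℝ := fderiv ℝ u y (EuclideanSpace.single i 1)

/-- the minimal surface equation -/
def MSE (u : E2 → ℝ) (y : E2) : Prop :=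
  (1 + pd 1 u y ^ 2) * pd 0 (pd 0 u) y - 2 * (pd 0 u y * pd 1 u y * pd 0 (pd 1 u) y) +
    (1 + pd 0 u y ^ 2) * pd 1 (pd 1 u) y = 0

/-- the area element of the graph of `u` -/
noncomputable def W (u : E2 → ℝ) (y : E2) : ℝ := √(1 + pd 0 u y ^ 2 + pd 1 u y ^ 2)

/-- the unit normal of the graph of `u` in the frame `e` -/
noncomputable def nrm (e : OrthonormalBasis (Fin 3) ℝ E3) (u : E2 → ℝ) (y : E2) : E3 :=
  (W u y)⁻¹ • (e 2 - pd 0 u y • e 0 - pd 1 u y • e 1)

/-- the point with the coordinates `y 0`, `y 1`, `w` in the frame `e` at `p` -/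
noncomputable def pt (p : E3) (e : OrthonormalBasis (Fin 3) ℝ E3) (y : E2) (w : ℝ) : E3 :=
  p + (y 0 • e 0 + y 1 • e 1 + w • e 2)

/-- the first two coordinates of `q` in the frame `e` at `p` -/
noncomputable def co (p : E3) (e : OrthonormalBasis (Fin 3) ℝ E3) (q : E3) : E2 :=
  !₂[⟪e 0, q - p⟫_ℝ, ⟪e 1, q - p⟫_ℝ]

/-- the third coordinate of `q` in the frame `e` at `p` -/
noncomputable def ht (p : E3) (e : OrthonormalBasis (Fin 3) ℝ E3) (q : E3) : ℝ := ⟪e 2, q - p⟫_ℝ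

/-- an open cylinder with centre `p` -/
def cyl (p : E3) (e : OrthonormalBasis (Fin 3) ℝ E3) (r : ℝ) : Set E3 :=
  {q | co p e q ∈ ball (0 : E2) r ∧ |ht p e q| < r}

/-- the graph map -/
noncomputable def gr (p : E3) (e : OrthonormalBasis (Fin 3) ℝ E3) (u : E2 → ℝ) (y : E2) : E3 := pt p e y (u y)

/-- `S` is in a cylinder around `p` the graph of a smooth solution of the minimal surface equation, `± N` is normal to `S` -/
def IsMinPatch (U S : Set E3) (N : E3 → E3) (p : E3) : Prop :=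
  ∃ (e : OrthonormalBasis (Fin 3) ℝ E3) (r : ℝ) (u : E2 → ℝ), 0 < r ∧ ContDiffOn ℝ ∞ u (ball (0 : E2) r) ∧
    (∀ y ∈ ball (0 : E2) r, |u y| < r ∧ MSE u y) ∧ cyl p e r ⊆ U ∧
    (∀ q ∈ cyl p e r, q ∈ S ↔ ht p e q = u (co p e q)) ∧
    ∀ q ∈ S ∩ cyl p e r, N q = nrm e u (co p e q) ∨ N q = -nrm e u (co p e q)

/-- `S` is a minimal surface in `U`, closed in `U`, with the unit normals `± N` -/
structure IsMinSurf (U S : Set E3) (N : E3 → E3) : Prop where
  sub : S ⊆ U
  closed : ∃ F : Set E3, IsClosed F ∧ S = F ∩ U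
  patch : ∀ p ∈ S, IsMinPatch U S N p

/-- `L` is a minimal lamination of the space; `± N` are the unit normals of the leaves -/
structure IsMinLam (L : Set E3) (N : E3 → E3) : Prop where
  closed : IsClosed L
  chart : ∀ p : E3, ∃ U : Set E3, IsOpen U ∧ p ∈ U ∧
    ∃ (Φ : U ≃ₜ (ball (0 : E2) 1 ×ˢ Ioo (0 : ℝ) 1 : Set (E2 × ℝ))) (C : Set ℝ),
      (∃ F : Set ℝ, IsClosed F ∧ C = F ∩ Ioo 0 1) ∧ (∀ q : U, (q : E3) ∈ L ↔ (Φ q).1.2 ∈ C) ∧
      ∀ t ∈ C, IsMinSurf U {q : E3 | ∃ h : q ∈ U, (Φ ⟨q, h⟩).1.2 = t} N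

/-- the trace of `A` on the plane orthogonal to the unit vector `n` -/
noncomputable def trN (A : E3 →L[ℝ] E3) (n : E3) : ℝ := LinearMap.trace ℝ E3 (A : E3 →ₗ[ℝ] E3) - ⟪A n, n⟫_ℝ

/-- `b` is a `C²` function with the gradient `Y` -/
structure TP (b : E3 → ℝ) (Y : E3 → E3) : Prop where
  grad : ∀ q, HasFDerivAt b (innerSL ℝ (Y q)) q
  smooth : ContDiff ℝ 1 Y

/-- `ψ` is a `C²` function of one variable with the derivatives `ψ1`, `ψ2` -/
structure D2 (ψ ψ1 ψ2 : ℝ → ℝ) : Prop where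
  d1 : ∀ z, HasDerivAt ψ (ψ1 z) z
  d2 : ∀ z, HasDerivAt ψ1 (ψ2 z) z
  cont : Continuous ψ2

/-- the integrand `ψ Δ b - b ψ'' |∇ z|²` -/
noncomputable def itg (N : E3 → E3) (ψ ψ2 : ℝ → ℝ) (b : E3 → ℝ) (Y : E3 → E3) (q : E3) : ℝ :=
  ψ (q 2) * trN (fderiv ℝ Y q) (N q) - b q * ψ2 (q 2) * (1 - N q 2 ^ 2)

end Pool.Agent.ML
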