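import Pool.Agent.Lib_MP_7d1493.Area2

/-!
# Laminations with horizontal leaves
-/

set_option autoImplicit false

open MeasureTheory Measure Set Metric Filter Topology
open scoped ENNReal InnerProductSpace ContDiff

namespace Pool.Agent.ML

/-- PIECE [SH-6a] (this theorem, about 80 lines). Every point of a lamination has a minimal patch contained in the lamination. -/
theorem exists_patch {L : Set E3} {N : E3 → E3} (hL : IsMinLam L N) {q : E3} (hq : q ∈ L) :
    ∃ (e : OrthonormalBasis (Fin 3) ℝ E3) (r : ℝ) (u : E2 → ℝ), 0 < r ∧ ContDiffOn ℝ ∞ u (ball (0 : E2) r) ∧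
      (∀ y ∈ ball (0 : E2) r, |u y| < r ∧ gr q e u y ∈ L ∧
        (N (gr q e u y) = nrm e u y ∨ N (gr q e u y) = -nrm e u y)) ∧ u 0 = 0 := by
  obtain ⟨U, hU, hqU, Φ, C, -, hmem, hsurf⟩ := hL.chart q
  have htC : (Φ ⟨q, hqU⟩).1.2 ∈ C := (hmem ⟨q, hqU⟩).mp hq
  obtain ⟨t, htt⟩ : ∃ t, t = (Φ ⟨q, hqU⟩).1.2 := ⟨_, rfl⟩
  rw [← htt] at htC
  have hqS : q ∈ {q : E3 | ∃ h : q ∈ U, (Φ ⟨q, h⟩).1.2 = t} := ⟨hqU, htt.symm⟩
  have hSL : ∀ q' ∈ {q : E3 | ∃ h : q ∈ U, (Φ ⟨q, h⟩).1.2 = t}, q' ∈ L := by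
    rintro q' ⟨h, h'⟩
    refine (hmem ⟨q', h⟩).mpr ?_
    rw [h']
    exact htC
  obtain ⟨e, r, u, hr, hu, hb, -, hiff, hN⟩ := (hsurf t htC).patch q hqS
  refine ⟨e, r, u, hr, hu, ?_, ?_⟩
  · intro y hy
    have hc : gr q e u y ∈ cyl q e r := (pt_mem_cyl q e).mpr ⟨hy, (hb y hy).1⟩
    have hS : gr q e u y ∈ {q : E3 | ∃ h : q ∈ U, (Φ ⟨q, h⟩).1.2 = t} := by
      refine (hiff _ hc).mpr ?_
      unfold gr
      rw [co_pt, ht_pt]
    have hco : co q e (gr q e u y) = y := by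
      unfold gr
      rw [co_pt]
    have h1 := hN _ ⟨hS, hc⟩
    rw [hco] at h1
    exact ⟨(hb y hy).1, hSL _ hS, h1⟩
  · have h1 := (hiff q (mem_cyl_self q e hr)).mp hqS
    have h2 : co q e q = 0 := by
      unfold co
      ext i
      fin_cases i <;> simp
    have h3 : ht q e q = 0 := by
      unfold ht
      simp
    rw [h2, h3] at h1
    exact h1.symm

private theorem gr_zero (q : E3) (e : OrthonormalBasis (Fin 3) ℝ E3) {u : E2 → ℝ} (h : u 0 = 0) :
    gr q e u 0 = q := by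
  unfold gr pt
  rw [h]
  simp

private theorem gr_bound (q : E3) (e : OrthonormalBasis (Fin 3) ℝ E3) {r : ℝ} {u : E2 → ℝ} {y : E2}
    (hy : y ∈ ball (0 : E2) r) (hu : |u y| < r) : ‖gr q e u y‖ < ‖q‖ + 3 * r := by
  have hyr : ‖y‖ < r := by simpa using hy
  have h0 : |y 0| < r := by
    have := PiLp.norm_apply_le y 0
    rw [Real.norm_eq_abs] at this
    linarith
  have h1 : |y 1| < r := by
    have := PiLp.norm_apply_le y 1
    rw [Real.norm_eq_abs] at this
    linarith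
  unfold gr pt
  have hn : ∀ (c : ℝ) (i : Fin 3), ‖c • e i‖ = |c| := by
    intro c i
    rw [norm_smul, e.orthonormal.1 i, mul_one, Real.norm_eq_abs]
  calc ‖q + (y 0 • e 0 + y 1 • e 1 + u y • e 2)‖
      ≤ ‖q‖ + (‖y 0 • e 0‖ + ‖y 1 • e 1‖ + ‖u y • e 2‖) := by
        refine (norm_add_le _ _).trans (add_le_add le_rfl ?_)
        exact (norm_add_le _ _).trans (add_le_add (norm_add_le _ _) le_rfl)
    _ < ‖q‖ + 3 * r := by
        rw [hn, hn, hn]
        linarith

private theorem cont_pd {r : ℝ} {u : E2 → ℝ} (hu : ContDiffOn ℝ ∞ u (ball (0 : E2) r)) (i : Fin 2) :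
    ContinuousOn (pd i u) (ball (0 : E2) r) := by
  have h1 : ContinuousOn (fderiv ℝ u) (ball (0 : E2) r) :=
    hu.continuousOn_fderiv_of_isOpen isOpen_ball (by simp)
  unfold pd
  exact h1.clm_apply continuousOn_const

private theorem cont_W {r : ℝ} {u : E2 → ℝ} (hu : ContDiffOn ℝ ∞ u (ball (0 : E2) r)) :
    ContinuousOn (W u) (ball (0 : E2) r) := by
  have h0 := cont_pd hu 0
  have h1 := cont_pd hu 1
  unfold W
  exact ((continuousOn_const.add (h0.pow 2)).add (h1.pow 2)).sqrt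

private theorem cont_nrm (e : OrthonormalBasis (Fin 3) ℝ E3) {r : ℝ} {u : E2 → ℝ}
    (hu : ContDiffOn ℝ ∞ u (ball (0 : E2) r)) : ContinuousOn (nrm e u) (ball (0 : E2) r) := by
  have h0 := cont_pd hu 0
  have h1 := cont_pd hu 1
  have hW := cont_W hu
  unfold nrm
  exact (hW.inv₀ fun y _ => (W_pos u y).ne').smul
    ((continuousOn_const.sub (h0.smul continuousOn_const)).sub (h1.smul continuousOn_const))

private theorem cont_gr (q : E3) (e : OrthonormalBasis (Fin 3) ℝ E3) {r : ℝ} {u : E2 → ℝ}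
    (hu : ContDiffOn ℝ ∞ u (ball (0 : E2) r)) : ContinuousOn (gr q e u) (ball (0 : E2) r) := by
  have h0 := hu.continuousOn
  have e0 : Continuous fun y : E2 => y 0 := by fun_prop
  have e1 : Continuous fun y : E2 => y 1 := by fun_prop
  unfold gr pt
  exact continuousOn_const.add (((e0.continuousOn.smul continuousOn_const).add
    (e1.continuousOn.smul continuousOn_const)).add (h0.smul continuousOn_const))

private theorem nrm_two_le (e : OrthonormalBasis (Fin 3) ℝ E3) (u : E2 → ℝ) (y : E2) :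
    0 ≤ 1 - nrm e u y 2 ^ 2 := by
  have h1 := PiLp.norm_apply_le (nrm e u y) 2
  rw [norm_nrm, Real.norm_eq_abs] at h1
  have h2 := abs_le.mp h1
  nlinarith [h2.1, h2.2]

/-- [SH-6a] If the energy `∫ ψ (1 - N_3 ^ 2)` over a neighbourhood of every point vanishes then `N_3 ^ 2 = 1` where `ψ > 0`: in a patch (`exists_patch`, `area_lintegral`) the function
`W ψ (1 - (nrm 2) ^ 2)` is continuous, nonnegative and has the integral `0` over the ball, so it vanishes at `y = 0`. -/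
theorem vertical_of_energy {L : Set E3} {N : E3 → E3} (hL : IsMinLam L N) {ψ : ℝ → ℝ} (hψ : Continuous ψ) (h0 : ∀ q ∈ L, 0 ≤ ψ (q 2))
    (hE : ∀ R : ℝ, ∫⁻ q in L ∩ ball 0 R, ENNReal.ofReal (ψ (q 2) * (1 - N q 2 ^ 2)) ∂μHE[2] = 0) {q : E3} (hq : q ∈ L)
    (hp : 0 < ψ (q 2)) : N q 2 ^ 2 = 1 := by
  obtain ⟨e, r, u, hr, hu, hb, hu0⟩ := exists_patch hL hq
  have hN2 : ∀ y ∈ ball (0 : E2) r, N (gr q e u y) 2 ^ 2 = nrm e u y 2 ^ 2 := by
    intro y hy
    rcases (hb y hy).2.2 with h | h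
    · rw [h]
    · rw [h]
      simp
  -- the energy of the patch
  have h1 : ∫⁻ q' in gr q e u '' ball (0 : E2) r, ENNReal.ofReal (ψ (q' 2) * (1 - N q' 2 ^ 2)) ∂μHE[2] = 0 := by
    refine le_antisymm ?_ bot_le
    rw [← hE (‖q‖ + 3 * r)]
    refine lintegral_mono_set ?_
    rintro _ ⟨y, hy, rfl⟩
    refine ⟨(hb y hy).2.1, ?_⟩
    rw [mem_ball_zero_iff]
    exact gr_bound q e hy (hb y hy).1
  rw [area_lintegral q e (hu.of_le (by simp))] at h1
  have hcz : Continuous fun q' : E3 => ψ (q' 2) := hψ.comp (by fun_prop)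
  have hcz2 : Continuous fun q' : E3 => q' 2 := by fun_prop
  have hcont : ContinuousOn (fun y => W u y * (ψ (gr q e u y 2) * (1 - nrm e u y 2 ^ 2)))
      (ball (0 : E2) r) :=
    (cont_W hu).mul ((hcz.comp_continuousOn (cont_gr q e hu)).mul
      (continuousOn_const.sub ((hcz2.comp_continuousOn (cont_nrm e hu)).pow 2)))
  have h2 : ∫⁻ y in ball (0 : E2) r,
      ENNReal.ofReal (W u y * (ψ (gr q e u y 2) * (1 - nrm e u y 2 ^ 2))) = 0 := by
    rw [← h1]
    refine setLIntegral_congr_fun measurableSet_ball fun y hy => ?_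
    simp only
    rw [hN2 y hy, ← ENNReal.ofReal_mul (W_pos u y).le]
  rw [lintegral_eq_zero_iff' (hcont.aemeasurable measurableSet_ball).ennreal_ofReal] at h2
  have h3 : (fun y => W u y * (ψ (gr q e u y 2) * (1 - nrm e u y 2 ^ 2))) =ᵐ[volume.restrict (ball (0 : E2) r)]
      fun _ => (0 : ℝ) := by
    filter_upwards [h2, ae_restrict_mem measurableSet_ball] with y hy hyb
    have h4 : W u y * (ψ (gr q e u y 2) * (1 - nrm e u y 2 ^ 2)) ≤ 0 := by
      simpa using hy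
    have h5 : 0 ≤ W u y * (ψ (gr q e u y 2) * (1 - nrm e u y 2 ^ 2)) :=
      mul_nonneg (W_pos u y).le (mul_nonneg (h0 _ (hb y hyb).2.1) (nrm_two_le e u y))
    exact le_antisymm h4 h5
  have h6 := Measure.eqOn_open_of_ae_eq h3 isOpen_ball hcont continuousOn_const (mem_ball_self hr)
  simp only [gr_zero q e hu0] at h6
  have h7 : 1 - nrm e u 0 2 ^ 2 = 0 := by
    rcases mul_eq_zero.mp h6 with h | h
    · exact absurd h (W_pos u 0).ne'
    · rcases mul_eq_zero.mp h with h | h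
      · exact absurd h hp.ne'
      · exact h
  have h8 := hN2 0 (mem_ball_self hr)
  rw [gr_zero q e hu0] at h8
  rw [h8]
  linarith

end Pool.Agent.ML
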