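import Pool.Agent.Lib_MP_7d1493.End2

/-!
# Laminations with horizontal leaves below a height
-/

set_option autoImplicit false

open MeasureTheory Measure Set Metric Filter Topology
open scoped ENNReal InnerProductSpace ContDiff

namespace Pool.Agent.ML

private theorem End3_coord (p : E3) (e : OrthonormalBasis (Fin 3) ℝ E3) (y : E2) (w : ℝ) :
    (pt p e y w) 2 = p 2 + (y 0 * (e 0) 2 + y 1 * (e 1) 2 + w * (e 2) 2) := by
  unfold pt
  simp

private theorem End3_vert {n : E3} (hn : ‖n‖ = 1) (h2 : n 2 ^ 2 = 1) (x : E3) (hx : ⟪n, x⟫_ℝ = 0) : x 2 = 0 := by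
  have h1 : n 0 ^ 2 + n 1 ^ 2 + n 2 ^ 2 = 1 := by
    have h3 := EuclideanSpace.real_norm_sq_eq n
    rw [hn, Fin.sum_univ_three] at h3
    linarith
  have h0 : n 0 = 0 := by nlinarith [sq_nonneg (n 0), sq_nonneg (n 1)]
  have h1' : n 1 = 0 := by nlinarith [sq_nonneg (n 0), sq_nonneg (n 1)]
  have h4 : ⟪n, x⟫_ℝ = x 0 * n 0 + x 1 * n 1 + x 2 * n 2 := by
    rw [PiLp.inner_apply, Fin.sum_univ_three]
    simp
  rw [h4, h0, h1', mul_zero, mul_zero, zero_add, zero_add] at hx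
  have hn2 : n 2 ≠ 0 := by
    intro h
    rw [h] at h2
    norm_num at h2
  exact (mul_eq_zero.1 hx).resolve_right hn2

private theorem End3_inner (e : OrthonormalBasis (Fin 3) ℝ E3) (u : E2 → ℝ) (y : E2) :
    ⟪nrm e u y, e 0 + pd 0 u y • e 2⟫_ℝ = 0 ∧ ⟪nrm e u y, e 1 + pd 1 u y • e 2⟫_ℝ = 0 := by
  unfold nrm
  constructor
  · simp only [inner_smul_left, inner_smul_right, inner_sub_left, inner_add_right, inner_e, conj_trivial]
    simp
    ring
  · simp only [inner_smul_left, inner_smul_right, inner_sub_left, inner_add_right, inner_e, conj_trivial]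
    simp
    ring

private theorem End3_zeta {L : Set E3} {N : E3 → E3} {h : ℝ} (hpos : ∀ q ∈ L, 0 ≤ q 2)
    (hv : ∀ q ∈ L, 0 < q 2 → q 2 < h → N q 2 ^ 2 = 1) {q : E3}
    {e : OrthonormalBasis (Fin 3) ℝ E3} {r : ℝ} {u : E2 → ℝ} (hu : ContDiffOn ℝ ∞ u (ball (0 : E2) r))
    (hp : ∀ y ∈ ball (0 : E2) r, (gr q e u y) 2 < h ∧ gr q e u y ∈ L ∧
        (N (gr q e u y) = nrm e u y ∨ N (gr q e u y) = -nrm e u y)) :
    ∀ y ∈ ball (0 : E2) r, HasFDerivAt (fun y => (gr q e u y) 2) (0 : E2 →L[ℝ] ℝ) y := by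
  intro y hy
  have hud : HasFDerivAt u (fderiv ℝ u y) y :=
    ((hu.contDiffAt (isOpen_ball.mem_nhds hy)).differentiableAt (by simp)).hasFDerivAt
  set D : E2 →L[ℝ] ℝ := ((e 0) 2) • (EuclideanSpace.proj (0 : Fin 2) : E2 →L[ℝ] ℝ) +
    ((e 1) 2) • (EuclideanSpace.proj (1 : Fin 2) : E2 →L[ℝ] ℝ) + ((e 2) 2) • fderiv ℝ u y with hD
  have hζ : HasFDerivAt (fun y => (gr q e u y) 2) D y := by
    have h1 : (fun y => (gr q e u y) 2) = fun y : E2 => q 2 + ((e 0) 2 * (EuclideanSpace.proj (0 : Fin 2) : E2 →L[ℝ] ℝ) y +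
        (e 1) 2 * (EuclideanSpace.proj (1 : Fin 2) : E2 →L[ℝ] ℝ) y + (e 2) 2 * u y) := by
      funext y
      unfold gr
      rw [End3_coord]
      have h2 : ∀ i : Fin 2, (EuclideanSpace.proj i : E2 →L[ℝ] ℝ) y = y i := fun _ => rfl
      rw [h2, h2]
      ring
    rw [h1, hD]
    exact ((((EuclideanSpace.proj (0 : Fin 2) : E2 →L[ℝ] ℝ).hasFDerivAt.const_mul _).add
      ((EuclideanSpace.proj (1 : Fin 2) : E2 →L[ℝ] ℝ).hasFDerivAt.const_mul _)).add
      (hud.const_mul _)).const_add _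
  suffices hD0 : D = 0 by
    rw [← hD0]
    exact hζ
  obtain ⟨hyh, hyL, hN⟩ := hp y hy
  rcases lt_or_ge 0 ((gr q e u y) 2) with hlt | hle
  · have h1 := hv _ hyL hlt hyh
    have hn2 : nrm e u y 2 ^ 2 = 1 := by
      rcases hN with hN | hN
      · rw [← hN]
        exact h1
      · rw [hN] at h1
        have h2 : (-nrm e u y) 2 = -(nrm e u y 2) := rfl
        rw [h2, neg_sq] at h1
        exact h1
    have h3 := End3_vert (norm_nrm e u y) hn2 _ (End3_inner e u y).1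
    have h4 := End3_vert (norm_nrm e u y) hn2 _ (End3_inner e u y).2
    have h3' : (e 0) 2 + pd 0 u y * (e 2) 2 = 0 := h3
    have h4' : (e 1) 2 + pd 1 u y * (e 2) 2 = 0 := h4
    ext v
    have hv : v = v 0 • (EuclideanSpace.single (0 : Fin 2) (1 : ℝ)) + v 1 • (EuclideanSpace.single (1 : Fin 2) (1 : ℝ)) := by
      ext i
      fin_cases i <;> simp
    have h5 : fderiv ℝ u y v = v 0 * pd 0 u y + v 1 * pd 1 u y := by
      conv_lhs => rw [hv]
      rw [map_add, map_smul, map_smul]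
      rfl
    show (e 0) 2 * v 0 + (e 1) 2 * v 1 + (e 2) 2 * fderiv ℝ u y v = 0
    rw [h5]
    linear_combination (v 0) * h3' + (v 1) * h4'
  · have hmin : IsLocalMin (fun y => (gr q e u y) 2) y := by
      filter_upwards [isOpen_ball.mem_nhds hy] with y' hy'
      exact hle.trans (hpos _ (hp y' hy').2.1)
    rw [← hζ.fderiv]
    exact hmin.fderiv_eq_zero

/-- a patch with all heights below `h`, hence of constant height -/
private theorem End3_patch {L : Set E3} {N : E3 → E3} (hL : IsMinLam L N) (hpos : ∀ q ∈ L, 0 ≤ q 2) {h : ℝ}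
    (hv : ∀ q ∈ L, 0 < q 2 → q 2 < h → N q 2 ^ 2 = 1) {q : E3} (hq : q ∈ L) (hqh : q 2 < h) :
    ∃ (e : OrthonormalBasis (Fin 3) ℝ E3) (r : ℝ) (u : E2 → ℝ), 0 < r ∧
      ∀ y ∈ ball (0 : E2) r, (gr q e u y) 2 = q 2 ∧ gr q e u y ∈ L := by
  obtain ⟨e, r, u, hr, hu, hp, hu0⟩ := exists_patch hL hq
  have h0 : (gr q e u 0) 2 = q 2 := by
    unfold gr
    rw [End3_coord, hu0]
    simp
  have hcu : ContinuousAt u 0 := (hu.continuousOn).continuousAt (isOpen_ball.mem_nhds (mem_ball_self hr))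
  have hcont : ContinuousAt (fun y => (gr q e u y) 2) 0 := by
    have h1 : (fun y => (gr q e u y) 2) =
        fun y : E2 => q 2 + (y 0 * (e 0) 2 + y 1 * (e 1) 2 + u y * (e 2) 2) := by
      funext y
      unfold gr
      rw [End3_coord]
    rw [h1]
    have c0 : ContinuousAt (fun y : E2 => y 0) 0 := by fun_prop
    have c1 : ContinuousAt (fun y : E2 => y 1) 0 := by fun_prop
    exact continuousAt_const.add (((c0.mul continuousAt_const).add (c1.mul continuousAt_const)).add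
      (hcu.mul continuousAt_const))
  have hev : ∀ᶠ y in 𝓝 (0 : E2), (gr q e u y) 2 < h :=
    hcont.eventually_lt continuousAt_const (by rw [h0]; exact hqh)
  obtain ⟨s, hs, hs'⟩ := Metric.eventually_nhds_iff_ball.1 hev
  have hsub : ∀ y ∈ ball (0 : E2) (min r s), y ∈ ball (0 : E2) r ∧ y ∈ ball (0 : E2) s := by
    intro y hy
    exact ⟨ball_subset_ball (min_le_left _ _) hy, ball_subset_ball (min_le_right _ _) hy⟩
  refine ⟨e, min r s, u, lt_min hr hs, ?_⟩
  have hp' : ∀ y ∈ ball (0 : E2) (min r s), (gr q e u y) 2 < h ∧ gr q e u y ∈ L ∧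
        (N (gr q e u y) = nrm e u y ∨ N (gr q e u y) = -nrm e u y) := by
    intro y hy
    obtain ⟨h1, h2⟩ := hsub y hy
    exact ⟨hs' y h2, (hp y h1).2.1, (hp y h1).2.2⟩
  have hu' : ContDiffOn ℝ ∞ u (ball (0 : E2) (min r s)) :=
    hu.mono (ball_subset_ball (min_le_left _ _))
  have hz := End3_zeta hpos hv hu' hp'
  intro y hy
  refine ⟨?_, (hp' y hy).2.1⟩
  have h1 : (gr q e u y) 2 = (gr q e u 0) 2 := by
    refine isOpen_ball.is_const_of_fderiv_eq_zero (𝕜 := ℝ) (f := fun y => (gr q e u y) 2)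
      (s := ball (0 : E2) (min r s))
      (convex_ball (0 : E2) (min r s)).isPreconnected ?_ ?_ hy (mem_ball_self (lt_min hr hs))
    · intro z hz'
      exact (hz z hz').differentiableAt.differentiableWithinAt
    · intro z hz'
      exact (hz z hz').fderiv
  rw [h1, h0]

private theorem End3_nhds {L : Set E3} {N : E3 → E3} (hL : IsMinLam L N) (hpos : ∀ q ∈ L, 0 ≤ q 2) {h : ℝ}
    (hv : ∀ q ∈ L, 0 < q 2 → q 2 < h → N q 2 ^ 2 = 1) {q : E3} (hq : q ∈ L) (hqh : q 2 < h) :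
    ∃ V : Set E3, IsOpen V ∧ q ∈ V ∧ ∀ q' ∈ V, q' 2 = q 2 → q' ∈ L := by
  obtain ⟨e, r, u, hr, hp⟩ := End3_patch hL hpos hv hq hqh
  have he : (e 2) 2 ≠ 0 := by
    intro he
    have h1 : ∀ y ∈ ball (0 : E2) r, y 0 * (e 0) 2 + y 1 * (e 1) 2 = 0 := by
      intro y hy
      have h2 := (hp y hy).1
      unfold gr at h2
      rw [End3_coord, he] at h2
      linarith
    have h3 : ∀ i : Fin 2, (r / 2) • (EuclideanSpace.single i (1 : ℝ) : E2) ∈ ball (0 : E2) r := by
      intro i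
      rw [mem_ball_zero_iff, norm_smul, EuclideanSpace.norm_single, Real.norm_of_nonneg (by positivity)]
      simp
      exact hr
    have h4 : (e 0) 2 = 0 := by
      have h5 := h1 _ (h3 0)
      simp at h5
      rcases h5 with h5 | h5
      · exact absurd h5 hr.ne'
      · exact h5
    have h5 : (e 1) 2 = 0 := by
      have h5 := h1 _ (h3 1)
      simp at h5
      rcases h5 with h5 | h5
      · exact absurd h5 hr.ne'
      · exact h5
    have h6 : (EuclideanSpace.single (2 : Fin 3) (1 : ℝ) : E3) = 0 := by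
      rw [← e.sum_repr' (EuclideanSpace.single (2 : Fin 3) (1 : ℝ) : E3)]
      rw [Fin.sum_univ_three]
      simp [h4, h5, he, EuclideanSpace.inner_single_right]
    have h7 := congrArg (fun x : E3 => x 2) h6
    simp at h7
  have hco : co q e q = 0 := by
    unfold co
    ext i
    fin_cases i <;> simp
  refine ⟨co q e ⁻¹' ball (0 : E2) r, isOpen_ball.preimage (continuous_co q e), ?_, ?_⟩
  · show co q e q ∈ ball (0 : E2) r
    rw [hco]
    exact mem_ball_self hr
  intro q' hq' hh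
  have h1 := (hp (co q e q') hq').1
  have h2 : q' 2 = (pt q e (co q e q') (ht q e q')) 2 := by rw [pt_co_ht]
  unfold gr at h1
  rw [End3_coord] at h1 h2
  have h3 : ht q e q' = u (co q e q') := by
    have h4 : (ht q e q' - u (co q e q')) * (e 2) 2 = 0 := by linarith
    exact sub_eq_zero.1 ((mul_eq_zero.1 h4).resolve_right he)
  have h5 := (hp (co q e q') hq').2
  unfold gr at h5
  rw [← h3, pt_co_ht] at h5
  exact h5

private theorem End3_plane {L : Set E3} {N : E3 → E3} (hL : IsMinLam L N) (hpos : ∀ q ∈ L, 0 ≤ q 2) {h : ℝ}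
    (hv : ∀ q ∈ L, 0 < q 2 → q 2 < h → N q 2 ^ 2 = 1) {q : E3} (hq : q ∈ L) (hqh : q 2 < h) {q' : E3}
    (hh : q' 2 = q 2) : q' ∈ L := by
  have hcont : Continuous fun x : E2 => (!₂[x 0, x 1, q 2] : E3) := by fun_prop
  have hclopen : IsClopen ((fun x : E2 => (!₂[x 0, x 1, q 2] : E3)) ⁻¹' L) := by
    refine ⟨hL.closed.preimage hcont, ?_⟩
    rw [isOpen_iff_mem_nhds]
    intro x hx
    obtain ⟨V, hV, hqV, hV'⟩ := End3_nhds hL hpos hv hx hqh
    filter_upwards [(hV.preimage hcont).mem_nhds hqV] with x' hx'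
    exact hV' _ hx' rfl
  have hpt : ∀ z : E3, z 2 = q 2 → (!₂[(!₂[z 0, z 1] : E2) 0, (!₂[z 0, z 1] : E2) 1, q 2] : E3) = z := by
    intro z hz
    ext i
    fin_cases i
    · rfl
    · rfl
    · exact hz.symm
  have huniv := hclopen.eq_univ ⟨!₂[q 0, q 1], by
    show (!₂[(!₂[q 0, q 1] : E2) 0, (!₂[q 0, q 1] : E2) 1, q 2] : E3) ∈ L
    rw [hpt q rfl]
    exact hq⟩
  have h1 : (!₂[q' 0, q' 1] : E2) ∈ ((fun x : E2 => (!₂[x 0, x 1, q 2] : E3)) ⁻¹' L) := by
    rw [huniv]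
    exact mem_univ _
  have h2 : (!₂[(!₂[q' 0, q' 1] : E2) 0, (!₂[q' 0, q' 1] : E2) 1, q 2] : E3) ∈ L := h1
  rwa [hpt q' hh] at h2

/-- PIECE [SH-8e] (this file, about 150 lines). PROOF. As `planes_of_vertical` (End2.lean; its private lemmas may be made public or copied): for `q ∈ L`, `q 2 < h` shrink the patch so that all its points have height `< h`: at each point of the patch
`N_3 ^ 2 = 1` or the height is `0`, the minimum on `L`. So the height is constant on the patch, and the set of the points of the plane of height `q 2` in `L` is open and closed in this plane. `C = {v | !₂[0, 0, v] ∈ L}`. -/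
theorem planes_local {L : Set E3} {N : E3 → E3} (hL : IsMinLam L N) (hpos : ∀ q ∈ L, 0 ≤ q 2) {h : ℝ}
    (hv : ∀ q ∈ L, 0 < q 2 → q 2 < h → N q 2 ^ 2 = 1) :
    ∃ C : Set ℝ, IsClosed C ∧ L ∩ {q | q 2 < h} = {q | q 2 ∈ C ∧ q 2 < h} := by
  have hcont : Continuous fun v : ℝ => (!₂[0, 0, v] : E3) := by fun_prop
  refine ⟨{v | (!₂[0, 0, v] : E3) ∈ L}, hL.closed.preimage hcont, ?_⟩
  ext q
  constructor
  · rintro ⟨hq, hqh⟩
    refine ⟨?_, hqh⟩
    show (!₂[0, 0, q 2] : E3) ∈ L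
    exact End3_plane hL hpos hv hq hqh rfl
  · rintro ⟨hq, hqh⟩
    refine ⟨?_, hqh⟩
    have hq' : (!₂[0, 0, q 2] : E3) ∈ L := hq
    exact End3_plane hL hpos hv hq' hqh rfl

end Pool.Agent.ML
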