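import Pool.Agent.Lib_MP_7d1493.Surf

/-!
# Green's identity with a function of the height
-/

set_option autoImplicit false

open MeasureTheory Measure Set Metric Filter Topology
open scoped ENNReal InnerProductSpace ContDiff

namespace Pool.Agent.ML

/-- the vertical unit vector -/
noncomputable def ez : E3 := EuclideanSpace.single 2 1

/-- PIECE [SH-3b] (this file, about 130 lines). The trace of `v ↦ ⟪a, v⟫ w` on the plane orthogonal to `n` is `⟪a, w⟫ - ⟪a, n⟫ ⟪w, n⟫`. -/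
theorem trN_rankOne (a w n : E3) : trN ((innerSL ℝ a).smulRight w) n = ⟪a, w⟫_ℝ - ⟪a, n⟫_ℝ * ⟪w, n⟫_ℝ := by
  have e : OrthonormalBasis (Fin 3) ℝ E3 := EuclideanSpace.basisFun (Fin 3) ℝ
  rw [trN_eq_sum e]
  congr 1
  · rw [← e.sum_inner_mul_inner a w]
    refine Finset.sum_congr rfl fun i _ => ?_
    rw [ContinuousLinearMap.smulRight_apply, innerSL_apply_apply, inner_smul_right]
  · rw [ContinuousLinearMap.smulRight_apply, innerSL_apply_apply, real_inner_smul_left]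

private theorem inner_ez (v : E3) : ⟪ez, v⟫_ℝ = v 2 := by
  unfold ez
  rw [EuclideanSpace.inner_single_left]
  simp

private theorem hasFDerivAt_ht {ψ ψ1 : ℝ → ℝ} (h : ∀ z, HasDerivAt ψ (ψ1 z) z) (q : E3) :
    HasFDerivAt (fun q : E3 => ψ (q 2)) (ψ1 (q 2) • innerSL ℝ ez) q := by
  have h1 : HasFDerivAt (fun q : E3 => q 2) (innerSL ℝ ez) q := by
    have h2 : (fun q : E3 => q 2) = fun q => innerSL ℝ ez q := by
      funext q
      rw [innerSL_apply_apply, inner_ez]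
    rw [h2]
    exact (innerSL ℝ ez).hasFDerivAt
  exact (h (q 2)).comp_hasFDerivAt q h1

private theorem hasFDerivAt_X {ψ ψ1 ψ2 : ℝ → ℝ} (hψ : D2 ψ ψ1 ψ2) {b : E3 → ℝ} {Y : E3 → E3} (hb : TP b Y) (q : E3) :
    HasFDerivAt (fun q : E3 => ψ (q 2) • Y q - (b q * ψ1 (q 2)) • ez)
      (ψ (q 2) • fderiv ℝ Y q + ψ1 (q 2) • (innerSL ℝ ez).smulRight (Y q) +
        ((-(b q * ψ2 (q 2))) • (innerSL ℝ ez).smulRight ez + (-(ψ1 (q 2))) • (innerSL ℝ (Y q)).smulRight ez)) q := by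
  have h1 := hasFDerivAt_ht hψ.d1 q
  have h2 := hasFDerivAt_ht hψ.d2 q
  have hY : HasFDerivAt Y (fderiv ℝ Y q) q := (hb.smooth.differentiable one_ne_zero q).hasFDerivAt
  have h3 := (h1.smul hY).sub (((hb.grad q).mul h2).smul_const ez)
  refine h3.congr_fderiv ?_
  ext1 v
  simp only [_root_.sub_apply, _root_.add_apply, _root_.smul_apply, ContinuousLinearMap.smulRight_apply,
    smul_eq_mul]
  module

/-- PROOF. `X q = ψ (q 2) • Y q - (b q * ψ1 (q 2)) • ez`. `fderiv X q v = ψ1 v_2 Y + ψ (fderiv Y v) - ψ1 ⟪Y, v⟫ ez - b ψ2 v_2 ez`; the rank one terms `ψ1 v_2 Y` and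
`ψ1 ⟪Y, v⟫ ez` have the same trace (`trN_rankOne`), the last one the trace `1 - (n 2) ^ 2` (`‖n‖ = 1`). -/
theorem trN_fderiv_X {ψ ψ1 ψ2 : ℝ → ℝ} (hψ : D2 ψ ψ1 ψ2) {b : E3 → ℝ} {Y : E3 → E3} (hb : TP b Y) (q n : E3) (hn : ‖n‖ = 1) :
    trN (fderiv ℝ (fun q : E3 => ψ (q 2) • Y q - (b q * ψ1 (q 2)) • ez) q) n =
      ψ (q 2) * trN (fderiv ℝ Y q) n - b q * ψ2 (q 2) * (1 - n 2 ^ 2) := by
  rw [(hasFDerivAt_X hψ hb q).fderiv]
  simp only [trN_add, trN_smul, trN_rankOne, inner_ez, real_inner_comm ez (Y q)]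
  have h : (ez : E3) 2 = 1 := by
    unfold ez
    simp
  rw [h]
  ring

private theorem TP.contDiff_one {b : E3 → ℝ} {Y : E3 → E3} (hb : TP b Y) : ContDiff ℝ 1 b := by
  rw [contDiff_one_iff_fderiv]
  refine ⟨fun q => (hb.grad q).differentiableAt, ?_⟩
  have h : fderiv ℝ b = fun q => innerSL ℝ (Y q) := by
    funext q
    exact (hb.grad q).fderiv
  rw [h]
  exact (innerSL ℝ).continuous.comp hb.smooth.continuous

private theorem contDiff_one_of {ψ ψ1 : ℝ → ℝ} (h : ∀ z, HasDerivAt ψ (ψ1 z) z) (hc : Continuous ψ1) :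
    ContDiff ℝ 1 ψ := by
  rw [contDiff_one_iff_deriv]
  refine ⟨fun z => (h z).differentiableAt, ?_⟩
  have h1 : deriv ψ = ψ1 := by
    funext z
    exact (h z).deriv
  rw [h1]
  exact hc

theorem contDiff_X {ψ ψ1 ψ2 : ℝ → ℝ} (hψ : D2 ψ ψ1 ψ2) {b : E3 → ℝ} {Y : E3 → E3} (hb : TP b Y) :
    ContDiff ℝ 1 (fun q : E3 => ψ (q 2) • Y q - (b q * ψ1 (q 2)) • ez) := by
  have h1 : ContDiff ℝ 1 ψ :=
    contDiff_one_of hψ.d1 (continuous_iff_continuousAt.2 fun z => (hψ.d2 z).continuousAt)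
  have h2 : ContDiff ℝ 1 ψ1 := contDiff_one_of hψ.d2 hψ.cont
  have h3 : ContDiff ℝ 1 (fun q : E3 => q 2) := by
    have h4 : (fun q : E3 => q 2) = fun q => innerSL ℝ ez q := by
      funext q
      rw [innerSL_apply_apply, inner_ez]
    rw [h4]
    exact (innerSL ℝ ez).contDiff
  exact ((h1.comp h3).smul hb.smooth).sub (((hb.contDiff_one).mul (h2.comp h3)).smul contDiff_const)

private theorem TP.zero_off {b : E3 → ℝ} {Y : E3 → E3} (hb : TP b Y) {q : E3} (hq : q ∉ tsupport b) :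
    b q = 0 ∧ Y q = 0 := by
  have h1 : b =ᶠ[𝓝 q] fun _ => (0 : ℝ) := notMem_tsupport_iff_eventuallyEq.1 hq
  refine ⟨h1.self_of_nhds, ?_⟩
  have h2 : HasFDerivAt b (0 : E3 →L[ℝ] ℝ) q := (hasFDerivAt_const (0 : ℝ) q).congr_of_eventuallyEq h1
  have h3 := h2.unique (hb.grad q)
  have h4 : innerSL ℝ (Y q) (Y q) = 0 := by
    rw [← h3]
    rfl
  rw [innerSL_apply_apply] at h4
  exact inner_self_eq_zero.1 h4

private theorem norm_one {U S : Set E3} {N : E3 → E3} (hS : IsMinSurf U S N) {q : E3} (hq : q ∈ S) : ‖N q‖ = 1 := by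
  obtain ⟨e, r, u, hr, -, -, -, -, hN⟩ := hS.patch q hq
  rcases hN q ⟨hq, mem_cyl_self q e hr⟩ with h | h
  · rw [h]
    exact norm_nrm e u _
  · rw [h, norm_neg]
    exact norm_nrm e u _

/-- on the surface `‖N q‖ = 1` (`norm_nrm`); `first_variation` for `X`; `tsupport X ⊆ tsupport b` -/
theorem surf_green {U S : Set E3} {N : E3 → E3} (hU : IsOpen U) (hS : IsMinSurf U S N) {ψ ψ1 ψ2 : ℝ → ℝ} (hψ : D2 ψ ψ1 ψ2)
    {b : E3 → ℝ} {Y : E3 → E3} (hb : TP b Y) (hc : HasCompactSupport b) (hs : tsupport b ⊆ U) :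
    IntegrableOn (itg N ψ ψ2 b Y) S μHE[2] ∧ ∫ q in S, itg N ψ ψ2 b Y q ∂μHE[2] = 0 := by
  have hsub : tsupport (fun q : E3 => ψ (q 2) • Y q - (b q * ψ1 (q 2)) • ez) ⊆ tsupport b := by
    refine closure_minimal (fun q hq => ?_) (isClosed_tsupport b)
    by_contra hcon
    obtain ⟨h1, h2⟩ := hb.zero_off hcon
    apply hq
    simp only [h1, h2, smul_zero, zero_mul, zero_smul, sub_zero]
  have hcX : HasCompactSupport (fun q : E3 => ψ (q 2) • Y q - (b q * ψ1 (q 2)) • ez) :=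
    hc.of_isClosed_subset (isClosed_tsupport _) hsub
  obtain ⟨h1, h2⟩ := first_variation hU hS (contDiff_X hψ hb) hcX (hsub.trans hs)
  have hm := measurableSet_surf hU hS
  have heq : ∀ q ∈ S, trN (fderiv ℝ (fun q : E3 => ψ (q 2) • Y q - (b q * ψ1 (q 2)) • ez) q) (N q) =
      itg N ψ ψ2 b Y q := fun q hq => trN_fderiv_X hψ hb q (N q) (norm_one hS hq)
  exact ⟨h1.congr_fun heq hm, (setIntegral_congr_fun hm heq).symm.trans h2⟩

end Pool.Agent.ML
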