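import Pool.Agent.Lib_MP_7d1493.Cube

/-!
# The test function for a halfspace
-/

set_option autoImplicit false

open MeasureTheory Measure Set Metric Filter Topology
open scoped ENNReal InnerProductSpace ContDiff

namespace Pool.Agent.ML

/-- the function of the halfspace -/
noncomputable def GB (c : ℝ) (q : E3) : ℝ := c - F (‖q‖ ^ 2) + 16 * (q 2 ^ 2 * F1 (‖q‖ ^ 2))

/-- its gradient -/
noncomputable def YB (q : E3) : E3 :=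
  (-(2 * F1 (‖q‖ ^ 2)) + 32 * (q 2 ^ 2 * F2 (‖q‖ ^ 2))) • q + (32 * (q 2 * F1 (‖q‖ ^ 2))) • ez

private theorem hnsq (q : E3) : HasFDerivAt (fun q : E3 => ‖q‖ ^ 2) (innerSL ℝ ((2 : ℝ) • q)) q := by
  have h := (hasStrictFDerivAt_norm_sq q).hasFDerivAt
  refine h.congr_fderiv ?_
  ext v
  simp [two_smul]

private theorem hcoord (q : E3) : HasFDerivAt (fun q : E3 => q 2) (innerSL ℝ ez) q := by
  have h := (EuclideanSpace.proj (2 : Fin 3) : E3 →L[ℝ] ℝ).hasFDerivAt (x := q)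
  refine h.congr_fderiv ?_
  ext v
  simp [ez, EuclideanSpace.inner_single_left]

private theorem hF1n (q : E3) : HasFDerivAt (fun q : E3 => F1 (‖q‖ ^ 2)) (innerSL ℝ ((F2 (‖q‖ ^ 2) * 2) • q)) q := by
  have h := (hasDerivAt_F1 (sq_nonneg ‖q‖)).comp_hasFDerivAt q (hnsq q)
  refine h.congr_fderiv ?_
  ext v
  simp
  try ring

private theorem hFn (q : E3) : HasFDerivAt (fun q : E3 => F (‖q‖ ^ 2)) (innerSL ℝ ((F1 (‖q‖ ^ 2) * 2) • q)) q := by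
  have h := (hasDerivAt_F (sq_nonneg ‖q‖)).comp_hasFDerivAt q (hnsq q)
  refine h.congr_fderiv ?_
  ext v
  simp
  try ring

private theorem hF2n (q : E3) : HasFDerivAt (fun q : E3 => F2 (‖q‖ ^ 2)) (innerSL ℝ ((F3 (‖q‖ ^ 2) * 2) • q)) q := by
  have h := (F3_nonneg (sq_nonneg ‖q‖)).1.comp_hasFDerivAt q (hnsq q)
  refine h.congr_fderiv ?_
  ext v
  simp
  try ring

private theorem cd_nsq : ContDiff ℝ 1 (fun q : E3 => ‖q‖ ^ 2) := contDiff_norm_sq ℝ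

private theorem cd_F1n : ContDiff ℝ 1 (fun q : E3 => F1 (‖q‖ ^ 2)) := by
  rw [contDiff_iff_contDiffAt]
  intro q
  exact ContDiffAt.comp (g := F1) (f := fun q : E3 => ‖q‖ ^ 2) q
    ((contDiffAt_F (sq_nonneg ‖q‖)).2.1.of_le (mod_cast le_top)) cd_nsq.contDiffAt

private theorem cd_F2n : ContDiff ℝ 1 (fun q : E3 => F2 (‖q‖ ^ 2)) := by
  rw [contDiff_iff_contDiffAt]
  intro q
  exact ContDiffAt.comp (g := F2) (f := fun q : E3 => ‖q‖ ^ 2) q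
    ((contDiffAt_F (sq_nonneg ‖q‖)).2.2.of_le (mod_cast le_top)) cd_nsq.contDiffAt

private theorem cd_coord : ContDiff ℝ 1 (fun q : E3 => q 2) :=
  (EuclideanSpace.proj (2 : Fin 3) : E3 →L[ℝ] ℝ).contDiff

/-- PIECE [SH-5e] (this file, about 250 lines). -/
theorem TP_GB (c : ℝ) : TP (GB c) YB := by
  constructor
  · intro q
    have h := ((hFn q).const_sub c).add ((((hcoord q).pow 2).mul (hF1n q)).const_mul 16)
    refine h.congr_fderiv ?_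
    ext v
    simp [YB]
    ring
  · have h1 := cd_F1n
    have h2 := cd_F2n
    have h3 := cd_coord
    unfold YB
    exact ((((h1.const_smul (2:ℝ)).neg.add ((((h3.pow 2).mul h2)).const_smul (32:ℝ))).smul contDiff_id)).add
      (((h3.mul h1).const_smul (32:ℝ)).smul contDiff_const)

private theorem trN_id {n : E3} (hn : ‖n‖ = 1) : trN (ContinuousLinearMap.id ℝ E3) n = 2 := by
  unfold trN
  have h1 : ⟪(ContinuousLinearMap.id ℝ E3) n, n⟫_ℝ = 1 := by simp [hn]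
  have h2 : LinearMap.trace ℝ E3 ((ContinuousLinearMap.id ℝ E3 : E3 →L[ℝ] E3) : E3 →ₗ[ℝ] E3) = 3 := by
    rw [ContinuousLinearMap.coe_id, LinearMap.trace_id]
    simp
  rw [h1, h2]
  norm_num

private theorem hYB (q : E3) : HasFDerivAt YB
    ((-(2 * F1 (‖q‖ ^ 2)) + 32 * (q 2 ^ 2 * F2 (‖q‖ ^ 2))) • ContinuousLinearMap.id ℝ E3 +
      (innerSL ℝ ((-4 * F2 (‖q‖ ^ 2) + 64 * (q 2 ^ 2 * F3 (‖q‖ ^ 2))) • q + (64 * (q 2 * F2 (‖q‖ ^ 2))) • ez)).smulRight q +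
      (innerSL ℝ ((32 * F1 (‖q‖ ^ 2)) • ez + (64 * (q 2 * F2 (‖q‖ ^ 2))) • q)).smulRight ez) q := by
  have h1 := ((hF1n q).const_mul (2 : ℝ)).neg.add ((((hcoord q).pow 2).mul (hF2n q)).const_mul 32)
  have h2 := (((hcoord q).mul (hF1n q)).const_mul (32 : ℝ))
  have h := (h1.smul (hasFDerivAt_id q)).add (h2.smul_const ez)
  refine HasFDerivAt.congr_fderiv h ?_
  ext v i
  simp
  ring

/-- the trace in coordinates -/
private theorem trN_YB_eq (q n : E3) (hn : ‖n‖ = 1) : trN (fderiv ℝ YB q) n =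
    -4 * F1 (‖q‖ ^ 2) - 4 * F2 (‖q‖ ^ 2) * (‖q‖ ^ 2 - ⟪q, n⟫_ℝ ^ 2) + 32 * F1 (‖q‖ ^ 2) * (1 - n 2 ^ 2) +
      128 * (q 2 * F2 (‖q‖ ^ 2)) * (q 2 - n 2 * ⟪q, n⟫_ℝ) + 64 * (q 2 ^ 2 * F2 (‖q‖ ^ 2)) +
      64 * (q 2 ^ 2 * F3 (‖q‖ ^ 2)) * (‖q‖ ^ 2 - ⟪q, n⟫_ℝ ^ 2) := by
  have e1 : ∀ v : E3, ⟪ez, v⟫_ℝ = v 2 := by
    intro v
    simp [ez, EuclideanSpace.inner_single_left]
  have e2 : ∀ v : E3, ⟪v, ez⟫_ℝ = v 2 := by
    intro v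
    rw [real_inner_comm, e1]
  have e3 : ez 2 = 1 := by simp [ez]
  rw [(hYB q).fderiv, trN_add, trN_add, trN_smul, trN_id hn, trN_rankOne, trN_rankOne]
  simp only [inner_add_left, inner_smul_left, e1, e2, real_inner_self_eq_norm_sq]
  simp [e3]
  ring

private theorem cs2 (x0 x1 n0 n1 : ℝ) : (x0 * n0 + x1 * n1) ^ 2 ≤ (x0 ^ 2 + x1 ^ 2) * (n0 ^ 2 + n1 ^ 2) := by
  have : (x0 ^ 2 + x1 ^ 2) * (n0 ^ 2 + n1 ^ 2) = (x0 * n0 + x1 * n1) ^ 2 + (x0 * n1 - x1 * n0) ^ 2 := by ring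
  rw [this]
  exact le_add_of_nonneg_right (sq_nonneg _)

private theorem cs3 (x0 x1 x2 n0 n1 n2 : ℝ) : (x0 * n0 + x1 * n1 + x2 * n2) ^ 2 ≤
    (x0 ^ 2 + x1 ^ 2 + x2 ^ 2) * (n0 ^ 2 + n1 ^ 2 + n2 ^ 2) := by
  have : (x0 ^ 2 + x1 ^ 2 + x2 ^ 2) * (n0 ^ 2 + n1 ^ 2 + n2 ^ 2) = (x0 * n0 + x1 * n1 + x2 * n2) ^ 2 +
      ((x0 * n1 - x1 * n0) ^ 2 + (x0 * n2 - x2 * n0) ^ 2 + (x1 * n2 - x2 * n1) ^ 2) := by ring
  rw [this]
  exact le_add_of_nonneg_right (by positivity)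

private theorem G_le {a G S : ℝ} (hS0 : 0 ≤ S) (ha1 : a * (1 + S) ≤ 1) (hGa : G * (1 + S) ≤ 2 * a) :
    G ≤ 2 / (1 + S) ^ 2 := by
  have h1S : 0 < 1 + S := by linarith
  rw [le_div_iff₀ (by positivity)]
  have h := mul_le_mul_of_nonneg_right hGa h1S.le
  have e : G * (1 + S) ^ 2 = G * (1 + S) * (1 + S) := by ring
  rw [e]
  linarith

private theorem ind_le {a S G : ℝ} (hS0 : 0 ≤ S) (hadd : a - S * G ≤ if S ≤ 3 then 1 else 0) :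
    a - S * G ≤ 16 / (1 + S) ^ 2 := by
  have h1S : 0 < 1 + S := by linarith
  refine hadd.trans ?_
  split_ifs with h3
  · rw [le_div_iff₀ (by positivity), one_mul]
    calc (1 + S) ^ 2 ≤ 4 ^ 2 := pow_le_pow_left₀ h1S.le (by linarith) 2
      _ = 16 := by norm_num
  · positivity

private theorem mixed {a G s m z n2 h : ℝ} (ha : 0 < a) (hG : 0 ≤ G) (hm0 : 0 ≤ m) (hn2 : n2 ^ 2 ≤ 1)
    (hh2 : h ^ 2 ≤ s * m) (hGs : G * s ≤ 2 * a) :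
    -(16 * a * m + 512 * G * z ^ 2) ≤ 128 * G * (z * n2) * h := by
  have h1 : (128 * G * (z * n2) * h) ^ 2 ≤ (16 * a * m + 512 * G * z ^ 2) ^ 2 := by
    have h2 : (128 * G * (z * n2) * h) ^ 2 ≤ 16384 * (G ^ 2 * z ^ 2 * (s * m)) := by
      have h3 : n2 ^ 2 * h ^ 2 ≤ 1 * (s * m) :=
        mul_le_mul hn2 hh2 (sq_nonneg _) zero_le_one
      have h4 : G ^ 2 * z ^ 2 * (n2 ^ 2 * h ^ 2) ≤ G ^ 2 * z ^ 2 * (1 * (s * m)) :=
        mul_le_mul_of_nonneg_left h3 (by positivity)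
      have h8 : (128 * G * (z * n2) * h) ^ 2 = 16384 * (G ^ 2 * z ^ 2 * (n2 ^ 2 * h ^ 2)) := by ring
      rw [h8]
      linarith
    have h5 : G ^ 2 * z ^ 2 * (s * m) ≤ 2 * a * (G * z ^ 2 * m) := by
      have h6 : G * s * (G * z ^ 2 * m) ≤ 2 * a * (G * z ^ 2 * m) :=
        mul_le_mul_of_nonneg_right hGs (by positivity)
      have h8 : G * s * (G * z ^ 2 * m) = G ^ 2 * z ^ 2 * (s * m) := by ring
      linarith
    have h9 : (16 * a * m + 512 * G * z ^ 2) ^ 2 - (16 * a * m - 512 * G * z ^ 2) ^ 2 =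
        16384 * (2 * a * (G * z ^ 2 * m)) := by ring
    linarith [sq_nonneg (16 * a * m - 512 * G * z ^ 2)]
  have h7 : 0 ≤ 16 * a * m + 512 * G * z ^ 2 := by positivity
  exact (abs_le.mp (abs_le_of_sq_le_sq h1 h7)).1

private theorem square {a G s m z n2 h t : ℝ} (hG : 0 ≤ G) (hm0 : 0 ≤ m) (hn2 : n2 ^ 2 ≤ 1)
    (hh2 : h ^ 2 ≤ s * m) (hGs : G * s ≤ 2 * a) (htt : t = z * n2 + h) :
    -(8 * G * z ^ 2) - 16 * a * m ≤ -(4 * G * t ^ 2) := by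
  have h1 : t ^ 2 ≤ 2 * z ^ 2 + 2 * (s * m) := by
    have h2 : t ^ 2 + (z * n2 - h) ^ 2 = 2 * (z ^ 2 * n2 ^ 2) + 2 * h ^ 2 := by
      rw [htt]
      ring
    have h3 : z ^ 2 * n2 ^ 2 ≤ z ^ 2 * 1 := mul_le_mul_of_nonneg_left hn2 (sq_nonneg z)
    linarith [sq_nonneg (z * n2 - h)]
  have h4 : G * t ^ 2 ≤ G * (2 * z ^ 2 + 2 * (s * m)) := mul_le_mul_of_nonneg_left h1 hG
  have h5 : G * s * m ≤ 2 * a * m := mul_le_mul_of_nonneg_right hGs hm0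
  have h6 : G * (2 * z ^ 2 + 2 * (s * m)) = 2 * (G * z ^ 2) + 2 * (G * s * m) := by ring
  linarith

private theorem real_bound {x0 x1 z n0 n1 n2 S t m a G f3 : ℝ} (hS : S = x0 ^ 2 + x1 ^ 2 + z ^ 2)
    (hn : n0 ^ 2 + n1 ^ 2 + n2 ^ 2 = 1) (ht : t = x0 * n0 + x1 * n1 + z * n2) (hm : m = 1 - n2 ^ 2) (ha : 0 < a)
    (ha1 : a * (1 + S) ≤ 1) (hG : 0 ≤ G) (hGa : G * (1 + S) ≤ 2 * a) (hf3 : 0 ≤ f3)
    (hadd : a - S * G ≤ if S ≤ 3 then 1 else 0) :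
    -(1424 * ((1 + z ^ 2) / (1 + S) ^ 2)) ≤
      -4 * a - 4 * (-G) * (S - t ^ 2) + 32 * a * m + 128 * (z * (-G)) * (z - n2 * t) + 64 * (z ^ 2 * (-G)) +
        64 * (z ^ 2 * f3) * (S - t ^ 2) := by
  have hS0 : 0 ≤ S := by rw [hS]; positivity
  have hmn : m = n0 ^ 2 + n1 ^ 2 := by rw [hm]; linarith
  have hm0 : 0 ≤ m := by rw [hmn]; positivity
  have hn2 : n2 ^ 2 ≤ 1 := by linarith
  have hh2 : (x0 * n0 + x1 * n1) ^ 2 ≤ (x0 ^ 2 + x1 ^ 2) * m := by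
    rw [hmn]
    exact cs2 x0 x1 n0 n1
  have hs0 : 0 ≤ x0 ^ 2 + x1 ^ 2 := by positivity
  have hSt : t ^ 2 ≤ S := by
    have := cs3 x0 x1 z n0 n1 n2
    rw [hn, ← ht, ← hS, mul_one] at this
    exact this
  have htt : t = z * n2 + (x0 * n0 + x1 * n1) := by rw [ht]; ring
  have hSs : x0 ^ 2 + x1 ^ 2 ≤ 1 + S := by rw [hS]; linarith [sq_nonneg z]
  generalize x0 * n0 + x1 * n1 = h at hh2 htt
  generalize x0 ^ 2 + x1 ^ 2 = s at hh2 hs0 hSs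
  clear hS ht hn hmn
  -- the term with `F3`
  have t3 : 0 ≤ 64 * (z ^ 2 * f3) * (S - t ^ 2) := by
    have : 0 ≤ S - t ^ 2 := by linarith
    positivity
  have hGs : G * s ≤ 2 * a := (mul_le_mul_of_nonneg_left hSs hG).trans hGa
  have hG2 := G_le hS0 ha1 hGa
  have h1S : 0 < 1 + S := by linarith
  have t1 := ind_le hS0 hadd
  have t2 := square hG hm0 hn2 hh2 hGs htt
  have t4 := mixed (z := z) ha hG hm0 hn2 hh2 hGs
  have hzn : z ^ 2 * (1 - n2 ^ 2) ≤ z ^ 2 := by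
    have : z ^ 2 * (1 - n2 ^ 2) ≤ z ^ 2 * 1 := mul_le_mul_of_nonneg_left (by linarith [sq_nonneg n2]) (sq_nonneg z)
    linarith
  have t5 : G * (z ^ 2 * (1 - n2 ^ 2)) ≤ G * z ^ 2 := mul_le_mul_of_nonneg_left hzn hG
  have t6 : G * z ^ 2 ≤ 2 / (1 + S) ^ 2 * z ^ 2 := mul_le_mul_of_nonneg_right hG2 (sq_nonneg z)
  have e0 : 128 * (z * (-G)) * (z - n2 * t) = -(128 * (G * (z ^ 2 * (1 - n2 ^ 2)))) + 128 * G * (z * n2) * h := by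
    rw [htt]; ring
  have e1 : -(1424 * ((1 + z ^ 2) / (1 + S) ^ 2)) = -(4 * (16 / (1 + S) ^ 2)) - 712 * (2 / (1 + S) ^ 2 * z ^ 2) - 1360 / (1 + S) ^ 2 := by
    field_simp
    ring
  have e2 : 0 ≤ 1360 / (1 + S) ^ 2 := by positivity
  have e3 : -4 * a - 4 * (-G) * (S - t ^ 2) = -4 * (a - S * G) - 4 * G * t ^ 2 := by ring
  rw [e0, e1, e3]
  linarith

/-- PROOF. Put `S = ‖q‖ ^ 2`, `z = q 2`, `t = ⟪q, n⟫`, `m = 1 - (n 2) ^ 2`, `s = S - z ^ 2`. `trN id = 2`. The trace is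
`- 4 F1 - 4 F2 (S - t ^ 2) + 16 (2 F1 m + 8 z F2 (z - n 2 t) + z ^ 2 (4 F2 + 4 F3 (S - t ^ 2)))`.
`- 4 F1 - 4 S F2 ≥ - 4 [S ≤ 3]`; `4 F2 t ^ 2 ≥ - 8 |F2| z ^ 2 - 8 |F2| s m` (`t = n 2 z + (horizontal part)`, the horizontal part is at most `√s √m`);
`8 |F2| s ≤ 16 F1` (`F1_facts`); `8 z F2 (z - n 2 t) ≥ - 16 |F2| z ^ 2 - F1 m - 16 F2 ^ 2 z ^ 2 s / F1` and `F2 ^ 2 s / F1 ≤ 4 F1 / (1 + S)`; `F3 ≥ 0`, `S ≥ t ^ 2`. Sum:
at least `- 4 [S ≤ 3] + 16 F1 m - 16 F1 m - K' z ^ 2 / (1 + S) ^ 2` with `K' = 16 + 16 * 104 = 1680` (`|F2| ≤ 2 F1 / (1 + S)`, `F1 ≤ 1 / (1 + S)`), and `[S ≤ 3] ≤ 16 / (1 + S) ^ 2`.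
(The constant is free: any `K` will do.) -/
theorem trN_YB : ∃ K : ℝ, 0 < K ∧ ∀ q n : E3, ‖n‖ = 1 →
    -(K * ((1 + q 2 ^ 2) / (1 + ‖q‖ ^ 2) ^ 2)) ≤ trN (fderiv ℝ YB q) n := by
  refine ⟨1424, by norm_num, ?_⟩
  intro q n hn
  rw [trN_YB_eq q n hn]
  have hS0 : 0 ≤ ‖q‖ ^ 2 := sq_nonneg _
  obtain ⟨h1, h2, h3, h4, -⟩ := F1_facts hS0
  have h5 := F1_add hS0
  have h6 := (F3_nonneg hS0).2
  have hq : ‖q‖ ^ 2 = q 0 ^ 2 + q 1 ^ 2 + q 2 ^ 2 := by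
    rw [EuclideanSpace.norm_sq_eq, Fin.sum_univ_three]
    simp
  have hnn : n 0 ^ 2 + n 1 ^ 2 + n 2 ^ 2 = 1 := by
    have : ‖n‖ ^ 2 = n 0 ^ 2 + n 1 ^ 2 + n 2 ^ 2 := by
      rw [EuclideanSpace.norm_sq_eq, Fin.sum_univ_three]
      simp
    rw [← this, hn]
    norm_num
  have ht : ⟪q, n⟫_ℝ = q 0 * n 0 + q 1 * n 1 + q 2 * n 2 := by
    rw [PiLp.inner_apply, Fin.sum_univ_three]
    simp
    ring
  have h1S : 0 < 1 + ‖q‖ ^ 2 := by linarith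
  have habs : |F2 (‖q‖ ^ 2)| = -F2 (‖q‖ ^ 2) := abs_of_nonpos h3
  have key := real_bound (a := F1 (‖q‖ ^ 2)) (G := -F2 (‖q‖ ^ 2)) (f3 := F3 (‖q‖ ^ 2)) hq hnn ht rfl h1
    (by rwa [le_div_iff₀ h1S] at h2) (by linarith) (by rwa [habs, le_div_iff₀ h1S] at h4) h6
    (by
      have : F1 (‖q‖ ^ 2) - ‖q‖ ^ 2 * -F2 (‖q‖ ^ 2) = F1 (‖q‖ ^ 2) + ‖q‖ ^ 2 * F2 (‖q‖ ^ 2) := by ring
      rw [this]
      exact h5)
  rw [neg_neg] at key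
  exact key

/-- PROOF. `0 ≤ z ^ 2 F1 (S) ≤ 1`; `GB ≤ 0` if `F (‖q‖ ^ 2) ≥ c + 16`: compact support (`F_facts`). `TP.cube`; `max (GB c q) 0 ≤ c + 16`. -/
theorem half_test : ∃ K : ℝ, 0 < K ∧ ∀ c : ℝ, 0 ≤ c → ∃ (b : E3 → ℝ) (Y : E3 → E3), TP b Y ∧ HasCompactSupport b ∧
    (∀ q : E3, b q = (max (GB c q) 0) ^ 3 ∧ c - F (‖q‖ ^ 2) ≤ GB c q) ∧
    ∀ q n : E3, ‖n‖ = 1 → -(K * (c + 16) ^ 2 * ((1 + q 2 ^ 2) / (1 + ‖q‖ ^ 2) ^ 2)) ≤ trN (fderiv ℝ Y q) n := by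
  obtain ⟨K, hK, hKt⟩ := trN_YB
  have hz : ∀ q : E3, 0 ≤ q 2 ^ 2 * F1 (‖q‖ ^ 2) ∧ q 2 ^ 2 * F1 (‖q‖ ^ 2) ≤ 1 := by
    intro q
    have hS0 : 0 ≤ ‖q‖ ^ 2 := sq_nonneg _
    obtain ⟨h1, h2, -⟩ := F1_facts hS0
    refine ⟨by positivity, ?_⟩
    have hq : q 2 ^ 2 ≤ ‖q‖ ^ 2 := by
      rw [EuclideanSpace.norm_sq_eq, Fin.sum_univ_three]
      simp
      positivity
    have h1S : 0 < 1 + ‖q‖ ^ 2 := by linarith
    rw [le_div_iff₀ h1S] at h2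
    nlinarith
  refine ⟨3 * K, by positivity, ?_⟩
  intro c hc
  obtain ⟨hT, htr⟩ := (TP_GB c).cube
  refine ⟨_, _, hT, ?_, ?_, ?_⟩
  · -- compact support
    obtain ⟨hF0, hFm, hFt⟩ := F_facts
    obtain ⟨R, hR⟩ := (hFt.eventually_ge_atTop (c + 16)).exists_forall_of_atTop
    refine HasCompactSupport.intro (K := closedBall (0 : E3) (|R| + 1)) (isCompact_closedBall _ _) ?_
    intro q hq
    have hq' : |R| + 1 < ‖q‖ := by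
      simpa [mem_closedBall, dist_zero_right] using hq
    have hRq : R ≤ ‖q‖ ^ 2 := by
      have h1 : R ≤ |R| := le_abs_self R
      have h2 : 0 ≤ |R| := abs_nonneg R
      nlinarith
    have h3 := hR _ hRq
    have h4 := (hz q).2
    have h5 : GB c q ≤ 0 := by
      unfold GB
      linarith
    simp [max_eq_right h5]
  · intro q
    refine ⟨rfl, ?_⟩
    have h4 := (hz q).1
    unfold GB
    linarith
  · intro q n hn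
    refine le_trans ?_ (htr q n hn)
    have h1 := hKt q n hn
    have h2 : 0 ≤ max (GB c q) 0 := le_max_right _ _
    have h3 : max (GB c q) 0 ≤ c + 16 := by
      refine max_le ?_ (by linarith)
      have h4 := (hz q).2
      have h5 := F_facts.1 (‖q‖ ^ 2) (sq_nonneg _)
      unfold GB
      linarith
    set X := (1 + q 2 ^ 2) / (1 + ‖q‖ ^ 2) ^ 2 with hX
    have hX0 : 0 ≤ X := by positivity
    have h6 : (max (GB c q) 0) ^ 2 ≤ (c + 16) ^ 2 := pow_le_pow_left₀ h2 h3 2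
    have h7 : 3 * (max (GB c q) 0) ^ 2 * (-(K * X)) ≤ 3 * (max (GB c q) 0) ^ 2 * trN (fderiv ℝ YB q) n :=
      mul_le_mul_of_nonneg_left h1 (by positivity)
    have h8 : (max (GB c q) 0) ^ 2 * (K * X) ≤ (c + 16) ^ 2 * (K * X) :=
      mul_le_mul_of_nonneg_right h6 (by positivity)
    linarith

end Pool.Agent.ML
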