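import Pool.Agent.Lib_MP_7d1493.Lam1

/-!
# The identity on a lamination
-/

set_option autoImplicit false

open MeasureTheory Measure Set Metric Filter Topology
open scoped ENNReal InnerProductSpace ContDiff

namespace Pool.Agent.ML

/-- PIECE [SH-4b] (this file, about 120 lines). The product of `b` with a smooth function. -/
theorem TP.mul {b χ : E3 → ℝ} {Y : E3 → E3} (hb : TP b Y) (hχ : ContDiff ℝ ∞ χ) :
    TP (fun q => χ q * b q) (fun q => χ q • Y q + b q • gradient χ q) := by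
  have hbd : ContDiff ℝ 1 b := by
    rw [contDiff_one_iff_hasFDerivAt]
    exact ⟨fun q => innerSL ℝ (Y q), (innerSL ℝ).continuous.comp hb.smooth.continuous, hb.grad⟩
  have hgr : ContDiff ℝ 1 (fun q => gradient χ q) := by
    have h1 : ContDiff ℝ 1 (fderiv ℝ χ) := hχ.fderiv_right (by norm_cast)
    have h2 : ContDiff ℝ 1 (fun x => (InnerProductSpace.toDual ℝ E3).symm x) :=
      (InnerProductSpace.toDual ℝ E3).symm.contDiff
    exact h2.comp h1
  refine ⟨fun q => ?_, ?_⟩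
  · have h1 : HasFDerivAt χ (innerSL ℝ (gradient χ q)) q := by
      have h2 := ((hχ.differentiable (by simp)) q).hasGradientAt
      exact h2.hasFDerivAt
    have h3 : HasFDerivAt (fun q => χ q * b q)
        (χ q • innerSL ℝ (Y q) + b q • innerSL ℝ (gradient χ q)) q := h1.mul (hb.grad q)
    have h4 : innerSL ℝ (χ q • Y q + b q • gradient χ q) =
        χ q • innerSL ℝ (Y q) + b q • innerSL ℝ (gradient χ q) := by
      ext v
      simp
    rw [h4]
    exact h3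
  · exact ((hχ.of_le (by norm_cast)).smul hb.smooth).add (hbd.smul hgr)

private theorem Lam2_trN_sum {ι : Type} (s : Finset ι) (A : ι → E3 →L[ℝ] E3) (n : E3) :
    trN (∑ k ∈ s, A k) n = ∑ k ∈ s, trN (A k) n := by
  classical
  induction s using Finset.induction_on with
  | empty => simp [trN_zero]
  | insert a s ha ih => rw [Finset.sum_insert ha, Finset.sum_insert ha, trN_add, ih]

private theorem Lam2_sum_grad {n : ℕ} {χ : Fin n → E3 → ℝ} (hχ : ∀ k, ContDiff ℝ ∞ (χ k)) {q : E3}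
    (h : (fun x => ∑ k, χ k x) =ᶠ[𝓝 q] fun _ => 1) : ∑ k, gradient (χ k) q = 0 := by
  have h1 : ∀ k, HasFDerivAt (χ k) (fderiv ℝ (χ k) q) q := fun k =>
    (((hχ k).differentiable (by simp)) q).hasFDerivAt
  have h2 : HasFDerivAt (fun x => ∑ k, χ k x) (∑ k, fderiv ℝ (χ k) q) q :=
    HasFDerivAt.fun_sum fun k _ => h1 k
  have h3 : HasFDerivAt (fun x => ∑ k, χ k x) (0 : E3 →L[ℝ] ℝ) q :=
    (hasFDerivAt_const (1 : ℝ) q).congr_of_eventuallyEq h
  have h4 := h2.unique h3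
  unfold gradient
  rw [← _root_.map_sum, h4, map_zero]

private theorem Lam2_Y_zero {b : E3 → ℝ} {Y : E3 → E3} (hb : TP b Y) {q : E3} (hq : q ∉ tsupport b) :
    Y q = 0 := by
  have h1 : b =ᶠ[𝓝 q] fun _ => 0 := notMem_tsupport_iff_eventuallyEq.1 hq
  have h2 : HasFDerivAt b (0 : E3 →L[ℝ] ℝ) q := (hasFDerivAt_const (0 : ℝ) q).congr_of_eventuallyEq h1
  have h3 := (hb.grad q).unique h2
  have h4 : innerSL ℝ (Y q) (Y q) = 0 := by rw [h3]; rfl
  rw [innerSL_apply_apply] at h4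
  exact inner_self_eq_zero.1 h4

private theorem Lam2_sum_Y {b : E3 → ℝ} {Y : E3 → E3} (hb : TP b Y) {n : ℕ} {χ : Fin n → E3 → ℝ}
    (hχ : ∀ k, ContDiff ℝ ∞ (χ k)) (h1 : ∀ q ∈ tsupport b, ∑ k, χ k q = 1) (q : E3) :
    ∑ k, (χ k q • Y q + b q • gradient (χ k) q) = Y q := by
  have hcb : Continuous b := continuous_iff_continuousAt.2 fun q => (hb.grad q).continuousAt
  rw [Finset.sum_add_distrib, ← Finset.sum_smul, ← Finset.smul_sum]
  by_cases hq : q ∈ tsupport b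
  · rw [h1 q hq, one_smul]
    by_cases hb0 : b q = 0
    · rw [hb0, zero_smul, add_zero]
    · have h2 : (fun x => ∑ k, χ k x) =ᶠ[𝓝 q] fun _ => 1 := by
        have h3 : ∀ᶠ x in 𝓝 q, b x ≠ 0 := hcb.continuousAt.eventually_ne hb0
        filter_upwards [h3] with x hx
        exact h1 x (subset_tsupport b hx)
      rw [Lam2_sum_grad hχ h2, smul_zero, add_zero]
  · rw [Lam2_Y_zero hb hq, image_eq_zero_of_notMem_tsupport hq]
    simp

private theorem Lam2_sum_itg {N : E3 → E3} {ψ ψ2 : ℝ → ℝ} {b : E3 → ℝ} {Y : E3 → E3} (hb : TP b Y)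
    {n : ℕ} {χ : Fin n → E3 → ℝ} (hχ : ∀ k, ContDiff ℝ ∞ (χ k))
    (h1 : ∀ q ∈ tsupport b, ∑ k, χ k q = 1) (q : E3) :
    itg N ψ ψ2 b Y q = ∑ k, itg N ψ ψ2 (fun q => χ k q * b q)
      (fun q => χ k q • Y q + b q • gradient (χ k) q) q := by
  unfold itg
  rw [Finset.sum_sub_distrib, ← Finset.mul_sum, ← Lam2_trN_sum]
  have h2 : ∑ k, fderiv ℝ (fun q => χ k q • Y q + b q • gradient (χ k) q) q = fderiv ℝ Y q := by
    have h3 : ∀ k, HasFDerivAt (fun q => χ k q • Y q + b q • gradient (χ k) q)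
        (fderiv ℝ (fun q => χ k q • Y q + b q • gradient (χ k) q) q) q := fun k =>
      (((TP.mul hb (hχ k)).smooth.differentiable (by simp)) q).hasFDerivAt
    have h4 := HasFDerivAt.fun_sum (u := Finset.univ) fun k _ => h3 k
    have h5 : (fun q => ∑ k, (χ k q • Y q + b q • gradient (χ k) q)) = Y :=
      funext fun q => Lam2_sum_Y hb hχ h1 q
    rw [h5] at h4
    exact h4.fderiv.symm
  rw [h2]
  congr 1
  simp only [mul_assoc]
  rw [← Finset.sum_mul]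
  by_cases hq : q ∈ tsupport b
  · rw [h1 q hq, one_mul]
  · rw [image_eq_zero_of_notMem_tsupport hq]
    simp

/-- PROOF. Charts at the points of `tsupport b` (`IsMinLam.chart`: `T = C`, `S t` the slices, `L ∩ U = ⋃ S t`), `exists_partition`: `χ k`. `b k = χ k * b`,
`Y k = χ k • Y + b • gradient (χ k)` (`TP.mul`), `tsupport (b k) ⊆ U k`; `lam_green_chart` for each `k`. `∑ k, Y k = Y`: where `b q ≠ 0` the sum of the `χ k` is `1` on a neighbourhood, so
`∑ gradient (χ k) q = 0`; where `b q = 0` the second terms vanish and `∑ χ k q • Y q = Y q` (outside `tsupport b`: `Y q = 0`). So `itg` of `(b, Y)` is the sum of the `itg` of the `(b k, Y k)`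
(`trN_add`, `fderiv` of a finite sum). -/
theorem lam_green_on {L Ω : Set E3} {N : E3 → E3} (hL : IsMinLam L N) (hΩ : IsOpen Ω) {ψ ψ1 ψ2 : ℝ → ℝ}
    (hψ : D2 ψ ψ1 ψ2) {M : ℝ} (h0 : ∀ q ∈ L, 0 ≤ ψ (q 2)) (h2 : ∀ q ∈ L, |ψ2 (q 2)| ≤ M * ψ (q 2))
    (hint : ∀ K : Set E3, IsCompact K → K ⊆ Ω → ∫⁻ q in L ∩ K, ENNReal.ofReal (ψ (q 2)) ∂μHE[2] < ⊤)
    {b : E3 → ℝ} {Y : E3 → E3} (hb : TP b Y) (hc : HasCompactSupport b) (hsΩ : tsupport b ⊆ Ω) :
    IntegrableOn (itg N ψ ψ2 b Y) L μHE[2] ∧ ∫ q in L, itg N ψ ψ2 b Y q ∂μHE[2] = 0 := by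
  choose U hUo hpU Φ C hC hLC hS using hL.chart
  obtain ⟨n, j, χ, hχ, hχU, h1⟩ := exists_partition (K := tsupport b) hc U hUo
    (fun q _ => Set.mem_iUnion.2 ⟨q, hpU q⟩)
  have key : ∀ k, IntegrableOn (itg N ψ ψ2 (fun q => χ k q * b q)
      (fun q => χ k q • Y q + b q • gradient (χ k) q)) L μHE[2] ∧
      ∫ q in L, itg N ψ ψ2 (fun q => χ k q * b q)
        (fun q => χ k q • Y q + b q • gradient (χ k) q) q ∂μHE[2] = 0 := by
    intro k
    have hdis : ∀ t ∈ C (j k), ∀ t' ∈ C (j k), t ≠ t' →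
        Disjoint {q : E3 | ∃ h : q ∈ U (j k), (Φ (j k) ⟨q, h⟩).1.2 = t}
          {q : E3 | ∃ h : q ∈ U (j k), (Φ (j k) ⟨q, h⟩).1.2 = t'} := by
      intro t _ t' _ htt
      rw [Set.disjoint_left]
      rintro q ⟨h, hq⟩ ⟨h', hq'⟩
      exact htt (hq.symm.trans hq')
    have hun : L ∩ U (j k) =
        ⋃ t ∈ C (j k), {q : E3 | ∃ h : q ∈ U (j k), (Φ (j k) ⟨q, h⟩).1.2 = t} := by
      ext q
      simp only [Set.mem_inter_iff, Set.mem_iUnion, Set.mem_ofPred_eq, exists_prop]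
      constructor
      · rintro ⟨hqL, hqU⟩
        exact ⟨_, (hLC (j k) ⟨q, hqU⟩).1 hqL, hqU, rfl⟩
      · rintro ⟨t, ht, hqU, hq⟩
        refine ⟨(hLC (j k) ⟨q, hqU⟩).2 ?_, hqU⟩
        rw [hq]
        exact ht
    have hcomp : HasCompactSupport (fun q => χ k q * b q) := hc.mul_left
    exact lam_green_chart_on hL.closed (hUo (j k)) hΩ (C (j k))
      (fun t => {q : E3 | ∃ h : q ∈ U (j k), (Φ (j k) ⟨q, h⟩).1.2 = t})
      (hS (j k)) hdis hun hψ h0 h2 hint (TP.mul hb (hχ k)) hcomp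
      ((tsupport_mul_subset_left (f := χ k) (g := b)).trans (hχU k))
      ((tsupport_mul_subset_right (f := χ k) (g := b)).trans hsΩ)
  have heq : itg N ψ ψ2 b Y = fun q => ∑ k, itg N ψ ψ2 (fun q => χ k q * b q)
      (fun q => χ k q • Y q + b q • gradient (χ k) q) q := by
    funext q
    exact Lam2_sum_itg hb hχ h1 q
  rw [heq]
  constructor
  · exact integrable_finsetSum Finset.univ fun k _ => (key k).1
  · rw [integral_finsetSum Finset.univ fun k _ => (key k).1]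
    exact Finset.sum_eq_zero fun k _ => (key k).2

theorem lam_green {L : Set E3} {N : E3 → E3} (hL : IsMinLam L N) {ψ ψ1 ψ2 : ℝ → ℝ} (hψ : D2 ψ ψ1 ψ2) {M : ℝ}
    (h0 : ∀ q ∈ L, 0 ≤ ψ (q 2)) (h2 : ∀ q ∈ L, |ψ2 (q 2)| ≤ M * ψ (q 2))
    (hint : ∀ K : Set E3, IsCompact K → ∫⁻ q in L ∩ K, ENNReal.ofReal (ψ (q 2)) ∂μHE[2] < ⊤)
    {b : E3 → ℝ} {Y : E3 → E3} (hb : TP b Y) (hc : HasCompactSupport b) :
    IntegrableOn (itg N ψ ψ2 b Y) L μHE[2] ∧ ∫ q in L, itg N ψ ψ2 b Y q ∂μHE[2] = 0 :=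
  lam_green_on hL isOpen_univ hψ h0 h2 (fun K hK _ => hint K hK) hb hc (subset_univ _)

end Pool.Agent.ML
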