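import Pool.Agent.Lib_MP_7d1493.Half1
import Pool.Agent.Lib_MP_7d1493.Lam2
import Pool.Agent.Lib_MP_7d1493.End2

/-!
# Laminations of a halfspace
-/

set_option autoImplicit false

open MeasureTheory Measure Set Metric Filter Topology
open scoped ENNReal InnerProductSpace ContDiff

namespace Pool.Agent.ML

/-- a bounded concave function of the height -/
noncomputable def ψB (z : ℝ) : ℝ := z / √(1 + z ^ 2)

/-- PIECE [SH-5f] (this file, about 200 lines). `ψ1 = 1 / √(1 + z ^ 2) ^ 3`, `ψ2 = - 3 z / √(1 + z ^ 2) ^ 5`. -/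
theorem D2_ψB : D2 ψB (fun z => 1 / √(1 + z ^ 2) ^ 3) (fun z => -(3 * z) / √(1 + z ^ 2) ^ 5) := by
  have hpos : ∀ z : ℝ, 0 < 1 + z ^ 2 := fun z => by positivity
  have hs : ∀ z : ℝ, 0 < √(1 + z ^ 2) := fun z => Real.sqrt_pos.2 (hpos z)
  have hsq : ∀ z : ℝ, √(1 + z ^ 2) ^ 2 = 1 + z ^ 2 := fun z => Real.sq_sqrt (hpos z).le
  have hd : ∀ z : ℝ, HasDerivAt (fun z : ℝ => √(1 + z ^ 2)) (z / √(1 + z ^ 2)) z := by
    intro z
    have h1 : HasDerivAt (fun z : ℝ => 1 + z ^ 2) (2 * z) z := by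
      have := (hasDerivAt_pow 2 z).const_add 1
      simpa using this
    have h2 := h1.sqrt (hpos z).ne'
    have h3 : 2 * z / (2 * √(1 + z ^ 2)) = z / √(1 + z ^ 2) := by
      rw [mul_div_mul_left _ _ (two_ne_zero)]
    rw [h3] at h2
    exact h2
  refine ⟨?_, ?_, ?_⟩
  · intro z
    have h1 := (hasDerivAt_id z).div (hd z) (hs z).ne'
    have h2 : (1 * √(1 + z ^ 2) - id z * (z / √(1 + z ^ 2))) / √(1 + z ^ 2) ^ 2 =
        1 / √(1 + z ^ 2) ^ 3 := by
      have h3 := (hs z).ne'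
      have h4 := hsq z
      simp only [id]
      field_simp
      nlinarith [h4]
    rw [h2] at h1
    exact h1
  · intro z
    have h1 := ((hd z).pow 3).inv (pow_ne_zero 3 (hs z).ne')
    have h2 : -(((3 : ℕ) : ℝ) * √(1 + z ^ 2) ^ (3 - 1) * (z / √(1 + z ^ 2))) /
        (√(1 + z ^ 2) ^ 3) ^ 2 = -(3 * z) / √(1 + z ^ 2) ^ 5 := by
      have h3 := (hs z).ne'
      push_cast
      field_simp
    have h3 : (fun z : ℝ => 1 / √(1 + z ^ 2) ^ 3) = fun z : ℝ => (√(1 + z ^ 2) ^ 3)⁻¹ := by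
      funext z
      rw [one_div]
    rw [h3, ← h2]
    exact h1
  · refine Continuous.div (by fun_prop) (by fun_prop) ?_
    intro z
    exact pow_ne_zero 5 (hs z).ne'

theorem ψB_facts {z : ℝ} (hz : 0 ≤ z) : 0 ≤ ψB z ∧ ψB z ≤ min z 1 ∧ |(-(3 * z) / √(1 + z ^ 2) ^ 5)| ≤ 3 * ψB z := by
  have hs : 1 ≤ √(1 + z ^ 2) := by
    rw [Real.one_le_sqrt]
    nlinarith [sq_nonneg z]
  have hsz : z ≤ √(1 + z ^ 2) := Real.le_sqrt_of_sq_le (by linarith)
  have hs0 : 0 < √(1 + z ^ 2) := by linarith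
  unfold ψB
  refine ⟨by positivity, le_min ?_ ?_, ?_⟩
  · exact div_le_self hz hs
  · rw [div_le_one hs0]
    exact hsz
  · rw [neg_div, abs_neg, abs_of_nonneg (by positivity), mul_div_assoc]
    refine mul_le_mul_of_nonneg_left ?_ (by norm_num)
    exact div_le_div_of_nonneg_left hz hs0 (le_self_pow₀ hs (by norm_num))

private theorem norm_N {L : Set E3} {N : E3 → E3} (hL : IsMinLam L N) {q : E3} (hq : q ∈ L) :
    ‖N q‖ = 1 := by
  obtain ⟨e, r, u, hr, -, h, h0⟩ := exists_patch hL hq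
  have h1 := (h 0 (mem_ball_self hr)).2.2
  have h2 : gr q e u 0 = q := by
    unfold gr pt
    rw [h0]
    simp
  rw [h2] at h1
  rcases h1 with h1 | h1
  · rw [h1, norm_nrm]
  · rw [h1, norm_neg, norm_nrm]

private theorem N_sq_le {L : Set E3} {N : E3 → E3} (hL : IsMinLam L N) {q : E3} (hq : q ∈ L) :
    0 ≤ 1 - N q 2 ^ 2 := by
  have h1 := norm_N hL hq
  have h2 : ‖N q 2‖ ≤ ‖N q‖ := PiLp.norm_apply_le _ _
  rw [h1, Real.norm_eq_abs] at h2
  nlinarith [abs_nonneg (N q 2), sq_abs (N q 2)]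

/-- PROOF. As for `slab_energy`: `b, Y` of `half_test`; `itg = ψB trN (fderiv Y) N + b (3 z / √(1 + z ^ 2) ^ 5) (1 - N_3 ^ 2)`. So `b (3 z / √(1 + z ^ 2) ^ 5) (1 - N_3 ^ 2) ≤ itg + K (c + 16) ^ 2 w` with
`w = ψB (1 + z ^ 2) / (1 + ‖q‖ ^ 2) ^ 2`, `∫_L w < ∞`. `∫⁻` over `L`, `lam_green` (`hint` of `lam_green`: on a compact set `ψB ≤ C w`). On `‖q‖ < R` `b ≥ (c - F (R ^ 2)) ^ 3`, divide by `(c - F (R ^ 2)) ^ 3`, `c → ∞`. -/
theorem half_energy {L : Set E3} {N : E3 → E3} (hL : IsMinLam L N) (hh : ∀ q ∈ L, 0 ≤ q 2)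
    (hint : ∫⁻ q in L, ENNReal.ofReal (min (q 2) 1 * ((1 + q 2 ^ 2) / (1 + ‖q‖ ^ 2) ^ 2)) ∂μHE[2] < ⊤) (R : ℝ) :
    ∫⁻ q in L ∩ ball 0 R, ENNReal.ofReal (3 * q 2 / √(1 + q 2 ^ 2) ^ 5 * (1 - N q 2 ^ 2)) ∂μHE[2] = 0 := by
  obtain ⟨K, hK, htest⟩ := half_test
  obtain ⟨hF0, hFm, -⟩ := F_facts
  have hLm : MeasurableSet L := hL.closed.measurableSet
  set g : E3 → ℝ := fun q => min (q 2) 1 * ((1 + q 2 ^ 2) / (1 + ‖q‖ ^ 2) ^ 2) with hg
  set f : E3 → ℝ := fun q => 3 * q 2 / √(1 + q 2 ^ 2) ^ 5 * (1 - N q 2 ^ 2) with hf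
  have hg0 : ∀ q ∈ L, 0 ≤ g q := by
    intro q hq
    have h1 : 0 ≤ min (q 2) 1 := le_min (hh q hq) zero_le_one
    rw [hg]
    positivity
  have hf0 : ∀ q ∈ L, 0 ≤ f q := by
    intro q hq
    have h1 := hh q hq
    have h2 := N_sq_le hL hq
    rw [hf]
    positivity
  have hgc : Continuous g := by
    rw [hg]
    refine Continuous.mul (by fun_prop) (Continuous.div (by fun_prop) (by fun_prop) ?_)
    intro q
    positivity
  have hgi : IntegrableOn g L μHE[2] := by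
    refine ⟨hgc.aestronglyMeasurable, ?_⟩
    rw [hasFiniteIntegral_iff_ofReal (by
      filter_upwards [ae_restrict_mem hLm] with q hq using hg0 q hq)]
    exact hint
  set J : ℝ := ∫ q in L, g q ∂μHE[2] with hJ
  have hJ0 : 0 ≤ J := setIntegral_nonneg hLm hg0
  have hint2 : ∀ Q : Set E3, IsCompact Q → ∫⁻ q in L ∩ Q, ENNReal.ofReal (ψB (q 2)) ∂μHE[2] < ⊤ := by
    intro Q hQ
    obtain ⟨ρ, hρ⟩ := hQ.isBounded.subset_closedBall (0 : E3)
    have hm : MeasurableSet (L ∩ Q) := hLm.inter hQ.isClosed.measurableSet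
    have h1 : ∫⁻ q in L ∩ Q, ENNReal.ofReal (ψB (q 2)) ∂μHE[2] ≤
        ∫⁻ q in L ∩ Q, ENNReal.ofReal ((1 + ρ ^ 2) ^ 2) * ENNReal.ofReal (g q) ∂μHE[2] := by
      refine setLIntegral_mono' hm fun q hq => ?_
      rw [← ENNReal.ofReal_mul (by positivity)]
      refine ENNReal.ofReal_le_ofReal ?_
      have h2 := (ψB_facts (hh q hq.1)).2.1
      have h3 : ‖q‖ ≤ ρ := by
        have := hρ hq.2
        rwa [mem_closedBall_zero_iff] at this
      have h4 : ‖q‖ ^ 2 ≤ ρ ^ 2 := by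
        have := norm_nonneg q
        gcongr
      have h5 : (1 + ‖q‖ ^ 2) ^ 2 ≤ (1 + ρ ^ 2) ^ 2 := by gcongr
      have h6 : 0 ≤ min (q 2) 1 := le_min (hh q hq.1) zero_le_one
      have h7 : 0 < (1 + ‖q‖ ^ 2) ^ 2 := by positivity
      have h8 : 1 ≤ (1 + ρ ^ 2) ^ 2 * ((1 + q 2 ^ 2) / (1 + ‖q‖ ^ 2) ^ 2) := by
        rw [mul_div_assoc', le_div_iff₀ h7, one_mul]
        nlinarith [sq_nonneg (q 2), mul_nonneg (sq_nonneg (1 + ρ ^ 2)) (sq_nonneg (q 2))]
      calc ψB (q 2) ≤ min (q 2) 1 * 1 := by rw [mul_one]; exact h2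
        _ ≤ min (q 2) 1 * ((1 + ρ ^ 2) ^ 2 * ((1 + q 2 ^ 2) / (1 + ‖q‖ ^ 2) ^ 2)) :=
          mul_le_mul_of_nonneg_left h8 h6
        _ = (1 + ρ ^ 2) ^ 2 * g q := by rw [hg]; ring
    refine h1.trans_lt ?_
    rw [lintegral_const_mul' _ _ ENNReal.ofReal_ne_top]
    refine ENNReal.mul_lt_top ENNReal.ofReal_lt_top ?_
    exact (lintegral_mono_set inter_subset_left).trans_lt hint
  -- the main inequality
  have main : ∀ c : ℝ, 0 ≤ c → F (R ^ 2) ≤ c →
      ENNReal.ofReal ((c - F (R ^ 2)) ^ 3) * ∫⁻ q in L ∩ ball 0 R, ENNReal.ofReal (f q) ∂μHE[2] ≤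
        ENNReal.ofReal (K * (c + 16) ^ 2 * J) := by
    intro c hc hcF
    obtain ⟨b, Y, hb, hbc, hb1, hb2⟩ := htest c hc
    obtain ⟨hi, hz⟩ := lam_green hL D2_ψB (M := 3) (fun q hq => (ψB_facts (hh q hq)).1)
      (fun q hq => (ψB_facts (hh q hq)).2.2) hint2 hb hbc
    have hb0 : ∀ q, 0 ≤ b q := fun q => by
      rw [(hb1 q).1]
      positivity
    have key : ∀ q ∈ L, b q * f q ≤
        itg N ψB (fun z => -(3 * z) / √(1 + z ^ 2) ^ 5) b Y q + K * (c + 16) ^ 2 * g q := by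
      intro q hq
      have h1 := hb2 q (N q) (norm_N hL hq)
      obtain ⟨h2, h3, -⟩ := ψB_facts (hh q hq)
      have h4 : 0 ≤ K * (c + 16) ^ 2 * ((1 + q 2 ^ 2) / (1 + ‖q‖ ^ 2) ^ 2) := by positivity
      have h5 : -(K * (c + 16) ^ 2 * g q) ≤ ψB (q 2) * trN (fderiv ℝ Y q) (N q) := by
        calc -(K * (c + 16) ^ 2 * g q) =
            -(min (q 2) 1 * (K * (c + 16) ^ 2 * ((1 + q 2 ^ 2) / (1 + ‖q‖ ^ 2) ^ 2))) := by
              rw [hg]; ring
          _ ≤ -(ψB (q 2) * (K * (c + 16) ^ 2 * ((1 + q 2 ^ 2) / (1 + ‖q‖ ^ 2) ^ 2))) :=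
            neg_le_neg (mul_le_mul_of_nonneg_right h3 h4)
          _ = ψB (q 2) * (-(K * (c + 16) ^ 2 * ((1 + q 2 ^ 2) / (1 + ‖q‖ ^ 2) ^ 2))) := by ring
          _ ≤ _ := mul_le_mul_of_nonneg_left h1 h2
      have h6 : itg N ψB (fun z => -(3 * z) / √(1 + z ^ 2) ^ 5) b Y q =
          ψB (q 2) * trN (fderiv ℝ Y q) (N q) + b q * f q := by
        unfold itg
        rw [hf]
        ring
      rw [h6]
      linarith
    have hsum : IntegrableOn (fun q => itg N ψB (fun z => -(3 * z) / √(1 + z ^ 2) ^ 5) b Y q +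
        K * (c + 16) ^ 2 * g q) L μHE[2] := Integrable.add hi (hgi.const_mul _)
    have hval : ∫ q in L, (itg N ψB (fun z => -(3 * z) / √(1 + z ^ 2) ^ 5) b Y q +
        K * (c + 16) ^ 2 * g q) ∂μHE[2] = K * (c + 16) ^ 2 * J := by
      rw [integral_add hi (hgi.const_mul _), hz, zero_add, integral_const_mul]
    have hbm : MeasurableSet (L ∩ ball (0 : E3) R) := hLm.inter measurableSet_ball
    calc ENNReal.ofReal ((c - F (R ^ 2)) ^ 3) * ∫⁻ q in L ∩ ball 0 R, ENNReal.ofReal (f q) ∂μHE[2]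
        = ∫⁻ q in L ∩ ball 0 R, ENNReal.ofReal ((c - F (R ^ 2)) ^ 3) * ENNReal.ofReal (f q) ∂μHE[2] :=
          (lintegral_const_mul' _ _ ENNReal.ofReal_ne_top).symm
      _ ≤ ∫⁻ q in L ∩ ball 0 R, ENNReal.ofReal (b q * f q) ∂μHE[2] := by
          refine setLIntegral_mono' hbm fun q hq => ?_
          have h1 : 0 ≤ c - F (R ^ 2) := by linarith
          rw [← ENNReal.ofReal_mul (by positivity)]
          refine ENNReal.ofReal_le_ofReal (mul_le_mul_of_nonneg_right ?_ (hf0 q hq.1))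
          rw [(hb1 q).1]
          have h2 : ‖q‖ ^ 2 ≤ R ^ 2 := by
            have h3 : ‖q‖ < R := by
              have := hq.2
              rwa [mem_ball_zero_iff] at this
            have := norm_nonneg q
            gcongr
          have h4 := hFm _ _ (by positivity) h2
          have h5 := (hb1 q).2
          have h6 : c - F (R ^ 2) ≤ max (GB c q) 0 := le_max_of_le_left (by linarith)
          gcongr
      _ ≤ ∫⁻ q in L, ENNReal.ofReal (b q * f q) ∂μHE[2] := lintegral_mono_set inter_subset_left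
      _ ≤ ∫⁻ q in L, ENNReal.ofReal (itg N ψB (fun z => -(3 * z) / √(1 + z ^ 2) ^ 5) b Y q +
            K * (c + 16) ^ 2 * g q) ∂μHE[2] :=
          setLIntegral_mono' hLm fun q hq => ENNReal.ofReal_le_ofReal (key q hq)
      _ = ENNReal.ofReal (∫ q in L, (itg N ψB (fun z => -(3 * z) / √(1 + z ^ 2) ^ 5) b Y q +
            K * (c + 16) ^ 2 * g q) ∂μHE[2]) := by
          rw [ofReal_integral_eq_lintegral_ofReal hsum]
          filter_upwards [ae_restrict_mem hLm] with q hq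
          exact (mul_nonneg (hb0 q) (hf0 q hq)).trans (key q hq)
      _ = _ := by rw [hval]
  -- letting `c` tend to infinity
  set A : ℝ := F (R ^ 2) with hA
  have hA0 : 0 ≤ A := hF0 _ (by positivity)
  set D : ℝ := K * (A + 17) ^ 2 * J with hD
  have hD0 : 0 ≤ D := by positivity
  have main2 : ∀ t : ℝ, 1 ≤ t → ENNReal.ofReal (t ^ 3) *
      ∫⁻ q in L ∩ ball 0 R, ENNReal.ofReal (f q) ∂μHE[2] ≤ ENNReal.ofReal (D * t ^ 2) := by
    intro t ht
    have h1 := main (t + A) (by linarith) (by linarith)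
    rw [add_sub_cancel_right] at h1
    refine h1.trans (ENNReal.ofReal_le_ofReal ?_)
    have h2 : t + A + 16 ≤ t * (A + 17) := by nlinarith
    have h3 : (t + A + 16) ^ 2 ≤ (t * (A + 17)) ^ 2 := by gcongr
    calc K * (t + A + 16) ^ 2 * J ≤ K * (t * (A + 17)) ^ 2 * J := by gcongr
      _ = D * t ^ 2 := by rw [hD]; ring
  set I := ∫⁻ q in L ∩ ball 0 R, ENNReal.ofReal (f q) ∂μHE[2] with hI
  have hfin : I ≠ ⊤ := by
    have h1 := main2 1 le_rfl
    intro h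
    rw [h] at h1
    simp at h1
  by_contra hne
  have hi0 : 0 < I.toReal := ENNReal.toReal_pos hne hfin
  have hIe : I = ENNReal.ofReal I.toReal := (ENNReal.ofReal_toReal hfin).symm
  set t : ℝ := (D + 1) / I.toReal + 1 with ht
  have ht1 : 1 ≤ t := by
    have : 0 ≤ (D + 1) / I.toReal := by positivity
    linarith
  have h1 := main2 t ht1
  rw [hIe, ← ENNReal.ofReal_mul (by positivity), ENNReal.ofReal_le_ofReal_iff (by positivity)] at h1
  have h2 : t * I.toReal = D + 1 + I.toReal := by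
    rw [ht, add_mul, div_mul_cancel₀ _ hi0.ne', one_mul]
  have h3 : t ^ 3 * I.toReal = t ^ 2 * (D + 1 + I.toReal) := by
    rw [← h2]
    ring
  have h4 : 0 < t ^ 2 := by positivity
  rw [h3, mul_comm D] at h1
  have h5 := le_of_mul_le_mul_left h1 h4
  linarith

/-- `vertical_of_energy`, `planes_of_vertical` -/
theorem half_planes {L : Set E3} {N : E3 → E3} (hL : IsMinLam L N) (hh : ∀ q ∈ L, 0 ≤ q 2)
    (hint : ∫⁻ q in L, ENNReal.ofReal (min (q 2) 1 * ((1 + q 2 ^ 2) / (1 + ‖q‖ ^ 2) ^ 2)) ∂μHE[2] < ⊤) :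
    ∃ C : Set ℝ, IsClosed C ∧ L = {q : E3 | q 2 ∈ C} := by
  refine planes_of_vertical hL fun q hq => ?_
  rcases (hh q hq).eq_or_lt with h0 | h0
  · exact Or.inr (Or.inl fun q' hq' => by rw [← h0]; exact hh q' hq')
  · left
    have hs : ∀ z : ℝ, 0 < √(1 + z ^ 2) := fun z => Real.sqrt_pos.2 (by positivity)
    refine vertical_of_energy hL (ψ := fun z => 3 * z / √(1 + z ^ 2) ^ 5) ?_ ?_ ?_ hq ?_
    · exact Continuous.div (by fun_prop) (by fun_prop) fun z => pow_ne_zero 5 (hs z).ne'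
    · intro q' hq'
      have h1 := hh q' hq'
      have h2 := hs (q' 2)
      positivity
    · exact half_energy hL hh hint
    · have h2 := hs (q 2)
      positivity

end Pool.Agent.ML
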