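import Pool.Agent.Lib_MP_7d1493.Green

/-!
# The identity in a chart of a lamination
-/

set_option autoImplicit false

open MeasureTheory Measure Set Metric Filter Topology
open scoped ENNReal InnerProductSpace ContDiff

namespace Pool.Agent.ML

/-- `|trN A n| ≤ 4 ‖A‖` for a unit vector `n` (`trN_eq_sum` in the standard basis) -/
theorem abs_trN_le (A : E3 →L[ℝ] E3) (n : E3) (hn : ‖n‖ = 1) : |trN A n| ≤ 4 * ‖A‖ := by
  rw [trN_eq_sum (EuclideanSpace.basisFun (Fin 3) ℝ) A n, Fin.sum_univ_three]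
  have h1 : ∀ v : E3, ‖v‖ = 1 → |⟪v, A v⟫_ℝ| ≤ ‖A‖ := by
    intro v hv
    calc |⟪v, A v⟫_ℝ| ≤ ‖v‖ * ‖A v‖ := abs_real_inner_le_norm _ _
      _ ≤ 1 * (‖A‖ * 1) := by
        rw [hv]
        have := A.le_opNorm v
        rw [hv] at this
        linarith
      _ = ‖A‖ := by ring
  have hb : ∀ i, ‖(EuclideanSpace.basisFun (Fin 3) ℝ) i‖ = 1 := fun i =>
    (EuclideanSpace.basisFun (Fin 3) ℝ).orthonormal.1 i
  have a0 := abs_le.mp (h1 _ (hb 0))
  have a1 := abs_le.mp (h1 _ (hb 1))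
  have a2 := abs_le.mp (h1 _ (hb 2))
  have a3 := abs_le.mp (h1 n hn)
  rw [real_inner_comm] at a3
  rw [abs_le]
  constructor <;> linarith [a0.1, a0.2, a1.1, a1.2, a2.1, a2.2, a3.1, a3.2]

/-- outside the support of `b` the gradient and its derivative vanish -/
theorem TP.zero_of_notMem {b : E3 → ℝ} {Y : E3 → E3} (hb : TP b Y) {q : E3} (hq : q ∉ tsupport b) :
    b q = 0 ∧ fderiv ℝ Y q = 0 := by
  have hY : ∀ q, q ∉ tsupport b → Y q = 0 := by
    intro q hq
    have h1 : b =ᶠ[𝓝 q] fun _ => 0 := notMem_tsupport_iff_eventuallyEq.mp hq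
    have h2 : HasFDerivAt b (0 : E3 →L[ℝ] ℝ) q := (hasFDerivAt_const (0 : ℝ) q).congr_of_eventuallyEq h1
    have h3 := (hb.grad q).unique h2
    have h4 : ⟪Y q, Y q⟫_ℝ = 0 := by
      have := congrArg (fun A : E3 →L[ℝ] ℝ => A (Y q)) h3
      simpa using this
    exact inner_self_eq_zero.mp h4
  refine ⟨image_eq_zero_of_notMem_tsupport hq, ?_⟩
  have h1 : Y =ᶠ[𝓝 q] fun _ => 0 := by
    filter_upwards [(isClosed_tsupport b).isOpen_compl.mem_nhds hq] with q' hq'
    exact hY q' hq'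
  rw [h1.fderiv_eq]
  simp

theorem norm_normal {U S : Set E3} {N : E3 → E3} (hS : IsMinSurf U S N) {q : E3} (hq : q ∈ S) : ‖N q‖ = 1 := by
  obtain ⟨e, r, u, hr, _, _, _, _, h6⟩ := hS.patch q hq
  rcases h6 q ⟨hq, mem_cyl_self q e hr⟩ with h | h
  · rw [h, norm_nrm]
  · rw [h, norm_neg, norm_nrm]

/-- PIECE [SH-4a] (this file, about 220 lines). PROOF. `K = tsupport b` is compact in `U ∩ Ω`; take `V` open with `K ⊆ V`, closure of `V` compact in `U ∩ Ω` (`exists_open_between_and_isCompact_closure`).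
The measure `ν = (μHE[2].restrict (L ∩ V)).withDensity (fun q => ENNReal.ofReal (ψ (q 2)))` is finite (`hint`). So `T' = {t ∈ T | 0 < ν (S t)}` is countable (the `S t` are
disjoint and measurable: `Measure.countable_meas_pos_of_disjoint_iUnion` or `countable_meas_pos_of_disjoint_of_meas_iUnion_ne_top`). If `t ∈ T`, `t ∉ T'`, then `ψ (q 2) = 0` for `q ∈ S t ∩ V`: otherwise `ψ (q' 2) > c > 0` on an
open set `V' ∋ q`, and `ν (S t) ≥ c μHE[2] (S t ∩ V ∩ V') > 0` (`surf_area_pos`). On `L`: `|itg| ≤ M' ψ` on `K` and `itg = 0` outside `K` (`fderiv ℝ Y = 0` there), `M' = 4 sup ‖fderiv ℝ Y‖ + |M| sup |b|` (`‖N q‖ = 1` on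
the slices: `norm_nrm`). So `itg = 0` on `L` outside `⋃ t ∈ T', S t`. On the countable disjoint union `⋃ t ∈ T', S t` `itg` is a.e. strongly measurable (`surf_green` on each `S t`,
`aestronglyMeasurable_iUnion_iff`) and dominated by the integrable function `M' ψ` on `L ∩ V` (zero outside `V`), so integrable, and the integral is the sum of the integrals over the
`S t` (`integral_iUnion` or `hasSum_integral_iUnion`), which are `0` by `surf_green`. -/
theorem lam_green_chart_on {L U Ω : Set E3} {N : E3 → E3} (hL : IsClosed L) (hU : IsOpen U) (hΩ : IsOpen Ω) (T : Set ℝ)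
    (S : ℝ → Set E3)
    (hS : ∀ t ∈ T, IsMinSurf U (S t) N) (hdis : ∀ t ∈ T, ∀ t' ∈ T, t ≠ t' → Disjoint (S t) (S t'))
    (hun : L ∩ U = ⋃ t ∈ T, S t) {ψ ψ1 ψ2 : ℝ → ℝ} (hψ : D2 ψ ψ1 ψ2) {M : ℝ} (h0 : ∀ q ∈ L, 0 ≤ ψ (q 2))
    (h2 : ∀ q ∈ L, |ψ2 (q 2)| ≤ M * ψ (q 2))
    (hint : ∀ K : Set E3, IsCompact K → K ⊆ Ω → ∫⁻ q in L ∩ K, ENNReal.ofReal (ψ (q 2)) ∂μHE[2] < ⊤)
    {b : E3 → ℝ} {Y : E3 → E3} (hb : TP b Y) (hc : HasCompactSupport b) (hs : tsupport b ⊆ U) (hsΩ : tsupport b ⊆ Ω) :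
    IntegrableOn (itg N ψ ψ2 b Y) L μHE[2] ∧ ∫ q in L, itg N ψ ψ2 b Y q ∂μHE[2] = 0 := by
  obtain ⟨V, hVo, hKV, hVU, hVc⟩ := exists_open_between_and_isCompact_closure hc (hU.inter hΩ) (subset_inter hs hsΩ)
  have hVU' : V ⊆ U := subset_closure.trans (hVU.trans inter_subset_left)
  have hVΩ : closure V ⊆ Ω := hVU.trans inter_subset_right
  have hψc : Continuous ψ := continuous_iff_continuousAt.mpr fun z => (hψ.d1 z).continuousAt
  have hψq : Continuous fun q : E3 => ψ (q 2) := hψc.comp (by fun_prop)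
  have hψm : Measurable fun q : E3 => ENNReal.ofReal (ψ (q 2)) :=
    ENNReal.measurable_ofReal.comp hψq.measurable
  have hSL : ∀ t ∈ T, S t ⊆ L := by
    intro t ht q hq
    have : q ∈ L ∩ U := by
      rw [hun]
      exact mem_biUnion ht hq
    exact this.1
  have hSm : ∀ t : T, MeasurableSet (S t) := fun t => measurableSet_surf hU (hS t t.2)
  set f := itg N ψ ψ2 b Y with hf
  -- the finite measure
  set μL : Measure E3 := μHE[2].restrict (L ∩ V) with hμL
  set ν : Measure E3 := μL.withDensity (fun q => ENNReal.ofReal (ψ (q 2))) with hν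
  have hνfin : ν (⋃ t : T, S t) ≠ ⊤ := by
    have h1 : ν univ < ⊤ := by
      rw [hν, withDensity_apply _ MeasurableSet.univ, Measure.restrict_univ, hμL]
      exact (lintegral_mono_set (inter_subset_inter_right L subset_closure)).trans_lt (hint _ hVc hVΩ)
    exact ((measure_mono (subset_univ _)).trans_lt h1).ne
  have hdisj : Pairwise (Function.onFun Disjoint fun t : T => S t) := by
    intro t t' htt'
    exact hdis t t.2 t' t'.2 (fun h => htt' (Subtype.ext h))
  have hcount : Set.Countable {t : T | 0 < ν (S t)} :=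
    Measure.countable_meas_pos_of_disjoint_of_meas_iUnion_ne_top ν hSm hdisj hνfin
  set T' : Set T := {t : T | 0 < ν (S t)} with hT'
  have hzero : ∀ t : T, t ∉ T' → ∀ q ∈ S t, q ∈ V → ψ (q 2) = 0 := by
    intro t ht q hq hqV
    by_contra hne
    have hpos : 0 < ψ (q 2) := lt_of_le_of_ne (h0 q (hSL t t.2 hq)) (Ne.symm hne)
    apply ht
    set V' : Set E3 := V ∩ {q' | ψ (q 2) / 2 < ψ (q' 2)} with hV'
    have hV'o : IsOpen V' := hVo.inter (isOpen_lt continuous_const hψq)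
    have hqV' : q ∈ V' := ⟨hqV, by show ψ (q 2) / 2 < ψ (q 2); linarith⟩
    have hp := surf_area_pos (hS t t.2) hV'o hq hqV'
    have hm : MeasurableSet ((S t : Set E3) ∩ V') := (hSm t).inter hV'o.measurableSet
    have hsub : (S t : Set E3) ∩ V' ⊆ L ∩ V := fun q' hq' => ⟨hSL t t.2 hq'.1, hq'.2.1⟩
    have h1 : ENNReal.ofReal (ψ (q 2) / 2) * μHE[2] ((S t : Set E3) ∩ V') ≤ ν ((S t : Set E3) ∩ V') := by
      rw [hν, withDensity_apply _ hm, hμL, Measure.restrict_restrict hm, inter_eq_self_of_subset_left hsub,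
        ← setLIntegral_const]
      apply setLIntegral_mono' hm
      intro q' hq'
      exact ENNReal.ofReal_le_ofReal (le_of_lt hq'.2.2)
    have h3 : 0 < ENNReal.ofReal (ψ (q 2) / 2) := ENNReal.ofReal_pos.mpr (by linarith)
    exact lt_of_lt_of_le (ENNReal.mul_pos h3.ne' hp.ne') (h1.trans (measure_mono inter_subset_left))
  -- bounds
  obtain ⟨B, hB⟩ := hc.exists_bound_of_continuousOn (f := fun q => fderiv ℝ Y q)
    (hb.smooth.continuous_fderiv (by norm_num)).continuousOn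
  have hbc : Continuous b := continuous_iff_continuousAt.mpr fun q => (hb.grad q).continuousAt
  obtain ⟨B', hB'⟩ := hc.exists_bound_of_continuousOn (f := b) hbc.continuousOn
  set M' : ℝ := 4 * |B| + |B'| * |M| with hM'
  have hM'0 : 0 ≤ M' := by positivity
  have hfb : ∀ q ∈ L, |f q| ≤ M' * V.indicator (fun q : E3 => ψ (q 2)) q := by
    intro q hq
    by_cases hqK : q ∈ tsupport b
    · have hqV := hKV hqK
      rw [indicator_of_mem hqV]
      have hqU : q ∈ L ∩ U := ⟨hq, hVU' hqV⟩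
      rw [hun] at hqU
      obtain ⟨t, ht, hqt⟩ := mem_iUnion₂.mp hqU
      have hn := norm_normal (hS t ht) hqt
      have hn2 : |N q 2| ≤ 1 := by
        rw [← hn, ← Real.norm_eq_abs]
        exact PiLp.norm_apply_le (N q) 2
      have hn3 : 0 ≤ 1 - N q 2 ^ 2 ∧ 1 - N q 2 ^ 2 ≤ 1 := by
        have := abs_le.mp hn2
        constructor <;> nlinarith
      have hψ0 := h0 q hq
      have hψ2 := h2 q hq
      have e1 : |ψ (q 2) * trN (fderiv ℝ Y q) (N q)| ≤ 4 * |B| * ψ (q 2) := by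
        rw [abs_mul, abs_of_nonneg hψ0]
        have a1 := abs_trN_le (fderiv ℝ Y q) (N q) hn
        have a2 := hB q hqK
        have a3 := le_abs_self B
        nlinarith
      have e2 : |b q * ψ2 (q 2) * (1 - N q 2 ^ 2)| ≤ |B'| * |M| * ψ (q 2) := by
        rw [abs_mul, abs_mul, abs_of_nonneg hn3.1]
        have a1 := hB' q hqK
        rw [Real.norm_eq_abs] at a1
        have a2 := le_abs_self B'
        have a3 : |ψ2 (q 2)| ≤ |M| * ψ (q 2) :=
          hψ2.trans (mul_le_mul_of_nonneg_right (le_abs_self M) hψ0)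
        have a4 : |b q| * |ψ2 (q 2)| ≤ |B'| * (|M| * ψ (q 2)) :=
          mul_le_mul (a1.trans a2) a3 (abs_nonneg _) (abs_nonneg _)
        calc |b q| * |ψ2 (q 2)| * (1 - N q 2 ^ 2) ≤ |b q| * |ψ2 (q 2)| * 1 :=
              mul_le_mul_of_nonneg_left hn3.2 (by positivity)
          _ ≤ |B'| * |M| * ψ (q 2) := by linarith
      calc |f q| ≤ |ψ (q 2) * trN (fderiv ℝ Y q) (N q)| + |b q * ψ2 (q 2) * (1 - N q 2 ^ 2)| := by
            rw [hf]
            exact abs_sub _ _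
        _ ≤ M' * ψ (q 2) := by
            rw [hM']
            linarith
    · obtain ⟨z1, z2⟩ := hb.zero_of_notMem hqK
      have : f q = 0 := by
        rw [hf]
        unfold itg
        rw [z1, z2, trN_zero]
        ring
      rw [this, abs_zero]
      apply mul_nonneg hM'0
      by_cases hqV : q ∈ V
      · rw [indicator_of_mem hqV]
        exact h0 q hq
      · rw [indicator_of_notMem hqV]
  -- the countable union
  set Q : Set E3 := ⋃ t : T', S (t : T) with hQ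
  have hcT : Countable T' := hcount.to_subtype
  have hQm : MeasurableSet Q := MeasurableSet.iUnion fun t => hSm t
  have hQL : Q ⊆ L := iUnion_subset fun t => hSL _ (t : T).2
  have hoff : ∀ q ∈ L, q ∉ Q → f q = 0 := by
    intro q hq hqQ
    have h1 := hfb q hq
    by_cases hqV : q ∈ V
    · rw [indicator_of_mem hqV] at h1
      have hqU : q ∈ L ∩ U := ⟨hq, hVU' hqV⟩
      rw [hun] at hqU
      obtain ⟨t, ht, hqt⟩ := mem_iUnion₂.mp hqU
      have htT : (⟨t, ht⟩ : T) ∉ T' := fun h => hqQ (mem_iUnion.mpr ⟨⟨⟨t, ht⟩, h⟩, hqt⟩)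
      rw [hzero ⟨t, ht⟩ htT q hqt hqV, mul_zero] at h1
      exact abs_nonpos_iff.mp h1
    · rw [indicator_of_notMem hqV, mul_zero] at h1
      exact abs_nonpos_iff.mp h1
  have hgreen : ∀ t : T', IntegrableOn f (S (t : T)) μHE[2] ∧ ∫ q in S (t : T), f q ∂μHE[2] = 0 :=
    fun t => surf_green hU (hS _ (t : T).2) hψ hb hc hs
  have hdQ : Pairwise (Function.onFun Disjoint fun t : T' => S (t : T)) := by
    intro t t' htt'
    exact hdis _ (t : T).2 _ (t' : T).2 (fun h => htt' (Subtype.ext (Subtype.ext h)))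
  have hfQ : IntegrableOn f Q μHE[2] := by
    have hg : IntegrableOn (fun q : E3 => M' * V.indicator (fun q : E3 => ψ (q 2)) q) Q μHE[2] := by
      apply Integrable.const_mul
      rw [integrable_indicator_iff hVo.measurableSet]
      have hVQ : MeasurableSet (V ∩ Q) := hVo.measurableSet.inter hQm
      show Integrable (fun q : E3 => ψ (q 2)) ((μHE[2].restrict Q).restrict V)
      rw [Measure.restrict_restrict hVo.measurableSet]
      refine ⟨hψq.aestronglyMeasurable, ?_⟩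
      show ∫⁻ q in V ∩ Q, ‖ψ (q 2)‖ₑ ∂μHE[2] < ⊤
      calc ∫⁻ q in V ∩ Q, ‖ψ (q 2)‖ₑ ∂μHE[2] = ∫⁻ q in V ∩ Q, ENNReal.ofReal (ψ (q 2)) ∂μHE[2] := by
            apply setLIntegral_congr_fun hVQ
            intro q hq
            show ‖ψ (q 2)‖ₑ = ENNReal.ofReal (ψ (q 2))
            rw [Real.enorm_of_nonneg (h0 q (hQL hq.2))]
        _ ≤ ∫⁻ q in L ∩ closure V, ENNReal.ofReal (ψ (q 2)) ∂μHE[2] :=
            lintegral_mono_set fun q hq => ⟨hQL hq.2, subset_closure hq.1⟩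
        _ < ⊤ := hint _ hVc hVΩ
    refine Integrable.mono' hg (AEStronglyMeasurable.iUnion fun t => (hgreen t).1.1) ?_
    rw [ae_restrict_iff' hQm]
    exact ae_of_all _ fun q hq => hfb q (hQL hq)
  have hfL : IntegrableOn f L μHE[2] := by
    have hdec : L = Q ∪ (L \ Q) := (union_sdiff_cancel hQL).symm
    rw [hdec]
    refine hfQ.union ?_
    refine (integrableOn_zero (μ := μHE[2])).congr_fun (fun q hq => ?_) (hL.measurableSet.diff hQm)
    exact (hoff q hq.1 hq.2).symm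
  refine ⟨hfL, ?_⟩
  rw [setIntegral_eq_of_subset_of_forall_sdiff_eq_zero hL.measurableSet hQL (fun q hq => hoff q hq.1 hq.2), hQ,
    integral_iUnion (fun t : T' => hSm t) hdQ hfQ]
  simp only [fun t : T' => (hgreen t).2, tsum_zero]

theorem lam_green_chart {L U : Set E3} {N : E3 → E3} (hL : IsClosed L) (hU : IsOpen U) (T : Set ℝ) (S : ℝ → Set E3)
    (hS : ∀ t ∈ T, IsMinSurf U (S t) N) (hdis : ∀ t ∈ T, ∀ t' ∈ T, t ≠ t' → Disjoint (S t) (S t'))
    (hun : L ∩ U = ⋃ t ∈ T, S t) {ψ ψ1 ψ2 : ℝ → ℝ} (hψ : D2 ψ ψ1 ψ2) {M : ℝ} (h0 : ∀ q ∈ L, 0 ≤ ψ (q 2))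
    (h2 : ∀ q ∈ L, |ψ2 (q 2)| ≤ M * ψ (q 2))
    (hint : ∀ K : Set E3, IsCompact K → ∫⁻ q in L ∩ K, ENNReal.ofReal (ψ (q 2)) ∂μHE[2] < ⊤)
    {b : E3 → ℝ} {Y : E3 → E3} (hb : TP b Y) (hc : HasCompactSupport b) (hs : tsupport b ⊆ U) :
    IntegrableOn (itg N ψ ψ2 b Y) L μHE[2] ∧ ∫ q in L, itg N ψ ψ2 b Y q ∂μHE[2] = 0 :=
  lam_green_chart_on hL hU isOpen_univ T S hS hdis hun hψ h0 h2 (fun K hK _ => hint K hK) hb hc hs (subset_univ _)

end Pool.Agent.ML
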