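import Pool.Agent.Lib_MP_7d1493.Slab1

/-!
# One boundary plane: the cube of the positive part, cutoffs of the height
-/

set_option autoImplicit false

open MeasureTheory Measure Set Metric Filter Topology
open scoped ENNReal InnerProductSpace ContDiff

namespace Pool.Agent.ML

/-- PIECE [SH-8a] (this file, about 120 lines). As `exists_cutoff` (`ContDiffBump` with the centre `(m1 - 1) / 2` and the radii `(m1 + 1) / 2`, `(m1 + 1) / 2 + (m2 - m1)`). -/
theorem exists_cutoff' {m1 m2 : ℝ} (h1 : -1 < m1) (h2 : m1 < m2) : ∃ χ : ℝ → ℝ, ContDiff ℝ ∞ χ ∧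
    (∀ z, -1 ≤ z → z ≤ m1 → χ z = 1) ∧ ∀ z, (z ≤ -1 - (m2 - m1) ∨ m2 ≤ z) → χ z = 0 := by
  let b : ContDiffBump ((m1 - 1) / 2 : ℝ) :=
    ⟨(m1 + 1) / 2, (m1 + 1) / 2 + (m2 - m1), by linarith, by linarith⟩
  refine ⟨b, b.contDiff, ?_, ?_⟩
  · intro z h3 h4
    apply b.one_of_mem_closedBall
    rw [mem_closedBall, Real.dist_eq, abs_le]
    constructor
    · show -((m1 + 1) / 2 : ℝ) ≤ _
      linarith
    · show _ ≤ ((m1 + 1) / 2 : ℝ)
      linarith
  · intro z h
    apply b.zero_of_le_dist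
    rw [Real.dist_eq]
    show ((m1 + 1) / 2 + (m2 - m1) : ℝ) ≤ _
    rcases h with h | h
    · rw [le_abs]
      right
      linarith
    · rw [le_abs]
      left
      linarith

/-- As `TP.cube`, with the tangential term. PROOF: see the proof of `TP.cube`. -/
theorem TP.cube_eq {G : E3 → ℝ} {Y : E3 → E3} (hG : TP G Y) (q n : E3) :
    trN (fderiv ℝ (fun q => (3 * (max (G q) 0) ^ 2) • Y q) q) n =
      3 * (max (G q) 0) ^ 2 * trN (fderiv ℝ Y q) n + 6 * max (G q) 0 * (⟪Y q, Y q⟫_ℝ - ⟪Y q, n⟫_ℝ * ⟪Y q, n⟫_ℝ) := by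
  have hc : HasFDerivAt (fun q => 3 * (max (G q) 0) ^ 2) ((6 * max (G q) 0) • innerSL ℝ (Y q)) q :=
    (cube_facts.2 (G q)).comp_hasFDerivAt q (hG.grad q)
  have hY : HasFDerivAt Y (fderiv ℝ Y q) q :=
    ((hG.smooth.differentiable (by norm_num)) q).hasFDerivAt
  have h1 : HasFDerivAt (fun q => (3 * (max (G q) 0) ^ 2) • Y q)
      ((3 * (max (G q) 0) ^ 2) • fderiv ℝ Y q + ((6 * max (G q) 0) • innerSL ℝ (Y q)).smulRight (Y q)) q :=
    hc.smul hY
  have h2 : fderiv ℝ (fun q => (3 * (max (G q) 0) ^ 2) • Y q) q =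
      (3 * (max (G q) 0) ^ 2) • fderiv ℝ Y q + (6 * max (G q) 0) • (innerSL ℝ (Y q)).smulRight (Y q) := by
    rw [h1.fderiv]
    congr 1
    ext v
    simp [mul_assoc]
  rw [h2, trN_add, trN_smul, trN_smul, trN_rankOne]

/-- Multiplication by a function `χ` of the height. PROOF: as `TP.cutoff`: `Y' q = χ (q 2) • Y q + (b q * deriv χ (q 2)) • ez`; near `q` `Y' = Y` in the first case, `Y' = 0` in the second
(`χ = 0` near the height) and in the third (`Y = 0` near `q`: `b = 0` near `q` and `HasFDerivAt.unique` on the neighbourhood). -/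
theorem TP.cutoff' {b : E3 → ℝ} {Y : E3 → E3} (hb : TP b Y) {χ : ℝ → ℝ} (hχ : ContDiff ℝ ∞ χ) :
    ∃ Y' : E3 → E3, TP (fun q => χ (q 2) * b q) Y' ∧
      (∀ q n : E3, (∀ᶠ z in 𝓝 (q 2), χ z = 1) → trN (fderiv ℝ Y' q) n = trN (fderiv ℝ Y q) n) ∧
      (∀ q n : E3, (∀ᶠ z in 𝓝 (q 2), χ z = 0) → trN (fderiv ℝ Y' q) n = 0) ∧
      (∀ q n : E3, (∀ᶠ q' in 𝓝 q, b q' = 0) → trN (fderiv ℝ Y' q) n = 0) := by
  have hpr : ∀ q : E3, HasFDerivAt (fun q : E3 => q 2) (innerSL ℝ ez) q := by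
    intro q
    have h := (innerSL ℝ ez).hasFDerivAt (x := q)
    refine h.congr_of_eventuallyEq (Filter.Eventually.of_forall fun v => ?_)
    show v 2 = innerSL ℝ ez v
    simp [ez, EuclideanSpace.inner_single_left]
  have hχd : ContDiff ℝ ∞ (deriv χ) := (contDiff_infty_iff_deriv.mp hχ).2
  have hχ' : ∀ z, HasDerivAt χ (deriv χ z) z := fun z =>
    ((hχ.differentiable (by simp)) z).hasDerivAt
  have hcoord : ContDiff ℝ 1 (fun q : E3 => q 2) := by fun_prop
  have hct : ∀ q : E3, Tendsto (fun q : E3 => q 2) (𝓝 q) (𝓝 (q 2)) := fun q =>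
    hcoord.continuous.tendsto q
  refine ⟨fun q => χ (q 2) • Y q + (b q * deriv χ (q 2)) • ez, ⟨?_, ?_⟩, ?_, ?_, ?_⟩
  · intro q
    have hk : HasFDerivAt (fun q : E3 => χ (q 2)) (deriv χ (q 2) • innerSL ℝ ez) q :=
      (hχ' (q 2)).comp_hasFDerivAt q (hpr q)
    have h := hk.mul (hb.grad q)
    refine h.congr_fderiv ?_
    ext v
    simp
    ring
  · exact ((hχ.of_le (by exact_mod_cast le_top)).comp hcoord).smul hb.smooth |>.add
      ((hb.contDiff_one.mul ((hχd.of_le (by exact_mod_cast le_top)).comp hcoord)).smul contDiff_const)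
  · intro q n h1
    have hev : (fun q => χ (q 2) • Y q + (b q * deriv χ (q 2)) • ez) =ᶠ[𝓝 q] Y := by
      filter_upwards [(hct q).eventually h1.eventually_nhds] with v hv
      have hk1 : χ (v 2) = 1 := hv.self_of_nhds
      have hk2 : deriv χ (v 2) = 0 := by
        have : χ =ᶠ[𝓝 (v 2)] fun _ => 1 := hv
        rw [this.deriv_eq, deriv_const]
      rw [hk1, hk2]
      simp
    rw [hev.fderiv_eq]
  · intro q n h1
    have hev : (fun q => χ (q 2) • Y q + (b q * deriv χ (q 2)) • ez) =ᶠ[𝓝 q] fun _ => 0 := by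
      filter_upwards [(hct q).eventually h1.eventually_nhds] with v hv
      have hk1 : χ (v 2) = 0 := hv.self_of_nhds
      have hk2 : deriv χ (v 2) = 0 := by
        have : χ =ᶠ[𝓝 (v 2)] fun _ => 0 := hv
        rw [this.deriv_eq, deriv_const]
      rw [hk1, hk2]
      simp
    rw [hev.fderiv_eq, fderiv_const_apply, trN_zero]
  · intro q n h1
    have hev : (fun q => χ (q 2) • Y q + (b q * deriv χ (q 2)) • ez) =ᶠ[𝓝 q] fun _ => 0 := by
      filter_upwards [h1.eventually_nhds] with v hv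
      have hk1 : b v = 0 := hv.self_of_nhds
      have hk2 : Y v = 0 := by
        have h3 : b =ᶠ[𝓝 v] fun _ => 0 := hv
        have h4 : HasFDerivAt b (0 : E3 →L[ℝ] ℝ) v :=
          (hasFDerivAt_const (0 : ℝ) v).congr_of_eventuallyEq h3
        have h5 := (hb.grad v).unique h4
        have h6 : innerSL ℝ (Y v) (Y v) = 0 := by rw [h5]; rfl
        exact inner_self_eq_zero.mp h6
      rw [hk1, hk2]
      simp
    rw [hev.fderiv_eq, fderiv_const_apply, trN_zero]

end Pool.Agent.ML
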