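import Pool.Agent.Lib_MP_7d1493.One0

/-!
# One boundary plane: the test function
-/

set_option autoImplicit false

open MeasureTheory Measure Set Metric Filter Topology
open scoped ENNReal InnerProductSpace ContDiff

namespace Pool.Agent.ML

/-- the function -/
noncomputable def GC (κ H : ℝ) (q : E3) : ℝ := H - κ * F (hs q) - q 2 + κ * q 2 ^ 2

/-- its gradient -/
noncomputable def YC (κ : ℝ) (q : E3) : E3 := κ • YA q - ez

private theorem oc_hs_nonneg (q : E3) : 0 ≤ hs q := by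
  unfold hs
  positivity

private theorem oc_inner3 (a b : E3) : ⟪a, b⟫_ℝ = a 0 * b 0 + a 1 * b 1 + a 2 * b 2 := by
  rw [PiLp.inner_apply, Fin.sum_univ_three]
  simp only [RCLike.inner_apply, conj_trivial]
  ring

private theorem oc_coord (q : E3) : HasFDerivAt (fun q : E3 => q 2) (innerSL ℝ ez) q := by
  have h := (EuclideanSpace.proj (2 : Fin 3) : E3 →L[ℝ] ℝ).hasFDerivAt (x := q)
  refine h.congr_fderiv ?_
  ext v
  simp [ez, EuclideanSpace.inner_single_left]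

/-- `‖YA q‖ ^ 2 ≤ 1 + 4 z ^ 2` -/
private theorem oc_YA_sq (q : E3) : ⟪YA q, YA q⟫_ℝ ≤ 1 + 4 * q 2 ^ 2 := by
  have hs0 := oc_hs_nonneg q
  obtain ⟨h1, h2, -, -, -⟩ := F1_facts hs0
  have e1 : ⟪YA q, YA q⟫_ℝ = 4 * (hs q * F1 (hs q) ^ 2) + 4 * q 2 ^ 2 := by
    rw [oc_inner3]
    simp [YA]
    unfold hs
    ring
  have h3 : hs q * F1 (hs q) ^ 2 ≤ 1 / 4 := by
    have h4 : F1 (hs q) ^ 2 ≤ (1 / (1 + hs q)) ^ 2 := pow_le_pow_left₀ h1.le h2 2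
    have h5 : hs q * F1 (hs q) ^ 2 ≤ hs q * (1 / (1 + hs q)) ^ 2 := mul_le_mul_of_nonneg_left h4 hs0
    have h6 : hs q * (1 / (1 + hs q)) ^ 2 ≤ 1 / 4 := by
      have h7 : 0 < 1 + hs q := by linarith
      rw [div_pow, one_pow, mul_one_div, div_le_div_iff₀ (by positivity) (by norm_num)]
      nlinarith [sq_nonneg (1 - hs q)]
    exact h5.trans h6
  rw [e1]
  linarith

/-- PIECE [SH-8b] (this file, about 200 lines). PROOF. `GC κ H q = κ * GA (H / κ) q - q 2` (`TP_GA`) for `κ ≠ 0`. -/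
theorem TP_GC {κ : ℝ} (hκ : 0 < κ) (H : ℝ) : TP (GC κ H) (YC κ) := by
  constructor
  · intro q
    have h := (((TP_GA 0).grad q).const_mul κ).add ((oc_coord q).const_sub H)
    have e : GC κ H = (fun y => κ * GA 0 y) + fun y : E3 => H - y 2 := by
      funext y
      simp only [Pi.add_apply]
      unfold GC GA
      ring
    rw [e]
    refine h.congr_fderiv ?_
    ext v
    simp [YC]
    ring
  · have h := (TP_GA 0).smooth
    unfold YC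
    exact (h.const_smul κ).sub contDiff_const

/-- PROOF. `trN_YA`, `trN` of a scalar multiple. -/
theorem trN_YC {κ : ℝ} (hκ : 0 < κ) (q n : E3) (hn : ‖n‖ = 1) : -(if hs q ≤ 3 then 4 * κ else 0) ≤ trN (fderiv ℝ (YC κ) q) n := by
  have hd : DifferentiableAt ℝ YA q := ((TP_GA 0).smooth.differentiable (by simp)) q
  have e : fderiv ℝ (YC κ) q = κ • fderiv ℝ YA q := by
    have h1 := (hd.hasFDerivAt.const_smul κ).sub_const ez
    exact h1.fderiv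
  rw [e, trN_smul]
  have h := mul_le_mul_of_nonneg_left (trN_YA q n hn) hκ.le
  refine le_trans (le_of_eq ?_) h
  split_ifs
  · ring
  · ring

/-- PROOF. `YC κ q = - ez + κ • YA q`, `‖YA q‖ ^ 2 = 4 s (F1 s) ^ 2 + 4 (q 2) ^ 2 ≤ 1 + 4 (q 2) ^ 2` (`F1 s ≤ 1 / (1 + s)`, `4 s ≤ (1 + s) ^ 2`). With `P x = x - ⟪x, n⟫ n`: `‖P Y‖ ^ 2 = ⟪Y, Y⟫ - ⟪Y, n⟫ ^ 2`,
`‖P (- ez)‖ ^ 2 = 1 - n 2 ^ 2`, `‖P (κ • YA)‖ ^ 2 ≤ κ ^ 2 ‖YA‖ ^ 2`, `‖x + y‖ ^ 2 ≥ ‖x‖ ^ 2 / 2 - ‖y‖ ^ 2`. -/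
theorem tan_YC {κ : ℝ} (hκ : 0 < κ) (q n : E3) (hn : ‖n‖ = 1) :
    (1 - n 2 ^ 2) / 2 - κ ^ 2 * (1 + 4 * q 2 ^ 2) ≤ ⟪YC κ q, YC κ q⟫_ℝ - ⟪YC κ q, n⟫_ℝ * ⟪YC κ q, n⟫_ℝ := by
  have hA := mul_le_mul_of_nonneg_left (oc_YA_sq q) (sq_nonneg κ)
  have hnn : ⟪n, n⟫_ℝ = 1 := by rw [real_inner_self_eq_norm_sq, hn, one_pow]
  have e1 : ∀ v : E3, ⟪ez, v⟫_ℝ = v 2 := by
    intro v
    simp [ez, EuclideanSpace.inner_single_left]
  have e2 : ∀ v : E3, ⟪v, ez⟫_ℝ = v 2 := by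
    intro v
    rw [real_inner_comm, e1]
  have e3 : ez 2 = 1 := by simp [ez]
  have hcs := real_inner_mul_inner_self_le ((2 * κ) • YA q - ez) n
  rw [hnn, mul_one] at hcs
  unfold YC
  simp only [inner_sub_left, inner_sub_right, inner_smul_left, inner_smul_right, e1, e2, e3, conj_trivial] at hcs ⊢
  have e4 : ((2 * κ) • YA q - ez).ofLp 2 = 2 * κ * (YA q).ofLp 2 - 1 := by
    rw [← e3]
    rfl
  have e5 : (κ • YA q - ez).ofLp 2 = κ * (YA q).ofLp 2 - 1 := by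
    rw [← e3]
    rfl
  rw [e4] at hcs
  rw [e5]
  nlinarith [hcs, hA, sq_nonneg (κ * ⟪YA q, n⟫_ℝ)]

end Pool.Agent.ML
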