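import Pool.Agent.Lib_MP_7d1493.One1

/-!
# One boundary plane: the test function
-/

set_option autoImplicit false

open MeasureTheory Measure Set Metric Filter Topology
open scoped ENNReal InnerProductSpace ContDiff

namespace Pool.Agent.ML

private theorem One2_hs (q : E3) : 0 ≤ hs q := by
  unfold hs
  positivity

private theorem One2_norm (q : E3) : ‖q‖ ^ 2 = hs q + q 2 ^ 2 := by
  rw [EuclideanSpace.real_norm_sq_eq, Fin.sum_univ_three]
  rfl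

/-- the bound where `χ = 1` -/
private theorem One2_bound {a h ρ ε κ : ℝ} (ha : 0 ≤ a) (hε : ε = (h - a) / 4) (hah : a < h) (hκ : 0 < κ)
    (k1 : κ * (1 + h ^ 2) ≤ ε / 2) (k2 : κ * F ρ ≤ ε / 2) (k3 : 12 * h * κ * (1 + 4 * h ^ 2) ≤ 1)
    (q n : E3) (h0 : 0 ≤ q 2) (h1 : q 2 < a + 5 * ε / 2) (hn : ‖n‖ = 1) :
    (if hs q ≤ ρ ∧ q 2 ≤ a then 3 * ε / 2 * (1 - n 2 ^ 2) - κ else 0) -
        (if hs q ≤ 3 ∧ q 2 < a + 5 * ε / 2 then 48 * h ^ 2 * κ else 0) ≤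
      trN (fderiv ℝ (fun q => (3 * (max (GC κ (a + ε) q) 0) ^ 2) • YC κ q) q) n := by
  have hεp : 0 < ε := by rw [hε]; linarith
  have hh : 0 < h := by linarith
  have hqh : q 2 < h := by linarith
  obtain ⟨hF0, hFm, hFt⟩ := F_facts
  rw [TP.cube_eq (TP_GC hκ (a + ε)) q n]
  have hq2 : q 2 ^ 2 ≤ h ^ 2 := by nlinarith
  have t1 := trN_YC hκ q n hn
  have t2 := tan_YC hκ q n hn
  have hn2 : 0 ≤ 1 - n 2 ^ 2 := by
    have h3 := PiLp.norm_apply_le n 2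
    rw [hn, Real.norm_eq_abs] at h3
    have h4 := abs_le.mp h3
    nlinarith [h4.1, h4.2]
  have tan0 : 0 ≤ ⟪YC κ q, YC κ q⟫_ℝ - ⟪YC κ q, n⟫_ℝ * ⟪YC κ q, n⟫_ℝ := by
    have h3 := abs_real_inner_le_norm (YC κ q) n
    rw [hn, mul_one] at h3
    rw [real_inner_self_eq_norm_sq]
    nlinarith [abs_nonneg ⟪YC κ q, n⟫_ℝ, sq_abs ⟪YC κ q, n⟫_ℝ, norm_nonneg (YC κ q)]
  obtain ⟨P, hP⟩ : ∃ P, P = max (GC κ (a + ε) q) 0 := ⟨_, rfl⟩
  obtain ⟨T, hT⟩ : ∃ T, T = ⟪YC κ q, YC κ q⟫_ℝ - ⟪YC κ q, n⟫_ℝ * ⟪YC κ q, n⟫_ℝ := ⟨_, rfl⟩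
  obtain ⟨D, hD⟩ : ∃ D, D = trN (fderiv ℝ (YC κ) q) n := ⟨_, rfl⟩
  rw [← hP, ← hT, ← hD]
  rw [← hT] at t2 tan0
  rw [← hD] at t1
  have hP0 : 0 ≤ P := by rw [hP]; exact le_max_right _ _
  have hPh : P ≤ h := by
    rw [hP]
    refine max_le ?_ hh.le
    unfold GC
    have h3 := hF0 _ (One2_hs q)
    have h4 : 0 ≤ κ * F (hs q) := mul_nonneg hκ.le h3
    have h5 : κ * q 2 ^ 2 ≤ κ * h ^ 2 := mul_le_mul_of_nonneg_left hq2 hκ.le
    rw [hε] at *
    nlinarith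
  have hP2 : P ^ 2 ≤ h ^ 2 := by nlinarith
  -- the first term
  have s1 : -(if hs q ≤ 3 ∧ q 2 < a + 5 * ε / 2 then 48 * h ^ 2 * κ else 0) ≤ 3 * P ^ 2 * D := by
    by_cases h3 : hs q ≤ 3
    · rw [if_pos h3] at t1
      rw [if_pos ⟨h3, h1⟩]
      have h4 : 3 * P ^ 2 * (-(4 * κ)) ≤ 3 * P ^ 2 * D := mul_le_mul_of_nonneg_left t1 (by positivity)
      have h5 : 12 * κ * P ^ 2 ≤ 12 * κ * h ^ 2 := mul_le_mul_of_nonneg_left hP2 (by positivity)
      have h6 : 0 ≤ κ * h ^ 2 := by positivity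
      nlinarith
    · rw [if_neg h3] at t1
      rw [if_neg (fun h4 => h3 h4.1)]
      have h4 : 0 ≤ 3 * P ^ 2 * D := mul_nonneg (by positivity) (by linarith)
      linarith
  -- the second term
  have s2 : (if hs q ≤ ρ ∧ q 2 ≤ a then 3 * ε / 2 * (1 - n 2 ^ 2) - κ else 0) ≤ 6 * P * T := by
    by_cases h3 : hs q ≤ ρ ∧ q 2 ≤ a
    · rw [if_pos h3]
      have hPε : ε / 2 ≤ P := by
        rw [hP]
        refine le_max_of_le_left ?_
        unfold GC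
        have h4 : F (hs q) ≤ F ρ := hFm _ _ (One2_hs q) h3.1
        have h5 : κ * F (hs q) ≤ κ * F ρ := mul_le_mul_of_nonneg_left h4 hκ.le
        have h6 : 0 ≤ κ * q 2 ^ 2 := by positivity
        linarith [h3.2]
      have h4 : 6 * P * ((1 - n 2 ^ 2) / 2 - κ ^ 2 * (1 + 4 * q 2 ^ 2)) ≤ 6 * P * T :=
        mul_le_mul_of_nonneg_left t2 (by positivity)
      have h5 : ε / 2 * (1 - n 2 ^ 2) ≤ P * (1 - n 2 ^ 2) := mul_le_mul_of_nonneg_right hPε hn2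
      have h6 : P * (κ ^ 2 * (1 + 4 * q 2 ^ 2)) ≤ h * (κ ^ 2 * (1 + 4 * h ^ 2)) := by
        gcongr
      have h7 : 6 * (h * (κ ^ 2 * (1 + 4 * h ^ 2))) ≤ κ := by
        have h8 : κ * (12 * h * κ * (1 + 4 * h ^ 2)) ≤ κ * 1 := mul_le_mul_of_nonneg_left k3 hκ.le
        have h9 : 0 ≤ h * (κ ^ 2 * (1 + 4 * h ^ 2)) := by positivity
        nlinarith
      linarith
    · rw [if_neg h3]
      positivity
  linarith

/-- PIECE [SH-8c] (this file, about 200 lines). PROOF. `ε = (h - a) / 4`, `H = a + ε`. For `κ < κ0` (`κ0 (1 + h ^ 2) ≤ ε / 2`, `κ0 F ρ ≤ ε / 2`, `12 h κ0 (1 + 4 h ^ 2) ≤ 1`): let `G = GC κ H`,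
`m1 = a + 5 ε / 2`, `m2 = a + 11 ε / 4`. On `a + 2 ε ≤ q 2 ≤ a + 3 ε`: `G ≤ H - q 2 + κ h ^ 2 ≤ - ε + ε / 2 < 0`. On `hs q ≤ ρ`, `0 ≤ q 2 ≤ a`: `G ≥ ε - ε / 2 = ε / 2`. For `0 ≤ q 2 < h`:
`max G 0 ≤ H + κ h ^ 2 ≤ 2 h`. `b q = χ (q 2) * (max (G q) 0) ^ 3` with `χ` of `exists_cutoff'` (`m1, m2`), `Y` from `TP.cube` and `TP.cutoff'`. Support: `q 2 ≤ m2` on the support of `b`, so `tsupport b ⊆ {q 2 ≤ m2}`;
`κ F (hs q) < H - q 2 + κ (q 2) ^ 2` bounds `hs q` there (`F_facts`), so compact (as in `slab_test`). Trace for `q 2 ≥ 0`: if `q 2 < m1` it is `TP.cube_eq`: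
`3 G_+ ^ 2 trN (YC) + 6 G_+ tan ≥ - 3 (2 h) ^ 2 4 κ [hs ≤ 3]` and on `hs q ≤ ρ`, `q 2 ≤ a` in addition `6 G_+ ((1 - n 2 ^ 2) / 2 - κ ^ 2 (1 + 4 h ^ 2)) ≥ (3 ε / 2) (1 - n 2 ^ 2) - κ` (elsewhere `tan ≥ 0`, Cauchy-Schwarz).
If `a + 2 ε < q 2 < a + 3 ε` it is `0` (`b0 = 0` near `q`), if `q 2 > m2` it is `0` (`χ = 0` near `q 2`). `h' = m1`, `c = 3 ε / 2`, `K = 48 h ^ 2`. -/
theorem one_test {a h ρ : ℝ} (ha : 0 ≤ a) (hah : a < h) (hρ : 0 ≤ ρ) :
    ∃ h' < h, ∃ c > 0, ∃ K > 0, ∃ κ0 > 0, ∀ κ : ℝ, 0 < κ → κ < κ0 → ∃ (b : E3 → ℝ) (Y : E3 → E3), TP b Y ∧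
      HasCompactSupport b ∧ tsupport b ⊆ {q | q 2 < h} ∧
      ∀ q n : E3, 0 ≤ q 2 → ‖n‖ = 1 → (if hs q ≤ ρ ∧ q 2 ≤ a then c * (1 - n 2 ^ 2) - κ else 0) -
        (if hs q ≤ 3 ∧ q 2 < h' then K * κ else 0) ≤ trN (fderiv ℝ Y q) n := by
  obtain ⟨ε, hε⟩ : ∃ ε, ε = (h - a) / 4 := ⟨_, rfl⟩
  have hεp : 0 < ε := by rw [hε]; linarith
  have hh : 0 < h := by linarith
  obtain ⟨hF0, hFm, hFt⟩ := F_facts
  have hFρ := hF0 ρ hρ
  set κ1 : ℝ := ε / 2 / (1 + h ^ 2) with hκ1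
  set κ2 : ℝ := ε / 2 / (1 + F ρ) with hκ2
  set κ3 : ℝ := 1 / (12 * h * (1 + 4 * h ^ 2)) with hκ3
  have hκ1p : 0 < κ1 := by positivity
  have hκ2p : 0 < κ2 := by positivity
  have hκ3p : 0 < κ3 := by positivity
  refine ⟨a + 5 * ε / 2, by linarith, 3 * ε / 2, by positivity, 48 * h ^ 2, by positivity, min κ1 (min κ2 κ3),
    lt_min hκ1p (lt_min hκ2p hκ3p), ?_⟩
  intro κ hκ hκ0
  have b1 : κ < κ1 := hκ0.trans_le (min_le_left _ _)
  have b2 : κ < κ2 := hκ0.trans_le ((min_le_right _ _).trans (min_le_left _ _))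
  have b3 : κ < κ3 := hκ0.trans_le ((min_le_right _ _).trans (min_le_right _ _))
  have k1 : κ * (1 + h ^ 2) ≤ ε / 2 := by
    rw [hκ1, lt_div_iff₀ (by positivity)] at b1
    exact b1.le
  have k2 : κ * F ρ ≤ ε / 2 := by
    rw [hκ2, lt_div_iff₀ (by positivity)] at b2
    linarith
  have k3 : 12 * h * κ * (1 + 4 * h ^ 2) ≤ 1 := by
    rw [hκ3, lt_div_iff₀ (by positivity)] at b3
    linarith
  obtain ⟨χ, hχ, hχ1, hχ0⟩ := exists_cutoff' (m1 := a + 5 * ε / 2) (m2 := a + 11 * ε / 4) (by linarith) (by linarith)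
  have hT := (TP_GC hκ (a + ε)).cube.1
  obtain ⟨Y', hY', e1, e0, ez0⟩ := hT.cutoff' hχ
  have hsupp : ∀ q ∈ Function.support (fun q : E3 => χ (q 2) * (max (GC κ (a + ε) q) 0) ^ 3),
      -1 - (ε / 4) < q 2 ∧ q 2 < a + 11 * ε / 4 ∧ 0 < GC κ (a + ε) q := by
    intro q hq
    rw [Function.mem_support] at hq
    have h1 : χ (q 2) ≠ 0 := left_ne_zero_of_mul hq
    have h2 : (max (GC κ (a + ε) q) 0) ^ 3 ≠ 0 := right_ne_zero_of_mul hq
    refine ⟨?_, ?_, ?_⟩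
    · by_contra h3
      push Not at h3
      refine h1 (hχ0 _ (Or.inl ?_))
      linarith
    · by_contra h3
      push Not at h3
      exact h1 (hχ0 _ (Or.inr h3))
    · by_contra h3
      push Not at h3
      rw [max_eq_right h3] at h2
      exact h2 (by norm_num)
  refine ⟨_, Y', hY', ?_, ?_, ?_⟩
  · -- compact support
    obtain ⟨R0, hR0⟩ : ∃ R0, R0 = 1 + a + 3 * ε := ⟨_, rfl⟩
    obtain ⟨B, hB⟩ : ∃ B, B = (a + ε + R0 + κ * R0 ^ 2) / κ := ⟨_, rfl⟩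
    obtain ⟨R, hR⟩ := (hFt.eventually (eventually_ge_atTop B)).exists_forall_of_atTop
    have hsub : Function.support (fun q : E3 => χ (q 2) * (max (GC κ (a + ε) q) 0) ^ 3)
        ⊆ closedBall (0 : E3) (√(|R| + R0 ^ 2)) := by
      intro q hq
      obtain ⟨g1, g2, g3⟩ := hsupp q hq
      have g4 : |q 2| ≤ R0 := by
        rw [abs_le]
        constructor <;> linarith
      have g5 : q 2 ^ 2 ≤ R0 ^ 2 := by
        rw [← sq_abs]
        exact pow_le_pow_left₀ (abs_nonneg _) g4 2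
      have g6 : F (hs q) < B := by
        unfold GC at g3
        rw [hB, lt_div_iff₀ hκ]
        have g7 : κ * q 2 ^ 2 ≤ κ * R0 ^ 2 := mul_le_mul_of_nonneg_left g5 hκ.le
        have g8 := (abs_le.mp g4).1
        linarith
      have g7 : hs q ≤ |R| := by
        by_contra h3
        push Not at h3
        have := hR (hs q) ((le_abs_self R).trans h3.le)
        linarith
      rw [mem_closedBall_zero_iff]
      refine Real.le_sqrt_of_sq_le ?_
      rw [One2_norm]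
      linarith
    exact HasCompactSupport.of_support_subset_isCompact (isCompact_closedBall _ _) hsub
  · -- the support is below `h`
    have hcl : IsClosed {q : E3 | q 2 ≤ a + 11 * ε / 4} := isClosed_le (by fun_prop) continuous_const
    refine (closure_minimal (fun q hq => ?_) hcl).trans fun q hq => ?_
    · exact (hsupp q hq).2.1.le
    · have h3 : q 2 ≤ a + 11 * ε / 4 := hq
      show q 2 < h
      linarith
  · -- the trace
    intro q n h0 hn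
    by_cases h1 : q 2 < a + 5 * ε / 2
    · rw [e1 q n (by
        filter_upwards [Ioo_mem_nhds (by linarith : (-1 : ℝ) < q 2) h1] with z hz
        exact hχ1 z hz.1.le hz.2.le)]
      exact One2_bound ha hε hah hκ k1 k2 k3 q n h0 h1 hn
    · have hz : trN (fderiv ℝ Y' q) n = 0 := by
        push Not at h1
        by_cases h2 : q 2 < a + 3 * ε
        · refine ez0 q n ?_
          have hop : {v : E3 | a + 2 * ε < v 2 ∧ v 2 < a + 3 * ε} ∈ 𝓝 q := by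
            apply IsOpen.mem_nhds
            · have hc2 : Continuous fun v : E3 => v 2 := by fun_prop
              exact (isOpen_lt continuous_const hc2).inter (isOpen_lt hc2 continuous_const)
            · exact ⟨by linarith, h2⟩
          filter_upwards [hop] with v hv
          have h3 : GC κ (a + ε) v ≤ 0 := by
            unfold GC
            have h4 : 0 ≤ κ * F (hs v) := mul_nonneg hκ.le (hF0 _ (One2_hs v))
            have h5 : v 2 ^ 2 ≤ h ^ 2 := by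
              have h6 := hv.1
              have h7 := hv.2
              have h8 : v 2 ≤ h := by linarith
              have h9 : 0 ≤ v 2 := by linarith
              nlinarith
            have h6 : κ * v 2 ^ 2 ≤ κ * h ^ 2 := mul_le_mul_of_nonneg_left h5 hκ.le
            have h7 := hv.1
            nlinarith
          rw [max_eq_right h3]
          norm_num
        · push Not at h2
          refine e0 q n ?_
          filter_upwards [Ioi_mem_nhds (by linarith : a + 11 * ε / 4 < q 2)] with z hz'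
          exact hχ0 z (Or.inr (le_of_lt hz'))
      rw [hz, if_neg (fun h2 => by linarith [h2.2]), if_neg (fun h2 => h1 h2.2)]
      simp

end Pool.Agent.ML
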