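import Pool.Agent.Lib_MP_7d1493.One2
import Pool.Agent.Lib_MP_7d1493.Lam2
import Pool.Agent.Lib_MP_7d1493.End3

/-!
# One boundary plane: the energy
-/

set_option autoImplicit false

open MeasureTheory Measure Set Metric Filter Topology
open scoped ENNReal InnerProductSpace ContDiff

namespace Pool.Agent.ML

private theorem One3_norm (q : E3) : ‖q‖ ^ 2 = hs q + q 2 ^ 2 := by
  rw [EuclideanSpace.real_norm_sq_eq, Fin.sum_univ_three]
  rfl

private theorem One3_hs_cont : Continuous hs := by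
  unfold hs
  fun_prop

private theorem One3_z_cont : Continuous fun q : E3 => q 2 := by
  fun_prop

private theorem One3_norm_N {L : Set E3} {N : E3 → E3} (hL : IsMinLam L N) {q : E3} (hq : q ∈ L) :
    ‖N q‖ = 1 := by
  obtain ⟨e, r, u, hr, -, h, h0⟩ := exists_patch hL hq
  have h1 := (h 0 (mem_ball_self hr)).2.2
  have h2 : gr q e u 0 = q := by
    unfold gr pt
    rw [h0]
    simp
  rw [h2] at h1
  rcases h1 with h1 | h1
  · rw [h1, norm_nrm]
  · rw [h1, norm_neg, norm_nrm]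

private theorem One3_N_sq_le {L : Set E3} {N : E3 → E3} (hL : IsMinLam L N) {q : E3} (hq : q ∈ L) :
    0 ≤ 1 - N q 2 ^ 2 := by
  have h1 := One3_norm_N hL hq
  have h2 : ‖N q 2‖ ≤ ‖N q‖ := PiLp.norm_apply_le _ _
  rw [h1, Real.norm_eq_abs] at h2
  nlinarith [abs_nonneg (N q 2), sq_abs (N q 2)]

private theorem One3_fin {L : Set E3} (hpos : ∀ q ∈ L, 0 ≤ q 2) {h : ℝ}
    (hint : ∀ K : Set E3, IsCompact K → K ⊆ {q | q 2 < h} → ∫⁻ q in L ∩ K, ENNReal.ofReal (q 2) ∂μHE[2] < ⊤)
    {a ρ : ℝ} (hah : a < h) :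
    ∫⁻ q in L ∩ {q | hs q ≤ ρ ∧ q 2 ≤ a}, ENNReal.ofReal (q 2) ∂μHE[2] < ⊤ := by
  have hK : IsCompact {q : E3 | hs q ≤ ρ ∧ 0 ≤ q 2 ∧ q 2 ≤ a} := by
    refine Metric.isCompact_of_isClosed_isBounded ?_ ?_
    · exact (isClosed_le One3_hs_cont continuous_const).inter
        ((isClosed_le continuous_const One3_z_cont).inter (isClosed_le One3_z_cont continuous_const))
    · refine (isBounded_closedBall (x := (0 : E3)) (r := √(|ρ| + a ^ 2))).subset fun q hq => ?_
      rw [mem_closedBall_zero_iff]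
      refine Real.le_sqrt_of_sq_le ?_
      rw [One3_norm]
      obtain ⟨h1, h2, h3⟩ := hq
      have h4 := le_abs_self ρ
      have h5 : q 2 ^ 2 ≤ a ^ 2 := by nlinarith
      linarith
  refine (lintegral_mono_set ?_).trans_lt (hint _ hK ?_)
  · rintro q ⟨h1, h2, h3⟩
    exact ⟨h1, h2, hpos q h1, h3⟩
  · rintro q ⟨-, -, h3⟩
    show q 2 < h
    linarith

private theorem One3_int {L : Set E3} (hL : MeasurableSet L) (hpos : ∀ q ∈ L, 0 ≤ q 2) {A : Set E3}
    (hA : MeasurableSet A) (hfin : ∫⁻ q in L ∩ A, ENNReal.ofReal (q 2) ∂μHE[2] < ⊤) :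
    IntegrableOn (A.indicator fun q : E3 => q 2) L μHE[2] := by
  rw [IntegrableOn, integrable_indicator_iff hA]
  show Integrable (fun q : E3 => q 2) ((μHE[2].restrict L).restrict A)
  rw [Measure.restrict_restrict hA, inter_comm A L]
  refine ⟨One3_z_cont.aestronglyMeasurable, ?_⟩
  rw [hasFiniteIntegral_iff_ofReal]
  · exact hfin
  · filter_upwards [ae_restrict_mem (hL.inter hA)] with q hq using hpos q hq.1

/-- PIECE [SH-8d] (this file, about 180 lines). PROOF. `Ω = {q | q 2 < h}`, `ψ z = z`, `ψ1 = 1`, `ψ2 = 0`, `M = 0` in `lam_green_on`. `A = {q | hs q ≤ ρ ∧ q 2 ≤ a}`, `B = {q | hs q ≤ 3 ∧ q 2 < h'}`: `L ∩ A`, `L ∩ B` are bounded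
(`0 ≤ q 2` on `L`) and lie in compact subsets of `Ω`, so `J1 = ∫_{L ∩ A} q 2 < ∞`, `J2 = ∫_{L ∩ B} q 2 < ∞` (`hint`; `q 2` is integrable on `L ∩ A`, `L ∩ B`). For `0 < κ < κ0` take `b, Y` of `one_test`; on `L` (`‖N‖ = 1`, as `norm_N` in
`Half2.lean`): `[A] q 2 c (1 - N_3 ^ 2) ≤ itg + κ q 2 [A] + K κ q 2 [B]` (`itg N ψ ψ2 b Y q = q 2 * trN (fderiv ℝ Y q) (N q)`). Take `∫⁻ ENNReal.ofReal` over `L` (no measurability of `N` needed, see `half_energy`):
`ofReal c * ∫⁻_{L ∩ A} ofReal (q 2 (1 - N_3 ^ 2)) ≤ ofReal (0 + κ J1 + K κ J2)`. `κ → 0`. -/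
theorem one_energy {L : Set E3} {N : E3 → E3} (hL : IsMinLam L N) (hpos : ∀ q ∈ L, 0 ≤ q 2) {h : ℝ}
    (hint : ∀ K : Set E3, IsCompact K → K ⊆ {q | q 2 < h} → ∫⁻ q in L ∩ K, ENNReal.ofReal (q 2) ∂μHE[2] < ⊤)
    {a ρ : ℝ} (ha : 0 ≤ a) (hah : a < h) (hρ : 0 ≤ ρ) :
    ∫⁻ q in L ∩ {q | hs q ≤ ρ ∧ q 2 ≤ a}, ENNReal.ofReal (q 2 * (1 - N q 2 ^ 2)) ∂μHE[2] = 0 := by
  obtain ⟨h', hh', c, hc, K, hK, κ0, hκ0, htest⟩ := one_test ha hah hρ
  have hLm : MeasurableSet L := hL.closed.measurableSet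
  have hΩ : IsOpen {q : E3 | q 2 < h} := isOpen_lt One3_z_cont continuous_const
  set A : Set E3 := {q | hs q ≤ ρ ∧ q 2 ≤ a} with hA
  set B : Set E3 := {q | hs q ≤ 3 ∧ q 2 < h'} with hB
  have hAm : MeasurableSet A :=
    ((isClosed_le One3_hs_cont continuous_const).inter (isClosed_le One3_z_cont continuous_const)).measurableSet
  have hBm : MeasurableSet B :=
    ((isClosed_le One3_hs_cont continuous_const).measurableSet).inter
      ((isOpen_lt One3_z_cont continuous_const).measurableSet)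
  have hAi : IntegrableOn (A.indicator fun q : E3 => q 2) L μHE[2] :=
    One3_int hLm hpos hAm (One3_fin hpos hint hah)
  have hBi : IntegrableOn (B.indicator fun q : E3 => q 2) L μHE[2] := by
    refine One3_int hLm hpos hBm ((lintegral_mono_set ?_).trans_lt (One3_fin (ρ := 3) hpos hint hh'))
    rintro q ⟨h1, h2, h3⟩
    exact ⟨h1, h2, le_of_lt h3⟩
  set J1 : ℝ := ∫ q in L, A.indicator (fun q : E3 => q 2) q ∂μHE[2] with hJ1
  set J2 : ℝ := ∫ q in L, B.indicator (fun q : E3 => q 2) q ∂μHE[2] with hJ2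
  have hA0 : ∀ q ∈ L, 0 ≤ A.indicator (fun q : E3 => q 2) q := fun q hq =>
    indicator_apply_nonneg fun _ => hpos q hq
  have hB0 : ∀ q ∈ L, 0 ≤ B.indicator (fun q : E3 => q 2) q := fun q hq =>
    indicator_apply_nonneg fun _ => hpos q hq
  have hJ1p : 0 ≤ J1 := setIntegral_nonneg hLm hA0
  have hJ2p : 0 ≤ J2 := setIntegral_nonneg hLm hB0
  have hD2 : D2 (fun z : ℝ => z) (fun _ => 1) (fun _ => 0) :=
    ⟨fun z => hasDerivAt_id z, fun z => hasDerivAt_const z 1, continuous_const⟩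
  set D : ℝ := J1 + K * J2 with hD
  have hDp : 0 ≤ D := by positivity
  set I := ∫⁻ q in L ∩ A, ENNReal.ofReal (q 2 * (1 - N q 2 ^ 2)) ∂μHE[2] with hI
  -- the main inequality
  have main : ∀ κ : ℝ, 0 < κ → κ < κ0 → ENNReal.ofReal c * I ≤ ENNReal.ofReal (κ * D) := by
    intro κ hκ hκκ
    obtain ⟨b, Y, hb, hbc, hbs, hb2⟩ := htest κ hκ hκκ
    obtain ⟨hi, hz⟩ := lam_green_on hL hΩ hD2 (M := 0) hpos (fun q _ => by simp) hint hb hbc hbs
    have key : ∀ q ∈ L, A.indicator (fun q : E3 => c * (q 2 * (1 - N q 2 ^ 2))) q ≤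
        itg N (fun z => z) (fun _ => 0) b Y q + (κ * A.indicator (fun q : E3 => q 2) q +
          K * κ * B.indicator (fun q : E3 => q 2) q) := by
      intro q hq
      have h1 := hb2 q (N q) (hpos q hq) (One3_norm_N hL hq)
      have h2 := mul_le_mul_of_nonneg_left h1 (hpos q hq)
      have h3 : itg N (fun z => z) (fun _ => 0) b Y q = q 2 * trN (fderiv ℝ Y q) (N q) := by
        unfold itg
        ring
      rw [h3]
      by_cases hqA : q ∈ A
      · have hqA' : hs q ≤ ρ ∧ q 2 ≤ a := hqA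
        rw [indicator_of_mem hqA, indicator_of_mem hqA]
        rw [if_pos hqA'] at h2
        by_cases hqB : q ∈ B
        · have hqB' : hs q ≤ 3 ∧ q 2 < h' := hqB
          rw [indicator_of_mem hqB]
          rw [if_pos hqB'] at h2
          linarith
        · have hqB' : ¬ (hs q ≤ 3 ∧ q 2 < h') := hqB
          rw [indicator_of_notMem hqB]
          rw [if_neg hqB'] at h2
          linarith
      · have hqA' : ¬ (hs q ≤ ρ ∧ q 2 ≤ a) := hqA
        rw [indicator_of_notMem hqA, indicator_of_notMem hqA]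
        rw [if_neg hqA'] at h2
        by_cases hqB : q ∈ B
        · have hqB' : hs q ≤ 3 ∧ q 2 < h' := hqB
          rw [indicator_of_mem hqB]
          rw [if_pos hqB'] at h2
          linarith
        · have hqB' : ¬ (hs q ≤ 3 ∧ q 2 < h') := hqB
          rw [indicator_of_notMem hqB]
          rw [if_neg hqB'] at h2
          linarith
    have hm0 : ∀ q ∈ L, 0 ≤ A.indicator (fun q : E3 => c * (q 2 * (1 - N q 2 ^ 2))) q := fun q hq =>
      indicator_apply_nonneg fun _ => mul_nonneg hc.le (mul_nonneg (hpos q hq) (One3_N_sq_le hL hq))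
    have hsi : IntegrableOn (fun q => κ * A.indicator (fun q : E3 => q 2) q +
          K * κ * B.indicator (fun q : E3 => q 2) q) L μHE[2] :=
      Integrable.add (hAi.const_mul _) (hBi.const_mul _)
    have hsum : IntegrableOn (fun q => itg N (fun z => z) (fun _ => 0) b Y q +
        (κ * A.indicator (fun q : E3 => q 2) q + K * κ * B.indicator (fun q : E3 => q 2) q)) L μHE[2] :=
      Integrable.add hi hsi
    have hval : ∫ q in L, (itg N (fun z => z) (fun _ => 0) b Y q +
        (κ * A.indicator (fun q : E3 => q 2) q + K * κ * B.indicator (fun q : E3 => q 2) q)) ∂μHE[2] = κ * D := by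
      rw [integral_add hi hsi, hz, zero_add, integral_add (hAi.const_mul _) (hBi.const_mul _),
        integral_const_mul, integral_const_mul]
      ring
    calc ENNReal.ofReal c * I
        = ∫⁻ q in L ∩ A, ENNReal.ofReal c * ENNReal.ofReal (q 2 * (1 - N q 2 ^ 2)) ∂μHE[2] :=
          (lintegral_const_mul' _ _ ENNReal.ofReal_ne_top).symm
      _ = ∫⁻ q in L ∩ A, ENNReal.ofReal (A.indicator (fun q : E3 => c * (q 2 * (1 - N q 2 ^ 2))) q) ∂μHE[2] := by
          refine setLIntegral_congr_fun (hLm.inter hAm) fun q hq => ?_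
          show ENNReal.ofReal c * ENNReal.ofReal (q 2 * (1 - N q 2 ^ 2)) =
            ENNReal.ofReal (A.indicator (fun q : E3 => c * (q 2 * (1 - N q 2 ^ 2))) q)
          rw [indicator_of_mem hq.2, ← ENNReal.ofReal_mul hc.le]
      _ ≤ ∫⁻ q in L, ENNReal.ofReal (A.indicator (fun q : E3 => c * (q 2 * (1 - N q 2 ^ 2))) q) ∂μHE[2] :=
          lintegral_mono_set inter_subset_left
      _ ≤ ∫⁻ q in L, ENNReal.ofReal (itg N (fun z => z) (fun _ => 0) b Y q +
            (κ * A.indicator (fun q : E3 => q 2) q + K * κ * B.indicator (fun q : E3 => q 2) q)) ∂μHE[2] :=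
          setLIntegral_mono' hLm fun q hq => ENNReal.ofReal_le_ofReal (key q hq)
      _ = ENNReal.ofReal (∫ q in L, (itg N (fun z => z) (fun _ => 0) b Y q +
            (κ * A.indicator (fun q : E3 => q 2) q + K * κ * B.indicator (fun q : E3 => q 2) q)) ∂μHE[2]) := by
          rw [ofReal_integral_eq_lintegral_ofReal hsum]
          filter_upwards [ae_restrict_mem hLm] with q hq
          exact (hm0 q hq).trans (key q hq)
      _ = _ := by rw [hval]
  -- `κ → 0`
  have hcp : ENNReal.ofReal c ≠ 0 := (ENNReal.ofReal_pos.mpr hc).ne'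
  have hfin : I ≠ ⊤ := by
    have h1 := main (κ0 / 2) (by positivity) (by linarith)
    intro h2
    rw [h2, ENNReal.mul_top hcp] at h1
    exact absurd h1 (by simp)
  by_contra hne
  have hi0 : 0 < I.toReal := ENNReal.toReal_pos hne hfin
  have hIe : I = ENNReal.ofReal I.toReal := (ENNReal.ofReal_toReal hfin).symm
  obtain ⟨i, hi⟩ : ∃ i, i = I.toReal := ⟨_, rfl⟩
  rw [← hi] at hi0 hIe
  have hκp : 0 < min (κ0 / 2) (c * i / (2 * (D + 1))) := lt_min (by positivity) (by positivity)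
  have h1 := main (min (κ0 / 2) (c * i / (2 * (D + 1)))) hκp
    ((min_le_left _ _).trans_lt (by linarith))
  rw [hIe, ← ENNReal.ofReal_mul hc.le, ENNReal.ofReal_le_ofReal_iff (by positivity)] at h1
  have h2 : min (κ0 / 2) (c * i / (2 * (D + 1))) * D ≤ c * i / (2 * (D + 1)) * D :=
    mul_le_mul_of_nonneg_right (min_le_right _ _) hDp
  have h3 : c * i / (2 * (D + 1)) * D < c * i := by
    rw [div_mul_eq_mul_div, div_lt_iff₀ (by positivity)]
    have h4 : 0 < c * i := by positivity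
    nlinarith
  linarith

/-- PROOF. `q ∈ L`, `0 < q 2 < h`: `a = (q 2 + h) / 2`, `vertical_of_energy` with `ψ z = max 0 (min z (a - z))`: `L ∩ ball 0 R ∩ {q | a < q 2}` does not contribute, on the rest `ψ ≤ z` and `one_energy` with `ρ = R ^ 2`.
Then `planes_local`. -/
theorem one_planes {L : Set E3} {N : E3 → E3} (hL : IsMinLam L N) (hpos : ∀ q ∈ L, 0 ≤ q 2) {h : ℝ}
    (hint : ∀ K : Set E3, IsCompact K → K ⊆ {q | q 2 < h} → ∫⁻ q in L ∩ K, ENNReal.ofReal (q 2) ∂μHE[2] < ⊤) :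
    ∃ C : Set ℝ, IsClosed C ∧ L ∩ {q | q 2 < h} = {q | q 2 ∈ C ∧ q 2 < h} := by
  refine planes_local hL hpos fun q hq h0 h1 => ?_
  obtain ⟨a, ha⟩ : ∃ a, a = (q 2 + h) / 2 := ⟨_, rfl⟩
  have haq : q 2 < a := by rw [ha]; linarith
  have hah : a < h := by rw [ha]; linarith
  have ha0 : 0 ≤ a := by linarith
  refine vertical_of_energy hL (ψ := fun z => max 0 (min z (a - z))) (by fun_prop) (fun q' _ => le_max_left _ _)
    (fun R => ?_) hq ?_
  · refine le_antisymm ?_ bot_le
    rw [← one_energy hL hpos hint ha0 hah (sq_nonneg R)]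
    have hLm : MeasurableSet L := hL.closed.measurableSet
    have hAm : MeasurableSet {q : E3 | hs q ≤ R ^ 2 ∧ q 2 ≤ a} :=
      ((isClosed_le One3_hs_cont continuous_const).inter (isClosed_le One3_z_cont continuous_const)).measurableSet
    calc ∫⁻ q in L ∩ ball 0 R, ENNReal.ofReal (max 0 (min (q 2) (a - q 2)) * (1 - N q 2 ^ 2)) ∂μHE[2]
        ≤ ∫⁻ q in L ∩ ball 0 R, {q : E3 | hs q ≤ R ^ 2 ∧ q 2 ≤ a}.indicator
            (fun q => ENNReal.ofReal (q 2 * (1 - N q 2 ^ 2))) q ∂μHE[2] := by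
          refine setLIntegral_mono' (hLm.inter measurableSet_ball) fun q' hq' => ?_
          have h3 := One3_N_sq_le hL hq'.1
          have h4 := hpos q' hq'.1
          by_cases h5 : q' 2 ≤ a
          · have h6 : q' ∈ {q : E3 | hs q ≤ R ^ 2 ∧ q 2 ≤ a} := by
              refine ⟨?_, h5⟩
              have h7 : ‖q'‖ < R := by
                have := hq'.2
                rwa [mem_ball_zero_iff] at this
              have h8 : ‖q'‖ ^ 2 ≤ R ^ 2 := pow_le_pow_left₀ (norm_nonneg _) h7.le 2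
              rw [One3_norm] at h8
              nlinarith [sq_nonneg (q' 2)]
            rw [indicator_of_mem h6]
            refine ENNReal.ofReal_le_ofReal (mul_le_mul_of_nonneg_right ?_ h3)
            exact max_le h4 (min_le_left _ _)
          · have h6 : max 0 (min (q' 2) (a - q' 2)) = 0 := by
              refine max_eq_left ((min_le_right _ _).trans ?_)
              linarith
            rw [h6, zero_mul, ENNReal.ofReal_zero]
            exact zero_le
      _ ≤ ∫⁻ q in L, {q : E3 | hs q ≤ R ^ 2 ∧ q 2 ≤ a}.indicator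
            (fun q => ENNReal.ofReal (q 2 * (1 - N q 2 ^ 2))) q ∂μHE[2] := lintegral_mono_set inter_subset_left
      _ = ∫⁻ q in L ∩ {q : E3 | hs q ≤ R ^ 2 ∧ q 2 ≤ a}, ENNReal.ofReal (q 2 * (1 - N q 2 ^ 2)) ∂μHE[2] := by
          rw [lintegral_indicator hAm, Measure.restrict_restrict hAm, inter_comm]
  · exact lt_max_of_lt_right (lt_min h0 (by linarith))

end Pool.Agent.ML
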