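import Pool.Agent.Lib_MP_7d1493.Basic

/-!
# Smooth partitions of unity on a compact set
-/

set_option autoImplicit false

open MeasureTheory Measure Set Metric Filter Topology
open scoped ENNReal InnerProductSpace ContDiff Manifold

namespace Pool.Agent.ML

/-- PIECE [SH-3p] (this file, about 50 lines). A smooth partition of unity on a compact set, as finitely many functions: finite subcover (`IsCompact.elim_finite_subcover`),
`SmoothPartitionOfUnity.exists_isSubordinate` with `𝓘(ℝ, E3)`, `ContMDiff.contDiff`, `finsum_eq_sum_of_fintype`. -/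
theorem exists_partition {K : Set E3} (hK : IsCompact K) {ι : Type} (V : ι → Set E3) (hV : ∀ i, IsOpen (V i)) (hKV : K ⊆ ⋃ i, V i) :
    ∃ (n : ℕ) (j : Fin n → ι) (χ : Fin n → E3 → ℝ), (∀ k, ContDiff ℝ ∞ (χ k)) ∧ (∀ k, tsupport (χ k) ⊆ V (j k)) ∧
      ∀ q ∈ K, ∑ k, χ k q = 1 := by
  classical
  obtain ⟨t, ht⟩ := hK.elim_finite_subcover V hV hKV
  have hcov : K ⊆ ⋃ i : t, V i := by
    intro x hx
    have h1 := ht hx
    rw [mem_iUnion₂] at h1
    obtain ⟨i, hi, hxi⟩ := h1
    exact mem_iUnion.2 ⟨⟨i, hi⟩, hxi⟩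
  obtain ⟨f, hf⟩ := SmoothPartitionOfUnity.exists_isSubordinate 𝓘(ℝ, E3) hK.isClosed
    (fun i : t => V i) (fun i => hV i) hcov
  refine ⟨t.card, fun k => ((t.equivFin).symm k : t), fun k => f ((t.equivFin).symm k), ?_, ?_, ?_⟩
  · intro k
    exact (f ((t.equivFin).symm k)).contMDiff.contDiff
  · intro k
    exact hf ((t.equivFin).symm k)
  · intro q hq
    have h1 := f.sum_eq_one hq
    rw [finsum_eq_sum_of_fintype] at h1
    rw [← h1]
    exact Equiv.sum_comp (t.equivFin).symm (fun i => f i q)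

end Pool.Agent.ML
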