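import Pool.Agent.Lib_MP_7d1493.Basic

/-!
# Algebra of the first variation of a graph
-/

set_option autoImplicit false

open MeasureTheory Measure Set Metric Filter Topology
open scoped ENNReal InnerProductSpace ContDiff

namespace Pool.Agent.ML

/-- the vector fields of the first variation: `a = ((1 + q ^ 2) e 0 - p q e 1 + p e 2) / W` -/
noncomputable def va (e : OrthonormalBasis (Fin 3) ℝ E3) (u : E2 → ℝ) (y : E2) : E3 :=
  (W u y)⁻¹ • ((1 + pd 1 u y ^ 2) • e 0 - (pd 0 u y * pd 1 u y) • e 1 + pd 0 u y • e 2)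

/-- `b = (- p q e 0 + (1 + p ^ 2) e 1 + q e 2) / W` -/
noncomputable def vb (e : OrthonormalBasis (Fin 3) ℝ E3) (u : E2 → ℝ) (y : E2) : E3 :=
  (W u y)⁻¹ • (-(pd 0 u y * pd 1 u y) • e 0 + (1 + pd 0 u y ^ 2) • e 1 + pd 1 u y • e 2)

/-- PIECE [SH-2a] (this file, about 150 lines). PROOF. `trN_eq_sum`; put `A i j = ⟪e i, A (e j)⟫`. With `p = pd 0 u y`, `q = pd 1 u y`,
`n = (- p, - q, 1) = W nrm`, `W ^ 2 = 1 + p ^ 2 + q ^ 2`: `W ^ 2 tr A - ⟪A n, n⟫ = ⟪A (e 0 + p e 2), W a⟫ + ⟪A (e 1 + q e 2), W b⟫` is an identity of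
polynomials in `A i j, p, q` (coefficients: `A 0 0`: `1 + q ^ 2`, `A 1 1`: `1 + p ^ 2`, `A 2 2`: `p ^ 2 + q ^ 2`, `A 0 1` and `A 1 0`: `- p q`,
`A 0 2`, `A 2 0`: `p`, `A 1 2`, `A 2 1`: `q`); divide by `W`. -/
theorem W_mul_trN (e : OrthonormalBasis (Fin 3) ℝ E3) (u : E2 → ℝ) (y : E2) (A : E3 →L[ℝ] E3) :
    W u y * trN A (nrm e u y) =
      ⟪A (e 0 + pd 0 u y • e 2), va e u y⟫_ℝ + ⟪A (e 1 + pd 1 u y • e 2), vb e u y⟫_ℝ := by
  have hW := (W_pos u y).ne'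
  have h2 := W_sq u y
  rw [trN_eq_sum e, Fin.sum_univ_three, real_inner_comm (A (e 0)) (e 0), real_inner_comm (A (e 1)) (e 1),
    real_inner_comm (A (e 2)) (e 2)]
  unfold nrm va vb
  simp only [map_add, map_sub, map_smul, inner_add_left, inner_add_right, inner_sub_left, inner_sub_right,
    inner_smul_left, inner_smul_right, conj_trivial]
  generalize W u y = w at *
  generalize pd 0 u y = p at *
  generalize pd 1 u y = q at *
  field_simp
  linear_combination (⟪A (e 0), e 0⟫_ℝ + ⟪A (e 1), e 1⟫_ℝ + ⟪A (e 2), e 2⟫_ℝ) * h2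

theorem contDiffOn_pd {r : ℝ} {u : E2 → ℝ} (hu : ContDiffOn ℝ ∞ u (ball (0 : E2) r)) (i : Fin 2) :
    ContDiffOn ℝ ∞ (pd i u) (ball (0 : E2) r) := by
  have h1 : ContDiffOn ℝ ∞ (fderiv ℝ u) (ball (0 : E2) r) := hu.fderiv_of_isOpen isOpen_ball (by simp)
  exact h1.clm_apply contDiffOn_const

private theorem Patch1_W {r : ℝ} {u : E2 → ℝ} (hu : ContDiffOn ℝ ∞ u (ball (0 : E2) r)) :
    ContDiffOn ℝ ∞ (fun y => (W u y)⁻¹) (ball (0 : E2) r) := by
  have h0 := contDiffOn_pd hu 0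
  have h1 := contDiffOn_pd hu 1
  have h2 : ContDiffOn ℝ ∞ (fun y => 1 + pd 0 u y ^ 2 + pd 1 u y ^ 2) (ball (0 : E2) r) :=
    (contDiffOn_const.add (h0.pow 2)).add (h1.pow 2)
  have h3 : ContDiffOn ℝ ∞ (W u) (ball (0 : E2) r) := h2.sqrt fun y _ => by positivity
  exact h3.inv fun y _ => (W_pos u y).ne'

theorem contDiffOn_va (e : OrthonormalBasis (Fin 3) ℝ E3) {r : ℝ} {u : E2 → ℝ} (hu : ContDiffOn ℝ ∞ u (ball (0 : E2) r)) :
    ContDiffOn ℝ ∞ (va e u) (ball (0 : E2) r) := by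
  have h0 := contDiffOn_pd hu 0
  have h1 := contDiffOn_pd hu 1
  exact (Patch1_W hu).smul ((((contDiffOn_const.add (h1.pow 2)).smul contDiffOn_const).sub
    ((h0.mul h1).smul contDiffOn_const)).add (h0.smul contDiffOn_const))

theorem contDiffOn_vb (e : OrthonormalBasis (Fin 3) ℝ E3) {r : ℝ} {u : E2 → ℝ} (hu : ContDiffOn ℝ ∞ u (ball (0 : E2) r)) :
    ContDiffOn ℝ ∞ (vb e u) (ball (0 : E2) r) := by
  have h0 := contDiffOn_pd hu 0
  have h1 := contDiffOn_pd hu 1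
  exact (Patch1_W hu).smul ((((h0.mul h1).neg.smul contDiffOn_const).add
    ((contDiffOn_const.add (h0.pow 2)).smul contDiffOn_const)).add (h1.smul contDiffOn_const))

/-- mixed partial derivatives commute (`second_derivative_symmetric_of_eventually` or `ContDiffAt.isSymmSndFDerivAt`) -/
theorem pd_comm {r : ℝ} {u : E2 → ℝ} (hu : ContDiffOn ℝ ∞ u (ball (0 : E2) r)) {y : E2} (hy : y ∈ ball (0 : E2) r) :
    pd 1 (pd 0 u) y = pd 0 (pd 1 u) y := by
  have hn : ball (0 : E2) r ∈ 𝓝 y := isOpen_ball.mem_nhds hy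
  have hat : ContDiffAt ℝ ∞ u y := hu.contDiffAt hn
  have hs : IsSymmSndFDerivAt ℝ u y := hat.isSymmSndFDerivAt (by
    rw [minSmoothness_of_isRCLikeNormedField]
    exact WithTop.coe_le_coe.2 (le_top : (2 : ℕ∞) ≤ ⊤))
  have h1 : ContDiffOn ℝ ∞ (fderiv ℝ u) (ball (0 : E2) r) := hu.fderiv_of_isOpen isOpen_ball (by simp)
  have hd : DifferentiableAt ℝ (fderiv ℝ u) y := (h1.contDiffAt hn).differentiableAt (by simp)
  have key : ∀ (i : Fin 2) (v : E2), fderiv ℝ (pd i u) y v =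
      fderiv ℝ (fderiv ℝ u) y v (EuclideanSpace.single i 1) := by
    intro i v
    have : HasFDerivAt (pd i u) ((fderiv ℝ (fderiv ℝ u) y).flip (EuclideanSpace.single i 1)) y := by
      have h3 := hd.hasFDerivAt.clm_apply (hasFDerivAt_const (EuclideanSpace.single i (1 : ℝ) : E2) y)
      show HasFDerivAt (fun y => fderiv ℝ u y (EuclideanSpace.single i 1)) _ y
      simpa using h3
    rw [this.fderiv]
    rfl
  show fderiv ℝ (pd 0 u) y (EuclideanSpace.single 1 1) = fderiv ℝ (pd 1 u) y (EuclideanSpace.single 0 1)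
  rw [key, key]
  exact hs _ _

end Pool.Agent.ML
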