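import Pool.Agent.Lib_MP_7d1493.Patch1

/-!
# The coordinate functions of a minimal graph are harmonic
-/

set_option autoImplicit false

open MeasureTheory Measure Set Metric Filter Topology
open scoped ENNReal InnerProductSpace ContDiff

namespace Pool.Agent.ML

private theorem hasFDerivAt_Winv {u : E2 → ℝ} {y : E2} {P Q : E2 →L[ℝ] ℝ} (hp : HasFDerivAt (pd 0 u) P y)
    (hq : HasFDerivAt (pd 1 u) Q y) :
    HasFDerivAt (fun z => (W u z)⁻¹) (-((W u y)⁻¹ ^ 3) • (pd 0 u y • P + pd 1 u y • Q)) y := by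
  have h1 : HasFDerivAt (fun z => 1 + pd 0 u z ^ 2 + pd 1 u z ^ 2) ((2 : ℝ) • (pd 0 u y • P + pd 1 u y • Q)) y := by
    refine (((hp.pow 2).const_add 1).add (hq.pow 2)).congr_fderiv ?_
    ext v
    simp
    ring
  have h2 : HasFDerivAt (W u) ((W u y)⁻¹ • (pd 0 u y • P + pd 1 u y • Q)) y := by
    have hne : (1 + pd 0 u y ^ 2 + pd 1 u y ^ 2) ≠ 0 := by positivity
    refine (h1.sqrt hne).congr_fderiv ?_
    have hW : √(1 + pd 0 u y ^ 2 + pd 1 u y ^ 2) = W u y := rfl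
    rw [hW, smul_smul]
    congr 1
    have := (W_pos u y).ne'
    field_simp
  have h3 := (hasDerivAt_inv (W_pos u y).ne').comp_hasFDerivAt y h2
  refine h3.congr_fderiv ?_
  rw [smul_smul]
  congr 1
  have := (W_pos u y).ne'
  field_simp

/-- PIECE [SH-2b] (this file, about 120 lines). PROOF. Write `p, q` for `pd 0 u`, `pd 1 u`, `W = √(1 + p ^ 2 + q ^ 2)`; derivative of `W⁻¹` in the direction `i`:
`- (p p_i + q q_i) / W ^ 3`. With `H` the left side of `MSE` (`p_0 = u_00`, `p_1 = q_0 = u_01` (`pd_comm`), `q_1 = u_11`):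
first component: `∂_0 ((1 + q ^ 2) / W) + ∂_1 (- p q / W) = - p H / W ^ 3`; second component: `∂_0 (- p q / W) + ∂_1 ((1 + p ^ 2) / W) = - q H / W ^ 3`;
third component: `∂_0 (p / W) + ∂_1 (q / W) = H / W ^ 3` (check: multiply by `W ^ 3` and use `W ^ 2 = 1 + p ^ 2 + q ^ 2`). -/
theorem div_va_vb (e : OrthonormalBasis (Fin 3) ℝ E3) {r : ℝ} {u : E2 → ℝ} (hu : ContDiffOn ℝ ∞ u (ball (0 : E2) r)) {y : E2}
    (hy : y ∈ ball (0 : E2) r) (hm : MSE u y) :
    fderiv ℝ (va e u) y (EuclideanSpace.single 0 1) + fderiv ℝ (vb e u) y (EuclideanSpace.single 1 1) = 0 := by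
  have hn : ball (0 : E2) r ∈ 𝓝 y := isOpen_ball.mem_nhds hy
  have hp : HasFDerivAt (pd 0 u) (fderiv ℝ (pd 0 u) y) y :=
    (((contDiffOn_pd hu 0).contDiffAt hn).differentiableAt (by simp)).hasFDerivAt
  have hq : HasFDerivAt (pd 1 u) (fderiv ℝ (pd 1 u) y) y :=
    (((contDiffOn_pd hu 1).contDiffAt hn).differentiableAt (by simp)).hasFDerivAt
  have hwi := hasFDerivAt_Winv hp hq
  have ha := hwi.smul (((((hq.pow 2).const_add (1 : ℝ)).smul_const (e 0)).sub ((hp.mul hq).smul_const (e 1))).add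
    (hp.smul_const (e 2)))
  have hb := hwi.smul (((((hp.mul hq).neg).smul_const (e 0)).add (((hp.pow 2).const_add (1 : ℝ)).smul_const (e 1))).add
    (hq.smul_const (e 2)))
  have ha' : fderiv ℝ (va e u) y = _ := ha.fderiv
  have hb' : fderiv ℝ (vb e u) y = _ := hb.fderiv
  rw [ha', hb']
  have hc : pd 1 (pd 0 u) y = pd 0 (pd 1 u) y := pd_comm hu hy
  have h00 : fderiv ℝ (pd 0 u) y (EuclideanSpace.single 0 1) = pd 0 (pd 0 u) y := rfl
  have h01 : fderiv ℝ (pd 0 u) y (EuclideanSpace.single 1 1) = pd 1 (pd 0 u) y := rfl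
  have h10 : fderiv ℝ (pd 1 u) y (EuclideanSpace.single 0 1) = pd 0 (pd 1 u) y := rfl
  have h11 : fderiv ℝ (pd 1 u) y (EuclideanSpace.single 1 1) = pd 1 (pd 1 u) y := rfl
  simp only [_root_.add_apply, _root_.sub_apply, _root_.smul_apply, _root_.neg_apply, ContinuousLinearMap.smulRight_apply,
    Pi.add_apply, Pi.sub_apply, Pi.neg_apply, Pi.mul_apply, smul_eq_mul, h00, h01, h10, h11, hc, nsmul_eq_mul,
    Nat.cast_ofNat, Nat.add_one_sub_one, pow_one]
  unfold MSE at hm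
  have hw : (W u y)⁻¹ ^ 2 * (1 + pd 0 u y ^ 2 + pd 1 u y ^ 2) = 1 := by
    rw [← W_sq, ← mul_pow, inv_mul_cancel₀ (W_pos u y).ne', one_pow]
  generalize (W u y)⁻¹ = w at hw ⊢
  generalize pd 0 u y = p at hw hm ⊢
  generalize pd 1 u y = q at hw hm ⊢
  generalize pd 0 (pd 0 u) y = a at hm ⊢
  generalize pd 0 (pd 1 u) y = b at hm ⊢
  generalize pd 1 (pd 1 u) y = c at hm ⊢
  have e0 : w * (2 * q * b) - w ^ 3 * (p * a + q * b) * (1 + q ^ 2) - w * (p * c + q * b) +
      w ^ 3 * (p * b + q * c) * (p * q) = 0 := by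
    linear_combination (-p * w ^ 3) * hm + (-w * (q * b - p * c)) * hw
  have e1 : -(w * (p * b + q * a)) + w ^ 3 * (p * a + q * b) * (p * q) + w * (2 * p * b) -
      w ^ 3 * (p * b + q * c) * (1 + p ^ 2) = 0 := by
    linear_combination (-q * w ^ 3) * hm + (-w * (p * b - q * a)) * hw
  have e2 : w * a - w ^ 3 * (p * a + q * b) * p + w * c - w ^ 3 * (p * b + q * c) * q = 0 := by
    linear_combination (w ^ 3) * hm + (-w * (a + c)) * hw
  trans (w * (2 * q * b) - w ^ 3 * (p * a + q * b) * (1 + q ^ 2) - w * (p * c + q * b) +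
      w ^ 3 * (p * b + q * c) * (p * q)) • e 0 + (-(w * (p * b + q * a)) + w ^ 3 * (p * a + q * b) * (p * q) +
      w * (2 * p * b) - w ^ 3 * (p * b + q * c) * (1 + p ^ 2)) • e 1 +
      (w * a - w ^ 3 * (p * a + q * b) * p + w * c - w ^ 3 * (p * b + q * c) * q) • e 2
  · module
  · rw [e0, e1, e2]
    simp

end Pool.Agent.ML
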