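import Pool.Agent.Lib_MP_7d1493.Patch2

/-!
# The first variation of a minimal graph
-/

set_option autoImplicit false

open MeasureTheory Measure Set Metric Filter Topology
open scoped ENNReal InnerProductSpace ContDiff

namespace Pool.Agent.ML

/-- PIECE [SH-2c] (this file, about 170 lines). A `C¹` function with compact support has `∫ ∂_v f = 0`: `integral_mul_fderiv_eq_neg_fderiv_mul_of_integrable`
with a bump function which is `1` on a neighbourhood of the support. -/
theorem integral_fderiv_zero (f : E2 → ℝ) (hf : ContDiff ℝ 1 f) (hc : HasCompactSupport f) (v : E2) :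
    ∫ y, fderiv ℝ f y v = 0 := by
  have h1 : Integrable (fun y => fderiv ℝ f y v) := by
    refine Continuous.integrable_of_hasCompactSupport ?_ ?_
    · exact (hf.continuous_fderiv one_ne_zero).clm_apply continuous_const
    · exact hc.fderiv_apply (𝕜 := ℝ) v
  have h2 : Integrable f := hf.continuous.integrable_of_hasCompactSupport hc
  have h := integral_mul_fderiv_eq_neg_fderiv_mul_of_integrable (𝕜 := ℝ) (μ := (volume : Measure E2))
    (f := fun _ => (1 : ℝ)) (g := f) (v := v) (by simp) (by simpa using h1) (by simpa using h2)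
    (fun x _ => differentiableAt_const _) (fun x _ => (hf.differentiable one_ne_zero) x)
  simpa using h

private theorem contDiffOn_gr (p : E3) (e : OrthonormalBasis (Fin 3) ℝ E3) {r : ℝ} {u : E2 → ℝ}
    (hu : ContDiffOn ℝ ∞ u (ball (0 : E2) r)) : ContDiffOn ℝ ∞ (gr p e u) (ball (0 : E2) r) := by
  unfold gr pt
  have h0 : ContDiff ℝ ∞ (fun y : E2 => y 0) := (EuclideanSpace.proj (𝕜 := ℝ) (0 : Fin 2)).contDiff
  have h1 : ContDiff ℝ ∞ (fun y : E2 => y 1) := (EuclideanSpace.proj (𝕜 := ℝ) (1 : Fin 2)).contDiff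
  refine contDiffOn_const.add (((h0.contDiffOn.smul contDiffOn_const).add
    (h1.contDiffOn.smul contDiffOn_const)).add (hu.smul contDiffOn_const))

private theorem hasFDerivAt_gr (p : E3) (e : OrthonormalBasis (Fin 3) ℝ E3) {r : ℝ} {u : E2 → ℝ}
    (hu : ContDiffOn ℝ ∞ u (ball (0 : E2) r)) {y : E2} (hy : y ∈ ball (0 : E2) r) (v : E2) :
    fderiv ℝ (gr p e u) y v = v 0 • e 0 + v 1 • e 1 + fderiv ℝ u y v • e 2 := by
  have hd : DifferentiableAt ℝ u y :=
    ((hu y hy).contDiffAt (isOpen_ball.mem_nhds hy)).differentiableAt (by simp)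
  have h0 : HasFDerivAt (fun y : E2 => y 0) (EuclideanSpace.proj (𝕜 := ℝ) (0 : Fin 2)) y :=
    (EuclideanSpace.proj (𝕜 := ℝ) (0 : Fin 2)).hasFDerivAt
  have h1 : HasFDerivAt (fun y : E2 => y 1) (EuclideanSpace.proj (𝕜 := ℝ) (1 : Fin 2)) y :=
    (EuclideanSpace.proj (𝕜 := ℝ) (1 : Fin 2)).hasFDerivAt
  have h := (((h0.smul_const (e 0)).add (h1.smul_const (e 1))).add
    (hd.hasFDerivAt.smul_const (e 2))).const_add p
  have h2 : HasFDerivAt (gr p e u) _ y := h
  rw [h2.fderiv]
  simp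

private theorem key (p : E3) (e : OrthonormalBasis (Fin 3) ℝ E3) {r : ℝ} {u : E2 → ℝ}
    (hu : ContDiffOn ℝ ∞ u (ball (0 : E2) r)) {X : E3 → E3}
    (hX : ContDiff ℝ 1 X) (hc : HasCompactSupport X) (hs : tsupport X ⊆ cyl p e r) {V : E2 → E3}
    (hV : ContDiffOn ℝ ∞ V (ball (0 : E2) r)) :
    ∃ f : E2 → ℝ, ContDiff ℝ 1 f ∧ HasCompactSupport f ∧
      (∀ y ∈ ball (0 : E2) r, f =ᶠ[𝓝 y] fun z => ⟪X (gr p e u z), V z⟫_ℝ) ∧
      ∀ y ∉ ball (0 : E2) r, f =ᶠ[𝓝 y] fun _ => 0 := by
  classical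
  have hK : IsCompact (co p e '' tsupport X) := hc.isCompact.image (continuous_co p e)
  have hKb : co p e '' tsupport X ⊆ ball (0 : E2) r := by
    rintro _ ⟨q, hq, rfl⟩
    exact (hs hq).1
  have hXK : ∀ y, y ∉ co p e '' tsupport X → X (gr p e u y) = 0 := by
    intro y hy
    by_contra h
    exact hy ⟨gr p e u y, subset_tsupport X (Function.mem_support.2 h), co_pt p e y (u y)⟩
  set f : E2 → ℝ := fun y => if y ∈ ball (0 : E2) r then ⟪X (gr p e u y), V y⟫_ℝ else 0 with hf
  have h1 : ∀ y ∈ ball (0 : E2) r, f =ᶠ[𝓝 y] fun z => ⟪X (gr p e u z), V z⟫_ℝ := by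
    intro y hy
    filter_upwards [isOpen_ball.mem_nhds hy] with z hz
    rw [hf]
    simp only
    rw [if_pos hz]
  have h2 : ∀ y ∉ co p e '' tsupport X, f =ᶠ[𝓝 y] fun _ => 0 := by
    intro y hy
    filter_upwards [hK.isClosed.isOpen_compl.mem_nhds hy] with z hz
    rw [hf]
    simp only
    split_ifs
    · rw [hXK z hz, inner_zero_left]
    · rfl
  refine ⟨f, ?_, ?_, h1, fun y hy => h2 y fun h => hy (hKb h)⟩
  · rw [contDiff_iff_contDiffAt]
    intro y
    by_cases hy : y ∈ ball (0 : E2) r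
    · refine ContDiffAt.congr_of_eventuallyEq ?_ (h1 y hy)
      have h3 : ContDiffAt ℝ 1 (gr p e u) y :=
        (((contDiffOn_gr p e hu) y hy).contDiffAt (isOpen_ball.mem_nhds hy)).of_le (by exact_mod_cast le_top)
      have h4 : ContDiffAt ℝ 1 V y :=
        ((hV y hy).contDiffAt (isOpen_ball.mem_nhds hy)).of_le (by exact_mod_cast le_top)
      exact (hX.contDiffAt.comp y h3).inner ℝ h4
    · exact contDiffAt_const.congr_of_eventuallyEq (h2 y fun h => hy (hKb h))
  · exact HasCompactSupport.intro hK fun y hy => (h2 y hy).self_of_nhds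

/-- PROOF. Put `Y y = X (gr y)`. `tsupport X` is a compact subset of the open cylinder, so there is `ρ < r` with `co q ∈ ball 0 ρ` for `q ∈ tsupport X`;
for `y` in the ball with `‖y‖ > ρ` the functions `Y`, `fderiv X (gr y)` vanish. On the ball `∂_0 Y = fderiv X (gr y) (e 0 + p e 2)`, `∂_1 Y = fderiv X (gr y) (e 1 + q e 2)`.
By `W_mul_trN` the integrand is `⟪∂_0 Y, va⟫ + ⟪∂_1 Y, vb⟫ = ∂_0 ⟪Y, va⟫ + ∂_1 ⟪Y, vb⟫` (`div_va_vb`: `⟪Y, ∂_0 va + ∂_1 vb⟫ = 0`). The functions `⟪Y, va⟫`,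
`⟪Y, vb⟫`, extended by zero outside the ball, are `C¹` with compact support in the ball (`contDiffOn_va`, `contDiffOn_vb`); `integral_fderiv_zero`. The integrand is
continuous on the ball and vanishes outside the closed ball of radius `ρ`: integrable. -/
theorem patch_first_variation (p : E3) (e : OrthonormalBasis (Fin 3) ℝ E3) {r : ℝ} {u : E2 → ℝ} (hr : 0 < r)
    (hu : ContDiffOn ℝ ∞ u (ball (0 : E2) r)) (hm : ∀ y ∈ ball (0 : E2) r, |u y| < r ∧ MSE u y) {X : E3 → E3}
    (hX : ContDiff ℝ 1 X) (hc : HasCompactSupport X) (hs : tsupport X ⊆ cyl p e r) :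
    IntegrableOn (fun y => W u y * trN (fderiv ℝ X (gr p e u y)) (nrm e u y)) (ball (0 : E2) r) ∧
      ∫ y in ball (0 : E2) r, W u y * trN (fderiv ℝ X (gr p e u y)) (nrm e u y) = 0 := by
  obtain ⟨fa, ha1, ha2, ha3, ha4⟩ := key p e hu hX hc hs (contDiffOn_va e hu)
  obtain ⟨fb, hb1, hb2, hb3, hb4⟩ := key p e hu hX hc hs (contDiffOn_vb e hu)
  have hder : ∀ (V : E2 → E3), ContDiffOn ℝ ∞ V (ball (0 : E2) r) → ∀ f : E2 → ℝ,
      (∀ y ∈ ball (0 : E2) r, f =ᶠ[𝓝 y] fun z => ⟪X (gr p e u z), V z⟫_ℝ) → ∀ y ∈ ball (0 : E2) r,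
      ∀ v : E2, fderiv ℝ f y v = ⟪X (gr p e u y), fderiv ℝ V y v⟫_ℝ +
        ⟪fderiv ℝ X (gr p e u y) (v 0 • e 0 + v 1 • e 1 + fderiv ℝ u y v • e 2), V y⟫_ℝ := by
    intro V hV f hf y hy v
    have h3 : DifferentiableAt ℝ (gr p e u) y :=
      (((contDiffOn_gr p e hu) y hy).contDiffAt (isOpen_ball.mem_nhds hy)).differentiableAt (by simp)
    have h4 : DifferentiableAt ℝ V y :=
      ((hV y hy).contDiffAt (isOpen_ball.mem_nhds hy)).differentiableAt (by simp)
    have h5 : DifferentiableAt ℝ X (gr p e u y) := (hX.differentiable one_ne_zero) _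
    have h6 : HasFDerivAt (fun z => X (gr p e u z)) ((fderiv ℝ X (gr p e u y)).comp (fderiv ℝ (gr p e u) y)) y :=
      h5.hasFDerivAt.comp y h3.hasFDerivAt
    rw [(hf y hy).fderiv_eq, fderiv_inner_apply ℝ h6.differentiableAt h4, h6.fderiv]
    rw [ContinuousLinearMap.comp_apply, hasFDerivAt_gr p e hu hy]
  have hEq : ∀ y ∈ ball (0 : E2) r, W u y * trN (fderiv ℝ X (gr p e u y)) (nrm e u y) =
      fderiv ℝ fa y (EuclideanSpace.single 0 1) + fderiv ℝ fb y (EuclideanSpace.single 1 1) := by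
    intro y hy
    rw [hder _ (contDiffOn_va e hu) fa ha3 y hy, hder _ (contDiffOn_vb e hu) fb hb3 y hy, W_mul_trN]
    have h7 := div_va_vb e hu hy (hm y hy).2
    have h8 : ⟪X (gr p e u y), fderiv ℝ (va e u) y (EuclideanSpace.single 0 1)⟫_ℝ +
        ⟪X (gr p e u y), fderiv ℝ (vb e u) y (EuclideanSpace.single 1 1)⟫_ℝ = 0 := by
      rw [← inner_add_right, h7, inner_zero_right]
    have h9 : ((EuclideanSpace.single 0 1 : E2) 0 • e 0 + (EuclideanSpace.single 0 1 : E2) 1 • e 1 +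
        fderiv ℝ u y (EuclideanSpace.single 0 1) • e 2) = e 0 + pd 0 u y • e 2 := by
      unfold pd
      simp
    have h10 : ((EuclideanSpace.single 1 1 : E2) 0 • e 0 + (EuclideanSpace.single 1 1 : E2) 1 • e 1 +
        fderiv ℝ u y (EuclideanSpace.single 1 1) • e 2) = e 1 + pd 1 u y • e 2 := by
      unfold pd
      simp
    rw [h9, h10]
    linear_combination -h8
  have hia : Integrable (fun y => fderiv ℝ fa y (EuclideanSpace.single 0 1)) :=
    Continuous.integrable_of_hasCompactSupport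
      ((ha1.continuous_fderiv one_ne_zero).clm_apply continuous_const) (ha2.fderiv_apply (𝕜 := ℝ) _)
  have hib : Integrable (fun y => fderiv ℝ fb y (EuclideanSpace.single 1 1)) :=
    Continuous.integrable_of_hasCompactSupport
      ((hb1.continuous_fderiv one_ne_zero).clm_apply continuous_const) (hb2.fderiv_apply (𝕜 := ℝ) _)
  constructor
  · exact (hia.add hib).integrableOn.congr_fun (fun y hy => (hEq y hy).symm) measurableSet_ball
  · rw [setIntegral_congr_fun measurableSet_ball hEq]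
    rw [setIntegral_eq_integral_of_forall_compl_eq_zero]
    · rw [integral_add hia hib, integral_fderiv_zero fa ha1 ha2, integral_fderiv_zero fb hb1 hb2,
        add_zero]
    · intro y hy
      have h1 : fderiv ℝ fa y = 0 := by
        rw [(ha4 y hy).fderiv_eq]
        simp
      have h2 : fderiv ℝ fb y = 0 := by
        rw [(hb4 y hy).fderiv_eq]
        simp
      rw [h1, h2]
      simp

end Pool.Agent.ML
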