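import Pool.Agent.Lib_MP_7d1493.One0

/-!
# A local test function near a point of the boundary plane: the function
-/

set_option autoImplicit false

open MeasureTheory Measure Set Metric Filter Topology
open scoped ENNReal InnerProductSpace ContDiff

namespace Pool.Agent.ML

/-- the square of the horizontal distance to `x` -/
noncomputable def hsx (x q : E3) : ℝ := (q 0 - x 0) ^ 2 + (q 1 - x 1) ^ 2

/-- the function `1 / (s + e) + (4 / e ^ 2) z ^ 2 - M z - c0`, `s` the square of the horizontal distance to `x` -/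
noncomputable def GP (x : E3) (e M c0 : ℝ) (q : E3) : ℝ := 1 / (hsx x q + e) + 4 / e ^ 2 * q 2 ^ 2 - M * q 2 - c0

/-- its gradient -/
noncomputable def YP (x : E3) (e M : ℝ) (q : E3) : E3 :=
  !₂[-(2 * (q 0 - x 0) / (hsx x q + e) ^ 2), -(2 * (q 1 - x 1) / (hsx x q + e) ^ 2), 8 / e ^ 2 * q 2 - M]

/-- PIECE [SH-9a] (this file, about 200 lines). As `exists_cutoff` (`ContDiffBump` with the centre `(a + b) / 2` and the radii `(b - a) / 2`, `(b - a) / 2 + d`). -/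
theorem exists_cutoff2 {a b d : ℝ} (hab : a < b) (hd : 0 < d) : ∃ χ : ℝ → ℝ, ContDiff ℝ ∞ χ ∧
    (∀ z, a ≤ z → z ≤ b → χ z = 1) ∧ ∀ z, (z ≤ a - d ∨ b + d ≤ z) → χ z = 0 := by
  let f : ContDiffBump ((a + b) / 2 : ℝ) :=
    ⟨(b - a) / 2, (b - a) / 2 + d, by linarith, by linarith⟩
  refine ⟨f, f.contDiff, ?_, ?_⟩
  · intro z h3 h4
    apply f.one_of_mem_closedBall
    rw [mem_closedBall, Real.dist_eq, abs_le]
    constructor
    · show -((b - a) / 2 : ℝ) ≤ _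
      linarith
    · show _ ≤ ((b - a) / 2 : ℝ)
      linarith
  · intro z h
    apply f.zero_of_le_dist
    rw [Real.dist_eq]
    show ((b - a) / 2 + d : ℝ) ≤ _
    rcases h with h | h
    · rw [le_abs]
      right
      linarith
    · rw [le_abs]
      left
      linarith

private theorem hsx_nonneg' (x q : E3) : 0 ≤ hsx x q := by
  unfold hsx
  positivity

private theorem inner3 (a b : E3) : ⟪a, b⟫_ℝ = a 0 * b 0 + a 1 * b 1 + a 2 * b 2 := by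
  rw [PiLp.inner_apply, Fin.sum_univ_three]
  simp only [RCLike.inner_apply, conj_trivial]
  ring

private theorem hasFDerivAt_coord (i : Fin 3) (q : E3) :
    HasFDerivAt (fun q : E3 => q i) (EuclideanSpace.proj (𝕜 := ℝ) i : E3 →L[ℝ] ℝ) q :=
  (EuclideanSpace.proj (𝕜 := ℝ) i : E3 →L[ℝ] ℝ).hasFDerivAt

private theorem hasFDerivAt_hsx (x q : E3) :
    HasFDerivAt (hsx x) ((2 * (q 0 - x 0)) • (EuclideanSpace.proj (𝕜 := ℝ) (0 : Fin 3) : E3 →L[ℝ] ℝ)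
      + (2 * (q 1 - x 1)) • (EuclideanSpace.proj (𝕜 := ℝ) (1 : Fin 3) : E3 →L[ℝ] ℝ)) q := by
  have h0 := ((hasFDerivAt_coord 0 q).sub_const (x 0)).pow 2
  have h1 := ((hasFDerivAt_coord 1 q).sub_const (x 1)).pow 2
  refine HasFDerivAt.congr_fderiv (f := hsx x) (h0.add h1) ?_
  ext v
  simp

private theorem contDiff_hsx (x : E3) : ContDiff ℝ ∞ (hsx x) := by
  unfold hsx
  fun_prop

private theorem contDiff_inv (x : E3) {e : ℝ} (he : 0 < e) :
    ContDiff ℝ ∞ fun q : E3 => ((hsx x q + e) ^ 2)⁻¹ := by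
  have h := contDiff_hsx x
  refine ContDiff.inv (by fun_prop) ?_
  intro q
  have := hsx_nonneg' x q
  positivity

private theorem contDiff_YP (x : E3) {e : ℝ} (he : 0 < e) (M : ℝ) : ContDiff ℝ ∞ (YP x e M) := by
  have h := contDiff_inv x he
  rw [contDiff_euclidean]
  intro i
  fin_cases i
  · change ContDiff ℝ ∞ fun q : E3 => -(2 * (q 0 - x 0) / (hsx x q + e) ^ 2)
    simp only [div_eq_mul_inv]
    fun_prop
  · change ContDiff ℝ ∞ fun q : E3 => -(2 * (q 1 - x 1) / (hsx x q + e) ^ 2)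
    simp only [div_eq_mul_inv]
    fun_prop
  · change ContDiff ℝ ∞ fun q : E3 => 8 / e ^ 2 * q 2 - M
    fun_prop

private theorem hasDerivAt_F0 {e s : ℝ} (h : s + e ≠ 0) :
    HasDerivAt (fun s : ℝ => 1 / (s + e)) (-(1 / (s + e) ^ 2)) s := by
  have h1 : HasDerivAt (fun s : ℝ => s + e) 1 s := (hasDerivAt_id s).add_const e
  have h2 := (hasDerivAt_const s (1 : ℝ)).div h1 h
  refine h2.congr_deriv ?_
  ring

private theorem hasDerivAt_F0' {e s : ℝ} (h : s + e ≠ 0) :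
    HasDerivAt (fun s : ℝ => 1 / (s + e) ^ 2) (-(2 / (s + e) ^ 3)) s := by
  have h1 : HasDerivAt (fun s : ℝ => s + e) 1 s := (hasDerivAt_id s).add_const e
  have h2 := (hasDerivAt_const s (1 : ℝ)).div (h1.pow 2) (pow_ne_zero 2 h)
  refine h2.congr_deriv ?_
  simp only [Pi.pow_apply]
  field_simp
  push_cast
  ring

/-- PROOF. As `TP_GA` (Slab1.lean). -/
theorem TP_GP (x : E3) {e : ℝ} (he : 0 < e) (M c0 : ℝ) : TP (GP x e M c0) (YP x e M) := by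
  refine ⟨fun q => ?_, (contDiff_YP x he M).of_le (by exact_mod_cast le_top)⟩
  have hs : hsx x q + e ≠ 0 := by
    have := hsx_nonneg' x q
    positivity
  have h1 := (hasDerivAt_F0 hs).comp_hasFDerivAt q (hasFDerivAt_hsx x q)
  have h2 := ((hasFDerivAt_coord 2 q).pow 2).const_mul (4 / e ^ 2)
  have h3 := (hasFDerivAt_coord 2 q).const_mul M
  have h4 := ((h1.add h2).sub h3).sub_const c0
  refine HasFDerivAt.congr_fderiv (f := GP x e M c0) h4 ?_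
  ext v
  rw [innerSL_apply_apply, inner3]
  simp [YP]
  ring

private theorem fderiv_YP (x : E3) {e : ℝ} (he : 0 < e) (M : ℝ) (q v : E3) :
    (fderiv ℝ (YP x e M) q v) 0 = 8 / (hsx x q + e) ^ 3 * ((q 0 - x 0) * v 0 + (q 1 - x 1) * v 1) * (q 0 - x 0)
      - 2 / (hsx x q + e) ^ 2 * v 0 ∧
    (fderiv ℝ (YP x e M) q v) 1 = 8 / (hsx x q + e) ^ 3 * ((q 0 - x 0) * v 0 + (q 1 - x 1) * v 1) * (q 1 - x 1)
      - 2 / (hsx x q + e) ^ 2 * v 1 ∧
    (fderiv ℝ (YP x e M) q v) 2 = 8 / e ^ 2 * v 2 := by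
  have hs : hsx x q + e ≠ 0 := by
    have := hsx_nonneg' x q
    positivity
  have hd : HasFDerivAt (YP x e M) (fderiv ℝ (YP x e M) q) q :=
    ((contDiff_YP x he M).differentiable (by simp) q).hasFDerivAt
  have hc : ∀ i : Fin 3, HasFDerivAt (fun q => YP x e M q i)
      ((EuclideanSpace.proj (𝕜 := ℝ) i : E3 →L[ℝ] ℝ) ∘L fderiv ℝ (YP x e M) q) q := fun i =>
    (EuclideanSpace.proj (𝕜 := ℝ) i : E3 →L[ℝ] ℝ).hasFDerivAt.comp q hd
  have h1 := (hasDerivAt_F0' hs).comp_hasFDerivAt q (hasFDerivAt_hsx x q)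
  have hg : ∀ i : Fin 3, HasFDerivAt (fun q : E3 => -(2 * (q i - x i) * (1 / (hsx x q + e) ^ 2)))
      (-((2 * (q i - x i)) • (-(2 / (hsx x q + e) ^ 3) •
          ((2 * (q 0 - x 0)) • (EuclideanSpace.proj (𝕜 := ℝ) (0 : Fin 3) : E3 →L[ℝ] ℝ)
      + (2 * (q 1 - x 1)) • (EuclideanSpace.proj (𝕜 := ℝ) (1 : Fin 3) : E3 →L[ℝ] ℝ)))
        + (1 / (hsx x q + e) ^ 2) • ((2 : ℝ) • (EuclideanSpace.proj (𝕜 := ℝ) i : E3 →L[ℝ] ℝ)))) q := by
    intro i
    exact ((((hasFDerivAt_coord i q).sub_const (x i)).const_mul 2).mul h1).neg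
  refine ⟨?_, ?_, ?_⟩
  · have h5 : (fun q => YP x e M q 0) = fun q : E3 => -(2 * (q 0 - x 0) * (1 / (hsx x q + e) ^ 2)) := by
      funext q
      change -(2 * (q 0 - x 0) / (hsx x q + e) ^ 2) = _
      ring
    have h6 := hc 0
    rw [h5] at h6
    have h2 := h6.unique (hg 0)
    have h3 := congrArg (fun f : E3 →L[ℝ] ℝ => f v) h2
    have h4 : ((EuclideanSpace.proj (𝕜 := ℝ) (0 : Fin 3) : E3 →L[ℝ] ℝ) ∘L fderiv ℝ (YP x e M) q) v
      = (fderiv ℝ (YP x e M) q v) 0 := rfl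
    rw [← h4]
    refine h3.trans ?_
    simp
    ring
  · have h5 : (fun q => YP x e M q 1) = fun q : E3 => -(2 * (q 1 - x 1) * (1 / (hsx x q + e) ^ 2)) := by
      funext q
      change -(2 * (q 1 - x 1) / (hsx x q + e) ^ 2) = _
      ring
    have h6 := hc 1
    rw [h5] at h6
    have h2 := h6.unique (hg 1)
    have h3 := congrArg (fun f : E3 →L[ℝ] ℝ => f v) h2
    have h4 : ((EuclideanSpace.proj (𝕜 := ℝ) (1 : Fin 3) : E3 →L[ℝ] ℝ) ∘L fderiv ℝ (YP x e M) q) v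
      = (fderiv ℝ (YP x e M) q v) 1 := rfl
    rw [← h4]
    refine h3.trans ?_
    simp
    ring
  · have h5 : HasFDerivAt (fun q : E3 => YP x e M q 2)
        ((8 / e ^ 2 : ℝ) • (EuclideanSpace.proj (𝕜 := ℝ) (2 : Fin 3) : E3 →L[ℝ] ℝ)) q :=
      ((hasFDerivAt_coord 2 q).const_mul (8 / e ^ 2)).sub_const M
    have h2 := (hc 2).unique h5
    have h3 := congrArg (fun f : E3 →L[ℝ] ℝ => f v) h2
    exact h3

/-- PROOF. As `trN_YA` (Slab1.lean). With `s = hsx x q`, `w = (q 0 - x 0, q 1 - x 1, 0)`, `F s = 1 / (s + e)`: `fderiv Y v = 2 F' v_h + 4 F'' (w · v) w + (8 / e ^ 2) v_2 ez`,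
`F' = - 1 / (s + e) ^ 2`, `F'' = 2 / (s + e) ^ 3`; with `m = 1 - n 2 ^ 2 = n 0 ^ 2 + n 1 ^ 2` the trace on the plane orthogonal to `n` is
`2 F' (2 - m) + 4 F'' (s - (w · n) ^ 2) + (8 / e ^ 2) m` with `(w · n) ^ 2 ≤ s m`, so it is at least
`(4 (s - e) + m (2 (s + e) - 8 s)) / (s + e) ^ 3 + 8 m / e ^ 2 ≥ 4 (s - e) / (s + e) ^ 3 - 8 m / (s + e) ^ 2 + 8 m / e ^ 2 ≥ 4 (s - e) / (s + e) ^ 3`. -/
theorem trN_YP (x : E3) {e : ℝ} (he : 0 < e) (M : ℝ) (q n : E3) (hn : ‖n‖ = 1) :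
    4 * (hsx x q - e) / (hsx x q + e) ^ 3 ≤ trN (fderiv ℝ (YP x e M) q) n := by
  have hn2 : n 0 * n 0 + n 1 * n 1 + n 2 * n 2 = 1 := by
    rw [← inner3, real_inner_self_eq_norm_sq, hn, one_pow]
  obtain ⟨s, hsd⟩ : ∃ s, s = hsx x q := ⟨_, rfl⟩
  have hs0 : 0 ≤ s := by rw [hsd]; exact hsx_nonneg' x q
  have hq : s = (q 0 - x 0) ^ 2 + (q 1 - x 1) ^ 2 := hsd
  obtain ⟨A, hA⟩ : ∃ A, A = 2 / (s + e) ^ 2 := ⟨_, rfl⟩
  obtain ⟨B, hB⟩ : ∃ B, B = 8 / (s + e) ^ 3 := ⟨_, rfl⟩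
  obtain ⟨C, hC⟩ : ∃ C, C = 8 / e ^ 2 := ⟨_, rfl⟩
  have hse : 0 < s + e := by linarith
  have hA0 : 0 ≤ A := by rw [hA]; positivity
  have hB0 : 0 ≤ B := by rw [hB]; positivity
  have hBs : B * s ≤ C := by
    rw [hB, hC]
    rw [div_mul_eq_mul_div, div_le_div_iff₀ (by positivity) (by positivity)]
    have h1 : e ^ 2 * s ≤ (s + e) ^ 3 := by
      have : e ^ 2 ≤ (s + e) ^ 2 := pow_le_pow_left₀ he.le (by linarith) 2
      calc e ^ 2 * s ≤ (s + e) ^ 2 * (s + e) := mul_le_mul this (by linarith) hs0 (by positivity)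
        _ = (s + e) ^ 3 := by ring
    nlinarith
  have htr : trN (fderiv ℝ (YP x e M) q) n = B * s - 2 * A + C
      - B * ((q 0 - x 0) * n 0 + (q 1 - x 1) * n 1) ^ 2 + A * (n 0 * n 0 + n 1 * n 1)
      - C * (n 2 * n 2) := by
    rw [trN_eq_sum (EuclideanSpace.basisFun (Fin 3) ℝ), Fin.sum_univ_three, inner3, inner3, inner3,
      inner3]
    obtain ⟨a0, _, _⟩ := fderiv_YP x he M q (EuclideanSpace.basisFun (Fin 3) ℝ 0)
    obtain ⟨_, a1, _⟩ := fderiv_YP x he M q (EuclideanSpace.basisFun (Fin 3) ℝ 1)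
    obtain ⟨_, _, a2⟩ := fderiv_YP x he M q (EuclideanSpace.basisFun (Fin 3) ℝ 2)
    obtain ⟨c0, c1, c2⟩ := fderiv_YP x he M q n
    rw [c0, c1, c2]
    simp only [EuclideanSpace.basisFun_apply] at a0 a1 a2 ⊢
    rw [← hsd] at a0 a1 ⊢
    rw [← hA, ← hB] at a0 a1 ⊢
    rw [← hC] at a2 ⊢
    simp at a0 a1 a2
    simp [a0, a1, a2]
    rw [hq]
    ring
  have hl : 4 * (hsx x q - e) / (hsx x q + e) ^ 3 = B * s - 2 * A := by
    rw [← hsd, hA, hB]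
    field_simp
    ring
  rw [htr, hl]
  have hm0 : 0 ≤ n 0 * n 0 + n 1 * n 1 := add_nonneg (mul_self_nonneg _) (mul_self_nonneg _)
  have hcs : ((q 0 - x 0) * n 0 + (q 1 - x 1) * n 1) ^ 2 ≤ s * (n 0 * n 0 + n 1 * n 1) := by
    rw [hq]
    nlinarith [sq_nonneg ((q 0 - x 0) * n 1 - (q 1 - x 1) * n 0)]
  have h1 : B * ((q 0 - x 0) * n 0 + (q 1 - x 1) * n 1) ^ 2 ≤ B * (s * (n 0 * n 0 + n 1 * n 1)) :=
    mul_le_mul_of_nonneg_left hcs hB0
  have h2 : B * s * (n 0 * n 0 + n 1 * n 1) ≤ C * (n 0 * n 0 + n 1 * n 1) :=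
    mul_le_mul_of_nonneg_right hBs hm0
  have h3 : 0 ≤ A * (n 0 * n 0 + n 1 * n 1) := mul_nonneg hA0 hm0
  have h4 : C * (n 2 * n 2) = C - C * (n 0 * n 0 + n 1 * n 1) := by
    have : n 2 * n 2 = 1 - (n 0 * n 0 + n 1 * n 1) := by linarith
    rw [this]
    ring
  rw [h4]
  linarith

end Pool.Agent.ML
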