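import Pool.Agent.Lib_MP_7d1493.Pt1

/-!
# A local test function near a point of the boundary plane
-/

set_option autoImplicit false

open MeasureTheory Measure Set Metric Filter Topology
open scoped ENNReal InnerProductSpace ContDiff

namespace Pool.Agent.ML

private theorem Pt2_sq {x q : E3} (hx : x 2 = 0) : ‖q - x‖ ^ 2 = hsx x q + q 2 ^ 2 := by
  rw [EuclideanSpace.real_norm_sq_eq, Fin.sum_univ_three]
  unfold hsx
  simp [hx]

private theorem Pt2_hsx (x q : E3) : 0 ≤ hsx x q := by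
  unfold hsx
  positivity

private theorem Pt2_z {p q : E3} (hp : p 2 = 0) : |q 2| ≤ ‖q - p‖ := by
  have h := PiLp.norm_apply_le (q - p) 2
  simpa [hp] using h

/-- the constants -/
private theorem Pt2_tau {e M R : ℝ} (he : 0 < e) (hM : 0 < M) (hR : 0 < R) :
    ∃ τ > 0, τ ≤ R ∧ 4 / e ^ 2 * τ ^ 2 + M * τ ≤ 1 / ((2 * R) ^ 2 + e) - 1 / ((4 * R) ^ 2 + e) := by
  obtain ⟨D, hD⟩ : ∃ D, D = 1 / ((2 * R) ^ 2 + e) - 1 / ((4 * R) ^ 2 + e) := ⟨_, rfl⟩
  have hDp : 0 < D := by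
    rw [hD, sub_pos]
    apply one_div_lt_one_div_of_lt (by positivity)
    nlinarith
  have hA : 0 < 4 / e ^ 2 + M := by positivity
  refine ⟨min R (min 1 (D / (4 / e ^ 2 + M))), lt_min hR (lt_min one_pos (by positivity)), min_le_left _ _, ?_⟩
  rw [← hD]
  obtain ⟨t, ht⟩ : ∃ t, t = min R (min 1 (D / (4 / e ^ 2 + M))) := ⟨_, rfl⟩
  rw [← ht]
  have t0 : 0 < t := by rw [ht]; exact lt_min hR (lt_min one_pos (by positivity))
  have t1 : t ≤ 1 := by rw [ht]; exact (min_le_right _ _).trans (min_le_left _ _)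
  have t2 : t ≤ D / (4 / e ^ 2 + M) := by rw [ht]; exact (min_le_right _ _).trans (min_le_right _ _)
  rw [le_div_iff₀ hA] at t2
  have t3 : t ^ 2 ≤ t := by nlinarith
  have t4 : 4 / e ^ 2 * t ^ 2 ≤ 4 / e ^ 2 * t := mul_le_mul_of_nonneg_left t3 (by positivity)
  nlinarith

/-- the upper bound for `0 ≤ z ≤ 2 δ` -/
private theorem Pt2_up {e M c0 δ : ℝ} (he : 0 < e) (hδ : 0 < δ) (hM : M = 1 / (e * δ) + 16 * δ / e ^ 2) {x q : E3}
    (h0 : 0 ≤ q 2) (h1 : q 2 ≤ 2 * δ) : GP x e M c0 q ≤ 1 / (hsx x q + e) - c0 := by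
  have h2 : 4 / e ^ 2 * q 2 ^ 2 ≤ 8 * δ / e ^ 2 * q 2 := by
    have h3 : q 2 ^ 2 ≤ 2 * δ * q 2 := by nlinarith
    have h4 : 4 / e ^ 2 * q 2 ^ 2 ≤ 4 / e ^ 2 * (2 * δ * q 2) := mul_le_mul_of_nonneg_left h3 (by positivity)
    refine h4.trans (le_of_eq ?_)
    ring
  have h3 : 8 * δ / e ^ 2 * q 2 ≤ M * q 2 := by
    refine mul_le_mul_of_nonneg_right ?_ h0
    rw [hM]
    have h4 : 0 < 1 / (e * δ) := by positivity
    have h5 : 8 * δ / e ^ 2 ≤ 16 * δ / e ^ 2 := by gcongr; norm_num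
    linarith
  unfold GP
  linarith

/-- the sign for `δ ≤ z ≤ 2 δ` -/
private theorem Pt2_neg {e M c0 δ : ℝ} (he : 0 < e) (hδ : 0 < δ) (hc0 : 0 < c0) (hM : M = 1 / (e * δ) + 16 * δ / e ^ 2)
    {x q : E3} (h0 : δ ≤ q 2) (h1 : q 2 ≤ 2 * δ) : GP x e M c0 q < 0 := by
  have hz : 0 ≤ q 2 := hδ.le.trans h0
  have h2 : 4 / e ^ 2 * q 2 ^ 2 ≤ 16 * δ / e ^ 2 * q 2 := by
    have h3 : q 2 ^ 2 ≤ 4 * δ * q 2 := by nlinarith
    have h4 : 4 / e ^ 2 * q 2 ^ 2 ≤ 4 / e ^ 2 * (4 * δ * q 2) := mul_le_mul_of_nonneg_left h3 (by positivity)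
    refine h4.trans (le_of_eq ?_)
    ring
  have h3 : 1 / e ≤ 1 / (e * δ) * q 2 := by
    have h4 : 1 / (e * δ) * δ ≤ 1 / (e * δ) * q 2 := mul_le_mul_of_nonneg_left h0 (by positivity)
    refine le_trans (le_of_eq ?_) h4
    field_simp
  have h4 : 1 / (hsx x q + e) ≤ 1 / e := one_div_le_one_div_of_le he (by linarith [Pt2_hsx x q])
  have h5 : M * q 2 = 1 / (e * δ) * q 2 + 16 * δ / e ^ 2 * q 2 := by rw [hM]; ring
  unfold GP
  linarith

/-- the support of the function -/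
private theorem Pt2_hs {e M R τ δ : ℝ} (he : 0 < e) (hR : 0 < R) (hδ : 0 < δ) (hM : M = 1 / (e * δ) + 16 * δ / e ^ 2)
    (hτ : 4 / e ^ 2 * τ ^ 2 + M * τ ≤ 1 / ((2 * R) ^ 2 + e) - 1 / ((4 * R) ^ 2 + e)) {x q : E3}
    (h0 : -τ < q 2) (h1 : q 2 ≤ 2 * δ) (hG : 0 < GP x e M (1 / ((2 * R) ^ 2 + e)) q) : hsx x q < (4 * R) ^ 2 := by
  have hMp : 0 < M := by rw [hM]; positivity
  have key : 1 / ((4 * R) ^ 2 + e) < 1 / (hsx x q + e) := by
    rcases le_total 0 (q 2) with h2 | h2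
    · have h3 := Pt2_up (c0 := 1 / ((2 * R) ^ 2 + e)) he hδ hM (x := x) h2 h1
      have h4 : 1 / ((4 * R) ^ 2 + e) ≤ 1 / ((2 * R) ^ 2 + e) := by
        apply one_div_le_one_div_of_le (by positivity)
        nlinarith
      linarith
    · have h3 : q 2 ^ 2 ≤ τ ^ 2 := by nlinarith
      have h4 : 4 / e ^ 2 * q 2 ^ 2 ≤ 4 / e ^ 2 * τ ^ 2 := mul_le_mul_of_nonneg_left h3 (by positivity)
      have h5 : M * (-q 2) ≤ M * τ := mul_le_mul_of_nonneg_left (by linarith) hMp.le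
      unfold GP at hG
      linarith
  have h6 : 0 < hsx x q + e := by linarith [Pt2_hsx x q]
  rw [one_div_lt_one_div (by positivity) h6] at key
  linarith

/-- the trace of the cube of the positive part -/
private theorem Pt2_trace {e M c0 : ℝ} (he : 0 < e) (x q n : E3) (hn : ‖n‖ = 1) :
    3 * (max (GP x e M c0 q) 0) ^ 2 * (4 * (hsx x q - e) / (hsx x q + e) ^ 3) ≤
      trN (fderiv ℝ (fun q => (3 * (max (GP x e M c0 q) 0) ^ 2) • YP x e M q) q) n := by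
  refine le_trans ?_ ((TP_GP x he M c0).cube.2 q n hn)
  exact mul_le_mul_of_nonneg_left (trN_YP x he M q n hn) (by positivity)

/-- the lower bound `- 12 / e ^ 4` -/
private theorem Pt2_low {e M c0 δ : ℝ} (he : 0 < e) (hδ : 0 < δ) (hc0 : 0 < c0) (hM : M = 1 / (e * δ) + 16 * δ / e ^ 2)
    {x q : E3} (h0 : 0 ≤ q 2) (h1 : q 2 ≤ 2 * δ) :
    -(12 / e ^ 4) ≤ 3 * (max (GP x e M c0 q) 0) ^ 2 * (4 * (hsx x q - e) / (hsx x q + e) ^ 3) := by
  obtain ⟨s, hs⟩ : ∃ s, s = hsx x q := ⟨_, rfl⟩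
  have hs0 : 0 ≤ s := by rw [hs]; exact Pt2_hsx x q
  obtain ⟨P, hP⟩ : ∃ P, P = max (GP x e M c0 q) 0 := ⟨_, rfl⟩
  rw [← hs, ← hP]
  have hP0 : 0 ≤ P := by rw [hP]; exact le_max_right _ _
  have hP1 : P ≤ 1 / e := by
    rw [hP]
    refine max_le ?_ (by positivity)
    have h2 := Pt2_up (c0 := c0) he hδ hM (x := x) h0 h1
    have h4 : 1 / (hsx x q + e) ≤ 1 / e := one_div_le_one_div_of_le he (by linarith [Pt2_hsx x q])
    linarith
  have hse : 0 < s + e := by linarith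
  have h2 : -(4 / e ^ 2) ≤ 4 * (s - e) / (s + e) ^ 3 := by
    rw [neg_le_iff_add_nonneg, div_add_div _ _ (by positivity) (by positivity)]
    apply div_nonneg _ (by positivity)
    nlinarith [pow_nonneg hs0 3, mul_nonneg hs0 he.le, mul_nonneg (mul_nonneg hs0 he.le) he.le,
      mul_nonneg (mul_nonneg hs0 hs0) he.le]
  have h3 : P ^ 2 ≤ (1 / e) ^ 2 := pow_le_pow_left₀ hP0 hP1 2
  have h4 : 3 * P ^ 2 * -(4 / e ^ 2) ≤ 3 * P ^ 2 * (4 * (s - e) / (s + e) ^ 3) :=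
    mul_le_mul_of_nonneg_left h2 (by positivity)
  have h5 : P ^ 2 * (4 / e ^ 2) ≤ (1 / e) ^ 2 * (4 / e ^ 2) := mul_le_mul_of_nonneg_right h3 (by positivity)
  have h6 : 3 * ((1 / e) ^ 2 * (4 / e ^ 2)) = 12 / e ^ 4 := by
    field_simp
    ring
  linarith

/-- the lower bound near `p` -/
private theorem Pt2_pos {e M R r : ℝ} (he : 0 < e) (hM : 0 < M) (hR : 0 < R)
    (hr : M * r ≤ (1 / ((3 * R / 2) ^ 2 + e) - 1 / ((2 * R) ^ 2 + e)) / 2) {x q : E3}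
    (h0 : 0 ≤ q 2) (h1 : q 2 ≤ r) (h2 : 2 * e ≤ hsx x q) (h3 : hsx x q ≤ (3 * R / 2) ^ 2) :
    3 * ((1 / ((3 * R / 2) ^ 2 + e) - 1 / ((2 * R) ^ 2 + e)) / 2) ^ 2 * (4 * e / ((2 * R) ^ 2 + e) ^ 3) ≤
      3 * (max (GP x e M (1 / ((2 * R) ^ 2 + e)) q) 0) ^ 2 * (4 * (hsx x q - e) / (hsx x q + e) ^ 3) := by
  obtain ⟨s, hs⟩ : ∃ s, s = hsx x q := ⟨_, rfl⟩
  have hs0 : 0 ≤ s := by rw [hs]; exact Pt2_hsx x q
  obtain ⟨g, hg⟩ : ∃ g, g = 1 / ((3 * R / 2) ^ 2 + e) - 1 / ((2 * R) ^ 2 + e) := ⟨_, rfl⟩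
  have hg0 : 0 < g := by
    rw [hg, sub_pos]
    apply one_div_lt_one_div_of_lt (by positivity)
    nlinarith
  have hG : g / 2 ≤ GP x e M (1 / ((2 * R) ^ 2 + e)) q := by
    unfold GP
    have h4 : 1 / ((3 * R / 2) ^ 2 + e) ≤ 1 / (hsx x q + e) :=
      one_div_le_one_div_of_le (by linarith [Pt2_hsx x q]) (by linarith)
    have h5 : M * q 2 ≤ M * r := mul_le_mul_of_nonneg_left h1 hM.le
    have h6 : 0 ≤ 4 / e ^ 2 * q 2 ^ 2 := by positivity
    linarith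
  have hm : g / 2 ≤ max (GP x e M (1 / ((2 * R) ^ 2 + e)) q) 0 := le_max_of_le_left hG
  rw [← hg, ← hs]
  rw [← hs] at h2 h3
  have h4 : 4 * e / ((2 * R) ^ 2 + e) ^ 3 ≤ 4 * (s - e) / (s + e) ^ 3 := by
    apply div_le_div₀ (by linarith) (by linarith) (by positivity)
    apply pow_le_pow_left₀ (by positivity)
    nlinarith
  have h5 : (g / 2) ^ 2 ≤ (max (GP x e M (1 / ((2 * R) ^ 2 + e)) q) 0) ^ 2 := pow_le_pow_left₀ (by positivity) hm 2
  exact mul_le_mul (mul_le_mul_of_nonneg_left h5 (by norm_num)) h4 (by positivity) (by positivity)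

/-- the case `‖x - p‖ < ρ` -/
private theorem Pt2_in {U : Set E3} {p x : E3} {ρ : ℝ} (h : ‖x - p‖ < ρ) :
    ∃ r' > 0, ∃ c > 0, ∃ C > 0, ∃ (b : E3 → ℝ) (Y : E3 → E3),
      TP b Y ∧ HasCompactSupport b ∧ tsupport b ⊆ U ∧
      ∀ q n : E3, 0 ≤ q 2 → ‖n‖ = 1 → ((ball p r').indicator (fun _ => c) q) - ((ball x ρ).indicator (fun _ => C) q) ≤
        trN (fderiv ℝ Y q) n := by
  refine ⟨ρ - ‖x - p‖, by linarith, 1, one_pos, 1, one_pos, fun _ => 0, fun _ => 0, ⟨?_, contDiff_const⟩, ?_, ?_, ?_⟩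
  · intro q
    refine (hasFDerivAt_const (0 : ℝ) q).congr_fderiv ?_
    ext v
    simp
  · exact HasCompactSupport.of_support_subset_isCompact (isCompact_closedBall (0 : E3) 1) (by simp)
  · simp [tsupport]
  · intro q n h0 hn
    rw [fderiv_const_apply, trN_zero, sub_nonpos]
    by_cases hq : q ∈ ball p (ρ - ‖x - p‖)
    · have hq' : q ∈ ball x ρ := by
        rw [mem_ball_iff_norm] at hq ⊢
        have h1 : ‖q - x‖ ≤ ‖q - p‖ + ‖p - x‖ := by
          have h2 := norm_add_le (q - p) (p - x)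
          rwa [sub_add_sub_cancel] at h2
        rw [norm_sub_rev p x] at h1
        linarith
      rw [indicator_of_mem hq, indicator_of_mem hq']
    · rw [indicator_of_notMem hq]
      exact indicator_nonneg (fun _ _ => zero_le_one) _

/-- the distances near `p` -/
private theorem Pt2_near {p x q : E3} {R ρ r : ℝ} (hp0 : p 2 = 0) (hx0 : x 2 = 0) (hxR : ‖x - p‖ < R) (hρx : ρ ≤ ‖x - p‖)
    (h0 : 0 ≤ q 2) (hq : ‖q - p‖ < r) (r1 : r ≤ ρ / 4) (r2 : r ≤ R / 2) :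
    q 2 ≤ r ∧ 2 * (ρ ^ 2 / 4) ≤ hsx x q ∧ hsx x q ≤ (3 * R / 2) ^ 2 := by
  have hsq := Pt2_sq (q := q) hx0
  have hr0 : 0 < r := (norm_nonneg _).trans_lt hq
  have h4 : q 2 ≤ r := (le_abs_self _).trans ((Pt2_z hp0).trans hq.le)
  have h5 : ‖q - x‖ ≤ ‖q - p‖ + ‖x - p‖ := by
    have h9 := norm_add_le (q - p) (p - x)
    rwa [sub_add_sub_cancel, norm_sub_rev p x] at h9
  have h6 : ‖x - p‖ ≤ ‖q - p‖ + ‖q - x‖ := by
    have h9 := norm_add_le (x - q) (q - p)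
    rw [sub_add_sub_cancel, norm_sub_rev x q] at h9
    linarith
  refine ⟨h4, ?_, ?_⟩
  · have h8 : ρ - r ≤ ‖q - x‖ := by linarith
    have h9 : (ρ - r) ^ 2 ≤ ‖q - x‖ ^ 2 := pow_le_pow_left₀ (by linarith) h8 2
    have h10 : q 2 ^ 2 ≤ r ^ 2 := pow_le_pow_left₀ h0 h4 2
    have h11 : ρ * r ≤ ρ * (ρ / 4) := mul_le_mul_of_nonneg_left r1 (by linarith)
    have h12 : (ρ - r) ^ 2 = ρ ^ 2 - 2 * (ρ * r) + r ^ 2 := by ring
    have h13 : ρ * (ρ / 4) = ρ ^ 2 / 4 := by ring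
    linarith
  · have h9 : ‖q - x‖ ≤ 3 * R / 2 := by linarith
    have h10 : ‖q - x‖ ^ 2 ≤ (3 * R / 2) ^ 2 := pow_le_pow_left₀ (norm_nonneg _) h9 2
    have h11 : 0 ≤ q 2 ^ 2 := sq_nonneg _
    linarith

/-- the case `ρ ≤ ‖x - p‖` -/
private theorem Pt2_out {U : Set E3} {p x : E3} {R ρ : ℝ} (hR : 0 < R) (hRU : closedBall p (8 * R) ⊆ U) (hp0 : p 2 = 0)
    (hx0 : x 2 = 0) (hxR : ‖x - p‖ < R) (hρ : 0 < ρ) (hρx : ρ ≤ ‖x - p‖) :
    ∃ r' > 0, ∃ c > 0, ∃ C > 0, ∃ (b : E3 → ℝ) (Y : E3 → E3),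
      TP b Y ∧ HasCompactSupport b ∧ tsupport b ⊆ U ∧
      ∀ q n : E3, 0 ≤ q 2 → ‖n‖ = 1 → ((ball p r').indicator (fun _ => c) q) - ((ball x ρ).indicator (fun _ => C) q) ≤
        trN (fderiv ℝ Y q) n := by
  obtain ⟨e, he⟩ : ∃ e, e = ρ ^ 2 / 4 := ⟨_, rfl⟩
  obtain ⟨δ, hδ⟩ : ∃ δ, δ = ρ / 4 := ⟨_, rfl⟩
  have hep : 0 < e := by rw [he]; positivity
  have hδp : 0 < δ := by rw [hδ]; positivity
  obtain ⟨M, hM⟩ : ∃ M, M = 1 / (e * δ) + 16 * δ / e ^ 2 := ⟨_, rfl⟩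
  have hMp : 0 < M := by rw [hM]; positivity
  obtain ⟨c0, hc0⟩ : ∃ c0, c0 = 1 / ((2 * R) ^ 2 + e) := ⟨_, rfl⟩
  have hc0p : 0 < c0 := by rw [hc0]; positivity
  obtain ⟨g, hg⟩ : ∃ g, g = 1 / ((3 * R / 2) ^ 2 + e) - 1 / ((2 * R) ^ 2 + e) := ⟨_, rfl⟩
  have hgp : 0 < g := by
    rw [hg, sub_pos]
    apply one_div_lt_one_div_of_lt (by positivity)
    nlinarith
  obtain ⟨τ, hτ0, hτR, hτ⟩ := Pt2_tau hep hMp hR
  obtain ⟨χ, hχ, hχ1, hχ0⟩ := exists_cutoff2 (a := -(τ / 2)) (b := 5 * δ / 4) (d := min (τ / 2) (δ / 4)) (by linarith)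
    (lt_min (by linarith) (by linarith))
  have d1 : min (τ / 2) (δ / 4) ≤ τ / 2 := min_le_left _ _
  have d2 : min (τ / 2) (δ / 4) ≤ δ / 4 := min_le_right _ _
  have hT := (TP_GP x hep M c0).cube.1
  obtain ⟨Y', hY', e1, e0, ez0⟩ := hT.cutoff' hχ
  obtain ⟨r', hr'⟩ : ∃ r', r' = min (ρ / 4) (min (R / 2) (g / 2 / M)) := ⟨_, rfl⟩
  have r0 : 0 < r' := by rw [hr']; exact lt_min (by positivity) (lt_min (by positivity) (by positivity))
  have r1 : r' ≤ ρ / 4 := by rw [hr']; exact min_le_left _ _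
  have r2 : r' ≤ R / 2 := by rw [hr']; exact (min_le_right _ _).trans (min_le_left _ _)
  have r3 : M * r' ≤ g / 2 := by
    have h1 : r' ≤ g / 2 / M := by rw [hr']; exact (min_le_right _ _).trans (min_le_right _ _)
    rw [le_div_iff₀ hMp] at h1
    linarith
  obtain ⟨c, hc⟩ : ∃ c, c = 3 * (g / 2) ^ 2 * (4 * e / ((2 * R) ^ 2 + e) ^ 3) := ⟨_, rfl⟩
  have hcp : 0 < c := by rw [hc]; positivity
  have hsupp : ∀ q ∈ Function.support (fun q : E3 => χ (q 2) * (max (GP x e M c0 q) 0) ^ 3),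
      -τ < q 2 ∧ q 2 < 3 * δ / 2 ∧ 0 < GP x e M c0 q := by
    intro q hq
    rw [Function.mem_support] at hq
    have h1 : χ (q 2) ≠ 0 := left_ne_zero_of_mul hq
    have h2 : (max (GP x e M c0 q) 0) ^ 3 ≠ 0 := right_ne_zero_of_mul hq
    refine ⟨?_, ?_, ?_⟩
    · by_contra h3
      push Not at h3
      refine h1 (hχ0 _ (Or.inl ?_))
      linarith
    · by_contra h3
      push Not at h3
      refine h1 (hχ0 _ (Or.inr ?_))
      linarith
    · by_contra h3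
      push Not at h3
      rw [max_eq_right h3] at h2
      exact h2 (by norm_num)
  have hball : Function.support (fun q : E3 => χ (q 2) * (max (GP x e M c0 q) 0) ^ 3) ⊆ closedBall p (8 * R) := by
    intro q hq
    obtain ⟨h1, h2, h3⟩ := hsupp q hq
    rw [hc0] at h3
    have h4 := Pt2_hs hep hR hδp hM hτ h1 (by linarith) h3
    have h5 := Pt2_sq (q := q) hx0
    have h6 : q 2 ^ 2 ≤ R ^ 2 := by
      have h7 : 3 * δ / 2 ≤ R := by rw [hδ]; linarith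
      apply sq_le_sq'
      · linarith
      · linarith
    have h7 : ‖q - x‖ ≤ 5 * R := by
      apply (sq_le_sq₀ (norm_nonneg _) (by positivity)).1
      rw [h5]
      nlinarith
    have h8 : ‖q - p‖ ≤ ‖q - x‖ + ‖x - p‖ := by
      have h9 := norm_add_le (q - x) (x - p)
      rwa [sub_add_sub_cancel] at h9
    rw [mem_closedBall_iff_norm]
    linarith
  refine ⟨r', r0, c, hcp, 12 / e ^ 4, by positivity, _, Y', hY', ?_, ?_, ?_⟩
  · exact HasCompactSupport.of_support_subset_isCompact (isCompact_closedBall _ _) hball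
  · exact (closure_minimal hball isClosed_closedBall).trans hRU
  · intro q n h0 hn
    by_cases h1 : q 2 < 5 * δ / 4
    · rw [e1 q n (by
        filter_upwards [Ioo_mem_nhds (by linarith : -(τ / 2) < q 2) h1] with z hz
        exact hχ1 z hz.1.le hz.2.le)]
      refine le_trans ?_ (Pt2_trace hep x q n hn)
      have hlow := Pt2_low hep hδp hc0p hM (x := x) h0 (by linarith : q 2 ≤ 2 * δ)
      have hsq := Pt2_sq (q := q) hx0
      by_cases h2 : q ∈ ball p r'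
      · rw [indicator_of_mem h2]
        have h3 : c ≤ 3 * (max (GP x e M c0 q) 0) ^ 2 * (4 * (hsx x q - e) / (hsx x q + e) ^ 3) := by
          rw [mem_ball_iff_norm] at h2
          obtain ⟨h4, h7, h8⟩ := Pt2_near hp0 hx0 hxR hρx h0 h2 r1 r2
          rw [← he] at h7
          rw [hc, hg, hc0]
          exact Pt2_pos hep hMp hR (by rw [← hg]; exact r3) h0 h4 h7 h8
        have h4 : 0 ≤ (ball x ρ).indicator (fun _ => 12 / e ^ 4) q := indicator_nonneg (fun _ _ => by positivity) _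
        linarith
      · rw [indicator_of_notMem h2]
        by_cases h3 : q ∈ ball x ρ
        · rw [indicator_of_mem h3]
          linarith
        · rw [indicator_of_notMem h3, sub_zero]
          have h4 : e ≤ hsx x q := by
            rw [mem_ball_iff_norm] at h3
            push Not at h3
            have h5 : ρ ^ 2 ≤ ‖q - x‖ ^ 2 := pow_le_pow_left₀ hρ.le h3 2
            have h6 : q 2 ^ 2 ≤ (5 * δ / 4) ^ 2 := pow_le_pow_left₀ h0 h1.le 2
            rw [hδ] at h6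
            have h7 : (5 * (ρ / 4) / 4) ^ 2 = 25 / 256 * ρ ^ 2 := by ring
            have h8 : 0 ≤ ρ ^ 2 := sq_nonneg _
            linarith
          apply mul_nonneg (by positivity)
          apply div_nonneg (by linarith)
          have h5 : 0 < hsx x q + e := by linarith
          positivity
    · have hz : trN (fderiv ℝ Y' q) n = 0 := by
        push Not at h1
        by_cases h2 : q 2 < 2 * δ
        · refine ez0 q n ?_
          have hop : {v : E3 | δ < v 2 ∧ v 2 < 2 * δ} ∈ 𝓝 q := by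
            apply IsOpen.mem_nhds
            · have hc2 : Continuous fun v : E3 => v 2 := by fun_prop
              exact (isOpen_lt continuous_const hc2).inter (isOpen_lt hc2 continuous_const)
            · exact ⟨by linarith, h2⟩
          filter_upwards [hop] with v hv
          have h3 : GP x e M c0 v ≤ 0 := (Pt2_neg hep hδp hc0p hM hv.1.le hv.2.le).le
          rw [max_eq_right h3]
          norm_num
        · push Not at h2
          refine e0 q n ?_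
          filter_upwards [Ioi_mem_nhds (by linarith : 3 * δ / 2 < q 2)] with z hz'
          have hz'' : 3 * δ / 2 < z := hz'
          refine hχ0 z (Or.inr ?_)
          linarith
      have h2 : q ∉ ball p r' := by
        intro h3
        rw [mem_ball_iff_norm] at h3
        have h4 : q 2 ≤ r' := (le_abs_self _).trans ((Pt2_z hp0).trans h3.le)
        rw [hδ] at h1
        apply h1
        linarith
      rw [hz, indicator_of_notMem h2, zero_sub, neg_nonpos]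
      exact indicator_nonneg (fun _ _ => by positivity) _

/-- PIECE [SH-9b] (this file, about 220 lines; model: One2.lean). PROOF. `closedBall p (8 R) ⊆ U`, `R > 0`. Let `‖x - p‖ < R`, `0 < ρ`, without loss of generality `ρ ≤ R`.
If `‖x - p‖ < ρ`: `r' = min (ρ - ‖x - p‖) R`, `b = 0`, `Y = 0`, `c = C = 1`. Otherwise `e = ρ ^ 2 / 4`, `s1 = (2 R) ^ 2`, `s2 = (4 R) ^ 2`, `c0 = 1 / (s1 + e)`, `δ = ρ / 4`,
`M = 1 / (e δ) + 16 δ / e ^ 2`, `G = GP x e M c0`. For `0 ≤ z ≤ 2 δ`: `(4 / e ^ 2) z ^ 2 ≤ (8 δ / e ^ 2) z ≤ M z`, so `G ≤ 1 / (s + e) - c0` (so `G ≤ 1 / e`, and `G > 0` only if `s < s1`), and for `δ ≤ z ≤ 2 δ` `G < 0`.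
Take `0 < τ ≤ R` with `(4 / e ^ 2) τ ^ 2 + M τ ≤ c0 - 1 / (s2 + e)`: for `- τ ≤ z ≤ 0` `G > 0` only if `s < s2`. `χ` of `exists_cutoff2` equal to `1` on `[- τ / 2, 5 δ / 4]`, `0` outside `(- τ, 3 δ / 2)`
(`d = min (τ / 2) (δ / 4)`). `b q = χ (q 2) * (max (G q) 0) ^ 3`, `Y` from `TP.cube`, `TP.cutoff'`. Support of `b`: `- τ < z < 3 δ / 2`, `s < s2`, so `‖q - p‖ ≤ 4 R + R + τ + 2 δ < 8 R`: compact, in `U`.
Trace for `z ≥ 0`: if `z < 5 δ / 4` it is `TP.cube_eq`, at least `3 G_+ ^ 2 * 4 (s - e) / (s + e) ^ 3` (the tangential term is nonnegative, `trN_YP`): nonnegative if `s ≥ e`, at least `- 12 / e ^ 4` if `s < e`, and then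
`‖q - x‖ ^ 2 = s + z ^ 2 < e + 4 δ ^ 2 ≤ ρ ^ 2`. If `z ≥ 5 δ / 4`: `b0 = 0` near `q` if `z < 2 δ`, `χ = 0` near `z` if `z > 3 δ / 2`, trace `0`. On `ball p r'`, `r' ≤ min (ρ / 4) (R / 2)` (so `r' ≤ δ`): `s ≥ (ρ - r') ^ 2 ≥ ρ ^ 2 / 2 = 2 e`,
`s ≤ (3 R / 2) ^ 2`, `G ≥ 1 / ((3 R / 2) ^ 2 + e) - c0 - M r' ≥ g0 / 2` for `M r' ≤ g0 / 2`, `g0 = 1 / ((3 R / 2) ^ 2 + e) - c0 > 0`: trace at least `c = 3 (g0 / 2) ^ 2 * 4 e / (s1 + e) ^ 3`. `C = 12 / e ^ 4 + c` (so that `c - C ≤` the trace on the intersection of the balls). -/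
theorem local_test {U : Set E3} (hU : IsOpen U) {p : E3} (hp : p ∈ U) (hp0 : p 2 = 0) :
    ∃ R > 0, ∀ x : E3, x 2 = 0 → ‖x - p‖ < R → ∀ ρ > 0, ∃ r' > 0, ∃ c > 0, ∃ C > 0, ∃ (b : E3 → ℝ) (Y : E3 → E3),
      TP b Y ∧ HasCompactSupport b ∧ tsupport b ⊆ U ∧
      ∀ q n : E3, 0 ≤ q 2 → ‖n‖ = 1 → ((ball p r').indicator (fun _ => c) q) - ((ball x ρ).indicator (fun _ => C) q) ≤
        trN (fderiv ℝ Y q) n := by
  obtain ⟨r, hr, hrU⟩ := Metric.isOpen_iff.1 hU p hp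
  refine ⟨r / 16, by positivity, ?_⟩
  intro x hx hxp ρ hρ
  rcases lt_or_ge ‖x - p‖ ρ with h | h
  · exact Pt2_in h
  · refine Pt2_out (R := r / 16) (by positivity) ?_ hp0 hx hxp hρ h
    refine (closedBall_subset_ball ?_).trans hrU
    linarith

end Pool.Agent.ML
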