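import Pool.Agent.Lib_MP_7d1493.Lam1

/-!
# Comparison of two balls in a chart
-/

set_option autoImplicit false

open MeasureTheory Measure Set Metric Filter Topology
open scoped ENNReal InnerProductSpace ContDiff

namespace Pool.Agent.ML

private theorem Pt3_z_cont : Continuous fun q : E3 => q 2 := by
  fun_prop

private theorem Pt3_int {S : Set E3} (hS : MeasurableSet S) (hpos : ∀ q ∈ S, 0 ≤ q 2) {B : Set E3}
    (hB : MeasurableSet B) (hfin : ∫⁻ q in S ∩ B, ENNReal.ofReal (q 2) ∂μHE[2] < ⊤) :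
    IntegrableOn (fun q : E3 => q 2) (S ∩ B) μHE[2] := by
  refine ⟨Pt3_z_cont.aestronglyMeasurable, ?_⟩
  rw [hasFiniteIntegral_iff_ofReal]
  · exact hfin
  · filter_upwards [ae_restrict_mem (hS.inter hB)] with q hq using hpos q hq.1

/-- PIECE [SH-9c] (this file, about 180 lines). PROOF. If the right side is `⊤` nothing is to be proved (`0 < C`). `surf_green` with `ψ z = z` (`D2 (fun z => z) (fun _ => 1) (fun _ => 0)`): `itg N ψ ψ2 b Y q = q 2 * trN (fderiv ℝ Y q) (N q)`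
is integrable on `S` with the integral `0`. On `S`: `[A] c z ≤ itg + [B] C z`. Take `∫⁻ ENNReal.ofReal` over `S` (no measurability of the left side is needed; model: `one_energy` in One3.lean). -/
theorem slice_compare {U S A B : Set E3} {N : E3 → E3} (hU : IsOpen U) (hS : IsMinSurf U S N) (hpos : ∀ q ∈ S, 0 ≤ q 2)
    (hA : MeasurableSet A) (hB : MeasurableSet B) {b : E3 → ℝ} {Y : E3 → E3} (hb : TP b Y) (hc : HasCompactSupport b)
    (hs : tsupport b ⊆ U) {c C : ℝ} (hc0 : 0 < c) (hC0 : 0 < C)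
    (ht : ∀ q n : E3, 0 ≤ q 2 → ‖n‖ = 1 → A.indicator (fun _ => c) q - B.indicator (fun _ => C) q ≤ trN (fderiv ℝ Y q) n) :
    ENNReal.ofReal c * ∫⁻ q in S ∩ A, ENNReal.ofReal (q 2) ∂μHE[2] ≤
      ENNReal.ofReal C * ∫⁻ q in S ∩ B, ENNReal.ofReal (q 2) ∂μHE[2] := by
  have hSm : MeasurableSet S := measurableSet_surf hU hS
  by_cases hfin : ∫⁻ q in S ∩ B, ENNReal.ofReal (q 2) ∂μHE[2] = ⊤
  · rw [hfin, ENNReal.mul_top (ENNReal.ofReal_pos.mpr hC0).ne']
    exact le_top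
  have hfin' : ∫⁻ q in S ∩ B, ENNReal.ofReal (q 2) ∂μHE[2] < ⊤ := lt_top_iff_ne_top.mpr hfin
  have hD2 : D2 (fun z : ℝ => z) (fun _ => 1) (fun _ => 0) :=
    ⟨fun z => hasDerivAt_id z, fun z => hasDerivAt_const z 1, continuous_const⟩
  obtain ⟨hi, hz⟩ := surf_green hU hS hD2 hb hc hs
  have hBi : IntegrableOn (fun q : E3 => q 2) (S ∩ B) μHE[2] := Pt3_int hSm hpos hB hfin'
  have hBi' : IntegrableOn (B.indicator fun q : E3 => q 2) S μHE[2] := by
    rw [IntegrableOn, integrable_indicator_iff hB]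
    show Integrable (fun q : E3 => q 2) ((μHE[2].restrict S).restrict B)
    rw [Measure.restrict_restrict hB, inter_comm B S]
    exact hBi
  have key : ∀ q ∈ S, A.indicator (fun q : E3 => c * q 2) q ≤
      itg N (fun z => z) (fun _ => 0) b Y q + C * B.indicator (fun q : E3 => q 2) q := by
    intro q hq
    have h1 := ht q (N q) (hpos q hq) (norm_normal hS hq)
    have h2 := mul_le_mul_of_nonneg_left h1 (hpos q hq)
    have h3 : itg N (fun z => z) (fun _ => 0) b Y q = q 2 * trN (fderiv ℝ Y q) (N q) := by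
      unfold itg
      ring
    rw [h3]
    by_cases hqA : q ∈ A
    · rw [indicator_of_mem hqA] at h2 ⊢
      by_cases hqB : q ∈ B
      · rw [indicator_of_mem hqB] at h2 ⊢
        linarith
      · rw [indicator_of_notMem hqB] at h2 ⊢
        linarith
    · rw [indicator_of_notMem hqA] at h2 ⊢
      by_cases hqB : q ∈ B
      · rw [indicator_of_mem hqB] at h2 ⊢
        linarith
      · rw [indicator_of_notMem hqB] at h2 ⊢
        linarith
  have hm0 : ∀ q ∈ S, 0 ≤ A.indicator (fun q : E3 => c * q 2) q := fun q hq =>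
    indicator_apply_nonneg fun _ => mul_nonneg hc0.le (hpos q hq)
  have hsum : IntegrableOn (fun q => itg N (fun z => z) (fun _ => 0) b Y q + C * B.indicator (fun q : E3 => q 2) q)
      S μHE[2] := Integrable.add hi (hBi'.const_mul _)
  have hval : ∫ q in S, (itg N (fun z => z) (fun _ => 0) b Y q + C * B.indicator (fun q : E3 => q 2) q) ∂μHE[2] =
      C * ∫ q in S ∩ B, q 2 ∂μHE[2] := by
    rw [integral_add hi (hBi'.const_mul _), hz, zero_add, integral_const_mul, setIntegral_indicator hB]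
  calc ENNReal.ofReal c * ∫⁻ q in S ∩ A, ENNReal.ofReal (q 2) ∂μHE[2]
      = ∫⁻ q in S ∩ A, ENNReal.ofReal c * ENNReal.ofReal (q 2) ∂μHE[2] :=
        (lintegral_const_mul' _ _ ENNReal.ofReal_ne_top).symm
    _ = ∫⁻ q in S ∩ A, ENNReal.ofReal (A.indicator (fun q : E3 => c * q 2) q) ∂μHE[2] := by
        refine setLIntegral_congr_fun (hSm.inter hA) fun q hq => ?_
        show ENNReal.ofReal c * ENNReal.ofReal (q 2) = ENNReal.ofReal (A.indicator (fun q : E3 => c * q 2) q)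
        rw [indicator_of_mem hq.2, ← ENNReal.ofReal_mul hc0.le]
    _ ≤ ∫⁻ q in S, ENNReal.ofReal (A.indicator (fun q : E3 => c * q 2) q) ∂μHE[2] :=
        lintegral_mono_set inter_subset_left
    _ ≤ ∫⁻ q in S, ENNReal.ofReal (itg N (fun z => z) (fun _ => 0) b Y q + C * B.indicator (fun q : E3 => q 2) q)
          ∂μHE[2] :=
        setLIntegral_mono' hSm fun q hq => ENNReal.ofReal_le_ofReal (key q hq)
    _ = ENNReal.ofReal (∫ q in S, (itg N (fun z => z) (fun _ => 0) b Y q + C * B.indicator (fun q : E3 => q 2) q)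
          ∂μHE[2]) := by
        rw [ofReal_integral_eq_lintegral_ofReal hsum]
        filter_upwards [ae_restrict_mem hSm] with q hq
        exact (hm0 q hq).trans (key q hq)
    _ = ENNReal.ofReal C * ∫⁻ q in S ∩ B, ENNReal.ofReal (q 2) ∂μHE[2] := by
        rw [hval, ENNReal.ofReal_mul hC0.le, ofReal_integral_eq_lintegral_ofReal hBi]
        filter_upwards [ae_restrict_mem (hSm.inter hB)] with q hq using hpos q hq.1

/-- PROOF. `T' = {t ∈ T | (S t ∩ A ∩ {0 < z}).Nonempty}` is countable: for `t ∈ T'` there is `n` with `μHE[2] (S t ∩ A ∩ {1 / (n + 1) < z}) > 0` (`surf_area_pos`, `A` open), and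
`μHE[2] (L ∩ A ∩ {1 / (n + 1) < z}) < ⊤` (`hfin`): `Measure.countable_meas_pos_of_disjoint_of_meas_iUnion_ne_top` for each `n` (model: Lam1.lean). `L ∩ A ∩ {0 < z} ⊆ ⋃ t ∈ T', S t ∩ A`, on the rest of `L ∩ A` the integrand is `0`
(`z = 0`). `lintegral_iUnion_le`, `slice_compare` for each `t`, `lintegral_iUnion` for the disjoint measurable sets `S t ∩ B ⊆ L ∩ B`. -/
theorem chart_compare {L U A B : Set E3} {N : E3 → E3} (hU : IsOpen U) (T : Set ℝ) (S : ℝ → Set E3)
    (hS : ∀ t ∈ T, IsMinSurf U (S t) N) (hdis : ∀ t ∈ T, ∀ t' ∈ T, t ≠ t' → Disjoint (S t) (S t'))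
    (hun : L ∩ U = ⋃ t ∈ T, S t) (hpos : ∀ q ∈ L, 0 ≤ q 2) (hA : IsOpen A) (hAU : A ⊆ U) (hB : MeasurableSet B)
    (hfin : ∀ n : ℕ, μHE[2] (L ∩ A ∩ {q | 1 / ((n : ℝ) + 1) < q 2}) < ⊤)
    {b : E3 → ℝ} {Y : E3 → E3} (hb : TP b Y) (hc : HasCompactSupport b)
    (hs : tsupport b ⊆ U) {c C : ℝ} (hc0 : 0 < c) (hC0 : 0 < C)
    (ht : ∀ q n : E3, 0 ≤ q 2 → ‖n‖ = 1 → A.indicator (fun _ => c) q - B.indicator (fun _ => C) q ≤ trN (fderiv ℝ Y q) n) :
    ENNReal.ofReal c * ∫⁻ q in L ∩ A, ENNReal.ofReal (q 2) ∂μHE[2] ≤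
      ENNReal.ofReal C * ∫⁻ q in L ∩ B, ENNReal.ofReal (q 2) ∂μHE[2] := by
  have hSL : ∀ t ∈ T, S t ⊆ L := by
    intro t ht' q hq
    have : q ∈ L ∩ U := by
      rw [hun]
      exact mem_biUnion ht' hq
    exact this.1
  have hSm : ∀ t : T, MeasurableSet (S t) := fun t => measurableSet_surf hU (hS t t.2)
  have hdisj : Pairwise (Function.onFun Disjoint fun t : T => S t) := by
    intro t t' htt'
    exact hdis t t.2 t' t'.2 (fun h => htt' (Subtype.ext h))
  have hz0 : IsOpen {q : E3 | 0 < q 2} := isOpen_lt continuous_const Pt3_z_cont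
  set T' : Set T := {t : T | (S t ∩ (A ∩ {q : E3 | 0 < q 2})).Nonempty} with hT'
  have hcount : T'.Countable := by
    have hsub : T' ⊆ ⋃ n : ℕ, {t : T | 0 < (μHE[2].restrict (L ∩ A ∩ {q : E3 | 1 / ((n : ℝ) + 1) < q 2})) (S t)} := by
      rintro t ⟨q, hqS, hqA, hq0⟩
      have hq0' : 0 < q 2 := hq0
      obtain ⟨n, hn⟩ := exists_nat_one_div_lt hq0'
      refine mem_iUnion.mpr ⟨n, ?_⟩
      have hVo : IsOpen (A ∩ {q : E3 | 1 / ((n : ℝ) + 1) < q 2}) :=
        hA.inter (isOpen_lt continuous_const Pt3_z_cont)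
      have hp := surf_area_pos (hS t t.2) hVo hqS ⟨hqA, hn⟩
      show 0 < (μHE[2].restrict (L ∩ A ∩ {q : E3 | 1 / ((n : ℝ) + 1) < q 2})) (S t)
      rw [Measure.restrict_apply (hSm t)]
      refine hp.trans_le (measure_mono ?_)
      rintro q' ⟨h1, h2, h3⟩
      exact ⟨h1, ⟨hSL t t.2 h1, h2⟩, h3⟩
    refine (countable_iUnion fun n => ?_).mono hsub
    refine Measure.countable_meas_pos_of_disjoint_of_meas_iUnion_ne_top _ hSm hdisj ?_
    refine ((measure_mono (subset_univ _)).trans_lt ?_).ne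
    rw [Measure.restrict_apply MeasurableSet.univ, univ_inter]
    exact hfin n
  have hcT : Countable T' := hcount.to_subtype
  have h1 : ∫⁻ q in L ∩ A, ENNReal.ofReal (q 2) ∂μHE[2] ≤
      ∑' t : T', ∫⁻ q in S (t : T) ∩ A, ENNReal.ofReal (q 2) ∂μHE[2] := by
    calc ∫⁻ q in L ∩ A, ENNReal.ofReal (q 2) ∂μHE[2]
        = ∫⁻ q in L ∩ A, {q : E3 | 0 < q 2}.indicator (fun q => ENNReal.ofReal (q 2)) q ∂μHE[2] := by
          refine lintegral_congr fun q => ?_
          by_cases hq : q ∈ {q : E3 | 0 < q 2}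
          · rw [indicator_of_mem hq]
          · rw [indicator_of_notMem hq]
            exact ENNReal.ofReal_of_nonpos (not_lt.mp hq)
      _ = ∫⁻ q in {q : E3 | 0 < q 2} ∩ (L ∩ A), ENNReal.ofReal (q 2) ∂μHE[2] := by
          rw [lintegral_indicator hz0.measurableSet, Measure.restrict_restrict hz0.measurableSet]
      _ ≤ ∫⁻ q in ⋃ t : T', (S (t : T) ∩ A), ENNReal.ofReal (q 2) ∂μHE[2] := by
          refine lintegral_mono_set ?_
          rintro q ⟨hq0, hqL, hqA⟩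
          have hqU : q ∈ L ∩ U := ⟨hqL, hAU hqA⟩
          rw [hun] at hqU
          obtain ⟨t, ht', hqt⟩ := mem_iUnion₂.mp hqU
          exact mem_iUnion.mpr ⟨⟨⟨t, ht'⟩, ⟨q, hqt, hqA, hq0⟩⟩, hqt, hqA⟩
      _ ≤ _ := lintegral_iUnion_le _ _
  have h2 : ∑' t : T', ∫⁻ q in S (t : T) ∩ B, ENNReal.ofReal (q 2) ∂μHE[2] ≤
      ∫⁻ q in L ∩ B, ENNReal.ofReal (q 2) ∂μHE[2] := by
    rw [← lintegral_iUnion (fun t : T' => (hSm t).inter hB)]
    · refine lintegral_mono_set (iUnion_subset fun t => ?_)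
      exact inter_subset_inter_left _ (hSL _ (t : T).2)
    · intro t t' htt'
      exact (hdisj (fun h => htt' (Subtype.ext h))).mono inter_subset_left inter_subset_left
  calc ENNReal.ofReal c * ∫⁻ q in L ∩ A, ENNReal.ofReal (q 2) ∂μHE[2]
      ≤ ENNReal.ofReal c * ∑' t : T', ∫⁻ q in S (t : T) ∩ A, ENNReal.ofReal (q 2) ∂μHE[2] := by gcongr
    _ = ∑' t : T', ENNReal.ofReal c * ∫⁻ q in S (t : T) ∩ A, ENNReal.ofReal (q 2) ∂μHE[2] := ENNReal.tsum_mul_left.symm
    _ ≤ ∑' t : T', ENNReal.ofReal C * ∫⁻ q in S (t : T) ∩ B, ENNReal.ofReal (q 2) ∂μHE[2] := by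
        refine ENNReal.tsum_le_tsum fun t => ?_
        exact slice_compare hU (hS _ (t : T).2) (fun q hq => hpos q (hSL _ (t : T).2 hq)) hA.measurableSet hB hb hc hs
          hc0 hC0 ht
    _ = ENNReal.ofReal C * ∑' t : T', ∫⁻ q in S (t : T) ∩ B, ENNReal.ofReal (q 2) ∂μHE[2] := ENNReal.tsum_mul_left
    _ ≤ _ := by gcongr

end Pool.Agent.ML
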