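import Pool.Agent.Lib_MP_7d1493.Pt2
import Pool.Agent.Lib_MP_7d1493.Pt3
import Pool.Agent.Lib_MP_7d1493.One3

/-!
# Summability near one point of the boundary plane suffices
-/

set_option autoImplicit false

open MeasureTheory Measure Set Metric Filter Topology
open scoped ENNReal InnerProductSpace ContDiff

namespace Pool.Agent.ML

private theorem Pt4_z_cont : Continuous fun q : E3 => q 2 := by
  fun_prop

private theorem Pt4_z_le (q p : E3) : |q 2 - p 2| ≤ dist q p := by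
  have h := PiLp.norm_apply_le (q - p) 2
  rw [Real.norm_eq_abs] at h
  rw [dist_eq_norm]
  exact h

/-- PIECE [SH-9d] (this file, about 180 lines). PROOF. Chart `U` at `p` (`IsMinLam.chart`), `local_test`, `chart_compare` with `A = ball p r''`, `B = ball x ρ` (`r'' ≤ r'`, `ball p r'' ⊆ U`, `r'' < h`;
`closedBall p r'' ∩ {1 / (n + 1) ≤ z}` is a compact subset of `{0 < z < h}`). -/
theorem propagate {L : Set E3} {N : E3 → E3} (hL : IsMinLam L N) (hpos : ∀ q ∈ L, 0 ≤ q 2) {h : ℝ} (hh : 0 < h)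
    (hloc : ∀ K : Set E3, IsCompact K → K ⊆ {q | 0 < q 2 ∧ q 2 < h} → μHE[2] (L ∩ K) < ⊤) {p : E3} (hp : p 2 = 0) :
    ∃ R > 0, ∀ x : E3, x 2 = 0 → ‖x - p‖ < R → ∀ ρ > 0, ∫⁻ q in L ∩ ball x ρ, ENNReal.ofReal (q 2) ∂μHE[2] < ⊤ →
      ∃ r > 0, ∫⁻ q in L ∩ ball p r, ENNReal.ofReal (q 2) ∂μHE[2] < ⊤ := by
  obtain ⟨U, hU, hpU, Φ, T, -, hmem, hsurf⟩ := hL.chart p
  obtain ⟨R, hR, htest⟩ := local_test hU hpU hp
  refine ⟨R, hR, fun x hx hxp ρ hρ hfin => ?_⟩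
  obtain ⟨r', hr', c, hc, C, hC, b, Y, hb, hbc, hbs, ht⟩ := htest x hx hxp ρ hρ
  obtain ⟨ε, hε, hεU⟩ := Metric.isOpen_iff.mp hU p hpU
  obtain ⟨r, hrd⟩ : ∃ r, r = min (min r' ε) (h / 2) := ⟨_, rfl⟩
  have hr : 0 < r := by
    rw [hrd]
    exact lt_min (lt_min hr' hε) (by linarith)
  have hr1 : r ≤ r' := by
    rw [hrd]
    exact (min_le_left _ _).trans (min_le_left _ _)
  have hr2 : r ≤ ε := by
    rw [hrd]
    exact (min_le_left _ _).trans (min_le_right _ _)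
  have hr3 : r ≤ h / 2 := by
    rw [hrd]
    exact min_le_right _ _
  refine ⟨r, hr, ?_⟩
  have hdis : ∀ t ∈ T, ∀ t' ∈ T, t ≠ t' →
      Disjoint {q : E3 | ∃ h : q ∈ U, (Φ ⟨q, h⟩).1.2 = t} {q : E3 | ∃ h : q ∈ U, (Φ ⟨q, h⟩).1.2 = t'} := by
    intro t _ t' _ htt
    rw [Set.disjoint_left]
    rintro q ⟨h, hq⟩ ⟨h', hq'⟩
    exact htt (hq.symm.trans hq')
  have hun : L ∩ U = ⋃ t ∈ T, {q : E3 | ∃ h : q ∈ U, (Φ ⟨q, h⟩).1.2 = t} := by
    ext q
    simp only [Set.mem_inter_iff, Set.mem_iUnion, Set.mem_ofPred_eq, exists_prop]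
    constructor
    · rintro ⟨hqL, hqU⟩
      exact ⟨_, (hmem ⟨q, hqU⟩).1 hqL, hqU, rfl⟩
    · rintro ⟨t, ht, hqU, hq⟩
      refine ⟨(hmem ⟨q, hqU⟩).2 ?_, hqU⟩
      rw [hq]
      exact ht
  have hfin2 : ∀ n : ℕ, μHE[2] (L ∩ ball p r ∩ {q | 1 / ((n : ℝ) + 1) < q 2}) < ⊤ := by
    intro n
    have hK : IsCompact (closedBall p r ∩ {q : E3 | 1 / ((n : ℝ) + 1) ≤ q 2}) :=
      (isCompact_closedBall p r).inter_right (isClosed_le continuous_const Pt4_z_cont)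
    refine (measure_mono ?_).trans_lt (hloc _ hK ?_)
    · rintro q ⟨⟨h1, h2⟩, h3⟩
      have h4 : 1 / ((n : ℝ) + 1) < q 2 := h3
      exact ⟨h1, ball_subset_closedBall h2, h4.le⟩
    · rintro q ⟨h1, h2⟩
      have h3 : (1 : ℝ) / ((n : ℝ) + 1) ≤ q 2 := h2
      have h4 : 0 < (1 : ℝ) / ((n : ℝ) + 1) := by positivity
      have h5 := Pt4_z_le q p
      rw [hp, sub_zero] at h5
      have h6 : dist q p ≤ r := h1
      have h7 := le_abs_self (q 2)
      exact ⟨by linarith, by linarith⟩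
  have hcmp := chart_compare hU T (fun t => {q : E3 | ∃ h : q ∈ U, (Φ ⟨q, h⟩).1.2 = t}) hsurf hdis hun hpos
    (A := ball p r) (B := ball x ρ) isOpen_ball ((ball_subset_ball hr2).trans hεU) measurableSet_ball hfin2
    hb hbc hbs hc hC (fun q n hq hn => by
      refine le_trans (sub_le_sub_right ?_ _) (ht q n hq hn)
      exact indicator_le_indicator_of_subset (ball_subset_ball hr1) (fun _ => hc.le) q)
  by_contra htop
  rw [not_lt, top_le_iff] at htop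
  rw [htop, ENNReal.mul_top (ENNReal.ofReal_pos.mpr hc).ne', top_le_iff] at hcmp
  exact (ENNReal.mul_lt_top ENNReal.ofReal_lt_top hfin).ne hcmp

/-- PROOF. The set of the `y : E2` with the property at `!₂[y 0, y 1, 0]` is open, closed (`propagate`), nonempty. -/
theorem all_points {L : Set E3} {N : E3 → E3} (hL : IsMinLam L N) (hpos : ∀ q ∈ L, 0 ≤ q 2) {h : ℝ} (hh : 0 < h)
    (hloc : ∀ K : Set E3, IsCompact K → K ⊆ {q | 0 < q 2 ∧ q 2 < h} → μHE[2] (L ∩ K) < ⊤) {p : E3} (hp : p 2 = 0)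
    {r : ℝ} (hr : 0 < r) (hsum : ∫⁻ q in L ∩ ball p r, ENNReal.ofReal (q 2) ∂μHE[2] < ⊤) (x : E3) (hx : x 2 = 0) :
    ∃ ρ > 0, ∫⁻ q in L ∩ ball x ρ, ENNReal.ofReal (q 2) ∂μHE[2] < ⊤ := by
  have hcont : Continuous fun y : E2 => (!₂[y 0, y 1, 0] : E3) := by fun_prop
  have hclopen : IsClopen {y : E2 | ∃ ρ > 0, ∫⁻ q in L ∩ ball (!₂[y 0, y 1, 0] : E3) ρ, ENNReal.ofReal (q 2) ∂μHE[2] < ⊤} := by
    constructor
    · rw [← isOpen_compl_iff, isOpen_iff_mem_nhds]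
      intro y hy
      obtain ⟨R, hR, hprop⟩ := propagate hL hpos hh hloc (p := (!₂[y 0, y 1, 0] : E3)) rfl
      have hn : {y' : E2 | (!₂[y' 0, y' 1, 0] : E3) ∈ ball (!₂[y 0, y 1, 0] : E3) R} ∈ 𝓝 y :=
        (isOpen_ball.preimage hcont).mem_nhds (mem_ball_self hR)
      filter_upwards [hn] with y' hy' hcon
      obtain ⟨ρ, hρ, hfin⟩ := hcon
      refine hy (hprop _ rfl ?_ ρ hρ hfin)
      rw [← dist_eq_norm]
      exact hy'
    · rw [isOpen_iff_mem_nhds]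
      rintro y ⟨ρ, hρ, hfin⟩
      have hn : {y' : E2 | (!₂[y' 0, y' 1, 0] : E3) ∈ ball (!₂[y 0, y 1, 0] : E3) (ρ / 2)} ∈ 𝓝 y :=
        (isOpen_ball.preimage hcont).mem_nhds (mem_ball_self (by positivity))
      filter_upwards [hn] with y' hy'
      refine ⟨ρ / 2, by positivity, (lintegral_mono_set ?_).trans_lt hfin⟩
      refine inter_subset_inter_right _ (ball_subset_ball' ?_)
      have h1 : dist (!₂[y' 0, y' 1, 0] : E3) (!₂[y 0, y 1, 0] : E3) < ρ / 2 := hy'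
      linarith
  have hpt : ∀ z : E3, z 2 = 0 → (!₂[(!₂[z 0, z 1] : E2) 0, (!₂[z 0, z 1] : E2) 1, 0] : E3) = z := by
    intro z hz
    ext i
    fin_cases i
    · rfl
    · rfl
    · exact hz.symm
  have huniv := hclopen.eq_univ ⟨!₂[p 0, p 1], by
    refine ⟨r, hr, ?_⟩
    rw [hpt p hp]
    exact hsum⟩
  have h1 : (!₂[x 0, x 1] : E2) ∈ {y : E2 | ∃ ρ > 0, ∫⁻ q in L ∩ ball (!₂[y 0, y 1, 0] : E3) ρ,
      ENNReal.ofReal (q 2) ∂μHE[2] < ⊤} := by
    rw [huniv]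
    exact mem_univ _
  obtain ⟨ρ, hρ, hfin⟩ := h1
  rw [hpt x hx] at hfin
  exact ⟨ρ, hρ, hfin⟩

/-- PROOF. `IsCompact.induction_on`: locally near `q ∈ K`, `q 2 < h`: `q 2 < 0`: `L` is empty; `q 2 = 0`: `all_points`; `0 < q 2 < h`: `hloc` for a closed ball, `q 2` bounded by `h`. Then `one_planes`. -/
theorem pt_planes {L : Set E3} {N : E3 → E3} (hL : IsMinLam L N) (hpos : ∀ q ∈ L, 0 ≤ q 2) {h : ℝ} (hh : 0 < h)
    (hloc : ∀ K : Set E3, IsCompact K → K ⊆ {q | 0 < q 2 ∧ q 2 < h} → μHE[2] (L ∩ K) < ⊤) {p : E3} (hp : p 2 = 0)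
    {r : ℝ} (hr : 0 < r) (hsum : ∫⁻ q in L ∩ ball p r, ENNReal.ofReal (q 2) ∂μHE[2] < ⊤) :
    ∃ C : Set ℝ, IsClosed C ∧ L ∩ {q | q 2 < h} = {q | q 2 ∈ C ∧ q 2 < h} := by
  refine one_planes hL hpos fun K hK hKh => ?_
  refine hK.induction_on (p := fun K' : Set E3 => ∫⁻ q in L ∩ K', ENNReal.ofReal (q 2) ∂μHE[2] < ⊤) ?_ ?_ ?_ ?_
  · simp
  · intro s t hst ht
    exact (lintegral_mono_set (inter_subset_inter_right _ hst)).trans_lt ht
  · intro s t hs ht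
    rw [inter_union_distrib_left]
    exact (lintegral_union_le _ _ _).trans_lt (ENNReal.add_lt_top.mpr ⟨hs, ht⟩)
  · intro q hq
    have hqh : q 2 < h := hKh hq
    rcases lt_trichotomy (q 2) 0 with h0 | h0 | h0
    · refine ⟨{q' : E3 | q' 2 < 0}, mem_nhdsWithin_of_mem_nhds
        ((isOpen_lt Pt4_z_cont continuous_const).mem_nhds h0), ?_⟩
      have he : L ∩ {q' : E3 | q' 2 < 0} = ∅ := by
        ext q'
        simp only [mem_inter_iff, mem_empty_iff_false, iff_false, not_and]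
        intro h1 h2
        exact absurd (hpos q' h1) (not_le.mpr h2)
      rw [he]
      simp
    · obtain ⟨ρ, hρ, hfin⟩ := all_points hL hpos hh hloc hp hr hsum q h0
      exact ⟨ball q ρ, mem_nhdsWithin_of_mem_nhds (ball_mem_nhds q hρ), hfin⟩
    · obtain ⟨δ, hδ⟩ : ∃ δ, δ = min (q 2) (h - q 2) / 2 := ⟨_, rfl⟩
      have hδ0 : 0 < δ := by
        rw [hδ]
        have := lt_min h0 (sub_pos.mpr hqh)
        linarith
      have hδ1 : δ < q 2 := by
        rw [hδ]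
        have := min_le_left (q 2) (h - q 2)
        linarith
      have hδ2 : δ < h - q 2 := by
        rw [hδ]
        have := min_le_right (q 2) (h - q 2)
        linarith
      have hb : ∀ q' ∈ closedBall q δ, 0 < q' 2 ∧ q' 2 < h := by
        intro q' hq'
        have h1 := Pt4_z_le q' q
        have h2 : dist q' q ≤ δ := hq'
        have h3 := abs_le.mp (h1.trans h2)
        exact ⟨by linarith [h3.1], by linarith [h3.2]⟩
      refine ⟨closedBall q δ, mem_nhdsWithin_of_mem_nhds (closedBall_mem_nhds q hδ0), ?_⟩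
      have h1 := hloc (closedBall q δ) (isCompact_closedBall q δ) hb
      calc ∫⁻ q' in L ∩ closedBall q δ, ENNReal.ofReal (q' 2) ∂μHE[2]
          ≤ ∫⁻ q' in L ∩ closedBall q δ, ENNReal.ofReal h ∂μHE[2] := by
            refine setLIntegral_mono' (hL.closed.measurableSet.inter measurableSet_closedBall) fun q' hq' => ?_
            exact ENNReal.ofReal_le_ofReal (hb q' hq'.2).2.le
        _ = ENNReal.ofReal h * μHE[2] (L ∩ closedBall q δ) := setLIntegral_const _ _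
        _ < ⊤ := ENNReal.mul_lt_top ENNReal.ofReal_lt_top h1

end Pool.Agent.ML
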