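import Pool.Agent.Lib_MP_7d1493.Green

/-!
# Sanity check: closed unions of horizontal planes are minimal laminations
-/

set_option autoImplicit false

open MeasureTheory Measure Set Metric Filter Topology
open scoped ENNReal InnerProductSpace ContDiff

namespace Pool.Agent.ML

private noncomputable abbrev sb : OrthonormalBasis (Fin 3) ℝ E3 := EuclideanSpace.basisFun (Fin 3) ℝ

private theorem sb_inner (i : Fin 3) (v : E3) : ⟪sb i, v⟫_ℝ = v i := by
  simp [sb, EuclideanSpace.inner_single_left]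

private theorem co_sb (p q : E3) : co p sb q = !₂[q 0 - p 0, q 1 - p 1] := by
  unfold co
  rw [sb_inner, sb_inner]
  rfl

private theorem ht_sb (p q : E3) : ht p sb q = q 2 - p 2 := by
  unfold ht
  rw [sb_inner]
  rfl

private theorem pd_zero (i : Fin 2) : pd i (fun _ : E2 => (0 : ℝ)) = fun _ => 0 := by
  funext y
  unfold pd
  simp

private theorem nrm_sb (y : E2) : nrm sb (fun _ => 0) y = ez := by
  unfold nrm W
  rw [pd_zero, pd_zero]
  simp [sb, ez]

/-- a horizontal plane in an open set is a minimal surface -/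
theorem isMinSurf_plane {U : Set E3} (hU : IsOpen U) (v : ℝ) : IsMinSurf U {q | q ∈ U ∧ q 2 = v} fun _ => ez := by
  have hz : Continuous fun q : E3 => q 2 := by fun_prop
  refine ⟨fun q hq => hq.1, ⟨{q | q 2 = v}, isClosed_eq hz continuous_const, ?_⟩, ?_⟩
  · ext q
    exact and_comm
  · rintro p ⟨hpU, hpv⟩
    -- a cylinder in `U`
    obtain ⟨ε, hε, hεU⟩ := Metric.isOpen_iff.mp hU p hpU
    have hcyl : cyl p sb (ε / 2) ⊆ U := by
      rintro q ⟨h1, h2⟩
      apply hεU
      rw [mem_ball, dist_eq_norm]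
      rw [ht_sb] at h2
      rw [co_sb, mem_ball_zero_iff] at h1
      have h3 : ‖q - p‖ ^ 2 < ε ^ 2 := by
        have h4 : (q 0 - p 0) ^ 2 + (q 1 - p 1) ^ 2 < (ε / 2) ^ 2 := by
          have h5 : ‖(!₂[q 0 - p 0, q 1 - p 1] : E2)‖ ^ 2 < (ε / 2) ^ 2 :=
            pow_lt_pow_left₀ h1 (norm_nonneg _) (by norm_num)
          rw [EuclideanSpace.real_norm_sq_eq, Fin.sum_univ_two] at h5
          exact h5
        have h6 : (q 2 - p 2) ^ 2 < (ε / 2) ^ 2 := by
          rw [← sq_abs]
          exact pow_lt_pow_left₀ h2 (abs_nonneg _) (by norm_num)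
        rw [EuclideanSpace.real_norm_sq_eq, Fin.sum_univ_three]
        have h7 : (q - p) 0 = q 0 - p 0 := rfl
        have h8 : (q - p) 1 = q 1 - p 1 := rfl
        have h9 : (q - p) 2 = q 2 - p 2 := rfl
        rw [h7, h8, h9]
        nlinarith
      exact lt_of_pow_lt_pow_left₀ 2 hε.le h3
    refine ⟨sb, ε / 2, fun _ => 0, by positivity, contDiffOn_const, ?_, hcyl, ?_, ?_⟩
    · intro y _
      refine ⟨by simpa using hε, ?_⟩
      unfold MSE
      simp only [pd_zero]
      ring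
    · intro q hq
      rw [ht_sb]
      constructor
      · rintro ⟨-, h1⟩
        rw [h1, hpv, sub_self]
      · intro h1
        refine ⟨hcyl hq, ?_⟩
        linarith
    · intro q _
      left
      rw [nrm_sb]

/-- the union of the horizontal planes with the heights in a closed set is a minimal lamination -/
theorem isMinLam_planes {C : Set ℝ} (hC : IsClosed C) : IsMinLam {q | q 2 ∈ C} fun _ => ez := by
  have hz : Continuous fun q : E3 => q 2 := by fun_prop
  refine ⟨hC.preimage hz, fun p => ?_⟩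
  have hcc : Continuous fun q : E3 => (!₂[q 0 - p 0, q 1 - p 1] : E2) := by fun_prop
  refine ⟨{q | (!₂[q 0 - p 0, q 1 - p 1] : E2) ∈ ball (0 : E2) 1 ∧ q 2 - p 2 + 1 / 2 ∈ Ioo (0 : ℝ) 1}, ?_, ?_, ?_⟩
  · exact (isOpen_ball.preimage hcc).inter (isOpen_Ioo.preimage (by fun_prop))
  · constructor
    · have h1 : (!₂[p 0 - p 0, p 1 - p 1] : E2) = 0 := by
        ext i
        fin_cases i <;> simp
      rw [h1]
      exact mem_ball_self one_pos
    · show p 2 - p 2 + 1 / 2 ∈ Ioo (0 : ℝ) 1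
      norm_num
  · let U : Set E3 := {q | (!₂[q 0 - p 0, q 1 - p 1] : E2) ∈ ball (0 : E2) 1 ∧ q 2 - p 2 + 1 / 2 ∈ Ioo (0 : ℝ) 1}
    have hUo : IsOpen U := (isOpen_ball.preimage hcc).inter (isOpen_Ioo.preimage (by fun_prop))
    have hinv : ∀ x : E2 × ℝ, x ∈ (ball (0 : E2) 1 ×ˢ Ioo (0 : ℝ) 1 : Set (E2 × ℝ)) →
        (!₂[x.1 0 + p 0, x.1 1 + p 1, x.2 + p 2 - 1 / 2] : E3) ∈ U := by
      rintro x ⟨h1, h2⟩
      constructor
      · have h3 : (!₂[(!₂[x.1 0 + p 0, x.1 1 + p 1, x.2 + p 2 - 1 / 2] : E3) 0 - p 0,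
            (!₂[x.1 0 + p 0, x.1 1 + p 1, x.2 + p 2 - 1 / 2] : E3) 1 - p 1] : E2) = x.1 := by
          ext i
          fin_cases i <;> simp
        rw [h3]
        exact h1
      · have h3 : (!₂[x.1 0 + p 0, x.1 1 + p 1, x.2 + p 2 - 1 / 2] : E3) 2 - p 2 + 1 / 2 = x.2 := by
          show x.2 + p 2 - 1 / 2 - p 2 + 1 / 2 = x.2
          ring
        rw [h3]
        exact h2
    let Φ : U ≃ₜ (ball (0 : E2) 1 ×ˢ Ioo (0 : ℝ) 1 : Set (E2 × ℝ)) :=
      { toFun := fun q => ⟨((!₂[(q : E3) 0 - p 0, (q : E3) 1 - p 1] : E2), (q : E3) 2 - p 2 + 1 / 2), q.2⟩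
        invFun := fun x => ⟨(!₂[(x : E2 × ℝ).1 0 + p 0, (x : E2 × ℝ).1 1 + p 1, (x : E2 × ℝ).2 + p 2 - 1 / 2] : E3),
          hinv _ x.2⟩
        left_inv := by
          intro q
          apply Subtype.ext
          ext i
          fin_cases i
          · simp
          · simp
          · show (q : E3) 2 - p 2 + 1 / 2 + p 2 - 1 / 2 = (q : E3) 2
            ring
        right_inv := by
          intro x
          apply Subtype.ext
          apply Prod.ext
          · ext i
            fin_cases i <;> simp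
          · show (x : E2 × ℝ).2 + p 2 - 1 / 2 - p 2 + 1 / 2 = (x : E2 × ℝ).2
            ring
        continuous_toFun := by
          refine Continuous.subtype_mk ?_ _
          exact (hcc.comp continuous_subtype_val).prodMk (by fun_prop)
        continuous_invFun := by
          refine Continuous.subtype_mk ?_ _
          fun_prop }
    refine ⟨Φ, {t | t + p 2 - 1 / 2 ∈ C} ∩ Ioo 0 1, ⟨{t | t + p 2 - 1 / 2 ∈ C}, ?_, rfl⟩, ?_, ?_⟩
    · exact hC.preimage (by fun_prop)
    · intro q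
      show (q : E3) 2 ∈ C ↔ (q : E3) 2 - p 2 + 1 / 2 ∈ {t | t + p 2 - 1 / 2 ∈ C} ∩ Ioo (0 : ℝ) 1
      have h1 : (q : E3) 2 - p 2 + 1 / 2 + p 2 - 1 / 2 = (q : E3) 2 := by ring
      constructor
      · intro h
        refine ⟨?_, q.2.2⟩
        show (q : E3) 2 - p 2 + 1 / 2 + p 2 - 1 / 2 ∈ C
        rw [h1]
        exact h
      · rintro ⟨h, -⟩
        have h2 : (q : E3) 2 - p 2 + 1 / 2 + p 2 - 1 / 2 ∈ C := h
        rw [h1] at h2
        exact h2
    · intro t _
      have h1 : {q : E3 | ∃ h : q ∈ U, (Φ ⟨q, h⟩).1.2 = t} = {q | q ∈ U ∧ q 2 = t + p 2 - 1 / 2} := by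
        ext q
        constructor
        · rintro ⟨h, h2⟩
          refine ⟨h, ?_⟩
          have h3 : q 2 - p 2 + 1 / 2 = t := h2
          linarith
        · rintro ⟨h, h2⟩
          refine ⟨h, ?_⟩
          show q 2 - p 2 + 1 / 2 = t
          rw [h2]
          ring
      have h2 := isMinSurf_plane hUo (t + p 2 - 1 / 2)
      rw [← h1] at h2
      exact h2

end Pool.Agent.ML
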