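import Pool.Agent.Lib_MP_7d1493.Cube

/-!
# The test function for a slab
-/

set_option autoImplicit false

open MeasureTheory Measure Set Metric Filter Topology
open scoped ENNReal InnerProductSpace ContDiff

namespace Pool.Agent.ML

/-- the square of the distance to the vertical axis -/
noncomputable def hs (q : E3) : ℝ := q 0 ^ 2 + q 1 ^ 2

/-- the function of the slab -/
noncomputable def GA (c : ℝ) (q : E3) : ℝ := c - F (hs q) + q 2 ^ 2

/-- its gradient -/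
noncomputable def YA (q : E3) : E3 := !₂[-(2 * F1 (hs q) * q 0), -(2 * F1 (hs q) * q 1), 2 * q 2]

private theorem hs_nonneg (q : E3) : 0 ≤ hs q := by
  unfold hs
  positivity

private theorem inner3 (a b : E3) : ⟪a, b⟫_ℝ = a 0 * b 0 + a 1 * b 1 + a 2 * b 2 := by
  rw [PiLp.inner_apply, Fin.sum_univ_three]
  simp only [RCLike.inner_apply, conj_trivial]
  ring

private theorem hasFDerivAt_coord (i : Fin 3) (q : E3) :
    HasFDerivAt (fun q : E3 => q i) (EuclideanSpace.proj (𝕜 := ℝ) i : E3 →L[ℝ] ℝ) q :=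
  (EuclideanSpace.proj (𝕜 := ℝ) i : E3 →L[ℝ] ℝ).hasFDerivAt

private theorem hasFDerivAt_hs (q : E3) :
    HasFDerivAt hs ((2 * q 0) • (EuclideanSpace.proj (𝕜 := ℝ) (0 : Fin 3) : E3 →L[ℝ] ℝ)
      + (2 * q 1) • (EuclideanSpace.proj (𝕜 := ℝ) (1 : Fin 3) : E3 →L[ℝ] ℝ)) q := by
  have h0 := (hasFDerivAt_coord 0 q).pow 2
  have h1 := (hasFDerivAt_coord 1 q).pow 2
  refine HasFDerivAt.congr_fderiv (f := hs) (h0.add h1) ?_
  ext v
  simp

private theorem contDiff_hs : ContDiff ℝ ∞ hs := by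
  unfold hs
  fun_prop

private theorem contDiff_F1hs : ContDiff ℝ ∞ fun q : E3 => F1 (hs q) := by
  rw [contDiff_iff_contDiffAt]
  intro q
  exact (contDiffAt_F (hs_nonneg q)).2.1.comp q contDiff_hs.contDiffAt

private theorem contDiff_YA : ContDiff ℝ ∞ YA := by
  rw [contDiff_euclidean]
  intro i
  fin_cases i
  · change ContDiff ℝ ∞ fun q : E3 => -(2 * F1 (hs q) * q 0)
    have := contDiff_F1hs
    fun_prop
  · change ContDiff ℝ ∞ fun q : E3 => -(2 * F1 (hs q) * q 1)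
    have := contDiff_F1hs
    fun_prop
  · change ContDiff ℝ ∞ fun q : E3 => 2 * q 2
    fun_prop

/-- PIECE [SH-5c] (this file, about 200 lines). -/
theorem TP_GA (c : ℝ) : TP (GA c) YA := by
  refine ⟨fun q => ?_, contDiff_YA.of_le (by exact_mod_cast le_top)⟩
  have h1 := (hasDerivAt_F (hs_nonneg q)).comp_hasFDerivAt q (hasFDerivAt_hs q)
  have h2 := (hasFDerivAt_coord 2 q).pow 2
  have h3 := (h1.const_sub c).add h2
  refine h3.congr_fderiv ?_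
  ext v
  rw [innerSL_apply_apply, inner3]
  simp [YA]
  ring

private theorem fderiv_YA (q v : E3) :
    (fderiv ℝ YA q v) 0 = -(4 * F2 (hs q) * (q 0 * v 0 + q 1 * v 1) * q 0 + 2 * F1 (hs q) * v 0) ∧
    (fderiv ℝ YA q v) 1 = -(4 * F2 (hs q) * (q 0 * v 0 + q 1 * v 1) * q 1 + 2 * F1 (hs q) * v 1) ∧
    (fderiv ℝ YA q v) 2 = 2 * v 2 := by
  have hd : HasFDerivAt YA (fderiv ℝ YA q) q :=
    (contDiff_YA.differentiable (by simp) q).hasFDerivAt
  have hc : ∀ i : Fin 3, HasFDerivAt (fun q => YA q i)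
      ((EuclideanSpace.proj (𝕜 := ℝ) i : E3 →L[ℝ] ℝ) ∘L fderiv ℝ YA q) q := fun i =>
    (EuclideanSpace.proj (𝕜 := ℝ) i : E3 →L[ℝ] ℝ).hasFDerivAt.comp q hd
  have h1 := (hasDerivAt_F1 (hs_nonneg q)).comp_hasFDerivAt q (hasFDerivAt_hs q)
  have hg : ∀ i : Fin 3, HasFDerivAt (fun q : E3 => -(2 * F1 (hs q) * q i))
      (-((2 * F1 (hs q)) • (EuclideanSpace.proj (𝕜 := ℝ) i : E3 →L[ℝ] ℝ)
        + q i • ((2 : ℝ) • (F2 (hs q) • ((2 * q 0) • (EuclideanSpace.proj (𝕜 := ℝ) (0 : Fin 3) : E3 →L[ℝ] ℝ)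
      + (2 * q 1) • (EuclideanSpace.proj (𝕜 := ℝ) (1 : Fin 3) : E3 →L[ℝ] ℝ)))))) q := by
    intro i
    exact ((h1.const_mul 2).mul (hasFDerivAt_coord i q)).neg
  refine ⟨?_, ?_, ?_⟩
  · have h2 := (hc 0).unique (hg 0)
    have h3 := congrArg (fun f : E3 →L[ℝ] ℝ => f v) h2
    have h4 : ((EuclideanSpace.proj (𝕜 := ℝ) (0 : Fin 3) : E3 →L[ℝ] ℝ) ∘L fderiv ℝ YA q) v
      = (fderiv ℝ YA q v) 0 := rfl
    rw [← h4]
    refine h3.trans ?_
    simp
    ring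
  · have h2 := (hc 1).unique (hg 1)
    have h3 := congrArg (fun f : E3 →L[ℝ] ℝ => f v) h2
    have h4 : ((EuclideanSpace.proj (𝕜 := ℝ) (1 : Fin 3) : E3 →L[ℝ] ℝ) ∘L fderiv ℝ YA q) v
      = (fderiv ℝ YA q v) 1 := rfl
    rw [← h4]
    refine h3.trans ?_
    simp
    ring
  · have h5 : HasFDerivAt (fun q : E3 => YA q 2)
        ((2 : ℝ) • (EuclideanSpace.proj (𝕜 := ℝ) (2 : Fin 3) : E3 →L[ℝ] ℝ)) q :=
      (hasFDerivAt_coord 2 q).const_mul 2
    have h2 := (hc 2).unique h5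
    have h3 := congrArg (fun f : E3 →L[ℝ] ℝ => f v) h2
    exact h3

/-- PROOF. `fderiv YA q v = - 2 F1 v_h - 4 F2 (x · v_h) x + 2 v_2 ez` (`x = (q 0, q 1, 0)`, `v_h = (v 0, v 1, 0)`). The trace is `- 4 F1 - 4 s F2 + 2 + 2 F1 (n 0 ^ 2 + n 1 ^ 2) + 4 F2 (x · n) ^ 2 - 2 (n 2) ^ 2`
with `n 0 ^ 2 + n 1 ^ 2 = 1 - (n 2) ^ 2 =: m`, `(x · n) ^ 2 ≤ s m`: at least `- 4 (F1 + s F2) + 2 m - 4 s |F2| m ≥ - 4 (F1 + s F2) ≥ - 4 [s ≤ 3]` (`F1_facts`, `F1_add`). -/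
theorem trN_YA (q n : E3) (hn : ‖n‖ = 1) : -(if hs q ≤ 3 then 4 else 0) ≤ trN (fderiv ℝ YA q) n := by
  have hn2 : n 0 * n 0 + n 1 * n 1 + n 2 * n 2 = 1 := by
    rw [← inner3, real_inner_self_eq_norm_sq, hn, one_pow]
  obtain ⟨s, hsd⟩ : ∃ s, s = hs q := ⟨_, rfl⟩
  have hs0 : 0 ≤ s := by rw [hsd]; exact hs_nonneg q
  obtain ⟨f1p, _, f2n, _, f2s⟩ := F1_facts hs0
  have hadd := F1_add hs0
  have htr : trN (fderiv ℝ YA q) n = -4 * (F1 s + s * F2 s) + 2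
      + 4 * F2 s * (q 0 * n 0 + q 1 * n 1) ^ 2 + 2 * F1 s * (n 0 * n 0 + n 1 * n 1)
      - 2 * (n 2 * n 2) := by
    rw [trN_eq_sum (EuclideanSpace.basisFun (Fin 3) ℝ), Fin.sum_univ_three, inner3, inner3, inner3,
      inner3]
    obtain ⟨a0, _, _⟩ := fderiv_YA q (EuclideanSpace.basisFun (Fin 3) ℝ 0)
    obtain ⟨_, a1, _⟩ := fderiv_YA q (EuclideanSpace.basisFun (Fin 3) ℝ 1)
    obtain ⟨_, _, a2⟩ := fderiv_YA q (EuclideanSpace.basisFun (Fin 3) ℝ 2)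
    obtain ⟨c0, c1, c2⟩ := fderiv_YA q n
    rw [c0, c1, c2]
    simp only [EuclideanSpace.basisFun_apply] at a0 a1 a2 ⊢
    simp at a0 a1 a2
    simp [a0, a1, a2]
    rw [← hsd]
    have hq : s = q 0 ^ 2 + q 1 ^ 2 := hsd
    rw [hq]
    ring
  rw [htr]
  have hm0 : 0 ≤ n 0 * n 0 + n 1 * n 1 := add_nonneg (mul_self_nonneg _) (mul_self_nonneg _)
  have hcs : (q 0 * n 0 + q 1 * n 1) ^ 2 ≤ s * (n 0 * n 0 + n 1 * n 1) := by
    have hq : s = q 0 ^ 2 + q 1 ^ 2 := hsd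
    rw [hq]
    nlinarith [sq_nonneg (q 0 * n 1 - q 1 * n 0)]
  have h1 : s * |F2 s| = -(s * F2 s) := by
    rw [abs_of_nonpos f2n]
    ring
  rw [h1] at f2s
  have h2 : -(2 * (n 0 * n 0 + n 1 * n 1)) ≤ 4 * F2 s * (q 0 * n 0 + q 1 * n 1) ^ 2 := by
    have h3 : F2 s * (s * (n 0 * n 0 + n 1 * n 1)) ≤ F2 s * (q 0 * n 0 + q 1 * n 1) ^ 2 :=
      mul_le_mul_of_nonpos_left hcs f2n
    nlinarith
  have h4 : 0 ≤ F1 s * (n 0 * n 0 + n 1 * n 1) := mul_nonneg f1p.le hm0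
  rw [← hsd]
  split_ifs at hadd ⊢ <;> nlinarith

/-- PROOF. `b = κ (q 2) (max (GA c q) 0) ^ 3` (`TP.cube`, `TP.cutoff`, `exists_cutoff`). `GA c q ≤ 0` if `|q 2| ≤ 4` and `F (hs q) ≥ c + 16`; so `b` has compact support (`F_facts`: `hs` is bounded on the support).
For `0 ≤ q 2 ≤ 1`: the trace is at least `3 (max (GA c q) 0) ^ 2 (- 4 [s ≤ 3])` and `max (GA c q) 0 ≤ c + 1`. -/
theorem slab_test (c : ℝ) (hc : 0 ≤ c) : ∃ (b : E3 → ℝ) (Y : E3 → E3), TP b Y ∧ HasCompactSupport b ∧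
    (∀ q : E3, 0 ≤ q 2 → q 2 ≤ 1 → b q = (max (GA c q) 0) ^ 3) ∧
    ∀ q n : E3, 0 ≤ q 2 → q 2 ≤ 1 → ‖n‖ = 1 → -(if hs q ≤ 3 then 12 * (c + 1) ^ 2 else 0) ≤ trN (fderiv ℝ Y q) n := by
  obtain ⟨κ, hκ, hκ1, hκ0⟩ := exists_cutoff
  obtain ⟨hT, htr⟩ := (TP_GA c).cube
  obtain ⟨Y', hY', hY't⟩ := hT.cutoff hκ hκ1
  obtain ⟨hF0, hFm, hFt⟩ := F_facts
  refine ⟨_, Y', hY', ?_, ?_, ?_⟩
  · obtain ⟨R, hR⟩ := (hFt.eventually (eventually_ge_atTop (c + 16))).exists_forall_of_atTop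
    have hsub : Function.support (fun q : E3 => κ (q 2) * (max (GA c q) 0) ^ 3)
        ⊆ closedBall (0 : E3) (√(|R| + 16)) := by
      intro q hq
      rw [Function.mem_support] at hq
      have h1 : κ (q 2) ≠ 0 := left_ne_zero_of_mul hq
      have h2 : (max (GA c q) 0) ^ 3 ≠ 0 := right_ne_zero_of_mul hq
      have h3 : -3 < q 2 ∧ q 2 < 4 := by
        by_contra h
        refine h1 (hκ0 _ ?_)
        by_contra h'
        push Not at h'
        exact h h'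
      have h4 : 0 < GA c q := by
        by_contra h
        push Not at h
        rw [max_eq_right h] at h2
        exact h2 (by norm_num)
      have h5 : q 2 ^ 2 ≤ 16 := by nlinarith [h3.1, h3.2]
      have h6 : F (hs q) < c + 16 := by
        unfold GA at h4
        linarith
      have h7 : hs q ≤ |R| := by
        by_contra h
        push Not at h
        have := hR (hs q) ((le_abs_self R).trans h.le)
        linarith
      rw [mem_closedBall_zero_iff]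
      refine Real.le_sqrt_of_sq_le ?_
      rw [← real_inner_self_eq_norm_sq, inner3]
      unfold hs at h7
      nlinarith
    exact HasCompactSupport.of_support_subset_isCompact (isCompact_closedBall _ _) hsub
  · intro q h0 h1
    dsimp only
    rw [hκ1 _ (by linarith) (by linarith), one_mul]
  · intro q n h0 h1 hn
    rw [hY't q n h0 h1]
    refine le_trans ?_ (htr q n hn)
    have h2 := trN_YA q n hn
    have h3 : 0 ≤ max (GA c q) 0 := le_max_right _ _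
    have h4 : max (GA c q) 0 ≤ c + 1 := by
      refine max_le ?_ (by linarith)
      unfold GA
      have := hF0 _ (hs_nonneg q)
      nlinarith
    have h5 : (max (GA c q) 0) ^ 2 ≤ (c + 1) ^ 2 := pow_le_pow_left₀ h3 h4 2
    have h6 : 0 ≤ (max (GA c q) 0) ^ 2 := sq_nonneg _
    split_ifs at h2 ⊢
    · nlinarith
    · nlinarith

end Pool.Agent.ML
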