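import Pool.Agent.Lib_MP_7d1493.Slab1
import Pool.Agent.Lib_MP_7d1493.Lam2
import Pool.Agent.Lib_MP_7d1493.End2

/-!
# Laminations of a slab
-/

set_option autoImplicit false

open MeasureTheory Measure Set Metric Filter Topology
open scoped ENNReal InnerProductSpace ContDiff

namespace Pool.Agent.ML

private noncomputable def sp (z : ℝ) : ℝ := Real.sin (Real.pi * z)

private lemma sp_cont : Continuous sp := by
  unfold sp
  fun_prop

private lemma sp_D2 : D2 sp (fun z => Real.pi * Real.cos (Real.pi * z)) (fun z => -(Real.pi ^ 2 * sp z)) := by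
  refine ⟨?_, ?_, by unfold sp; fun_prop⟩
  · intro z
    have h1 : HasDerivAt (fun z : ℝ => Real.pi * z) Real.pi z := by
      simpa using (hasDerivAt_id z).const_mul Real.pi
    have h2 := (Real.hasDerivAt_sin (Real.pi * z)).comp z h1
    exact h2.congr_deriv (by ring)
  · intro z
    have h1 : HasDerivAt (fun z : ℝ => Real.pi * z) Real.pi z := by
      simpa using (hasDerivAt_id z).const_mul Real.pi
    have h2 := ((Real.hasDerivAt_cos (Real.pi * z)).comp z h1).const_mul Real.pi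
    exact h2.congr_deriv (by unfold sp; ring)

private lemma sp_nonneg {z : ℝ} (h0 : 0 ≤ z) (h1 : z ≤ 1) : 0 ≤ sp z := by
  unfold sp
  have hpi := Real.pi_pos
  refine Real.sin_nonneg_of_nonneg_of_le_pi (by positivity) ?_
  nlinarith

private lemma sp_pos {z : ℝ} (h0 : 0 < z) (h1 : z < 1) : 0 < sp z := by
  unfold sp
  have hpi := Real.pi_pos
  refine Real.sin_pos_of_pos_of_lt_pi (by positivity) ?_
  nlinarith

private lemma sp_le {z : ℝ} (h0 : 0 ≤ z) (h1 : z ≤ 1) : sp z ≤ 2 * Real.pi * (z * (1 - z)) := by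
  unfold sp
  have hpi := Real.pi_pos
  rcases le_total z (1 / 2) with h | h
  · have h2 : Real.sin (Real.pi * z) ≤ Real.pi * z := Real.sin_le (by positivity)
    nlinarith [mul_nonneg (mul_nonneg hpi.le h0) (show 0 ≤ 1 - 2 * z by linarith)]
  · have h2 : Real.sin (Real.pi * z) = Real.sin (Real.pi * (1 - z)) := by
      rw [show Real.pi * z = Real.pi - Real.pi * (1 - z) by ring, Real.sin_pi_sub]
    have h3 : Real.sin (Real.pi * (1 - z)) ≤ Real.pi * (1 - z) :=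
      Real.sin_le (mul_nonneg hpi.le (by linarith))
    rw [h2]
    nlinarith [mul_nonneg (mul_nonneg hpi.le (show 0 ≤ 1 - z by linarith)) (show 0 ≤ 2 * z - 1 by linarith)]

private lemma hs_cont : Continuous hs := by
  unfold hs
  fun_prop

private lemma hs_le (q : E3) : hs q ≤ ‖q‖ ^ 2 := by
  rw [EuclideanSpace.real_norm_sq_eq, Fin.sum_univ_three]
  unfold hs
  nlinarith [sq_nonneg (q 2)]

private lemma norm_N {L : Set E3} {N : E3 → E3} (hL : IsMinLam L N) {q : E3} (hq : q ∈ L) : ‖N q‖ = 1 := by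
  obtain ⟨e, r, u, hr, _, h2, h3⟩ := exists_patch hL hq
  obtain ⟨_, _, h4⟩ := h2 0 (mem_ball_self hr)
  have h5 : gr q e u 0 = q := by
    unfold gr pt
    rw [h3]
    simp
  rw [h5] at h4
  rcases h4 with h | h
  · rw [h, norm_nrm]
  · rw [h, norm_neg, norm_nrm]

/-- the integral of `sin (π z)` over the part of `L` in a cylinder is finite -/
private lemma fin_hs {L : Set E3} (hc : IsClosed L) (hsl : ∀ q ∈ L, 0 ≤ q 2 ∧ q 2 ≤ 1)
    (hint : ∀ R : ℝ, ∫⁻ q in L ∩ {q | hs q < R}, ENNReal.ofReal (q 2 * (1 - q 2)) ∂μHE[2] < ⊤) (R : ℝ) :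
    ∫⁻ q in L ∩ {q | hs q < R}, ENNReal.ofReal (sp (q 2)) ∂μHE[2] < ⊤ := by
  have hm : MeasurableSet (L ∩ {q | hs q < R}) :=
    hc.measurableSet.inter (isOpen_lt hs_cont continuous_const).measurableSet
  calc ∫⁻ q in L ∩ {q | hs q < R}, ENNReal.ofReal (sp (q 2)) ∂μHE[2]
      ≤ ∫⁻ q in L ∩ {q | hs q < R}, ENNReal.ofReal (2 * Real.pi) * ENNReal.ofReal (q 2 * (1 - q 2)) ∂μHE[2] := by
        apply setLIntegral_mono' hm
        intro q hq
        rw [← ENNReal.ofReal_mul (by positivity)]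
        exact ENNReal.ofReal_le_ofReal (sp_le (hsl q hq.1).1 (hsl q hq.1).2)
    _ = ENNReal.ofReal (2 * Real.pi) * ∫⁻ q in L ∩ {q | hs q < R}, ENNReal.ofReal (q 2 * (1 - q 2)) ∂μHE[2] :=
        lintegral_const_mul' _ _ ENNReal.ofReal_ne_top
    _ < ⊤ := ENNReal.mul_lt_top ENNReal.ofReal_lt_top (hint R)

private lemma fin_compact {L : Set E3} (hc : IsClosed L) (hsl : ∀ q ∈ L, 0 ≤ q 2 ∧ q 2 ≤ 1)
    (hint : ∀ R : ℝ, ∫⁻ q in L ∩ {q | hs q < R}, ENNReal.ofReal (q 2 * (1 - q 2)) ∂μHE[2] < ⊤) {K : Set E3}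
    (hK : IsCompact K) : ∫⁻ q in L ∩ K, ENNReal.ofReal (sp (q 2)) ∂μHE[2] < ⊤ := by
  obtain ⟨R, hR⟩ := hK.isBounded.exists_norm_le
  refine (lintegral_mono_set ?_).trans_lt (fin_hs hc hsl hint (R ^ 2 + 1))
  intro q hq
  refine ⟨hq.1, ?_⟩
  have h1 := hR q hq.2
  have h2 := hs_le q
  have h3 : ‖q‖ ^ 2 ≤ R ^ 2 := pow_le_pow_left₀ (norm_nonneg q) h1 2
  show hs q < R ^ 2 + 1
  linarith

private lemma int_w1 {L : Set E3} (hc : IsClosed L) (hsl : ∀ q ∈ L, 0 ≤ q 2 ∧ q 2 ≤ 1)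
    (hint : ∀ R : ℝ, ∫⁻ q in L ∩ {q | hs q < R}, ENNReal.ofReal (q 2 * (1 - q 2)) ∂μHE[2] < ⊤) :
    IntegrableOn ({q : E3 | hs q ≤ 3}.indicator (fun q => sp (q 2))) L μHE[2] := by
  have hS : MeasurableSet {q : E3 | hs q ≤ 3} := (isClosed_le hs_cont continuous_const).measurableSet
  show Integrable _ (μHE[2].restrict L)
  rw [integrable_indicator_iff hS]
  show Integrable _ ((μHE[2].restrict L).restrict {q | hs q ≤ 3})
  rw [Measure.restrict_restrict hS]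
  have hcont : Continuous fun q : E3 => sp (q 2) := sp_cont.comp (by fun_prop)
  refine ⟨hcont.aestronglyMeasurable, ?_⟩
  show ∫⁻ q in {q | hs q ≤ 3} ∩ L, ‖sp (q 2)‖ₑ ∂μHE[2] < ⊤
  calc ∫⁻ q in {q | hs q ≤ 3} ∩ L, ‖sp (q 2)‖ₑ ∂μHE[2]
      = ∫⁻ q in {q | hs q ≤ 3} ∩ L, ENNReal.ofReal (sp (q 2)) ∂μHE[2] := by
        apply setLIntegral_congr_fun (hS.inter hc.measurableSet)
        intro q hq
        show ‖sp (q 2)‖ₑ = ENNReal.ofReal (sp (q 2))
        rw [Real.enorm_of_nonneg (sp_nonneg (hsl q hq.2).1 (hsl q hq.2).2)]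
    _ ≤ ∫⁻ q in L ∩ {q | hs q < 4}, ENNReal.ofReal (sp (q 2)) ∂μHE[2] :=
        lintegral_mono_set fun q hq =>
          ⟨hq.2, lt_of_le_of_lt (show hs q ≤ 3 from hq.1) (show (3 : ℝ) < 4 by norm_num)⟩
    _ < ⊤ := fin_hs hc hsl hint 4

/-- the energy estimate with the test function of `slab_test` -/
private lemma energy_bound {L : Set E3} {N : E3 → E3} (hL : IsMinLam L N) (hsl : ∀ q ∈ L, 0 ≤ q 2 ∧ q 2 ≤ 1)
    (hint : ∀ R : ℝ, ∫⁻ q in L ∩ {q | hs q < R}, ENNReal.ofReal (q 2 * (1 - q 2)) ∂μHE[2] < ⊤)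
    {c ρ : ℝ} (hc : 0 ≤ c) (hρ : F ρ ≤ c) :
    ENNReal.ofReal (Real.pi ^ 2 * (c - F ρ) ^ 3) *
      ∫⁻ q in L ∩ {q | hs q ≤ ρ}, ENNReal.ofReal (sp (q 2) * (1 - N q 2 ^ 2)) ∂μHE[2] ≤
    ENNReal.ofReal (12 * (c + 1) ^ 2 * ∫ q in L, {q : E3 | hs q ≤ 3}.indicator (fun q => sp (q 2)) q ∂μHE[2]) := by
  set w1 : E3 → ℝ := {q : E3 | hs q ≤ 3}.indicator (fun q => sp (q 2)) with hw1
  have hLm := hL.closed.measurableSet
  have hw := int_w1 hL.closed hsl hint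
  obtain ⟨b, Y, hb, hcs, hbv, htr⟩ := slab_test c hc
  have hsp0 : ∀ q ∈ L, 0 ≤ sp (q 2) := fun q hq => sp_nonneg (hsl q hq).1 (hsl q hq).2
  obtain ⟨hi, h0⟩ := lam_green (M := Real.pi ^ 2) hL sp_D2 hsp0
    (fun q hq => by
      rw [abs_neg, abs_of_nonneg (mul_nonneg (by positivity) (hsp0 q hq))])
    (fun K hK => fin_compact hL.closed hsl hint hK) hb hcs
  set f := itg N sp (fun z => -(Real.pi ^ 2 * sp z)) b Y with hf
  have hg : IntegrableOn (fun q => f q + 12 * (c + 1) ^ 2 * w1 q) L μHE[2] := hi.add (hw.const_mul _)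
  have hgi : ∫ q in L, (f q + 12 * (c + 1) ^ 2 * w1 q) ∂μHE[2] = 12 * (c + 1) ^ 2 * ∫ q in L, w1 q ∂μHE[2] := by
    rw [integral_add hi (hw.const_mul _), h0, integral_const_mul, zero_add]
  -- pointwise facts
  have hN : ∀ q ∈ L, 0 ≤ 1 - N q 2 ^ 2 := by
    intro q hq
    have h1 : |N q 2| ≤ 1 := by
      rw [← norm_N hL hq, ← Real.norm_eq_abs]
      exact PiLp.norm_apply_le (N q) 2
    have := abs_le.mp h1
    nlinarith
  have hb0 : ∀ q ∈ L, 0 ≤ b q := by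
    intro q hq
    rw [hbv q (hsl q hq).1 (hsl q hq).2]
    positivity
  have hpt : ∀ q ∈ L, Real.pi ^ 2 * (b q * (sp (q 2) * (1 - N q 2 ^ 2))) ≤ f q + 12 * (c + 1) ^ 2 * w1 q := by
    intro q hq
    have h1 := htr q (N q) (hsl q hq).1 (hsl q hq).2 (norm_N hL hq)
    have h2 := mul_le_mul_of_nonneg_left h1 (hsp0 q hq)
    have h3 : 12 * (c + 1) ^ 2 * w1 q = sp (q 2) * (if hs q ≤ 3 then 12 * (c + 1) ^ 2 else 0) := by
      rw [hw1]
      by_cases h : hs q ≤ 3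
      · rw [indicator_of_mem (show q ∈ {q : E3 | hs q ≤ 3} from h), if_pos h]
        ring
      · rw [indicator_of_notMem (show q ∉ {q : E3 | hs q ≤ 3} from h), if_neg h]
        ring
    rw [h3, hf]
    unfold itg
    linarith
  have hnn : ∀ q ∈ L, 0 ≤ Real.pi ^ 2 * (b q * (sp (q 2) * (1 - N q 2 ^ 2))) := fun q hq =>
    mul_nonneg (by positivity) (mul_nonneg (hb0 q hq) (mul_nonneg (hsp0 q hq) (hN q hq)))
  have hup : ∫⁻ q in L, ENNReal.ofReal (Real.pi ^ 2 * (b q * (sp (q 2) * (1 - N q 2 ^ 2)))) ∂μHE[2] ≤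
      ENNReal.ofReal (12 * (c + 1) ^ 2 * ∫ q in L, w1 q ∂μHE[2]) := by
    rw [← hgi, ofReal_integral_eq_lintegral_ofReal hg]
    · apply setLIntegral_mono' hLm
      intro q hq
      exact ENNReal.ofReal_le_ofReal (hpt q hq)
    · rw [Filter.EventuallyLE, ae_restrict_iff' hLm]
      exact ae_of_all _ fun q hq => (hnn q hq).trans (hpt q hq)
  refine le_trans ?_ hup
  have hcρ : 0 ≤ c - F ρ := by linarith
  have hm : MeasurableSet (L ∩ {q : E3 | hs q ≤ ρ}) :=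
    hLm.inter (isClosed_le hs_cont continuous_const).measurableSet
  calc ENNReal.ofReal (Real.pi ^ 2 * (c - F ρ) ^ 3) *
        ∫⁻ q in L ∩ {q | hs q ≤ ρ}, ENNReal.ofReal (sp (q 2) * (1 - N q 2 ^ 2)) ∂μHE[2]
      = ∫⁻ q in L ∩ {q | hs q ≤ ρ}, ENNReal.ofReal (Real.pi ^ 2 * (c - F ρ) ^ 3) *
          ENNReal.ofReal (sp (q 2) * (1 - N q 2 ^ 2)) ∂μHE[2] :=
        (lintegral_const_mul' _ _ ENNReal.ofReal_ne_top).symm
    _ ≤ ∫⁻ q in L ∩ {q | hs q ≤ ρ}, ENNReal.ofReal (Real.pi ^ 2 * (b q * (sp (q 2) * (1 - N q 2 ^ 2)))) ∂μHE[2] := by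
        apply setLIntegral_mono' hm
        intro q hq
        rw [← ENNReal.ofReal_mul (by positivity)]
        apply ENNReal.ofReal_le_ofReal
        have h1 : c - F ρ ≤ max (GA c q) 0 := by
          refine le_trans ?_ (le_max_left _ _)
          unfold GA
          have h2 := F_facts.2.1 (hs q) ρ (by unfold hs; positivity) hq.2
          nlinarith [sq_nonneg (q 2)]
        have h3 : (c - F ρ) ^ 3 ≤ b q := by
          rw [hbv q (hsl q hq.1).1 (hsl q hq.1).2]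
          exact pow_le_pow_left₀ hcρ h1 3
        have h4 := mul_le_mul_of_nonneg_right h3 (mul_nonneg (hsp0 q hq.1) (hN q hq.1))
        have h5 := mul_le_mul_of_nonneg_left h4 (show 0 ≤ Real.pi ^ 2 by positivity)
        linarith
    _ ≤ ∫⁻ q in L, ENNReal.ofReal (Real.pi ^ 2 * (b q * (sp (q 2) * (1 - N q 2 ^ 2)))) ∂μHE[2] :=
        lintegral_mono_set inter_subset_left

/-- PIECE [SH-5d] (this file, about 200 lines). PROOF. `ψ z = sin (π z)`, `ψ1 = π cos (π z)`, `ψ2 = - π ^ 2 sin (π z)`; `ψ ≤ 2 π z (1 - z)` on `[0, 1]`. For `c ≥ 0` take `b, Y` of `slab_test`. On `L` (`‖N‖ = 1`, from `exists_patch` and `norm_nrm`)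
`itg = ψ trN (fderiv Y) N + π ^ 2 ψ b (1 - N_3 ^ 2)`, so `π ^ 2 ψ b (1 - N_3 ^ 2) ≤ itg + 12 (c + 1) ^ 2 ψ [hs ≤ 3]`. Take `∫⁻ ENNReal.ofReal` over `L` (no measurability of `N` needed: monotonicity of `∫⁻`; the right side is integrable, nonnegative):
`∫⁻ ofReal (π ^ 2 ψ b (1 - N_3 ^ 2)) ≤ ofReal (0 + 12 (c + 1) ^ 2 J)`, `J = ∫_{L, hs ≤ 3} ψ` (`lam_green`). On `hs q ≤ ρ` `b q ≥ (c - F ρ) ^ 3` for `c ≥ F ρ`. So `(c - F ρ) ^ 3 ∫⁻_{L, hs ≤ ρ} ofReal (ψ (1 - N_3 ^ 2)) ≤ 12 (c + 1) ^ 2 J / π ^ 2` for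
all large `c`: the integral is `0`. -/
theorem slab_energy {L : Set E3} {N : E3 → E3} (hL : IsMinLam L N) (hsl : ∀ q ∈ L, 0 ≤ q 2 ∧ q 2 ≤ 1)
    (hint : ∀ R : ℝ, ∫⁻ q in L ∩ {q | hs q < R}, ENNReal.ofReal (q 2 * (1 - q 2)) ∂μHE[2] < ⊤) (R : ℝ) :
    ∫⁻ q in L ∩ ball 0 R, ENNReal.ofReal (Real.sin (Real.pi * q 2) * (1 - N q 2 ^ 2)) ∂μHE[2] = 0 := by
  set A := ∫⁻ q in L ∩ {q | hs q ≤ R ^ 2}, ENNReal.ofReal (sp (q 2) * (1 - N q 2 ^ 2)) ∂μHE[2] with hA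
  have hle : ∫⁻ q in L ∩ ball 0 R, ENNReal.ofReal (Real.sin (Real.pi * q 2) * (1 - N q 2 ^ 2)) ∂μHE[2] ≤ A := by
    refine lintegral_mono_set ?_
    intro q hq
    refine ⟨hq.1, ?_⟩
    have h1 : ‖q‖ < R := mem_ball_zero_iff.mp hq.2
    exact (hs_le q).trans (pow_le_pow_left₀ (norm_nonneg q) h1.le 2)
  have hA0 : A = 0 := by
    by_contra hne
    obtain ⟨a, ha0, haA⟩ : ∃ a : ℝ, 0 < a ∧ ENNReal.ofReal a ≤ A := by
      rcases eq_or_ne A ⊤ with h | h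
      · exact ⟨1, one_pos, by rw [h]; exact le_top⟩
      · exact ⟨A.toReal, ENNReal.toReal_pos hne h, by rw [ENNReal.ofReal_toReal h]⟩
    set J := ∫ q in L, {q : E3 | hs q ≤ 3}.indicator (fun q => sp (q 2)) q ∂μHE[2] with hJ
    have hJ0 : 0 ≤ J := by
      rw [hJ]
      refine setIntegral_nonneg hL.closed.measurableSet fun q hq => ?_
      by_cases h : q ∈ {q : E3 | hs q ≤ 3}
      · rw [indicator_of_mem h]
        exact sp_nonneg (hsl q hq).1 (hsl q hq).2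
      · rw [indicator_of_notMem h]
    set f0 := F (R ^ 2) with hf0
    have hf0' : 0 ≤ f0 := F_facts.1 _ (sq_nonneg R)
    have hpi := Real.pi_pos
    set m := f0 + 1 + 48 * J / (Real.pi ^ 2 * a) with hm
    have hm1 : f0 + 1 ≤ m := by
      rw [hm]
      have : 0 ≤ 48 * J / (Real.pi ^ 2 * a) := by positivity
      linarith
    have h1 := energy_bound hL hsl hint (c := m + f0) (ρ := R ^ 2) (by linarith) (by linarith)
    rw [← hA, ← hJ, ← hf0] at h1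
    have h2 : ENNReal.ofReal (Real.pi ^ 2 * (m + f0 - f0) ^ 3 * a) ≤ ENNReal.ofReal (12 * (m + f0 + 1) ^ 2 * J) := by
      refine le_trans ?_ h1
      rw [ENNReal.ofReal_mul (by rw [add_sub_cancel_right]; positivity)]
      exact mul_le_mul_right haA _
    rw [ENNReal.ofReal_le_ofReal_iff (by positivity), add_sub_cancel_right] at h2
    have hm0 : 0 < m := by linarith
    have h3 : (m + f0 + 1) ^ 2 ≤ (2 * m) ^ 2 := pow_le_pow_left₀ (by linarith) (by linarith) 2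
    have h4 : 12 * (m + f0 + 1) ^ 2 * J ≤ 48 * m ^ 2 * J := by nlinarith
    have h5 : Real.pi ^ 2 * a * m ^ 3 ≤ 48 * J * m ^ 2 := by linarith
    have h6 : Real.pi ^ 2 * a * m ≤ 48 * J := by
      have h7 : (Real.pi ^ 2 * a * m) * m ^ 2 ≤ (48 * J) * m ^ 2 := by nlinarith
      exact le_of_mul_le_mul_right h7 (by positivity)
    have h8 : Real.pi ^ 2 * a * m = Real.pi ^ 2 * a * (f0 + 1) + 48 * J := by
      rw [hm]
      field_simp
    have h9 : 0 < Real.pi ^ 2 * a * (f0 + 1) := by positivity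
    linarith
  rw [hA0] at hle
  exact le_antisymm hle bot_le

/-- `vertical_of_energy`, `planes_of_vertical` -/
theorem slab_planes {L : Set E3} {N : E3 → E3} (hL : IsMinLam L N) (hsl : ∀ q ∈ L, 0 ≤ q 2 ∧ q 2 ≤ 1)
    (hint : ∀ R : ℝ, ∫⁻ q in L ∩ {q | hs q < R}, ENNReal.ofReal (q 2 * (1 - q 2)) ∂μHE[2] < ⊤) :
    ∃ C : Set ℝ, IsClosed C ∧ L = {q : E3 | q 2 ∈ C} := by
  apply planes_of_vertical hL
  intro q hq
  obtain ⟨h0, h1⟩ := hsl q hq
  rcases h0.eq_or_lt with h2 | h2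
  · right
    left
    intro q' hq'
    rw [← h2]
    exact (hsl q' hq').1
  rcases h1.eq_or_lt with h3 | h3
  · right
    right
    intro q' hq'
    rw [h3]
    exact (hsl q' hq').2
  · left
    exact vertical_of_energy hL sp_cont (fun q hq => sp_nonneg (hsl q hq).1 (hsl q hq).2)
      (fun R => slab_energy hL hsl hint R) hq (sp_pos h2 h3)

end Pool.Agent.ML
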