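import Pool.Agent.Lib_MP_7d1493.Area2
import Pool.Agent.Lib_MP_7d1493.Patch3
import Pool.Agent.Lib_MP_7d1493.Part

/-!
# The first variation of a minimal surface
-/

set_option autoImplicit false

open MeasureTheory Measure Set Metric Filter Topology
open scoped ENNReal InnerProductSpace ContDiff

namespace Pool.Agent.ML

/-- PIECE [SH-3a] (this file, about 150 lines). A set which is closed in an open set is measurable. -/
theorem measurableSet_surf {U S : Set E3} {N : E3 → E3} (hU : IsOpen U) (hS : IsMinSurf U S N) : MeasurableSet S := by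
  obtain ⟨F, hF, rfl⟩ := hS.closed
  exact hF.measurableSet.inter hU.measurableSet

/-- a nonempty relatively open subset of a minimal surface has positive area: `area_pos` in a patch -/
theorem surf_area_pos {U S V : Set E3} {N : E3 → E3} (hS : IsMinSurf U S N) (hV : IsOpen V) {q : E3} (hq : q ∈ S) (hqV : q ∈ V) :
    0 < μHE[2] (S ∩ V) := by
  obtain ⟨e, r, u, hr, hu, hm, -, hg, -⟩ := hS.patch q hq
  have him := patch_image q e (fun y hy => (hm y hy).1) hg
  have hqG : q ∈ gr q e u '' ball (0 : E2) r := by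
    rw [← him]
    exact ⟨hq, mem_cyl_self q e hr⟩
  obtain ⟨y, hy, hyq⟩ := hqG
  have hu1 : ContDiffOn ℝ 1 u (ball (0 : E2) r) := hu.of_le (by norm_cast)
  have h := area_pos q e hu1 hV hy (by rw [hyq]; exact hqV)
  refine h.trans_le (measure_mono ?_)
  rw [← him]
  exact fun z hz => ⟨hz.1.1, hz.2⟩

private theorem fderiv_zero_off {X : E3 → E3} {q : E3} (h : q ∉ tsupport X) : fderiv ℝ X q = 0 :=
  image_eq_zero_of_notMem_tsupport (fun h' => h (tsupport_fderiv_subset ℝ h'))

private theorem trN_sum {n : ℕ} (A : Fin n → E3 →L[ℝ] E3) (v : E3) : trN (∑ k, A k) v = ∑ k, trN (A k) v := by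
  induction n with
  | zero => simp [trN_zero]
  | succ n ih => rw [Fin.sum_univ_succ, Fin.sum_univ_succ, trN_add, ih]

private theorem first_variation_off {S : Set E3} {N : E3 → E3} (hSm : MeasurableSet S) {X : E3 → E3}
    (hs : ∀ q ∈ S, q ∉ tsupport X) :
    IntegrableOn (fun q => trN (fderiv ℝ X q) (N q)) S μHE[2] ∧ ∫ q in S, trN (fderiv ℝ X q) (N q) ∂μHE[2] = 0 := by
  have h0 : ∀ q ∈ S, trN (fderiv ℝ X q) (N q) = 0 := by
    intro q hq
    rw [fderiv_zero_off (hs q hq), trN_zero]
  constructor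
  · exact (integrableOn_zero (ε' := ℝ)).congr_fun (fun q hq => (h0 q hq).symm) hSm
  · exact setIntegral_eq_zero_of_forall_eq_zero h0

private theorem first_variation_cyl {S : Set E3} {N : E3 → E3} (hSm : MeasurableSet S) {p : E3} {e : OrthonormalBasis (Fin 3) ℝ E3}
    {r : ℝ} {u : E2 → ℝ} (hr : 0 < r) (hu : ContDiffOn ℝ ∞ u (ball (0 : E2) r))
    (hm : ∀ y ∈ ball (0 : E2) r, |u y| < r ∧ MSE u y)
    (hg : ∀ q ∈ cyl p e r, q ∈ S ↔ ht p e q = u (co p e q))
    (hN : ∀ q ∈ S ∩ cyl p e r, N q = nrm e u (co p e q) ∨ N q = -nrm e u (co p e q)) {X : E3 → E3}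
    (hX : ContDiff ℝ 1 X) (hc : HasCompactSupport X) (hs : tsupport X ⊆ cyl p e r) :
    IntegrableOn (fun q => trN (fderiv ℝ X q) (N q)) S μHE[2] ∧ ∫ q in S, trN (fderiv ℝ X q) (N q) ∂μHE[2] = 0 := by
  have him := patch_image p e (fun y hy => (hm y hy).1) hg
  have hu1 : ContDiffOn ℝ 1 u (ball (0 : E2) r) := hu.of_le (by norm_cast)
  have hoff : ∀ q ∈ S \ (S ∩ cyl p e r), trN (fderiv ℝ X q) (N q) = 0 := by
    intro q hq
    have : q ∉ tsupport X := fun h => hq.2 ⟨hq.1, hs h⟩
    rw [fderiv_zero_off this, trN_zero]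
  have hval : ∀ y ∈ ball (0 : E2) r, W u y * trN (fderiv ℝ X (gr p e u y)) (nrm e u y) =
      W u y * trN (fderiv ℝ X (gr p e u y)) (N (gr p e u y)) := by
    intro y hy
    have hG : gr p e u y ∈ S ∩ cyl p e r := by
      rw [him]
      exact ⟨y, hy, rfl⟩
    have hco : co p e (gr p e u y) = y := by
      unfold gr
      rw [co_pt]
    rcases hN _ hG with h | h
    · rw [h, hco]
    · rw [h, hco, trN_neg]
  obtain ⟨h1, h2⟩ := patch_first_variation p e hr hu hm hX hc hs
  obtain ⟨h3, h4⟩ := area_integral p e hu1 (fun q => trN (fderiv ℝ X q) (N q))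
  have h5 := h3 (h1.congr_fun hval measurableSet_ball)
  rw [← him] at h5 h4
  constructor
  · exact h5.of_forall_sdiff_eq_zero hSm hoff
  · rw [setIntegral_eq_of_subset_of_forall_sdiff_eq_zero hSm inter_subset_left hoff, h4,
      ← setIntegral_congr_fun measurableSet_ball hval, h2]

/-- PROOF. If `tsupport X` is in the cylinder of a patch of `S`: outside the cylinder `fderiv ℝ X = 0`, in the cylinder `S` is a graph (`patch_image`), `trN` is the same for
`N` and `- N` (`trN_neg`); `area_integral`, `patch_first_variation`. If `tsupport X` does not meet `S`: the integrand vanishes on `S`. In general `S = F ∩ U`; cover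
`tsupport X` by `Fᶜ` and the cylinders of the patches (`isOpen_cyl`, `mem_cyl_self`), take `χ k` as in `exists_partition`: `X = ∑ k, χ k • X` (outside `tsupport X` both
sides vanish), `fderiv ℝ X = ∑ k, fderiv ℝ (χ k • X)`, `trN_add`. -/
theorem first_variation {U S : Set E3} {N : E3 → E3} (hU : IsOpen U) (hS : IsMinSurf U S N) {X : E3 → E3}
    (hX : ContDiff ℝ 1 X) (hc : HasCompactSupport X) (hs : tsupport X ⊆ U) :
    IntegrableOn (fun q => trN (fderiv ℝ X q) (N q)) S μHE[2] ∧ ∫ q in S, trN (fderiv ℝ X q) (N q) ∂μHE[2] = 0 := by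
  have hSm := measurableSet_surf hU hS
  obtain ⟨F, hF, hSF⟩ := hS.closed
  have hpatch : ∀ p : S, IsMinPatch U S N p := fun p => hS.patch p p.2
  choose e r u hr hu hm hcU hg hN using hpatch
  obtain ⟨V, hVn, hVs⟩ : ∃ V : Option S → Set E3, V none = Fᶜ ∧ ∀ p : S, V (some p) = cyl p (e p) (r p) :=
    ⟨fun o => Option.elim o Fᶜ (fun p => cyl p (e p) (r p)), rfl, fun p => rfl⟩
  have hV : ∀ i, IsOpen (V i) := by
    intro i
    cases i with
    | none => rw [hVn]; exact hF.isOpen_compl
    | some p => rw [hVs]; exact isOpen_cyl _ _ _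
  have hK : IsCompact (tsupport X) := hc
  have hKV : tsupport X ⊆ ⋃ i, V i := by
    intro q hq
    rw [mem_iUnion]
    by_cases hqF : q ∈ F
    · have hqS : q ∈ S := by
        rw [hSF]
        exact ⟨hqF, hs hq⟩
      refine ⟨some ⟨q, hqS⟩, ?_⟩
      rw [hVs]
      exact mem_cyl_self _ _ (hr ⟨q, hqS⟩)
    · refine ⟨none, ?_⟩
      rw [hVn]
      exact hqF
  obtain ⟨n, j, χ, hχ, hχV, hχ1⟩ := exists_partition hK V hV hKV
  have hXk : ∀ k, ContDiff ℝ 1 (fun q => χ k q • X q) := by
    intro k
    exact ((hχ k).of_le (by norm_cast)).smul hX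
  have hXsum : X = fun q => ∑ k, χ k q • X q := by
    funext q
    rw [← Finset.sum_smul]
    by_cases hq : q ∈ tsupport X
    · rw [hχ1 q hq, one_smul]
    · rw [image_eq_zero_of_notMem_tsupport hq, smul_zero]
  have hd : ∀ q, fderiv ℝ X q = ∑ k, fderiv ℝ (fun q => χ k q • X q) q := by
    intro q
    conv_lhs => rw [hXsum]
    exact fderiv_fun_sum (fun k _ => ((hXk k).differentiable (by norm_num)) q)
  have hf : (fun q => trN (fderiv ℝ X q) (N q)) = fun q => ∑ k, trN (fderiv ℝ (fun q => χ k q • X q) q) (N q) := by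
    funext q
    rw [hd q, trN_sum]
  have hk : ∀ k, IntegrableOn (fun q => trN (fderiv ℝ (fun q => χ k q • X q) q) (N q)) S μHE[2] ∧
      ∫ q in S, trN (fderiv ℝ (fun q => χ k q • X q) q) (N q) ∂μHE[2] = 0 := by
    intro k
    have hsub : tsupport (fun q => χ k q • X q) ⊆ V (j k) :=
      (tsupport_smul_subset_left (χ k) X).trans (hχV k)
    have hck : HasCompactSupport (fun q => χ k q • X q) :=
      HasCompactSupport.smul_left (f := χ k) (f' := X) hc
    cases hj : j k with
    | none =>
      rw [hj, hVn] at hsub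
      refine first_variation_off hSm (fun q hq h => ?_)
      have h1 : q ∈ F := by
        rw [hSF] at hq
        exact hq.1
      exact hsub h h1
    | some p =>
      rw [hj, hVs] at hsub
      exact first_variation_cyl hSm (hr p) (hu p) (hm p) (hg p) (hN p) (hXk k) hck hsub
  rw [hf]
  constructor
  · exact integrable_finsetSum _ (fun k _ => (hk k).1)
  · rw [integral_finsetSum _ (fun k _ => (hk k).1)]
    exact Finset.sum_eq_zero (fun k _ => (hk k).2)

end Pool.Agent.ML
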